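import Pool.Agent.ZOL.AvM

/-!
# CE: the child error bound
-/

set_option autoImplicit false

open Finset Filter Topology

namespace ZOL

namespace CE

/-! ### injective tuples -/

theorem tuple_sum {V : Type} [Fintype V] [DecidableEq V] (y : V → ℝ) (h0 : ∀ x, 0 ≤ y x)
    (h1 : ∀ x, y x ≤ 1) (s : ℕ) : ∀ F : Finset V, (F.card : ℝ) + s ≤ ∑ x, y x →
    1 ≤ ∑ w : Fin s → V, ind (Function.Injective w ∧ ∀ i, w i ∉ F) * ∏ i, y (w i) := by
  induction s with
  | zero =>
    intro F _
    rw [Fintype.sum_unique]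
    rw [ind_true' ⟨fun i => Fin.elim0 i, fun i => Fin.elim0 i⟩]
    simp
  | succ s ih =>
    intro F hF
    push_cast at hF
    -- split off the first coordinate
    have e1 : ∑ w : Fin (s + 1) → V, ind (Function.Injective w ∧ ∀ i, w i ∉ F) * ∏ i, y (w i) =
        ∑ x : V, ∑ w : Fin s → V, ind (Function.Injective (Fin.cons x w : Fin (s + 1) → V) ∧
          ∀ i, (Fin.cons x w : Fin (s + 1) → V) i ∉ F) * (y x * ∏ i, y (w i)) := by
      rw [← (Fin.consEquiv (fun _ : Fin (s + 1) => V)).sum_comp, Fintype.sum_prod_type]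
      refine sum_congr rfl fun x _ => sum_congr rfl fun w _ => ?_
      rw [Fin.prod_univ_succ]
      simp [Fin.consEquiv]
    rw [e1]
    have e2 : ∀ x : V, ind (x ∉ F) * y x ≤
        ∑ w : Fin s → V, ind (Function.Injective (Fin.cons x w : Fin (s + 1) → V) ∧
          ∀ i, (Fin.cons x w : Fin (s + 1) → V) i ∉ F) * (y x * ∏ i, y (w i)) := by
      intro x
      by_cases hx : x ∈ F
      · rw [ind_false' (not_not.2 hx), zero_mul]
        exact sum_nonneg fun w _ => mul_nonneg (ind_nonneg _)
          (mul_nonneg (h0 x) (prod_nonneg fun i _ => h0 _))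
      · rw [ind_true' hx, one_mul]
        have h2 := ih (insert x F) (by
          have : ((insert x F).card : ℝ) ≤ F.card + 1 := by exact_mod_cast card_insert_le x F
          linarith)
        calc y x ≤ y x * ∑ w : Fin s → V,
              ind (Function.Injective w ∧ ∀ i, w i ∉ insert x F) * ∏ i, y (w i) := by
              have := h0 x
              nlinarith
          _ ≤ _ := by
              rw [mul_sum]
              refine sum_le_sum fun w _ => ?_
              have h3 : ind (Function.Injective w ∧ ∀ i, w i ∉ insert x F) ≤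
                  ind (Function.Injective (Fin.cons x w : Fin (s + 1) → V) ∧
                    ∀ i, (Fin.cons x w : Fin (s + 1) → V) i ∉ F) := by
                refine ind_mono fun ⟨ha, hb⟩ => ⟨?_, fun i => ?_⟩
                · rw [Fin.cons_injective_iff]
                  refine ⟨?_, ha⟩
                  rintro ⟨i, hi⟩
                  exact hb i (by rw [hi]; exact mem_insert_self _ _)
                · refine Fin.cases ?_ (fun i => ?_) i
                  · rw [Fin.cons_zero]; exact hx
                  · rw [Fin.cons_succ]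
                    exact fun h => hb i (mem_insert_of_mem h)
              have h4 : 0 ≤ y x * ∏ i, y (w i) := mul_nonneg (h0 x) (prod_nonneg fun i _ => h0 _)
              calc y x * (ind (Function.Injective w ∧ ∀ i, w i ∉ insert x F) * ∏ i, y (w i)) =
                  ind (Function.Injective w ∧ ∀ i, w i ∉ insert x F) * (y x * ∏ i, y (w i)) := by
                    ring
                _ ≤ _ := mul_le_mul_of_nonneg_right h3 h4
    refine le_trans ?_ (sum_le_sum fun x _ => e2 x)
    -- the sum over the allowed vertices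
    have e3 : ∑ x, y x ≤ ∑ x, (ind (x ∉ F) * y x + ind (x ∈ F)) := by
      refine sum_le_sum fun x _ => ?_
      by_cases hx : x ∈ F
      · rw [ind_true' hx, ind_false' (not_not.2 hx)]
        linarith [h1 x]
      · rw [ind_false' hx, ind_true' hx]
        linarith
    have e4 : ∑ x, ind (x ∈ F) = (F.card : ℝ) := by
      rw [show (∑ x, ind (x ∈ F)) = ∑ x, if x ∈ F then (1 : ℝ) else 0 from
        sum_congr rfl fun x _ => by by_cases h : x ∈ F <;> simp [ind, h]]
      simp
    rw [sum_add_distrib, e4] at e3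
    have hs : (0 : ℝ) ≤ s := Nat.cast_nonneg _
    linarith

/-! ### sensitivity -/

section sens
variable {κ ι V β : Type} [DecidableEq ι] [DecidableEq V] [DecidableEq κ]

theorem sens_imp {t : St κ V → Bool} {g : St κ ι} {I : Finset ι} {M : St κ (V ⊕ ι)} {a : ι → V}
    {ρ : ι × κ × Bool} {x : V} (h : Sens t g I M a (rb ρ x)) : ρ.1 ∈ I ∧ ∀ k ∈ I, x ≠ a k := by
  by_contra hcon
  apply h
  congr 1
  funext p
  show ovr g (flipS {rb ρ x} M) (ctx a I p.1, ctx a I p.2.1, p.2.2) =
    ovr g M (ctx a I p.1, ctx a I p.2.1, p.2.2)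
  have hne : (ctx a I p.1, ctx a I p.2.1, p.2.2) ≠ rb ρ x := by
    intro he
    apply hcon
    have hinr : ∀ (z : V) (k : ι), ctx a I z = Sum.inr k → k ∈ I := by
      intro z k hz
      rcases ctx_spec a I z with ⟨k', hk', _, hz'⟩ | ⟨_, hz'⟩
      · rw [hz'] at hz
        exact (Sum.inr.inj hz) ▸ hk'
      · rw [hz'] at hz
        exact absurd hz (by simp)
    have hinl : ∀ (z x : V), ctx a I z = Sum.inl x → ∀ k ∈ I, x ≠ a k := by
      intro z x hz
      rcases ctx_spec a I z with ⟨k', hk', _, hz'⟩ | ⟨hn, hz'⟩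
      · rw [hz'] at hz
        exact absurd hz (by simp)
      · rw [hz'] at hz
        intro k hk h
        exact hn k hk (by rw [← h]; exact (Sum.inl.inj hz).symm)
    unfold rb at he
    split_ifs at he
    · exact ⟨hinr p.1 _ (Prod.mk.inj he).1, hinl p.2.1 x (Prod.mk.inj (Prod.mk.inj he).2).1⟩
    · exact ⟨hinr p.2.1 _ (Prod.mk.inj (Prod.mk.inj he).2).1, hinl p.1 x (Prod.mk.inj he).1⟩
  rcases hp1 : ctx a I p.1 with x1 | k1
  · rw [hp1] at hne
    rw [ovr_inl_left, ovr_inl_left, flipS_apply, if_neg (by rw [mem_singleton]; exact hne)]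
  · rcases hp2 : ctx a I p.2.1 with x2 | k2
    · rw [hp1, hp2] at hne
      rw [ovr_inl_right, ovr_inl_right, flipS_apply, if_neg (by rw [mem_singleton]; exact hne)]
    · rfl

end sens

/-! ### more base marks -/

section marks
variable {κ ι V β : Type} [Fintype κ] [DecidableEq κ] [Fintype V] [DecidableEq V] [Fintype ι]
  [DecidableEq ι] [Fintype β] [DecidableEq β]

theorem avM_base_marks [Nonempty V] (s : ℕ)
    (F : St κ (V ⊕ ι) → (ι → V) → (β → V) → (Fin s → V) → ℝ) :
    ∑ w, avM (fun M a v => F M a v w) =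
      (Fintype.card V : ℝ) ^ s * avM (β := β ⊕ Fin s)
        (fun M a v => F M a (fun b => v (Sum.inl b)) (fun i => v (Sum.inr i))) := by
  have h1 : avM (β := β ⊕ Fin s)
      (fun M a v => F M a (fun b => v (Sum.inl b)) (fun i => v (Sum.inr i))) =
      av (fun q : (St κ (V ⊕ ι) × (ι → V) × (β → V)) × (Fin s → V) =>
        F q.1.1 q.1.2.1 q.1.2.2 q.2) := by
    unfold avM
    let E : (St κ (V ⊕ ι) × (ι → V) × ((β ⊕ Fin s) → V)) ≃
        (St κ (V ⊕ ι) × (ι → V) × (β → V)) × (Fin s → V) :=
      { toFun := fun p => ((p.1, p.2.1, fun b => p.2.2 (Sum.inl b)), fun i => p.2.2 (Sum.inr i))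
        invFun := fun q => (q.1.1, q.1.2.1, Sum.elim q.1.2.2 q.2)
        left_inv := by
          rintro ⟨M, a, v⟩
          simp only [Prod.mk.injEq, true_and]
          funext b
          rcases b with b | b <;> rfl
        right_inv := by
          rintro ⟨⟨M, a, v⟩, x⟩
          rfl }
    exact av_equiv E (fun q : (St κ (V ⊕ ι) × (ι → V) × (β → V)) × (Fin s → V) =>
      F q.1.1 q.1.2.1 q.1.2.2 q.2)
  rw [h1, av_prod (fun q : (St κ (V ⊕ ι) × (ι → V) × (β → V)) × (Fin s → V) =>
    F q.1.1 q.1.2.1 q.1.2.2 q.2), av_comm]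
  have h2 : ((Fintype.card V : ℝ)) ^ s = (Fintype.card (Fin s → V) : ℝ) := by
    rw [Fintype.card_fun, Fintype.card_fin]; push_cast; rfl
  rw [h2, ← sum_eq_card_mul_av]
  rfl

end marks

/-! ### the core estimate -/

section core
variable {κ ι β : Type} [Fintype κ] [DecidableEq κ] [Fintype ι]
  [DecidableEq ι] [Fintype β] [DecidableEq β] {n : ℕ}

/-- the row indices -/
abbrev Rr (κ : Type) [Fintype κ] {ι : Type} (W : Finset ι) : Finset (ι × κ × Bool) :=
  W ×ˢ (univ : Finset (κ × Bool))

theorem core (hn : 0 < n) (s : ℕ) (t : St κ (Fin n) → Bool) (g : St κ ι) (I W : Finset ι)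
    (Du : St κ (Fin n ⊕ ι) → (β → Fin n) → ℝ) (hsym : Sym Du)
    (h0 : ∀ M v, 0 ≤ Du M v) (h1 : ∀ M v, Du M v ≤ 1)
    (cc : (Fin n ⊕ ι) × (Fin n ⊕ ι) × κ → St κ (Fin n ⊕ ι) → (β → Fin n) → ℝ)
    (hc0 : ∀ i M v, 0 ≤ cc i M v) {Y0 : ℝ} (hY0 : 1 ≤ Y0)
    (hcY : ∀ i ∈ JW W, ∀ M v, cc i M v ≤ Y0 * Du M v)
    (hcs : ∀ (ρ : ι × κ × Bool) (x : Fin n) (π : Equiv.Perm (Fin n)) (M : St κ (Fin n ⊕ ι))
      (v : β → Fin n), cc (rb ρ x) (pull (Sum.map π id) M) v =
        cc (rb ρ (π x)) M (fun b => π (v b)))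
    {E δ : ℝ} (hE : 1 ≤ E) (hδ : 0 < δ)
    (hen : ∀ M v, ∑ i ∈ JW W, cc i M v ≤ E * Du M v + δ)
    {P Q : ℝ} (hP : 0 ≤ P) (hQ : 0 ≤ Q)
    (hEX : ∀ (ρ : Fin s → ι × κ × Bool), (∀ i, (ρ i).1 ∈ I) →
      ∀ (D : St κ (Fin n ⊕ ι) → (β ⊕ Fin s → Fin n) → ℝ), Sym D →
        (∀ M v, 0 ≤ D M v ∧ D M v ≤ 1) →
      avM (fun M a v => D M v * ind (Ev t g I ρ M a v)) ≤ P * avM (fun M _ v => D M v) + Q) :
    avM (fun M a v => Du M v * ind (Set.InjOn a (↑I : Set ι) ∧
      ((Rr κ W).card : ℝ) * Y0 * ((Fintype.card β : ℝ) + s) * Du M v <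
        ∑ i ∈ JW W, ind (Sens t g I M a i) * cc i M v)) ≤
    δ + ((Rr κ W).card : ℝ) ^ s * (P * (2 * E) ^ s + (n : ℝ) ^ s * Q) := by
  classical
  have hne : Nonempty (Fin n) := ⟨⟨0, hn⟩⟩
  set R := Rr κ W with hR
  set r : ℝ := (R.card : ℝ) with hr
  have hr0 : 0 ≤ r := Nat.cast_nonneg _
  set Y := r * Y0 with hY
  -- normalised coefficients
  set q : (Fin n ⊕ ι) × (Fin n ⊕ ι) × κ → St κ (Fin n ⊕ ι) → (β → Fin n) → ℝ :=
    fun i M v => cc i M v / (Y * Du M v) with hq
  have hY00 : 0 ≤ Y := mul_nonneg hr0 (by linarith)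
  have hq0 : ∀ i M v, 0 ≤ q i M v := fun i M v =>
    div_nonneg (hc0 i M v) (mul_nonneg hY00 (h0 M v))
  -- the density
  set Ds : (Fin s → ι × κ × Bool) → St κ (Fin n ⊕ ι) → (β → Fin n) → (Fin s → Fin n) → ℝ :=
    fun ρ M v w => Du M v * ind (δ ≤ Du M v) * ∏ i, q (rb (ρ i) (w i)) M v with hDs
  rcases eq_or_ne R.card 0 with hRc | hRc
  · -- trivial case
    have hRe : R = ∅ := card_eq_zero.1 hRc
    have hz : ∀ (M : St κ (Fin n ⊕ ι)) (a : ι → Fin n) (v : β → Fin n),
        Du M v * ind (Set.InjOn a (↑I : Set ι) ∧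
        Y * ((Fintype.card β : ℝ) + s) * Du M v <
          ∑ i ∈ JW W, ind (Sens t g I M a i) * cc i M v) = 0 := by
      intro M a v
      rw [ind_false', mul_zero]
      rintro ⟨_, h⟩
      rw [sum_JW] at h
      have hRe' : W ×ˢ (univ : Finset (κ × Bool)) = ∅ := hRe
      rw [hRe', sum_empty] at h
      have : 0 ≤ Y * ((Fintype.card β : ℝ) + s) * Du M v :=
        mul_nonneg (mul_nonneg hY00 (by positivity)) (h0 M v)
      linarith
    rw [avM_congr hz]
    have : avM (fun (_ : St κ (Fin n ⊕ ι)) (_ : ι → Fin n) (_ : β → Fin n) => (0 : ℝ)) = 0 :=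
      av_zero
    rw [this]
    positivity
  have hr1 : 1 ≤ r := by
    rw [hr]; exact_mod_cast Nat.one_le_iff_ne_zero.2 hRc
  have hY1 : 1 ≤ Y := by nlinarith
  have hYpos : 0 < Y := by linarith
  have hq1 : ∀ i ∈ JW W, ∀ M v, q i M v ≤ 1 / r := by
    intro i hi M v
    rcases (h0 M v).eq_or_lt with hd | hd
    · rw [hq]
      simp only
      rw [← hd, mul_zero, div_zero]
      positivity
    · rw [hq]
      simp only
      rw [div_le_div_iff₀ (by positivity) (by linarith), hY]
      have := hcY i hi M v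
      nlinarith
  have hrb : ∀ ρ ∈ R, ∀ x : Fin n, rb ρ x ∈ JW (κ := κ) (V := Fin n) W := by
    intro ρ hρ x
    exact rb_mem_JW (mem_product.1 hρ).1 x
  -- pointwise inequality
  have hpt : ∀ (M : St κ (Fin n ⊕ ι)) (a : ι → Fin n) (v : β → Fin n),
      Du M v * ind (Set.InjOn a (↑I : Set ι) ∧
        Y * ((Fintype.card β : ℝ) + s) * Du M v <
          ∑ i ∈ JW W, ind (Sens t g I M a i) * cc i M v) ≤
      δ + ∑ ρ ∈ Fintype.piFinset (fun _ : Fin s => R), ∑ w : Fin s → Fin n,
        Ds ρ M v w * ind (Ev t g I ρ M a (Sum.elim v w)) := by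
    intro M a v
    have hsum0 : 0 ≤ ∑ ρ ∈ Fintype.piFinset (fun _ : Fin s => R), ∑ w : Fin s → Fin n,
        Ds ρ M v w * ind (Ev t g I ρ M a (Sum.elim v w)) :=
      sum_nonneg fun ρ _ => sum_nonneg fun w _ => mul_nonneg
        (mul_nonneg (mul_nonneg (h0 M v) (ind_nonneg _)) (prod_nonneg fun i _ => hq0 _ _ _))
        (ind_nonneg _)
    by_cases hev : Set.InjOn a (↑I : Set ι) ∧
        Y * ((Fintype.card β : ℝ) + s) * Du M v <
          ∑ i ∈ JW W, ind (Sens t g I M a i) * cc i M v
    · rw [ind_true' hev, mul_one]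
      by_cases hd : δ ≤ Du M v
      · obtain ⟨hinj, hlt⟩ := hev
        have hdpos : 0 < Du M v := by linarith
        -- the vertex weights
        set y : Fin n → ℝ := fun x => ∑ ρ ∈ R, ind (Sens t g I M a (rb ρ x)) * q (rb ρ x) M v
          with hy
        have hy0 : ∀ x, 0 ≤ y x := fun x => sum_nonneg fun ρ _ =>
          mul_nonneg (ind_nonneg _) (hq0 _ _ _)
        have hy1 : ∀ x, y x ≤ 1 := by
          intro x
          calc y x ≤ ∑ ρ ∈ R, 1 * (1 / r) := by
                refine sum_le_sum fun ρ hρ => ?_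
                exact mul_le_mul (ind_le_one _) (hq1 _ (hrb ρ hρ x) _ _) (hq0 _ _ _) zero_le_one
            _ = 1 := by
                rw [sum_const, nsmul_eq_mul, one_mul, ← hr]
                field_simp
        have hysum : ((Fintype.card β : ℝ) + s) ≤ ∑ x, y x := by
          have e : ∑ x, y x = (∑ i ∈ JW W, ind (Sens t g I M a i) * cc i M v) / (Y * Du M v) := by
            rw [sum_JW, hy, sum_comm, sum_div]
            refine sum_congr rfl fun ρ _ => ?_
            rw [sum_div]
            refine sum_congr rfl fun x _ => ?_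
            rw [hq]
            ring
          rw [e, le_div_iff₀ (by positivity)]
          linarith
        have hF : ((univ.image v).card : ℝ) + s ≤ ∑ x, y x := by
          have : ((univ.image v).card : ℝ) ≤ Fintype.card β := by
            exact_mod_cast card_image_le.trans (by rw [card_univ])
          linarith
        have htup := tuple_sum y hy0 hy1 s (univ.image v) hF
        have hmain : Du M v ≤ ∑ ρ ∈ Fintype.piFinset (fun _ : Fin s => R), ∑ w : Fin s → Fin n,
            Ds ρ M v w * ind (Ev t g I ρ M a (Sum.elim v w)) := by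
          calc Du M v ≤ Du M v * ∑ w : Fin s → Fin n,
                ind (Function.Injective w ∧ ∀ i, w i ∉ univ.image v) * ∏ i, y (w i) := by
                nlinarith
            _ = ∑ w : Fin s → Fin n, ∑ ρ ∈ Fintype.piFinset (fun _ : Fin s => R),
                Du M v * (ind (Function.Injective w ∧ ∀ i, w i ∉ univ.image v) *
                  ∏ i, (ind (Sens t g I M a (rb (ρ i) (w i))) * q (rb (ρ i) (w i)) M v)) := by
                rw [mul_sum]
                refine sum_congr rfl fun w _ => ?_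
                rw [hy, prod_univ_sum, mul_sum, mul_sum]
            _ ≤ ∑ w : Fin s → Fin n, ∑ ρ ∈ Fintype.piFinset (fun _ : Fin s => R),
                Ds ρ M v w * ind (Ev t g I ρ M a (Sum.elim v w)) := by
                refine sum_le_sum fun w _ => sum_le_sum fun ρ _ => ?_
                rw [prod_mul_distrib, hDs]
                simp only
                rw [ind_true' hd, mul_one]
                have hprod0 : 0 ≤ ∏ i, q (rb (ρ i) (w i)) M v := prod_nonneg fun i _ => hq0 _ _ _
                by_cases hall : (Function.Injective w ∧ ∀ i, w i ∉ univ.image v) ∧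
                    ∀ i, Sens t g I M a (rb (ρ i) (w i))
                · have hEv : Ev t g I ρ M a (Sum.elim v w) := by
                    refine ⟨hinj, ?_, ?_, ?_, ?_⟩
                    · exact hall.1.1
                    · intro i k hk
                      exact (sens_imp (hall.2 i)).2 k hk
                    · intro i b h
                      exact hall.1.2 i (mem_image.2 ⟨b, mem_univ _, h.symm⟩)
                    · exact hall.2
                  rw [ind_true' hEv, ind_true' hall.1]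
                  have : ∏ i, ind (Sens t g I M a (rb (ρ i) (w i))) = 1 := by
                    refine prod_eq_one fun i _ => ind_true' (hall.2 i)
                  rw [this]
                  linarith
                · have hz : ind (Function.Injective w ∧ ∀ i, w i ∉ univ.image v) *
                      ∏ i, ind (Sens t g I M a (rb (ρ i) (w i))) = 0 := by
                    by_cases hA : Function.Injective w ∧ ∀ i, w i ∉ univ.image v
                    · have : ¬ ∀ i, Sens t g I M a (rb (ρ i) (w i)) := fun h => hall ⟨hA, h⟩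
                      push Not at this
                      obtain ⟨i, hi⟩ := this
                      rw [prod_eq_zero (mem_univ i) (ind_false' hi), mul_zero]
                    · rw [ind_false' hA, zero_mul]
                  calc Du M v * (ind (Function.Injective w ∧ ∀ i, w i ∉ univ.image v) *
                      ((∏ i, ind (Sens t g I M a (rb (ρ i) (w i)))) *
                        ∏ i, q (rb (ρ i) (w i)) M v)) =
                      Du M v * ((ind (Function.Injective w ∧ ∀ i, w i ∉ univ.image v) *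
                      (∏ i, ind (Sens t g I M a (rb (ρ i) (w i))))) *
                        ∏ i, q (rb (ρ i) (w i)) M v) := by ring
                    _ = 0 := by rw [hz]; ring
                    _ ≤ _ := mul_nonneg (mul_nonneg (h0 M v) hprod0) (ind_nonneg _)
            _ = _ := sum_comm
        linarith
      · push Not at hd
        linarith
    · rw [ind_false' hev, mul_zero]
      linarith
  -- average
  refine (avM_mono hpt).trans ?_
  rw [avM_add]
  have hδav : avM (fun (_ : St κ (Fin n ⊕ ι)) (_ : ι → Fin n) (_ : β → Fin n) => δ) ≤ δ :=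
    avM_le_of_le hδ.le fun _ _ _ => le_rfl
  refine add_le_add hδav ?_
  rw [avM_sum]
  have hterm : ∀ ρ ∈ Fintype.piFinset (fun _ : Fin s => R),
      avM (fun (M : St κ (Fin n ⊕ ι)) (a : ι → Fin n) (v : β → Fin n) => ∑ w : Fin s → Fin n,
        Ds ρ M v w * ind (Ev t g I ρ M a (Sum.elim v w))) ≤ P * (2 * E) ^ s + (n : ℝ) ^ s * Q := by
    intro ρ hρ
    rw [Fintype.mem_piFinset] at hρ
    have hbd0 : 0 ≤ P * (2 * E) ^ s + (n : ℝ) ^ s * Q := by positivity
    by_cases hI : ∀ i, (ρ i).1 ∈ I
    · rw [avM_sum, avM_base_marks s (fun (M : St κ (Fin n ⊕ ι)) (a : ι → Fin n) (v : β → Fin n)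
        (w : Fin s → Fin n) => Ds ρ M v w * ind (Ev t g I ρ M a (Sum.elim v w))),
        Fintype.card_fin]
      set D' : St κ (Fin n ⊕ ι) → (β ⊕ Fin s → Fin n) → ℝ := fun M vw =>
        Ds ρ M (fun b => vw (Sum.inl b)) (fun i => vw (Sum.inr i)) with hD'
      have hD'01 : ∀ M vw, 0 ≤ D' M vw ∧ D' M vw ≤ 1 := by
        intro M vw
        refine ⟨mul_nonneg (mul_nonneg (h0 _ _) (ind_nonneg _)) (prod_nonneg fun i _ => hq0 _ _ _),
          ?_⟩
        have e1 : Du M (fun b => vw (Sum.inl b)) * ind (δ ≤ Du M (fun b => vw (Sum.inl b))) ≤ 1 := by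
          calc _ ≤ 1 * 1 := mul_le_mul (h1 _ _) (ind_le_one _) (ind_nonneg _) zero_le_one
            _ = 1 := one_mul _
        have e2 : ∏ i, q (rb (ρ i) (vw (Sum.inr i))) M (fun b => vw (Sum.inl b)) ≤ 1 := by
          refine prod_le_one (fun i _ => hq0 _ _ _) fun i _ => ?_
          refine (hq1 _ (hrb (ρ i) (hρ i) _) _ _).trans ?_
          rw [div_le_one (by linarith)]
          exact hr1
        calc D' M vw ≤ 1 * 1 := mul_le_mul e1 e2 (prod_nonneg fun i _ => hq0 _ _ _) zero_le_one
          _ = 1 := one_mul _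
      have hD'sym : Sym D' := by
        intro π M vw
        show Ds ρ (pull (Sum.map π id) M) _ _ = Ds ρ M _ _
        rw [hDs]
        simp only
        rw [hsym π M (fun b => vw (Sum.inl b))]
        congr 1
        refine prod_congr rfl fun i _ => ?_
        rw [hq]
        simp only
        rw [hcs, hsym π M (fun b => vw (Sum.inl b))]
      have hex := hEX ρ hI D' hD'sym hD'01
      have hrew : avM (β := β ⊕ Fin s) (fun (M : St κ (Fin n ⊕ ι)) (a : ι → Fin n)
          (vw : β ⊕ Fin s → Fin n) => Ds ρ M (fun b => vw (Sum.inl b)) (fun i => vw (Sum.inr i)) *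
            ind (Ev t g I ρ M a (Sum.elim (fun b => vw (Sum.inl b)) (fun i => vw (Sum.inr i))))) =
          avM (fun M a v => D' M v * ind (Ev t g I ρ M a v)) := by
        refine avM_congr fun M a vw => ?_
        have : Sum.elim (fun b => vw (Sum.inl b)) (fun i => vw (Sum.inr i)) = vw := by
          funext z; rcases z with z | z <;> rfl
        rw [this]
      rw [hrew]
      -- the mass of `D'`
      have hmass : (n : ℝ) ^ s * avM (fun (M : St κ (Fin n ⊕ ι)) (_ : ι → Fin n)
          (v : β ⊕ Fin s → Fin n) => D' M v) ≤ (2 * E) ^ s := by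
        have e1 := avM_base_marks (ι := ι) (β := β) s (fun (M : St κ (Fin n ⊕ ι)) (_ : ι → Fin n)
          (v : β → Fin n) (w : Fin s → Fin n) => Ds ρ M v w)
        rw [Fintype.card_fin] at e1
        have e1' : (n : ℝ) ^ s * avM (fun (M : St κ (Fin n ⊕ ι)) (_ : ι → Fin n)
          (v : β ⊕ Fin s → Fin n) => D' M v) =
          ∑ w, avM (fun (M : St κ (Fin n ⊕ ι)) (_ : ι → Fin n) (v : β → Fin n) => Ds ρ M v w) :=
          e1.symm
        rw [e1', ← avM_sum]
        refine avM_le_of_le (by positivity) fun M _ v => ?_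
        have e2 : ∑ w : Fin s → Fin n, Ds ρ M v w =
            Du M v * ind (δ ≤ Du M v) * ∏ i, ∑ x, q (rb (ρ i) x) M v := by
          rw [prod_univ_sum, Fintype.piFinset_univ, mul_sum]
        rw [e2]
        by_cases hd : δ ≤ Du M v
        · rw [ind_true' hd, mul_one]
          have hdpos : 0 < Du M v := by linarith
          have e3 : ∏ i, ∑ x, q (rb (ρ i) x) M v ≤ (2 * E) ^ s := by
            calc ∏ i, ∑ x, q (rb (ρ i) x) M v ≤ ∏ _i : Fin s, (2 * E) := by
                  refine prod_le_prod (fun i _ => sum_nonneg fun x _ => hq0 _ _ _) fun i _ => ?_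
                  have e4 : ∑ x, q (rb (ρ i) x) M v ≤ (∑ i ∈ JW W, cc i M v) / (Y * Du M v) := by
                    rw [sum_JW, hq, ← sum_div]
                    refine div_le_div_of_nonneg_right ?_ (by positivity)
                    exact single_le_sum (f := fun ρ => ∑ x, cc (rb ρ x) M v)
                      (fun ρ _ => sum_nonneg fun x _ => hc0 _ _ _) (hρ i)
                  refine e4.trans ?_
                  rw [div_le_iff₀ (by positivity)]
                  have e5 := hen M v
                  have e6 : Du M v ≤ Y * Du M v := by nlinarith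
                  nlinarith
              _ = (2 * E) ^ s := by simp
          have e7 : 0 ≤ ∏ i, ∑ x, q (rb (ρ i) x) M v :=
            prod_nonneg fun i _ => sum_nonneg fun x _ => hq0 _ _ _
          calc Du M v * ∏ i, ∑ x, q (rb (ρ i) x) M v ≤ 1 * (2 * E) ^ s :=
                mul_le_mul (h1 _ _) e3 e7 zero_le_one
            _ = _ := one_mul _
        · rw [ind_false' hd, mul_zero, zero_mul]
          positivity
      have hns : (0 : ℝ) ≤ (n : ℝ) ^ s := by positivity
      calc (n : ℝ) ^ s * avM (fun M a v => D' M v * ind (Ev t g I ρ M a v)) ≤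
          (n : ℝ) ^ s * (P * avM (fun M _ v => D' M v) + Q) := mul_le_mul_of_nonneg_left hex hns
        _ = P * ((n : ℝ) ^ s * avM (fun M _ v => D' M v)) + (n : ℝ) ^ s * Q := by ring
        _ ≤ _ := by
            have := mul_le_mul_of_nonneg_left hmass hP
            linarith
    · push Not at hI
      obtain ⟨i, hi⟩ := hI
      have hz : ∀ (M : St κ (Fin n ⊕ ι)) (a : ι → Fin n) (v : β → Fin n),
          ∑ w : Fin s → Fin n, Ds ρ M v w * ind (Ev t g I ρ M a (Sum.elim v w)) = 0 := by
        intro M a v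
        refine sum_eq_zero fun w _ => ?_
        rw [ind_false', mul_zero]
        intro h
        exact hi (sens_imp (h.2.2.2.2 i)).1
      rw [avM_congr hz]
      have : avM (fun (_ : St κ (Fin n ⊕ ι)) (_ : ι → Fin n) (_ : β → Fin n) => (0 : ℝ)) = 0 :=
        av_zero
      rw [this]
      exact hbd0
  refine (sum_le_sum hterm).trans (le_of_eq ?_)
  rw [sum_const, nsmul_eq_mul, Fintype.card_piFinset, prod_const, card_univ, Fintype.card_fin]
  push_cast
  rfl

end core

section fin
variable {κ ι β : Type} [Fintype κ] [DecidableEq κ] [Fintype ι]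
  [DecidableEq ι] [Fintype β] [DecidableEq β] {n : ℕ}

omit [Fintype ι] [Fintype β] [DecidableEq β] in
theorem nD_flip_sym {W : Finset ι} {u : ℝ} {D : St κ (Fin n ⊕ ι) → (β → Fin n) → ℝ}
    (hD : Sym D) (ρ : ι × κ × Bool) (x : Fin n) (π : Equiv.Perm (Fin n)) (M : St κ (Fin n ⊕ ι))
    (v : β → Fin n) : nD W u D (flipS {rb ρ x} (pull (Sum.map π id) M)) v =
      nD W u D (flipS {rb ρ (π x)} M) (fun b => π (v b)) := by
  rw [flipS_pull_perm]
  exact Sym.nD hD W u π _ v

omit [DecidableEq κ] [DecidableEq ι] in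
theorem card_Rr_le (W : Finset ι) :
    ((Rr κ W).card : ℝ) ≤ (Fintype.card (ι × κ × Bool) : ℝ) := by
  exact_mod_cast card_le_univ (Rr κ W)

end fin

end CE

/-- **CE**: the child error bound -/
theorem stmtCE (κ : Type) [Fintype κ] [DecidableEq κ] : StmtCE κ := by
  intro j hEX ι β _ _ _ _ c K C
  obtain ⟨s, hs⟩ : ∃ s : ℕ, C + 1 ≤ 3 / 40 * (s : ℝ) := by
    obtain ⟨s, hs⟩ := exists_nat_ge ((C + 1) * (40 / 3))
    exact ⟨s, by linarith⟩
  set r0 : ℝ := (Fintype.card (ι × κ × Bool) : ℝ) with hr0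
  have hr00 : 0 ≤ r0 := Nat.cast_nonneg _
  set b : ℝ := (Fintype.card β : ℝ) + s with hb
  have hb0 : 0 ≤ b := by positivity
  refine ⟨2 * r0 * b + 1, by positivity, ?_⟩
  filter_upwards [hEX ι β s c K (s + C + 1),
    noiseEnergy ((Fintype.card ι : ℝ) * (Fintype.card κ * 2)) (C + 1), eventually_ge_atTop 1,
    tendsto_natCast_atTop_atTop.eventually_ge_atTop (1 + r0 ^ s * (2 ^ (s + 1) + 1))]
    with n hEXn hEn hn1' hnc t ht g I W D hD hD01 u hu0 hu1
  have hn0' : 0 < n := hn1'
  have hn1 : (1 : ℝ) ≤ n := by exact_mod_cast hn1'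
  have hn0 : (0 : ℝ) < n := by linarith
  have hu1' : u < 1 := by
    have : 0 < (n : ℝ) ^ (-(1 / 20 : ℝ)) := Real.rpow_pos_of_pos hn0 _
    linarith
  have h1u : 0 < 1 - u := by linarith
  set δ : ℝ := (n : ℝ) ^ (-(C + 1)) with hδ
  set E : ℝ := (n : ℝ) ^ (11 / 20 : ℝ) with hE
  set P : ℝ := 2 * (n : ℝ) ^ (-(5 / 8 * (s : ℝ))) with hP
  set Q : ℝ := (n : ℝ) ^ (-(s + C + 1)) with hQ
  have hδ0 : 0 < δ := Real.rpow_pos_of_pos hn0 _
  have hE1 : 1 ≤ E := Real.one_le_rpow hn1 (by norm_num)
  have hP0 : 0 ≤ P := by positivity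
  have hQ0 : 0 ≤ Q := by positivity
  have hsym := Sym.nD hD W u
  have hd0 : ∀ M v, 0 ≤ nD W u D M v := nD_nonneg hu0 hu1'.le hD01
  have hd1 : ∀ M v, nD W u D M v ≤ 1 := nD_le_one hu0 hu1'.le hD01
  have hrW := CE.card_Rr_le (κ := κ) W
  have hrW0 : (0 : ℝ) ≤ (CE.Rr κ W).card := Nat.cast_nonneg _
  -- the energy bound
  have hen : ∀ M v, ∑ i ∈ JW W, |nD W u D M v - nD W u D (flipS {i} M) v| ≤
      E * nD W u D M v + δ := by
    intro M v
    refine hEn _ (JW W) ?_ (fun M' => D M' v) (fun M' => hD01 M' v) u hu0 hu1 M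
    rw [card_JW, Fintype.card_fin]
    push_cast
    have : (W.card : ℝ) ≤ Fintype.card ι := by exact_mod_cast card_le_univ W
    gcongr
  -- the final computation
  have hfin : δ + ((CE.Rr κ W).card : ℝ) ^ s * (P * (2 * E) ^ s + (n : ℝ) ^ s * Q) ≤
      (n : ℝ) ^ (-C) := by
    have h1 : P * (2 * E) ^ s ≤ 2 ^ (s + 1) * δ := by
      have e1 : P * (2 * E) ^ s = 2 ^ (s + 1) * (n : ℝ) ^ (-(3 / 40 * (s : ℝ))) := by
        rw [hP, hE, mul_pow, ← Real.rpow_natCast ((n : ℝ) ^ (11 / 20 : ℝ)),
          ← Real.rpow_mul hn0.le]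
        have : (n : ℝ) ^ (-(3 / 40 * (s : ℝ))) =
            (n : ℝ) ^ (-(5 / 8 * (s : ℝ))) * (n : ℝ) ^ (11 / 20 * (s : ℝ)) := by
          rw [← Real.rpow_add hn0]; congr 1; ring
        rw [this]; ring
      rw [e1]
      refine mul_le_mul_of_nonneg_left ?_ (by positivity)
      exact Real.rpow_le_rpow_of_exponent_le hn1 (by linarith)
    have h2 : (n : ℝ) ^ s * Q = δ := by
      rw [hQ, hδ, ← Real.rpow_natCast, ← Real.rpow_add hn0]
      congr 1; ring
    calc δ + ((CE.Rr κ W).card : ℝ) ^ s * (P * (2 * E) ^ s + (n : ℝ) ^ s * Q) ≤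
        δ + r0 ^ s * (2 ^ (s + 1) * δ + δ) := by
          rw [h2]
          gcongr
      _ = (1 + r0 ^ s * (2 ^ (s + 1) + 1)) * δ := by ring
      _ ≤ n * δ := by gcongr
      _ = (n : ℝ) ^ (-C) := by
          rw [hδ]
          nth_rewrite 1 [← Real.rpow_one (n : ℝ)]
          rw [← Real.rpow_add hn0]; congr 1; ring
  have hEX' : ∀ (ρ : Fin s → ι × κ × Bool), (∀ i, (ρ i).1 ∈ I) →
      ∀ (D : St κ (Fin n ⊕ ι) → (β ⊕ Fin s → Fin n) → ℝ), Sym D →
        (∀ M v, 0 ≤ D M v ∧ D M v ≤ 1) →
      avM (fun M a v => D M v * ind (Ev t g I ρ M a v)) ≤ P * avM (fun M _ v => D M v) + Q :=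
    fun ρ hρ D hD hD01 => hEXn t ht g I ρ hρ D hD hD01
  constructor
  · have hcore := CE.core hn0' s t g I W (nD W u D) hsym hd0 hd1
      (fun i M v => max (nD W u D M v - nD W u D (flipS {i} M) v) 0)
      (fun i M v => le_max_right _ _) (Y0 := 1) le_rfl ?_ ?_ hE1 hδ0 ?_ hP0 hQ0 hEX'
    · refine le_trans (avM_mono fun M a v => ?_) (hcore.trans hfin)
      refine mul_le_mul_of_nonneg_left (ind_mono ?_) (hd0 M v)
      rintro ⟨h1, h2⟩
      refine ⟨h1, lt_of_le_of_lt ?_ h2⟩
      have := hd0 M v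
      refine mul_le_mul_of_nonneg_right ?_ this
      have h3 : ((CE.Rr κ W).card : ℝ) * b ≤ r0 * b := mul_le_mul_of_nonneg_right hrW hb0
      have h4 : 0 ≤ r0 * b := mul_nonneg hr00 hb0
      rw [mul_one]
      linarith
    · intro i _ M v
      rw [one_mul]
      exact max_le (by linarith [hd0 (flipS {i} M) v]) (hd0 M v)
    · intro ρ x π M v
      rw [CE.nD_flip_sym hD, hsym π M v]
    · intro M v
      refine (sum_le_sum fun i _ => ?_).trans (hen M v)
      exact max_le (le_abs_self _) (abs_nonneg _)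
  · have hcore := CE.core hn0' s t g I W (nD W u D) hsym hd0 hd1
      (fun i M v => max (nD W u D (flipS {i} M) v - nD W u D M v) 0)
      (fun i M v => le_max_right _ _) (Y0 := 2 / (1 - u))
      (by rw [le_div_iff₀ h1u]; linarith) ?_ ?_ hE1 hδ0 ?_ hP0 hQ0 hEX'
    · refine le_trans (avM_mono fun M a v => ?_) (hcore.trans hfin)
      refine mul_le_mul_of_nonneg_left (ind_mono ?_) (hd0 M v)
      rintro ⟨h1, h2⟩
      refine ⟨h1, lt_of_le_of_lt ?_ h2⟩
      have := hd0 M v
      refine mul_le_mul_of_nonneg_right ?_ this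
      have h3 : ((CE.Rr κ W).card : ℝ) * b ≤ r0 * b := mul_le_mul_of_nonneg_right hrW hb0
      have h4 : 0 ≤ r0 * b := mul_nonneg hr00 hb0
      have e : ((CE.Rr κ W).card : ℝ) * (2 / (1 - u)) * b =
          (2 * (((CE.Rr κ W).card : ℝ) * b)) / (1 - u) := by ring
      rw [e]
      refine div_le_div_of_nonneg_right ?_ h1u.le
      linarith
    · intro i hi M v
      have h1 := noiseRatio _ (JW W) (fun M' => D M' v) (fun M' => (hD01 M' v).1) u hu0 hu1' i hi M
      have h2 : nD W u D (flipS {i} M) v ≤ (1 + u) / (1 - u) * nD W u D M v := h1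
      have h3 := hd0 M v
      refine max_le ?_ (by positivity)
      have h4 : (1 + u) / (1 - u) * nD W u D M v - nD W u D M v =
          2 * u / (1 - u) * nD W u D M v := by
        field_simp
        ring
      have h5 : 2 * u / (1 - u) * nD W u D M v ≤ 2 / (1 - u) * nD W u D M v := by
        refine mul_le_mul_of_nonneg_right ?_ h3
        refine div_le_div_of_nonneg_right (by linarith) h1u.le
      linarith
    · intro ρ x π M v
      rw [CE.nD_flip_sym hD, hsym π M v]
    · intro M v
      refine (sum_le_sum fun i _ => ?_).trans (hen M v)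
      rw [abs_sub_comm]
      exact max_le (le_abs_self _) (abs_nonneg _)

end ZOL
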