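import Pool.Agent.ZOL.Core

/-!
# The base case of the induction: juntas
-/

namespace ZOL

open Filter Finset

lemma sum_ind_mem {V : Type*} [Fintype V] (L : Finset V) :
    ∑ x, ind (x ∈ L) = (L.card : ℝ) := by
  classical
  have h : ∀ x, ind (x ∈ L) = if x ∈ L then (1 : ℝ) else 0 := fun x => by
    by_cases hx : x ∈ L <;> simp [ind, hx]
  rw [Finset.sum_congr rfl fun x _ => h x]
  simp

/-- product formula for averages over a function space -/
lemma av_pi_prod {ι V : Type*} [Fintype ι] [DecidableEq ι] [Fintype V] [Nonempty V]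
    (W : Finset ι) (f : ι → V → ℝ) :
    av (fun a : ι → V => ∏ k ∈ W, f k (a k)) = ∏ k ∈ W, av (f k) := by
  classical
  have hV : (Fintype.card V : ℝ) ≠ 0 := by exact_mod_cast Fintype.card_ne_zero
  set F : ι → V → ℝ := fun k x => if k ∈ W then f k x else 1 with hF
  have hfil : Finset.univ.filter (· ∈ W) = W := by ext; simp
  have h1 : ∀ a : ι → V, ∏ k ∈ W, f k (a k) = ∏ k, F k (a k) := by
    intro a
    rw [← Finset.prod_filter_mul_prod_filter_not Finset.univ (· ∈ W)]
    have e1 : ∏ k ∈ Finset.univ.filter (· ∈ W), F k (a k) = ∏ k ∈ W, f k (a k) := by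
      rw [hfil]
      exact Finset.prod_congr rfl fun k hk => by simp [hF, hk]
    have e2 : ∏ k ∈ Finset.univ.filter (fun k => ¬ k ∈ W), F k (a k) = 1 :=
      Finset.prod_eq_one fun k hk => by simp [hF, (Finset.mem_filter.1 hk).2]
    rw [e1, e2, mul_one]
  have h2 : ∑ a : ι → V, ∏ k, F k (a k) = ∏ k, ∑ x, F k x := by
    rw [Finset.prod_univ_sum, Fintype.piFinset_univ]
  unfold av
  rw [Finset.sum_congr rfl fun a _ => h1 a, h2, Fintype.card_fun, Nat.cast_pow,
    ← Finset.card_univ (α := ι), ← Finset.prod_const, ← Finset.prod_div_distrib,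
    ← Finset.prod_filter_mul_prod_filter_not Finset.univ (· ∈ W)]
  have e1 : ∏ k ∈ Finset.univ.filter (· ∈ W), (∑ x, F k x) / (Fintype.card V : ℝ) =
      ∏ k ∈ W, (∑ x, f k x) / (Fintype.card V : ℝ) := by
    rw [hfil]
    exact Finset.prod_congr rfl fun k hk => by simp [hF, hk]
  have e2 : ∏ k ∈ Finset.univ.filter (fun k => ¬ k ∈ W), (∑ x, F k x) / (Fintype.card V : ℝ) = 1 :=
    Finset.prod_eq_one fun k hk => by simp [hF, (Finset.mem_filter.1 hk).2, hV]
  rw [e1, e2, mul_one]

/-- the vertex `x` is sent to the same place when a mark with another label is removed -/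
lemma ctx_congr_of_ne {ι V : Type} [DecidableEq ι] {a : ι → V} {A A' : Finset ι} (hAA : A ⊆ A')
    (ha : Set.InjOn a A') {x : V} (hx : ∀ k ∈ A', k ∉ A → a k ≠ x) :
    ctx a A' x = ctx a A x := by
  by_cases h : ∃ k ∈ A, a k = x
  · obtain ⟨k, hk, rfl⟩ := h
    rw [ctx_of_mem ha (hAA hk), ctx_of_mem (ha.mono hAA) hk]
  · push Not at h
    rw [ctx_of_notMem h, ctx_of_notMem]
    intro k hk
    by_cases hkA : k ∈ A
    · exact h k hkA
    · exact hx k hk hkA

lemma junta_Qev {κ ι V : Type} [DecidableEq ι] [DecidableEq V]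
    {t : St κ V → Bool} {s : Finset (V × V × κ)}
    (hs : ∀ x y : St κ V, (∀ i ∈ s, x i = y i) → t x = t y)
    {g : St κ ι} {B W : Finset ι} {M : St κ (V ⊕ ι)} {a : ι → V}
    (hQ : Qev t g B W M a) {k : ι} (hk : k ∈ W) :
    a k ∈ s.image (fun p => p.1) ∪ s.image (fun p => p.2.1) := by
  by_contra hcon
  obtain ⟨hinj, hne, hall⟩ := hQ
  apply hne
  have hss : W.erase k ⊂ W := Finset.erase_ssubset hk
  rw [← hall _ hss]
  apply hs
  rintro ⟨x, y, d⟩ hi
  have hx : a k ≠ x := by
    rintro rfl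
    exact hcon (Finset.mem_union_left _ (Finset.mem_image.2 ⟨_, hi, rfl⟩))
  have hy : a k ≠ y := by
    rintro rfl
    exact hcon (Finset.mem_union_right _ (Finset.mem_image.2 ⟨_, hi, rfl⟩))
  have hsub : B ∪ W.erase k ⊆ B ∪ W := Finset.union_subset_union_right (Finset.erase_subset _ _)
  have hkey : ∀ z : V, a k ≠ z → ctx a (B ∪ W) z = ctx a (B ∪ W.erase k) z := by
    intro z hz
    refine ctx_congr_of_ne hsub (by exact_mod_cast hinj) ?_
    intro l hl hl'
    have hlk : l = k := by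
      by_contra hlk
      apply hl'
      rcases Finset.mem_union.1 hl with h | h
      · exact Finset.mem_union_left _ h
      · exact Finset.mem_union_right _ (Finset.mem_erase.2 ⟨hlk, h⟩)
    rw [hlk]; exact hz
  unfold glue
  rw [pull_apply, pull_apply, hkey x hx, hkey y hy]

theorem ihZero (κ : Type) [Fintype κ] [DecidableEq κ] {ξ : ℝ} (hξ : ξ < 3 / 8) : IH κ 0 ξ := by
  intro ι β _ _ _ _ c K C
  classical
  have hlim : Tendsto (fun n : ℕ => ((n : ℝ)) ^ (3 / 8 - ξ : ℝ)) atTop atTop :=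
    (tendsto_rpow_atTop (by linarith)).comp tendsto_natCast_atTop_atTop
  filter_upwards [hlim.eventually_ge_atTop ((2 * (c : ℝ) + 1) ^ (Fintype.card ι)),
    eventually_ge_atTop 1] with n hn hn1
  intro t ht g B W hW hBW D hDs hD ω hω hω1
  obtain ⟨s, hsc, hs⟩ := ht
  have hnR : (1 : ℝ) ≤ n := by exact_mod_cast hn1
  have hn0 : (0 : ℝ) < n := by linarith
  have : Nonempty (Fin n) := ⟨⟨0, hn1⟩⟩
  set L : Finset (Fin n) := s.image (fun p => p.1) ∪ s.image (fun p => p.2.1) with hL
  have hLc : (L.card : ℝ) ≤ 2 * c := by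
    have h1 : L.card ≤ c + c := (Finset.card_union_le _ _).trans
      (Nat.add_le_add (Finset.card_image_le.trans hsc) (Finset.card_image_le.trans hsc))
    have : (L.card : ℝ) ≤ ((c + c : ℕ) : ℝ) := by exact_mod_cast h1
    push_cast at this
    linarith
  -- pointwise bound
  have hpt : ∀ M a v, ω M a v * D M v * ind (Qev t g B W M a) ≤
      ω M a v * D M v * ∏ k ∈ W, ind (a k ∈ L) := by
    intro M a v
    refine mul_le_mul_of_nonneg_left ?_ (mul_nonneg (hω1 M a v).1 (hD M v).1)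
    by_cases hQ : Qev t g B W M a
    · rw [ind_true' hQ, Finset.prod_eq_one]
      intro k hk
      exact ind_true' (junta_Qev hs hQ hk)
    · rw [ind_false' hQ]
      exact Finset.prod_nonneg fun k _ => ind_nonneg _
  have hav : avM (fun M a v => ω M a v * D M v * ∏ k ∈ W, ind (a k ∈ L)) =
      avM (fun M a v => ω M a v * D M v) * ∏ k ∈ W, ((L.card : ℝ) / n) := by
    unfold avM
    rw [av_prod, av_prod, ← av_mul_right]
    refine av_congr fun M => ?_
    rw [av_prod, av_prod, av_comm, av_comm (fun (a : ι → Fin n) (v : β → Fin n) => _),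
      ← av_mul_right]
    refine av_congr fun v => ?_
    rw [av_indep (I := ι) (Y := Fin n) (↑W : Set ι) (fun a => ω M a v * D M v)
      (fun a => ∏ k ∈ W, ind (a k ∈ L))]
    · congr 1
      rw [av_pi_prod W (fun _ x => ind (x ∈ L))]
      refine Finset.prod_congr rfl fun k _ => ?_
      unfold av
      rw [Fintype.card_fin, sum_ind_mem]
    · intro x y hxy
      show ω M x v * D M v = ω M y v * D M v
      rw [hω M M x y v ⟨fun _ _ _ _ => rfl, fun k hk => hxy k (by simpa using hk)⟩]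
    · intro x y hxy
      exact Finset.prod_congr rfl fun k hk => by rw [hxy k (by simpa using hk)]
  have hle : avM (fun M a v => ω M a v * D M v * ind (Qev t g B W M a)) ≤
      avM (fun M a v => ω M a v * D M v * ∏ k ∈ W, ind (a k ∈ L)) :=
    av_mono fun p => hpt p.1 p.2.1 p.2.2
  rw [hav, Finset.prod_const] at hle
  have h0 : 0 ≤ avM (fun M a v => ω M a v * D M v) :=
    av_nonneg fun p => mul_nonneg (hω1 _ _ _).1 (hD _ _).1
  have hW1 : (1 : ℝ) ≤ W.card := by exact_mod_cast hW.card_pos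
  have hWN : W.card ≤ Fintype.card ι := Finset.card_le_univ W
  have hnum : ((L.card : ℝ) / n) ^ W.card ≤ (n : ℝ) ^ (-(5 / 8 * (W.card : ℝ) + ξ)) := by
    have h1 : ((L.card : ℝ) / n) ^ W.card ≤ ((2 * c + 1) / n) ^ W.card := by
      refine pow_le_pow_left₀ (by positivity) ?_ _
      exact div_le_div_of_nonneg_right (by linarith) hn0.le
    refine h1.trans ?_
    rw [div_pow, div_le_iff₀ (by positivity)]
    have h2 : (2 * (c : ℝ) + 1) ^ W.card ≤ (2 * (c : ℝ) + 1) ^ Fintype.card ι :=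
      pow_le_pow_right₀ (by have : (0 : ℝ) ≤ c := Nat.cast_nonneg c; linarith) hWN
    refine h2.trans (hn.trans ?_)
    rw [← Real.rpow_natCast (n : ℝ) W.card, ← Real.rpow_add hn0]
    refine Real.rpow_le_rpow_of_exponent_le hnR ?_
    linarith
  have hC : 0 ≤ (n : ℝ) ^ (-C) := Real.rpow_nonneg hn0.le _
  calc avM (fun M a v => ω M a v * D M v * ind (Qev t g B W M a))
      ≤ avM (fun M a v => ω M a v * D M v) * ((L.card : ℝ) / n) ^ W.card := hle
    _ ≤ avM (fun M a v => ω M a v * D M v) * (n : ℝ) ^ (-(5 / 8 * (W.card : ℝ) + ξ)) :=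
        mul_le_mul_of_nonneg_left hnum h0
    _ ≤ (n : ℝ) ^ (-(5 / 8 * (W.card : ℝ) + ξ)) * avM (fun M a v => ω M a v * D M v)
        + (n : ℝ) ^ (-C) := by linarith [mul_comm (avM (fun M a v => ω M a v * D M v)) ((n : ℝ) ^ (-(5 / 8 * (W.card : ℝ) + ξ)))]

theorem stmtIH0 (κ : Type) [Fintype κ] [DecidableEq κ] : StmtIH0 κ :=
  fun _ hξ => ihZero κ hξ

end ZOL
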