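import Pool.Agent.ZOL.AvM
import Pool.Agent.ZOL.IHZero

/-!
# Exchange lemma: the probabilistic part
-/

namespace ZOL

namespace EXP

open Filter Finset

/-! ### Random tuples -/

/-- a random tuple covers a given set with small probability -/
lemma av_cover_le {n s : ℕ} (hn : 1 ≤ n) (S : Finset (Fin n)) :
    av (fun w : Fin s → Fin n => ind (S ⊆ univ.image w)) ≤ ((s : ℝ) / n) ^ S.card := by
  classical
  have : Nonempty (Fin n) := ⟨⟨0, hn⟩⟩
  have hn0 : (0 : ℝ) < n := by exact_mod_cast hn
  have hpt : ∀ w : Fin s → Fin n, ind (S ⊆ univ.image w) ≤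
      ∑ φ : S → Fin s, (if Function.Injective φ then ind ((fun j => w (φ j)) = fun j => j.1)
        else 0) := by
    intro w
    have hnn : ∀ φ : S → Fin s, 0 ≤ (if Function.Injective φ then
        ind ((fun j => w (φ j)) = fun j => j.1) else 0) := by
      intro φ; split_ifs
      · exact ind_nonneg _
      · exact le_rfl
    by_cases h : S ⊆ univ.image w
    · have h' : ∀ x : S, ∃ i : Fin s, w i = x.1 := by
        intro x
        obtain ⟨i, _, hi⟩ := Finset.mem_image.1 (h x.2)
        exact ⟨i, hi⟩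
      choose φ hφ using h'
      have hinj : Function.Injective φ := by
        intro x y hxy
        apply Subtype.ext
        rw [← hφ x, ← hφ y, hxy]
      refine le_trans ?_ (Finset.single_le_sum (fun φ _ => hnn φ) (Finset.mem_univ φ))
      rw [if_pos hinj, ind_true' (funext fun x => hφ x)]
      exact ind_le_one _
    · rw [ind_false' h]
      exact Finset.sum_nonneg fun φ _ => hnn φ
  refine (av_mono hpt).trans ?_
  rw [av_sum]
  have hterm : ∀ φ : S → Fin s, av (fun w : Fin s → Fin n =>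
      (if Function.Injective φ then ind ((fun j => w (φ j)) = fun j => j.1) else 0)) ≤
      (1 / (n : ℝ)) ^ S.card := by
    intro φ
    by_cases hφ : Function.Injective φ
    · simp only [if_pos hφ]
      rw [av_comp_inj φ hφ (fun u : S → Fin n => ind (u = fun j => j.1))]
      unfold av
      have h1 : ∑ u : S → Fin n, ind (u = fun j => j.1) = 1 := by
        rw [Finset.sum_eq_single (fun j : S => j.1)]
        · exact ind_true' rfl
        · intro u _ hu; exact ind_false' hu
        · intro h; exact absurd (Finset.mem_univ _) h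
      rw [h1, Fintype.card_fun, Fintype.card_fin, Fintype.card_coe, Nat.cast_pow, one_div_pow]
    · simp only [if_neg hφ]
      rw [av_zero]
      positivity
  refine (Finset.sum_le_sum fun φ _ => hterm φ).trans ?_
  rw [Finset.sum_const, Finset.card_univ, Fintype.card_fun, Fintype.card_fin, Fintype.card_coe,
    nsmul_eq_mul, Nat.cast_pow, ← mul_pow, mul_one_div]

/-- replacing a random tuple rarely changes a function with few minimal sensitive sets -/
lemma av_change_le {n s : ℕ} (hn : 1 ≤ n) (f : (Fin n → Bool) → Bool) {T : ℝ} (hT : 0 ≤ T)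
    (h : ∀ r, 1 ≤ r → r ≤ s → numMS f (fun _ => false) r ≤ T) :
    av (fun w : Fin s → Fin n => ind (f (flipS (univ.image w) (fun _ => false)) ≠
      f (fun _ => false))) ≤ s * (T * ((s : ℝ) + 1) ^ s / n) := by
  classical
  have hn0 : (0 : ℝ) < n := by exact_mod_cast hn
  have hn1 : (1 : ℝ) ≤ n := by exact_mod_cast hn
  have hpt : ∀ w : Fin s → Fin n, ind (f (flipS (univ.image w) (fun _ => false)) ≠
      f (fun _ => false)) ≤ ∑ r ∈ Finset.Icc 1 s, ∑ S : Finset (Fin n),
        ind (S.card = r ∧ MinSens f (fun _ => false) S) * ind (S ⊆ univ.image w) := by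
    intro w
    have hnn : ∀ r ∈ Finset.Icc 1 s, ∀ S : Finset (Fin n), 0 ≤
        ind (S.card = r ∧ MinSens f (fun _ => false) S) * ind (S ⊆ univ.image w) :=
      fun r _ S => mul_nonneg (ind_nonneg _) (ind_nonneg _)
    by_cases hc : f (flipS (univ.image w) (fun _ => false)) ≠ f (fun _ => false)
    · obtain ⟨A, hA, hAne, hAm⟩ := exists_minSens hc
      have hAc : A.card ∈ Finset.Icc 1 s := by
        rw [Finset.mem_Icc]
        refine ⟨hAne.card_pos, ?_⟩
        calc A.card ≤ (univ.image w).card := Finset.card_le_card hA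
          _ ≤ (univ : Finset (Fin s)).card := Finset.card_image_le
          _ = s := by simp
      refine le_trans ?_ (Finset.single_le_sum (f := fun r => ∑ S : Finset (Fin n),
        ind (S.card = r ∧ MinSens f (fun _ => false) S) * ind (S ⊆ univ.image w))
        (fun r hr => Finset.sum_nonneg fun S _ => hnn r hr S) hAc)
      refine le_trans ?_ (Finset.single_le_sum (f := fun S =>
        ind (S.card = A.card ∧ MinSens f (fun _ => false) S) * ind (S ⊆ univ.image w))
        (fun S _ => hnn _ hAc S) (Finset.mem_univ A))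
      rw [ind_true' (p := A.card = A.card ∧ _) ⟨rfl, hAm⟩, ind_true' hA, mul_one]
      exact ind_le_one _
    · rw [ind_false' hc]
      exact Finset.sum_nonneg fun r hr => Finset.sum_nonneg fun S _ => hnn r hr S
  refine (av_mono hpt).trans ?_
  rw [av_sum]
  have hr : ∀ r ∈ Finset.Icc 1 s, av (fun w : Fin s → Fin n => ∑ S : Finset (Fin n),
        ind (S.card = r ∧ MinSens f (fun _ => false) S) * ind (S ⊆ univ.image w)) ≤
        T * ((s : ℝ) + 1) ^ s / n := by
    intro r hr
    rw [Finset.mem_Icc] at hr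
    rw [av_sum]
    have h1 : ∀ S : Finset (Fin n), av (fun w : Fin s → Fin n =>
        ind (S.card = r ∧ MinSens f (fun _ => false) S) * ind (S ⊆ univ.image w)) ≤
        ind (S.card = r ∧ MinSens f (fun _ => false) S) * ((s : ℝ) / n) ^ r := by
      intro S
      rw [av_mul_left]
      by_cases hS : S.card = r ∧ MinSens f (fun _ => false) S
      · refine mul_le_mul_of_nonneg_left ?_ (ind_nonneg _)
        rw [← hS.1]
        exact av_cover_le hn S
      · rw [ind_false' hS]; simp
    refine (Finset.sum_le_sum fun S _ => h1 S).trans ?_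
    rw [← Finset.sum_mul]
    have h2 : ∑ S : Finset (Fin n), ind (S.card = r ∧ MinSens f (fun _ => false) S) ≤ T :=
      h r hr.1 hr.2
    have h3 : ((s : ℝ) / n) ^ r ≤ ((s : ℝ) + 1) ^ s / n := by
      rw [div_pow]
      refine div_le_div₀ (by positivity) ?_ hn0 ?_
      · calc (s : ℝ) ^ r ≤ ((s : ℝ) + 1) ^ r :=
              pow_le_pow_left₀ (Nat.cast_nonneg s) (by linarith) r
          _ ≤ ((s : ℝ) + 1) ^ s :=
              pow_le_pow_right₀ (by have : (0 : ℝ) ≤ s := Nat.cast_nonneg s; linarith) hr.2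
      · calc (n : ℝ) = (n : ℝ) ^ 1 := (pow_one _).symm
          _ ≤ (n : ℝ) ^ r := pow_le_pow_right₀ hn1 hr.1
    calc (∑ S : Finset (Fin n), ind (S.card = r ∧ MinSens f (fun _ => false) S)) *
          ((s : ℝ) / n) ^ r ≤ T * (((s : ℝ) + 1) ^ s / n) :=
          mul_le_mul h2 h3 (by positivity) hT
      _ = T * ((s : ℝ) + 1) ^ s / n := by ring
  refine (Finset.sum_le_sum hr).trans ?_
  rw [Finset.sum_const, Nat.card_Icc, nsmul_eq_mul, Nat.add_sub_cancel]

lemma av_mem_le {n s : ℕ} (hn : 1 ≤ n) (E : Finset (Fin n)) (j : Fin s) :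
    av (fun w : Fin s → Fin n => ind (w j ∈ E)) = (E.card : ℝ) / n := by
  have : Nonempty (Fin n) := ⟨⟨0, hn⟩⟩
  have h := av_pi_prod (ι := Fin s) (V := Fin n) {j} (fun _ x => ind (x ∈ E))
  simp only [Finset.prod_singleton] at h
  rw [h]
  unfold av
  rw [sum_ind_mem, Fintype.card_fin]

lemma av_eq_le {n s : ℕ} (hn : 1 ≤ n) {i j : Fin s} (hij : i ≠ j) :
    av (fun w : Fin s → Fin n => ind (w i = w j)) = 1 / n := by
  have : Nonempty (Fin n) := ⟨⟨0, hn⟩⟩
  have hn0 : (n : ℝ) ≠ 0 := by
    have : (0 : ℝ) < n := by exact_mod_cast hn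
    exact this.ne'
  have he : Function.Injective (fun b : Bool => if b then i else j) := by
    intro a b hab
    cases a <;> cases b <;> simp at hab ⊢
    · exact hij hab.symm
    · exact hij hab
  have h := av_comp_inj (I := Fin s) (J := Bool) (Y := Fin n) _ he
    (fun u : Bool → Fin n => ind (u true = u false))
  simp only [if_true, Bool.false_eq_true, if_false] at h
  rw [h, ← av_equiv (Equiv.boolArrowEquivProd (Fin n)).symm, av_prod]
  have h1 : ∀ x : Fin n, av (fun y : Fin n => ind
      (((Equiv.boolArrowEquivProd (Fin n)).symm (x, y)) true =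
        ((Equiv.boolArrowEquivProd (Fin n)).symm (x, y)) false)) = 1 / n := by
    intro x
    have h2 : ∀ y : Fin n, ind (((Equiv.boolArrowEquivProd (Fin n)).symm (x, y)) true =
        ((Equiv.boolArrowEquivProd (Fin n)).symm (x, y)) false) = ind (y ∈ ({x} : Finset (Fin n))) := by
      intro y
      apply ind_congr
      simp [Equiv.boolArrowEquivProd]
    rw [av_congr h2]
    unfold av
    rw [sum_ind_mem, Fintype.card_fin]
    simp
  rw [av_congr h1, av_const]

/-- a random tuple is good with probability at least one half -/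
theorem good_half (s e N : ℕ) : ∀ᶠ n : ℕ in atTop,
    ∀ (γ : Type) [Fintype γ], Fintype.card γ ≤ N → ∀ f : γ → (Fin n → Bool) → Bool,
    (∀ g r, 1 ≤ r → r ≤ s → numMS (f g) (fun _ => false) r ≤ (n : ℝ) ^ (1 / 2 : ℝ)) →
    ∀ E : Finset (Fin n), E.card ≤ e →
    1 / 2 ≤ av (fun w : Fin s → Fin n => ind (Function.Injective w ∧ (∀ j, w j ∉ E) ∧
      ∀ g, f g (flipS (univ.image w) (fun _ => false)) = f g (fun _ => false))) := by
  classical
  set A : ℝ := (s : ℝ) * s + s * e + N * (s * ((s : ℝ) + 1) ^ s) with hA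
  have hA0 : 0 ≤ A := by positivity
  have hlim : Tendsto (fun n : ℕ => ((n : ℝ)) ^ (1 / 2 : ℝ)) atTop atTop :=
    (tendsto_rpow_atTop (by norm_num)).comp tendsto_natCast_atTop_atTop
  filter_upwards [hlim.eventually_ge_atTop (2 * A), eventually_ge_atTop 1] with n hnA hn
  intro γ _ hγ f hf E hE
  have : Nonempty (Fin n) := ⟨⟨0, hn⟩⟩
  have hnR : (1 : ℝ) ≤ n := by exact_mod_cast hn
  have hn0 : (0 : ℝ) < n := by linarith
  have hpt : ∀ w : Fin s → Fin n,
      1 - ((∑ p : Fin s × Fin s, (if p.1 ≠ p.2 then ind (w p.1 = w p.2) else 0)) +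
        (∑ j : Fin s, ind (w j ∈ E)) +
        ∑ g : γ, ind (f g (flipS (univ.image w) (fun _ => false)) ≠ f g (fun _ => false))) ≤
      ind (Function.Injective w ∧ (∀ j, w j ∉ E) ∧
      ∀ g, f g (flipS (univ.image w) (fun _ => false)) = f g (fun _ => false)) := by
    intro w
    have n1 : ∀ p : Fin s × Fin s, 0 ≤ (if p.1 ≠ p.2 then ind (w p.1 = w p.2) else 0) := by
      intro p; split_ifs
      · exact ind_nonneg _
      · exact le_rfl
    have n2 : ∀ j : Fin s, 0 ≤ ind (w j ∈ E) := fun j => ind_nonneg _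
    have n3 : ∀ g : γ, 0 ≤ ind (f g (flipS (univ.image w) (fun _ => false)) ≠
      f g (fun _ => false)) := fun g => ind_nonneg _
    have s1 := Finset.sum_nonneg (s := univ) fun p (_ : p ∈ univ) => n1 p
    have s2 := Finset.sum_nonneg (s := univ) fun j (_ : j ∈ univ) => n2 j
    have s3 := Finset.sum_nonneg (s := univ) fun g (_ : g ∈ univ) => n3 g
    by_cases hgood : Function.Injective w ∧ (∀ j, w j ∉ E) ∧
      ∀ g, f g (flipS (univ.image w) (fun _ => false)) = f g (fun _ => false)
    · rw [ind_true' hgood]; linarith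
    · rw [ind_false' hgood]
      by_cases h1 : Function.Injective w
      · by_cases h2 : ∀ j, w j ∉ E
        · have h3 : ∃ g, f g (flipS (univ.image w) (fun _ => false)) ≠ f g (fun _ => false) := by
            by_contra hcon
            push Not at hcon
            exact hgood ⟨h1, h2, hcon⟩
          obtain ⟨g, hg⟩ := h3
          have := Finset.single_le_sum (f := fun g => ind (f g (flipS (univ.image w)
            (fun _ => false)) ≠ f g (fun _ => false))) (fun g _ => n3 g) (Finset.mem_univ g)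
          simp only [ind_true' hg] at this
          linarith
        · push Not at h2
          obtain ⟨j, hj⟩ := h2
          have := Finset.single_le_sum (f := fun j => ind (w j ∈ E)) (fun j _ => n2 j)
            (Finset.mem_univ j)
          simp only [ind_true' hj] at this
          linarith
      · unfold Function.Injective at h1
        push Not at h1
        obtain ⟨i, j, hij, hne⟩ := h1
        have := Finset.single_le_sum (f := fun p : Fin s × Fin s =>
          (if p.1 ≠ p.2 then ind (w p.1 = w p.2) else 0)) (fun p _ => n1 p)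
          (Finset.mem_univ (i, j))
        simp only [if_pos hne, ind_true' hij] at this
        linarith
  refine le_trans ?_ (av_mono hpt)
  rw [av_sub, av_add, av_add, av_sum, av_sum, av_sum, av_const]
  have b1 : ∑ p : Fin s × Fin s, av (fun w : Fin s → Fin n =>
      (if p.1 ≠ p.2 then ind (w p.1 = w p.2) else 0)) ≤ (s : ℝ) * s / n := by
    have : ∀ p : Fin s × Fin s, av (fun w : Fin s → Fin n =>
        (if p.1 ≠ p.2 then ind (w p.1 = w p.2) else 0)) ≤ 1 / n := by
      intro p
      by_cases hp : p.1 ≠ p.2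
      · simp only [if_pos hp]
        exact (av_eq_le hn hp).le
      · simp only [if_neg hp]
        rw [av_zero]; positivity
    refine (Finset.sum_le_sum fun p _ => this p).trans ?_
    rw [Finset.sum_const, Finset.card_univ, Fintype.card_prod, Fintype.card_fin, nsmul_eq_mul]
    push_cast
    rw [mul_one_div]
  have b2 : ∑ j : Fin s, av (fun w : Fin s → Fin n => ind (w j ∈ E)) ≤ (s : ℝ) * e / n := by
    have : ∀ j : Fin s, av (fun w : Fin s → Fin n => ind (w j ∈ E)) ≤ (e : ℝ) / n := by
      intro j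
      rw [av_mem_le hn E j]
      exact div_le_div_of_nonneg_right (by exact_mod_cast hE) hn0.le
    refine (Finset.sum_le_sum fun j _ => this j).trans ?_
    rw [Finset.sum_const, Finset.card_univ, Fintype.card_fin, nsmul_eq_mul, mul_div_assoc]
  have b3 : ∑ g : γ, av (fun w : Fin s → Fin n => ind (f g (flipS (univ.image w)
      (fun _ => false)) ≠ f g (fun _ => false))) ≤
      (N : ℝ) * (s * ((n : ℝ) ^ (1 / 2 : ℝ) * ((s : ℝ) + 1) ^ s / n)) := by
    refine (Finset.sum_le_sum fun g _ => av_change_le hn (f g)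
      (Real.rpow_nonneg hn0.le (1 / 2 : ℝ)) (hf g)).trans ?_
    rw [Finset.sum_const, Finset.card_univ, nsmul_eq_mul]
    refine mul_le_mul_of_nonneg_right (by exact_mod_cast hγ) (by positivity)
  -- numerics
  set r := (n : ℝ) ^ (1 / 2 : ℝ) with hr
  have hr1 : 1 ≤ r := Real.one_le_rpow hnR (by norm_num)
  have hrr : r * r = n := by
    rw [hr, ← Real.rpow_add hn0]; norm_num
  have hr0 : 0 < r := by linarith
  have hb : (s : ℝ) * s / n + (s : ℝ) * e / n +
      (N : ℝ) * (s * (r * ((s : ℝ) + 1) ^ s / n)) ≤ 1 / 2 := by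
    have h1 : (s : ℝ) * s / n + (s : ℝ) * e / n +
      (N : ℝ) * (s * (r * ((s : ℝ) + 1) ^ s / n)) ≤ A * r / n := by
      rw [hA]
      have h2 : (s : ℝ) * s / n ≤ (s : ℝ) * s * r / n := by
        refine div_le_div_of_nonneg_right ?_ hn0.le
        nlinarith [mul_nonneg (Nat.cast_nonneg (α := ℝ) s) (Nat.cast_nonneg (α := ℝ) s)]
      have h3 : (s : ℝ) * e / n ≤ (s : ℝ) * e * r / n := by
        refine div_le_div_of_nonneg_right ?_ hn0.le
        nlinarith [mul_nonneg (Nat.cast_nonneg (α := ℝ) s) (Nat.cast_nonneg (α := ℝ) e)]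
      have h4 : (N : ℝ) * (s * (r * ((s : ℝ) + 1) ^ s / n)) =
          N * (s * ((s : ℝ) + 1) ^ s) * r / n := by ring
      rw [h4]
      have h5 : ((s : ℝ) * s + s * e + N * (s * ((s : ℝ) + 1) ^ s)) * r / n =
          (s : ℝ) * s * r / n + (s : ℝ) * e * r / n + N * (s * ((s : ℝ) + 1) ^ s) * r / n := by
        ring
      rw [h5]
      linarith
    refine h1.trans ?_
    rw [div_le_iff₀ hn0, ← hrr]
    nlinarith
  linarith

/-! ### Overriding internal bits -/

section ovr

variable {κ ι V : Type}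

lemma ovr_ovr (g γ : St κ ι) (M : St κ (V ⊕ ι)) : ovr g (ovr γ M) = ovr g M := by
  funext ⟨x, y, c⟩
  rcases x with x | x <;> rcases y with y | y <;> rfl

variable [Fintype κ] [DecidableEq κ] [Fintype V] [DecidableEq V] [Fintype ι] [DecidableEq ι]

/-- averaging over the internal bits -/
lemma av_ovr (H : St κ (V ⊕ ι) → ℝ) :
    av H = av (fun γ : St κ ι => av (fun M => H (ovr γ M))) := by
  classical
  rw [av_comm]
  rw [av_mix (I := (V ⊕ ι) × (V ⊕ ι) × κ) (Y := Bool)
    {p | ∃ k k' : ι, p.1 = Sum.inr k ∧ p.2.1 = Sum.inr k'} H]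
  refine av_congr fun M => ?_
  rw [← av_pull (κ := κ) (X := V ⊕ ι) (Y := ι) Sum.inr Sum.inr_injective (fun γ => H (ovr γ M))]
  refine av_congr fun M' => ?_
  congr 1
  funext ⟨x, y, c⟩
  rcases x with x | x <;> rcases y with y | y <;> simp [mix, ovr, pull]

/-- fixing the internal bits costs a constant factor -/
lemma av_ovr_le (H : St κ (V ⊕ ι) → ℝ) (hH : ∀ M, 0 ≤ H M) (g : St κ ι) :
    av (fun M => H (ovr g M)) ≤ Fintype.card (St κ ι) * av H := by
  rw [av_ovr H, ← sum_eq_card_mul_av]
  exact Finset.single_le_sum (f := fun γ : St κ ι => av (fun M => H (ovr γ M)))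
    (fun γ _ => av_nonneg fun M => hH _) (Finset.mem_univ g)

end ovr

/-- view of the structure `T` on vertices and fresh copies -/
noncomputable def view {κ ι V : Type} (t : St κ V → Bool) (a : ι → V) (B : Finset ι)
    (T : St κ ((V × Bool) ⊕ ι)) (z : V → Bool) : Bool :=
  t (pull (ctx a B) (pull (Sum.map (fun x => (x, z x)) id) T))

/-- structures with many minimal sensitive sets, for some internal data -/
def Bad {κ ι : Type} {n : ℕ} (s : ℕ) (t : St κ (Fin n) → Bool) (a : ι → Fin n) (B : Finset ι)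
    (T : St κ ((Fin n × Bool) ⊕ ι)) : Prop :=
  ∃ g : St κ ι, ∃ r, 1 ≤ r ∧ r ≤ s ∧
    (n : ℝ) ^ (1 / 2 : ℝ) < numMS (view t a B (ovr g T)) (fun _ => false) r

theorem av_bad_le (κ : Type) [Fintype κ] [DecidableEq κ] (hTKv : StmtTKv κ) (ι : Type)
    [Fintype ι] [DecidableEq ι] (s c K j : ℕ) (C : ℝ) : ∀ᶠ n : ℕ in atTop,
    ∀ t : St κ (Fin n) → Bool, Lev c (n ^ K) j t → ∀ (a : ι → Fin n) (B : Finset ι),
    av (fun T : St κ ((Fin n × Bool) ⊕ ι) => ind (Bad s t a B T)) ≤ (n : ℝ) ^ (-C) := by
  classical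
  set N : ℕ := Fintype.card (St κ ι) with hN
  have hall : ∀ᶠ n : ℕ in atTop, ∀ r ∈ Finset.Icc 1 s,
      ∀ t : St κ (Fin n) → Bool, Lev c (n ^ K) j t → ∀ (a : ι → Fin n) (B : Finset ι),
      av (fun T : St κ ((Fin n × Bool) ⊕ ι) => ind ((n : ℝ) ^ (1 / 2 : ℝ) <
        numMS (fun z : Fin n → Bool =>
          t (pull (ctx a B) (pull (Sum.map (fun x => (x, z x)) id) T))) (fun _ => false) r))
        ≤ (n : ℝ) ^ (-(C + 1)) := by
    rw [Filter.eventually_all_finset]
    intro r _
    exact hTKv ι c K j r (1 / 2) (C + 1) (by norm_num)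
  filter_upwards [hall, eventually_ge_atTop (N * (s * N)), eventually_ge_atTop 1] with n h hnN hn
  intro t ht a B
  have hnR : (1 : ℝ) ≤ n := by exact_mod_cast hn
  have hn0 : (0 : ℝ) < n := by linarith
  have hpt : ∀ T : St κ ((Fin n × Bool) ⊕ ι), ind (Bad s t a B T) ≤
      ∑ g : St κ ι, ∑ r ∈ Finset.Icc 1 s, ind ((n : ℝ) ^ (1 / 2 : ℝ) <
        numMS (view t a B (ovr g T)) (fun _ => false) r) := by
    intro T
    by_cases hb : Bad s t a B T
    · obtain ⟨g, r, hr1, hr2, hgr⟩ := hb
      have hr : r ∈ Finset.Icc 1 s := Finset.mem_Icc.2 ⟨hr1, hr2⟩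
      refine le_trans ?_ (Finset.single_le_sum (f := fun g : St κ ι => ∑ r ∈ Finset.Icc 1 s,
        ind ((n : ℝ) ^ (1 / 2 : ℝ) < numMS (view t a B (ovr g T)) (fun _ => false) r))
        (fun g _ => Finset.sum_nonneg fun r _ => ind_nonneg _) (Finset.mem_univ g))
      refine le_trans ?_ (Finset.single_le_sum (f := fun r =>
        ind ((n : ℝ) ^ (1 / 2 : ℝ) < numMS (view t a B (ovr g T)) (fun _ => false) r))
        (fun r _ => ind_nonneg _) hr)
      rw [ind_true' hgr]
      exact ind_le_one _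
    · rw [ind_false' hb]
      exact Finset.sum_nonneg fun g _ => Finset.sum_nonneg fun r _ => ind_nonneg _
  refine (av_mono hpt).trans ?_
  rw [av_sum]
  have hg : ∀ g : St κ ι, av (fun T : St κ ((Fin n × Bool) ⊕ ι) => ∑ r ∈ Finset.Icc 1 s,
      ind ((n : ℝ) ^ (1 / 2 : ℝ) < numMS (view t a B (ovr g T)) (fun _ => false) r)) ≤
      (s : ℝ) * (N * (n : ℝ) ^ (-(C + 1))) := by
    intro g
    rw [av_sum]
    have hr : ∀ r ∈ Finset.Icc 1 s, av (fun T : St κ ((Fin n × Bool) ⊕ ι) =>
        ind ((n : ℝ) ^ (1 / 2 : ℝ) < numMS (view t a B (ovr g T)) (fun _ => false) r)) ≤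
        N * (n : ℝ) ^ (-(C + 1)) := by
      intro r hr
      have h1 := av_ovr_le (κ := κ) (V := Fin n × Bool) (ι := ι)
        (fun T => ind ((n : ℝ) ^ (1 / 2 : ℝ) < numMS (view t a B T) (fun _ => false) r))
        (fun T => ind_nonneg _) g
      refine h1.trans ?_
      exact mul_le_mul_of_nonneg_left (h r hr t ht a B) (Nat.cast_nonneg _)
    refine (Finset.sum_le_sum hr).trans ?_
    rw [Finset.sum_const, Nat.card_Icc, nsmul_eq_mul, Nat.add_sub_cancel]
  refine (Finset.sum_le_sum fun g _ => hg g).trans ?_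
  rw [Finset.sum_const, Finset.card_univ, nsmul_eq_mul, ← hN]
  have h1 : (n : ℝ) * (n : ℝ) ^ (-(C + 1)) = (n : ℝ) ^ (-C) := by
    nth_rw 1 [← Real.rpow_one (n : ℝ)]
    rw [← Real.rpow_add hn0]; congr 1; ring
  have h2 : (N : ℝ) * (s * N) ≤ n := by exact_mod_cast hnN
  calc (N : ℝ) * ((s : ℝ) * (N * (n : ℝ) ^ (-(C + 1))))
      = ((N : ℝ) * (s * N)) * (n : ℝ) ^ (-(C + 1)) := by ring
    _ ≤ n * (n : ℝ) ^ (-(C + 1)) :=
        mul_le_mul_of_nonneg_right h2 (Real.rpow_nonneg hn0.le _)
    _ = (n : ℝ) ^ (-C) := h1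

end EXP

end ZOL
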