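import Pool.Agent.ZOL.AvM
import Pool.Agent.ZOL.EXProb

/-!
# EX: the exchange lemma
-/

set_option autoImplicit false

open Finset Filter Topology

namespace ZOL

namespace EX

section maps
variable {κ ι : Type} {n s : ℕ}

/-- the base marks `w` become marks -/
noncomputable def cw (w : Fin s → Fin n) : Fin n ⊕ ι → Fin n ⊕ (ι ⊕ Fin s)
  | Sum.inl x => Sum.map id Sum.inr (ctx w univ x)
  | Sum.inr k => Sum.inr (Sum.inl k)

/-- no fresh copies -/
def s0 : Fin n ⊕ (ι ⊕ Fin s) → (Fin n × Bool) ⊕ (ι ⊕ Fin s) := Sum.map (fun x => (x, false)) id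

/-- the view of `T` in which the vertices `w` are fresh and the old `w` sit at `x` -/
noncomputable def ee (w x : Fin s → Fin n) : Fin n ⊕ (ι ⊕ Fin s) → (Fin n × Bool) ⊕ (ι ⊕ Fin s)
  | Sum.inl z => match ctx x univ z with
    | Sum.inr j => Sum.inl (w j, false)
    | Sum.inl _ => Sum.inl (z, decide (z ∈ univ.image w))
  | Sum.inr k => Sum.inr k

/-- the swap -/
noncomputable def tau (w x : Fin s → Fin n) (z : Fin n) : Fin n :=
  match ctx x univ z with
  | Sum.inr j => w j
  | Sum.inl _ => match ctx w univ z with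
    | Sum.inr j => x j
    | Sum.inl _ => z

theorem ctx_at {w : Fin s → Fin n} (hw : Function.Injective w) (j : Fin s) :
    ctx w univ (w j) = Sum.inr j := ctx_of_mem hw.injOn (mem_univ j)

theorem ctx_off {w : Fin s → Fin n} {z : Fin n} (h : ∀ j, w j ≠ z) :
    ctx w univ z = Sum.inl z := ctx_of_notMem fun j _ => h j

theorem cw_at {w : Fin s → Fin n} (hw : Function.Injective w) (j : Fin s) :
    cw (ι := ι) w (Sum.inl (w j)) = Sum.inr (Sum.inr j) := by
  rw [cw, ctx_at hw]; rfl

theorem cw_off {w : Fin s → Fin n} {z : Fin n} (h : ∀ j, w j ≠ z) :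
    cw (ι := ι) w (Sum.inl z) = Sum.inl z := by
  rw [cw, ctx_off h]; rfl

theorem cw_inj {w : Fin s → Fin n} (hw : Function.Injective w) :
    Function.Injective (cw (ι := ι) w) := by
  have h1 : ∀ z : Fin n, (∃ j, w j = z) ∨ ∀ j, w j ≠ z := fun z => by
    by_cases h : ∃ j, w j = z
    · exact Or.inl h
    · right; push Not at h; exact h
  rintro (z | k) (z' | k') h
  · rcases h1 z with ⟨j, rfl⟩ | hz <;> rcases h1 z' with ⟨j', rfl⟩ | hz'
    · rw [cw_at hw, cw_at hw] at h
      rw [Sum.inr.inj (Sum.inr.inj h)]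
    · rw [cw_at hw, cw_off hz'] at h; exact absurd h (by simp)
    · rw [cw_at hw, cw_off hz] at h; exact absurd h (by simp)
    · rw [cw_off hz, cw_off hz'] at h
      rw [Sum.inl.inj h]
  · rcases h1 z with ⟨j, rfl⟩ | hz
    · rw [cw_at hw] at h; simp [cw] at h
    · rw [cw_off hz] at h; simp [cw] at h
  · rcases h1 z' with ⟨j, rfl⟩ | hz
    · rw [cw_at hw] at h; simp [cw] at h
    · rw [cw_off hz] at h; simp [cw] at h
  · simp only [cw, Sum.inr.injEq, Sum.inl.injEq] at h
    rw [h]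

theorem s0_inj : Function.Injective (s0 (ι := ι) (n := n) (s := s)) := by
  rintro (z | k) (z' | k') h
  · simp [s0] at h; rw [h]
  · simp [s0] at h
  · simp [s0] at h
  · simp [s0] at h; rw [h]

theorem ee_at {w x : Fin s → Fin n} (hx : Function.Injective x) (j : Fin s) :
    ee (ι := ι) w x (Sum.inl (x j)) = Sum.inl (w j, false) := by
  rw [ee, ctx_at hx]

theorem ee_off {w x : Fin s → Fin n} {z : Fin n} (h : ∀ j, x j ≠ z) :
    ee (ι := ι) w x (Sum.inl z) = Sum.inl (z, decide (z ∈ univ.image w)) := by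
  rw [ee, ctx_off h]

theorem dich (w : Fin s → Fin n) (z : Fin n) : (∃ j, w j = z) ∨ ∀ j, w j ≠ z := by
  by_cases h : ∃ j, w j = z
  · exact Or.inl h
  · right; push Not at h; exact h

theorem ee_inj {w x : Fin s → Fin n} (hw : Function.Injective w) (hx : Function.Injective x) :
    Function.Injective (ee (ι := ι) w x) := by
  rintro (z | k) (z' | k') h
  · rcases dich x z with ⟨j, rfl⟩ | hz <;> rcases dich x z' with ⟨j', rfl⟩ | hz'
    · rw [ee_at hx, ee_at hx] at h
      rw [hw (Prod.mk.inj (Sum.inl.inj h)).1]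
    · rw [ee_at hx, ee_off hz'] at h
      have h2 := Prod.mk.inj (Sum.inl.inj h)
      have h3 : z' ∈ univ.image w := by rw [← h2.1]; exact mem_image_of_mem w (mem_univ j)
      rw [decide_eq_true h3] at h2
      exact absurd h2.2 (by simp)
    · rw [ee_at hx, ee_off hz] at h
      have h2 := Prod.mk.inj (Sum.inl.inj h)
      have h3 : z ∈ univ.image w := by rw [h2.1]; exact mem_image_of_mem w (mem_univ j')
      rw [decide_eq_true h3] at h2
      exact absurd h2.2 (by simp)
    · rw [ee_off hz, ee_off hz'] at h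
      rw [(Prod.mk.inj (Sum.inl.inj h)).1]
  · rcases dich x z with ⟨j, rfl⟩ | hz
    · rw [ee_at hx] at h; simp [ee] at h
    · rw [ee_off hz] at h; simp [ee] at h
  · rcases dich x z' with ⟨j, rfl⟩ | hz
    · rw [ee_at hx] at h; simp [ee] at h
    · rw [ee_off hz] at h; simp [ee] at h
  · simp only [ee, Sum.inr.injEq] at h
    rw [h]

section gen
variable {w x : Fin s → Fin n} (hw : Function.Injective w) (hx : Function.Injective x)
  (hd : ∀ i j, w i ≠ x j)
include hw hx hd

omit hw hd in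
theorem tau_x (j : Fin s) : tau w x (x j) = w j := by
  rw [tau, ctx_at hx]

omit hx in
theorem tau_w (j : Fin s) : tau w x (w j) = x j := by
  rw [tau, ctx_off (fun i => (hd j i).symm), ctx_at hw]

omit hw hx hd in
theorem tau_off {z : Fin n} (h1 : ∀ j, x j ≠ z) (h2 : ∀ j, w j ≠ z) : tau w x z = z := by
  rw [tau, ctx_off h1, ctx_off h2]

theorem tau_tau (z : Fin n) : tau w x (tau w x z) = z := by
  rcases dich x z with ⟨j, rfl⟩ | h1
  · rw [tau_x hx, tau_w hw hd]
  · rcases dich w z with ⟨j, rfl⟩ | h2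
    · rw [tau_w hw hd, tau_x hx]
    · rw [tau_off h1 h2, tau_off h1 h2]

/-- the swap as a permutation -/
noncomputable def tauPerm : Equiv.Perm (Fin n) :=
  (show Function.Involutive (tau w x) from tau_tau hw hx hd).toPerm

theorem exch (T : St κ ((Fin n × Bool) ⊕ (ι ⊕ Fin s))) :
    pull (cw x) (pull s0 T) =
      pull (Sum.map (tauPerm hw hx hd) id) (pull (cw w) (pull (ee w x) T)) := by
  rw [pull_pull, pull_pull, pull_pull]
  congr 1
  funext z
  rcases z with z | k
  · show s0 (cw x (Sum.inl z)) = ee w x (cw w (Sum.inl (tau w x z)))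
    rcases dich x z with ⟨j, rfl⟩ | h1
    · rw [cw_at hx, tau_x hx, cw_at hw]; rfl
    · rcases dich w z with ⟨j, rfl⟩ | h2
      · rw [cw_off h1, tau_w hw hd, cw_off (fun i => hd i j), ee_at hx]; rfl
      · rw [cw_off h1, tau_off h1 h2, cw_off h2, ee_off h1]
        have h3 : z ∉ univ.image w := by
          rw [mem_image]; rintro ⟨j, _, hj⟩; exact h2 j hj
        rw [decide_eq_false h3]; rfl
  · rfl

theorem D_exch {D1 : St κ (Fin n ⊕ ι) → (Fin s → Fin n) → ℝ} (hD1 : Sym D1)
    (T : St κ ((Fin n × Bool) ⊕ (ι ⊕ Fin s))) :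
    D1 (pull (cw x) (pull s0 T)) x = D1 (pull (cw w) (pull (ee w x) T)) w := by
  rw [exch hw hx hd T, hD1]
  congr 1
  funext j
  exact tau_x hx j

end gen

/-- extension of the internal data -/
def ext (g : St κ ι) (γ : St κ (ι ⊕ Fin s)) : St κ (ι ⊕ Fin s)
  | (Sum.inl k, Sum.inl k', c) => g (k, k', c)
  | p => γ p

variable [DecidableEq ι]

/-- all marks -/
abbrev UU (s : ℕ) (I : Finset ι) : Finset (ι ⊕ Fin s) := I.disjSum univ

omit [DecidableEq ι] in
theorem cw_ctx {I : Finset ι} {a : ι → Fin n} {x : Fin s → Fin n}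
    (ha : Set.InjOn a (↑I : Set ι)) (hx : Function.Injective x) (hax : ∀ i, ∀ k ∈ I, x i ≠ a k)
    (z : Fin n) : cw x (ctx a I z) = ctx (Sum.elim a x) (UU s I) z := by
  have hb : Set.InjOn (Sum.elim a x) (↑(UU s I) : Set (ι ⊕ Fin s)) := by
    rintro (k | j) hk (k' | j') hk' h
    · rw [mem_coe, inl_mem_disjSum] at hk hk'
      rw [ha hk hk' h]
    · rw [mem_coe, inl_mem_disjSum] at hk
      exact absurd h.symm (hax j' k hk)
    · rw [mem_coe, inl_mem_disjSum] at hk'
      exact absurd h (hax j k' hk')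
    · rw [hx h]
  rcases ctx_spec a I z with ⟨k, hk, hkz, hc⟩ | ⟨hne, hc⟩
  · rw [hc]
    have : ctx (Sum.elim a x) (UU s I) (Sum.elim a x (Sum.inl k)) = Sum.inr (Sum.inl k) :=
      ctx_of_mem hb (inl_mem_disjSum.2 hk)
    rw [← hkz]
    exact this.symm
  · rw [hc]
    rcases dich x z with ⟨j, rfl⟩ | h1
    · rw [cw_at hx]
      have : ctx (Sum.elim a x) (UU s I) (Sum.elim a x (Sum.inr j)) = Sum.inr (Sum.inr j) :=
        ctx_of_mem hb (inr_mem_disjSum.2 (mem_univ j))
      exact this.symm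
    · rw [cw_off h1]
      refine (ctx_of_notMem ?_).symm
      rintro (k | j) hk
      · exact hne k (inl_mem_disjSum.1 hk)
      · exact h1 j

omit [DecidableEq ι] in
/-- inserting the marks of `I` in the structure with base marks at `x` -/
theorem glue_cw (g : St κ ι) {I : Finset ι} {a : ι → Fin n} {x : Fin s → Fin n}
    (ha : Set.InjOn a (↑I : Set ι)) (hx : Function.Injective x) (hax : ∀ i, ∀ k ∈ I, x i ≠ a k)
    (M : St κ (Fin n ⊕ (ι ⊕ Fin s))) :
    glue g a I (pull (cw x) M) =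
      glue (ext g (pull Sum.inr M)) (Sum.elim a x) (UU s I) M := by
  funext p
  show ovr g (pull (cw x) M) (ctx a I p.1, ctx a I p.2.1, p.2.2) =
    ovr (ext g (pull Sum.inr M)) M (ctx (Sum.elim a x) (UU s I) p.1,
      ctx (Sum.elim a x) (UU s I) p.2.1, p.2.2)
  rw [← cw_ctx ha hx hax, ← cw_ctx ha hx hax]
  generalize ctx a I p.1 = q1
  generalize ctx a I p.2.1 = q2
  have key : ∀ q1 q2 : Fin n ⊕ ι, (∀ k k', ¬ (q1 = Sum.inr k ∧ q2 = Sum.inr k')) →
      M (cw x q1, cw x q2, p.2.2) = ovr (ext g (pull Sum.inr M)) M (cw x q1, cw x q2, p.2.2) := by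
    intro q1 q2 hq
    rcases h1 : cw x q1 with z1 | l1
    · rw [ovr_inl_left]
    · rcases h2 : cw x q2 with z2 | l2
      · rw [ovr_inl_right]
      · rw [ovr_inr]
        rcases l1 with k | j <;> rcases l2 with k' | j'
        · exfalso
          have e1 : ∀ (q : Fin n ⊕ ι) (k : ι), cw x q = Sum.inr (Sum.inl k) → q = Sum.inr k := by
            intro q k h
            rcases q with z | k0
            · rcases dich x z with ⟨j, rfl⟩ | h1
              · rw [cw_at hx] at h; exact absurd h (by simp)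
              · rw [cw_off h1] at h; exact absurd h (by simp)
            · simp only [cw, Sum.inr.injEq, Sum.inl.injEq] at h
              rw [h]
          exact hq k k' ⟨e1 _ _ h1, e1 _ _ h2⟩
        · rfl
        · rfl
        · rfl
  rcases q1 with z1 | k1
  · rw [ovr_inl_left]
    exact key _ _ (by simp)
  · rcases q2 with z2 | k2
    · rw [ovr_inl_right]
      exact key _ _ (by simp)
    · rfl

theorem flipS_pull_inj {X Y : Type} [DecidableEq X] [DecidableEq Y] [DecidableEq κ] (e : Y → X)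
    (he : Function.Injective e) (M : St κ X) (i : Y × Y × κ) :
    flipS {i} (pull e M) = pull e (flipS {(e i.1, e i.2.1, i.2.2)} M) := by
  funext p
  rw [flipS_apply]
  show _ = flipS {(e i.1, e i.2.1, i.2.2)} M (e p.1, e p.2.1, p.2.2)
  rw [flipS_apply]
  have : p ∈ ({i} : Finset (Y × Y × κ)) ↔
      (e p.1, e p.2.1, p.2.2) ∈ ({(e i.1, e i.2.1, i.2.2)} : Finset (X × X × κ)) := by
    rw [mem_singleton, mem_singleton]
    constructor
    · rintro rfl; rfl
    · intro h
      obtain ⟨h1, h2⟩ := Prod.mk.inj h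
      obtain ⟨h3, h4⟩ := Prod.mk.inj h2
      exact Prod.ext (he h1) (Prod.ext (he h3) h4)
  by_cases h : p ∈ ({i} : Finset (Y × Y × κ))
  · rw [if_pos h, if_pos (this.1 h)]; rfl
  · rw [if_neg h, if_neg (fun h' => h (this.2 h'))]; rfl

/-- flipping an internal bit only changes the internal data -/
theorem glue_flip_int {ι' : Type} [DecidableEq ι'] [DecidableEq κ] (g : St κ ι') (b : ι' → Fin n)
    (A : Finset ι') (M : St κ (Fin n ⊕ ι')) (l l' : ι') (c : κ) :
    glue g b A (flipS {(Sum.inr l, Sum.inr l', c)} M) = glue g b A M := by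
  have : ovr g (flipS {(Sum.inr l, Sum.inr l', c)} M) = ovr g M := by
    funext p
    rcases p with ⟨x | k, y | k', c'⟩
    · rw [ovr_inl_left, ovr_inl_left, flipS_apply, if_neg (by simp)]
    · rw [ovr_inl_left, ovr_inl_left, flipS_apply, if_neg (by simp)]
    · rw [ovr_inl_right, ovr_inl_right, flipS_apply, if_neg (by simp)]
    · rfl
  unfold glue
  rw [this]

/-- the internal data outside `A × A` does not matter -/
theorem glue_int_congr {ι' : Type} {g g' : St κ ι'} (b : ι' → Fin n) {A : Finset ι'}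
    (h : ∀ l ∈ A, ∀ l' ∈ A, ∀ c, g (l, l', c) = g' (l, l', c)) (M : St κ (Fin n ⊕ ι')) :
    glue g b A M = glue g' b A M := by
  funext p
  show ovr g M (ctx b A p.1, ctx b A p.2.1, p.2.2) = ovr g' M (ctx b A p.1, ctx b A p.2.1, p.2.2)
  rcases ctx_spec b A p.1 with ⟨k, hk, _, hc⟩ | ⟨_, hc⟩
  · rcases ctx_spec b A p.2.1 with ⟨k', hk', _, hc'⟩ | ⟨_, hc'⟩
    · rw [hc, hc', ovr_inr, ovr_inr]
      exact h k hk k' hk' _
    · rw [hc', ovr_inl_right, ovr_inl_right]
  · rw [hc, ovr_inl_left, ovr_inl_left]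

omit [DecidableEq ι] in
/-- inserting all marks in the exchanged structure -/
theorem glue_ee (g' : St κ (ι ⊕ Fin s)) {I : Finset ι} (a : ι → Fin n) {w x : Fin s → Fin n}
    (T : St κ ((Fin n × Bool) ⊕ (ι ⊕ Fin s))) :
    glue g' (Sum.elim a x) (UU s I) (pull (ee w x) T) =
      glue g' (Sum.elim a x) (UU s I) (pull (Sum.map (fun z => (z, flipS (univ.image w)
        (fun _ => false) z)) id) T) := by
  funext p
  show ovr g' (pull (ee w x) T) (ctx (Sum.elim a x) (UU s I) p.1,
      ctx (Sum.elim a x) (UU s I) p.2.1, p.2.2) =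
    ovr g' (pull (Sum.map (fun z => (z, flipS (univ.image w)
        (fun _ => false) z)) id) T) (ctx (Sum.elim a x) (UU s I) p.1,
      ctx (Sum.elim a x) (UU s I) p.2.1, p.2.2)
  have key : ∀ z : Fin n, ee w x (ctx (Sum.elim a x) (UU s I) z) =
      Sum.map (fun z => (z, flipS (univ.image w) (fun _ => false) z)) id
        (ctx (Sum.elim a x) (UU s I) z) := by
    intro z
    rcases ctx_spec (Sum.elim a x) (UU s I) z with ⟨k, hk, _, hc⟩ | ⟨hne, hc⟩
    · rw [hc]; rfl
    · have hne' : ∀ j, x j ≠ z := fun j => hne (Sum.inr j) (inr_mem_disjSum.2 (mem_univ j))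
      rw [hc, ee_off hne']
      rw [Sum.map_inl, flipS_apply]
      by_cases h : z ∈ univ.image w
      · rw [if_pos h, decide_eq_true h]; rfl
      · rw [if_neg h, decide_eq_false h]
  rcases h1 : ctx (Sum.elim a x) (UU s I) p.1 with z1 | l1
  · rw [ovr_inl_left, ovr_inl_left]
    show T (ee w x (Sum.inl z1), ee w x _, _) = T (Sum.map _ id (Sum.inl z1), Sum.map _ id _, _)
    rw [← h1, key, key]
  · rcases h2 : ctx (Sum.elim a x) (UU s I) p.2.1 with z2 | l2
    · rw [ovr_inl_right, ovr_inl_right]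
      show T (ee w x (Sum.inr l1), ee w x (Sum.inl z2), _) =
        T (Sum.map _ id (Sum.inr l1), Sum.map _ id (Sum.inl z2), _)
      rw [← h1, ← h2, key, key]
    · rfl

/-- the value of `t` on the view `z` of `T` with internal data `g'` -/
noncomputable def FF (t : St κ (Fin n) → Bool) (b : (ι ⊕ Fin s) → Fin n)
    (U : Finset (ι ⊕ Fin s)) (T : St κ ((Fin n × Bool) ⊕ (ι ⊕ Fin s))) (g' : St κ (ι ⊕ Fin s))
    (z : Fin n → Bool) : Bool :=
  t (glue g' b U (pull (Sum.map (fun x => (x, z x)) id) T))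

/-- the event after dropping the old base marks -/
def Ev1 [DecidableEq κ] (t : St κ (Fin n) → Bool) (g : St κ ι)
    (I : Finset ι) (ρ : Fin s → ι × κ × Bool) (M : St κ (Fin n ⊕ ι)) (a : ι → Fin n)
    (x : Fin s → Fin n) : Prop :=
  Set.InjOn a (↑I : Set ι) ∧ Function.Injective x ∧ (∀ i, ∀ k ∈ I, x i ≠ a k) ∧
  ∀ i, Sens t g I M a (rb (ρ i) (x i))

/-- the seen implication -/
theorem seen_of_Ev1 [DecidableEq κ] (t : St κ (Fin n) → Bool) (g : St κ ι)
    (I : Finset ι) (ρ : Fin s → ι × κ × Bool) (T : St κ ((Fin n × Bool) ⊕ (ι ⊕ Fin s)))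
    (a : ι → Fin n) (w x : Fin s → Fin n)
    (hEv : Ev1 t g I ρ (pull (cw x) (pull s0 T)) a x)
    (hun : ∀ g' : St κ (ι ⊕ Fin s), FF t (Sum.elim a x) (UU s I) T g'
      (flipS (univ.image w) fun _ => false) =
        FF t (Sum.elim a x) (UU s I) T g' (fun _ => false)) :
    Seen t (UU s I) ((∅ : Finset ι).disjSum univ) (pull (ee w x) T) (Sum.elim a x) := by
  obtain ⟨ha, hx, hax, hS⟩ := hEv
  set b : (ι ⊕ Fin s) → Fin n := Sum.elim a x with hb
  have hbinj : Set.InjOn b (↑(UU s I) : Set (ι ⊕ Fin s)) := by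
    rintro (k | j) hk (k' | j') hk' h
    · rw [mem_coe, inl_mem_disjSum] at hk hk'
      rw [ha hk hk' h]
    · rw [mem_coe, inl_mem_disjSum] at hk
      exact absurd h.symm (hax j' k hk)
    · rw [mem_coe, inl_mem_disjSum] at hk'
      exact absurd h (hax j k' hk')
    · rw [hx h]
  refine ⟨hbinj, ?_⟩
  rintro (k | j) hy
  · simp at hy
  -- the two internal data
  set M0 : St κ (Fin n ⊕ (ι ⊕ Fin s)) := pull s0 T with hM0
  set l : ι ⊕ Fin s := Sum.inl (ρ j).1 with hl
  set i0 : (Fin n ⊕ (ι ⊕ Fin s)) × (Fin n ⊕ (ι ⊕ Fin s)) × κ :=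
    if (ρ j).2.2 then (Sum.inr l, Sum.inr (Sum.inr j), (ρ j).2.1)
      else (Sum.inr (Sum.inr j), Sum.inr l, (ρ j).2.1) with hi0
  have hflip : flipS {rb (ρ j) (x j)} (pull (cw x) M0) = pull (cw x) (flipS {i0} M0) := by
    rw [flipS_pull_inj (cw x) (cw_inj hx)]
    congr 2
    unfold rb
    rw [hi0]
    by_cases hd : (ρ j).2.2 = true
    · rw [if_pos hd, if_pos hd]
      show ({(cw x (Sum.inr (ρ j).1), cw x (Sum.inl (x j)), (ρ j).2.1)} : Finset _) = _
      rw [cw_at hx]; rfl
    · rw [if_neg hd, if_neg hd]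
      show ({(cw x (Sum.inl (x j)), cw x (Sum.inr (ρ j).1), (ρ j).2.1)} : Finset _) = _
      rw [cw_at hx]; rfl
  set g0 : St κ (ι ⊕ Fin s) := ext g (pull Sum.inr M0) with hg0
  set g1 : St κ (ι ⊕ Fin s) := ext g (pull Sum.inr (flipS {i0} M0)) with hg1
  have hgl0 : glue g a I (pull (cw x) M0) = glue g0 b (UU s I) M0 := glue_cw g ha hx hax M0
  have hgl1 : glue g a I (pull (cw x) (flipS {i0} M0)) = glue g1 b (UU s I) M0 := by
    rw [glue_cw g ha hx hax (flipS {i0} M0)]
    show glue g1 b (UU s I) (flipS {i0} M0) = _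
    rw [hi0]
    by_cases hd : (ρ j).2.2 = true
    · rw [if_pos hd]; exact glue_flip_int _ _ _ _ _ _ _
    · rw [if_neg hd]; exact glue_flip_int _ _ _ _ _ _ _
  have hval : ∀ g' : St κ (ι ⊕ Fin s), t (glue g' b (UU s I) (pull (ee w x) T)) =
      t (glue g' b (UU s I) M0) := by
    intro g'
    rw [glue_ee g' a T]
    exact hun g'
  have hne : t (glue g1 b (UU s I) (pull (ee w x) T)) ≠
      t (glue g0 b (UU s I) (pull (ee w x) T)) := by
    rw [hval, hval, ← hgl0, ← hgl1, ← hflip]
    exact hS j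
  have hmem : (Sum.inr j : ι ⊕ Fin s) ∈ UU s I := inr_mem_disjSum.2 (mem_univ j)
  have hins : insert (Sum.inr j) ((UU s I).erase (Sum.inr j)) = UU s I := insert_erase hmem
  have hagree : glue g1 b ((UU s I).erase (Sum.inr j)) (pull (ee w x) T) =
      glue g0 b ((UU s I).erase (Sum.inr j)) (pull (ee w x) T) := by
    refine glue_int_congr b ?_ _
    intro l1 hl1 l2 hl2 c
    have hl1' : l1 ≠ Sum.inr j := (mem_erase.1 hl1).1
    have hl2' : l2 ≠ Sum.inr j := (mem_erase.1 hl2).1
    have hfl : ∀ q1 q2 : ι ⊕ Fin s, q1 ≠ Sum.inr j → q2 ≠ Sum.inr j →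
        flipS {i0} M0 (Sum.inr q1, Sum.inr q2, c) = M0 (Sum.inr q1, Sum.inr q2, c) := by
      intro q1 q2 h1 h2
      rw [flipS_apply, if_neg]
      rw [mem_singleton, hi0]
      intro h
      by_cases hd : (ρ j).2.2 = true
      · rw [if_pos hd] at h
        exact h2 (Sum.inr.inj (Prod.mk.inj (Prod.mk.inj h).2).1)
      · rw [if_neg hd] at h
        exact h1 (Sum.inr.inj (Prod.mk.inj h).1)
    have hfl' := hfl l1 l2 hl1' hl2'
    rcases l1 with k1 | j1 <;> rcases l2 with k2 | j2
    · rfl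
    · exact hfl'
    · exact hfl'
    · exact hfl'
  by_contra hcon
  push Not at hcon
  have h1 := hcon g1 ((UU s I).erase (Sum.inr j)) (erase_subset _ _) (by simp)
  have h0 := hcon g0 ((UU s I).erase (Sum.inr j)) (erase_subset _ _) (by simp)
  rw [hins] at h0 h1
  apply hne
  rw [h1, h0, hagree]

omit [DecidableEq ι] in
theorem FF_eq_view (t : St κ (Fin n) → Bool) (b : (ι ⊕ Fin s) → Fin n)
    (U : Finset (ι ⊕ Fin s)) (T : St κ ((Fin n × Bool) ⊕ (ι ⊕ Fin s))) (g' : St κ (ι ⊕ Fin s)) :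
    FF t b U T g' = EXP.view t b U (ovr g' T) := by
  funext z
  unfold FF EXP.view glue
  congr 2
  funext p
  rcases p with ⟨x | k, y | k', c⟩ <;> rfl

end maps

section partB
variable {κ ι : Type} [Fintype κ] [DecidableEq κ] [Fintype ι] [DecidableEq ι] {n s : ℕ}

/-- the marks `Y` -/
abbrev YY (ι : Type) (s : ℕ) : Finset (ι ⊕ Fin s) := (∅ : Finset ι).disjSum univ

theorem partB (t : St κ (Fin n) → Bool) (g : St κ ι) (I : Finset ι) (ρ : Fin s → ι × κ × Bool)
    (D1 : St κ (Fin n ⊕ ι) → (Fin s → Fin n) → ℝ) (hsym : Sym D1)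
    (h0 : ∀ M w, 0 ≤ D1 M w) (h1 : ∀ M w, D1 M w ≤ 1)
    (hgh : ∀ (f : St κ (ι ⊕ Fin s) → (Fin n → Bool) → Bool),
      (∀ g r, 1 ≤ r → r ≤ s → numMS (f g) (fun _ => false) r ≤ (n : ℝ) ^ (1 / 2 : ℝ)) →
      ∀ E : Finset (Fin n), E.card ≤ s →
      1 / 2 ≤ av (fun w : Fin s → Fin n => ind (Function.Injective w ∧ (∀ j, w j ∉ E) ∧
        ∀ g, f g (flipS (univ.image w) (fun _ => false)) = f g (fun _ => false))))
    (a : ι → Fin n) (x : Fin s → Fin n) :
    av (fun M : St κ (Fin n ⊕ ι) => D1 M x * ind (Ev1 t g I ρ M a x)) ≤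
      2 * av (fun w : Fin s → Fin n => av (fun M' : St κ (Fin n ⊕ (ι ⊕ Fin s)) =>
        D1 (pull (cw w) M') w * ind (Function.Injective w) *
          ind (Seen t (UU s I) (YY ι s) M' (Sum.elim a x)))) +
      av (fun T : St κ ((Fin n × Bool) ⊕ (ι ⊕ Fin s)) =>
        ind (EXP.Bad s t (Sum.elim a x) (UU s I) T)) := by
  classical
  have hnn : 0 ≤ av (fun w : Fin s → Fin n => av (fun M' : St κ (Fin n ⊕ (ι ⊕ Fin s)) =>
        D1 (pull (cw w) M') w * ind (Function.Injective w) *
          ind (Seen t (UU s I) (YY ι s) M' (Sum.elim a x)))) :=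
    av_nonneg fun w => av_nonneg fun M' => mul_nonneg (mul_nonneg (h0 _ _) (ind_nonneg _))
      (ind_nonneg _)
  have hbad : 0 ≤ av (fun T : St κ ((Fin n × Bool) ⊕ (ι ⊕ Fin s)) =>
        ind (EXP.Bad s t (Sum.elim a x) (UU s I) T)) := av_nonneg fun T => ind_nonneg _
  by_cases hx : Function.Injective x
  swap
  · have hz : av (fun M : St κ (Fin n ⊕ ι) => D1 M x * ind (Ev1 t g I ρ M a x)) = 0 := by
      rw [← av_zero (α := St κ (Fin n ⊕ ι))]
      refine av_congr fun M => ?_
      rw [ind_false' fun h => hx h.2.1, mul_zero]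
    rw [hz]
    linarith
  have hpull : av (fun M : St κ (Fin n ⊕ ι) => D1 M x * ind (Ev1 t g I ρ M a x)) =
      av (fun T : St κ ((Fin n × Bool) ⊕ (ι ⊕ Fin s)) => D1 (pull (cw x) (pull s0 T)) x *
        ind (Ev1 t g I ρ (pull (cw x) (pull s0 T)) a x)) := by
    rw [← av_pull (s0 ∘ cw (ι := ι) x) (s0_inj.comp (cw_inj hx))]
    rfl
  rw [hpull]
  -- pointwise
  set G : (Fin s → Fin n) → St κ ((Fin n × Bool) ⊕ (ι ⊕ Fin s)) → ℝ := fun w T =>
    ind (Function.Injective w ∧ ∀ j, w j ∉ univ.image x) *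
      (D1 (pull (cw w) (pull (ee w x) T)) w *
        ind (Seen t (UU s I) (YY ι s) (pull (ee w x) T) (Sum.elim a x))) with hG
  have hG0 : ∀ w T, 0 ≤ G w T := fun w T =>
    mul_nonneg (ind_nonneg _) (mul_nonneg (h0 _ _) (ind_nonneg _))
  have hpt : ∀ T : St κ ((Fin n × Bool) ⊕ (ι ⊕ Fin s)), D1 (pull (cw x) (pull s0 T)) x *
        ind (Ev1 t g I ρ (pull (cw x) (pull s0 T)) a x) ≤
      2 * av (fun w => G w T) + ind (EXP.Bad s t (Sum.elim a x) (UU s I) T) := by
    intro T
    have hav0 : 0 ≤ av (fun w => G w T) := av_nonneg fun w => hG0 w T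
    by_cases hb : EXP.Bad s t (Sum.elim a x) (UU s I) T
    · rw [ind_true' hb]
      have : D1 (pull (cw x) (pull s0 T)) x *
        ind (Ev1 t g I ρ (pull (cw x) (pull s0 T)) a x) ≤ 1 * 1 :=
        mul_le_mul (h1 _ _) (ind_le_one _) (ind_nonneg _) zero_le_one
      linarith
    · rw [ind_false' hb, add_zero]
      by_cases hEv : Ev1 t g I ρ (pull (cw x) (pull s0 T)) a x
      · rw [ind_true' hEv, mul_one]
        have hhalf := hgh (fun g' => FF t (Sum.elim a x) (UU s I) T g') (fun g' r hr1 hr2 => by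
          by_contra hcon
          push Not at hcon
          apply hb
          refine ⟨g', r, hr1, hr2, ?_⟩
          rw [← FF_eq_view]
          exact hcon) (univ.image x) (by
            refine card_image_le.trans ?_
            rw [card_univ, Fintype.card_fin])
        have hle : av (fun w : Fin s → Fin n => ind (Function.Injective w ∧
            (∀ j, w j ∉ univ.image x) ∧ ∀ g' : St κ (ι ⊕ Fin s),
              FF t (Sum.elim a x) (UU s I) T g' (flipS (univ.image w) (fun _ => false)) =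
              FF t (Sum.elim a x) (UU s I) T g' (fun _ => false)) *
              D1 (pull (cw x) (pull s0 T)) x) ≤ av (fun w => G w T) := by
          refine av_mono fun w => ?_
          by_cases hw : Function.Injective w ∧ (∀ j, w j ∉ univ.image x) ∧
              ∀ g' : St κ (ι ⊕ Fin s),
              FF t (Sum.elim a x) (UU s I) T g' (flipS (univ.image w) (fun _ => false)) =
              FF t (Sum.elim a x) (UU s I) T g' (fun _ => false)
          · rw [ind_true' hw, one_mul, hG]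
            simp only
            have hd : ∀ i j, w i ≠ x j := fun i j h =>
              hw.2.1 i (by rw [h]; exact mem_image_of_mem x (mem_univ j))
            rw [ind_true' ⟨hw.1, hw.2.1⟩, one_mul,
              ind_true' (seen_of_Ev1 t g I ρ T a w x hEv hw.2.2), mul_one]
            exact (D_exch hw.1 hx hd hsym T).le
          · rw [ind_false' hw, zero_mul]
            exact hG0 w T
        rw [av_mul_right] at hle
        have hD := h0 (pull (cw x) (pull s0 T)) x
        nlinarith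
      · rw [ind_false' hEv, mul_zero]
        linarith
  refine (av_mono hpt).trans ?_
  rw [av_add, av_mul_left, av_comm]
  have hfin : av (fun w => av (fun T => G w T)) ≤
      av (fun w : Fin s → Fin n => av (fun M' : St κ (Fin n ⊕ (ι ⊕ Fin s)) =>
        D1 (pull (cw w) M') w * ind (Function.Injective w) *
          ind (Seen t (UU s I) (YY ι s) M' (Sum.elim a x)))) := by
    refine av_mono fun w => ?_
    by_cases hw : Function.Injective w ∧ ∀ j, w j ∉ univ.image x
    · rw [← av_pull (ee w x) (ee_inj hw.1 hx)]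
      refine (av_congr fun T => ?_).le
      rw [hG]
      simp only
      rw [ind_true' hw, ind_true' hw.1]
      ring
    · have hz : av (fun T => G w T) = 0 := by
        rw [← av_zero (α := St κ ((Fin n × Bool) ⊕ (ι ⊕ Fin s)))]
        refine av_congr fun T => ?_
        rw [hG]
        simp only
        rw [ind_false' hw, zero_mul]
      rw [hz]
      exact av_nonneg fun M' => mul_nonneg (mul_nonneg (h0 _ _) (ind_nonneg _)) (ind_nonneg _)
  linarith

end partB

section partC
variable {κ ι β : Type} [Fintype κ] [DecidableEq κ] [Fintype ι] [DecidableEq ι] [Fintype β]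
  [DecidableEq β] {n s : ℕ}

theorem avM_split (F : St κ (Fin n ⊕ ι) → (ι → Fin n) → (β ⊕ Fin s → Fin n) → ℝ) :
    avM F = av (fun a : ι → Fin n => av (fun x : Fin s → Fin n =>
      av (fun M : St κ (Fin n ⊕ ι) => av (fun v : β → Fin n => F M a (Sum.elim v x))))) := by
  let E : (St κ (Fin n ⊕ ι) × (ι → Fin n) × ((β ⊕ Fin s) → Fin n)) ≃
      (ι → Fin n) × (Fin s → Fin n) × St κ (Fin n ⊕ ι) × (β → Fin n) :=
    { toFun := fun p => (p.2.1, fun i => p.2.2 (Sum.inr i), p.1, fun b => p.2.2 (Sum.inl b))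
      invFun := fun q => (q.2.2.1, q.1, Sum.elim q.2.2.2 q.2.1)
      left_inv := by
        rintro ⟨M, a, v⟩
        simp only [Prod.mk.injEq, true_and]
        funext b
        rcases b with b | b <;> rfl
      right_inv := by
        rintro ⟨a, x, M, v⟩
        rfl }
  have h1 : avM F = av (fun q : (ι → Fin n) × (Fin s → Fin n) × St κ (Fin n ⊕ ι) × (β → Fin n) =>
      F q.2.2.1 q.1 (Sum.elim q.2.2.2 q.2.1)) := by
    unfold avM
    rw [← av_equiv E]
    refine av_congr fun p => ?_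
    congr 1
    funext b
    rcases b with b | b <;> rfl
  rw [h1, av_prod]
  refine av_congr fun a => ?_
  rw [av_prod]
  refine av_congr fun x => ?_
  rw [av_prod]

theorem av_sum_elim (H : (ι ⊕ Fin s → Fin n) → ℝ) :
    av H = av (fun a : ι → Fin n => av (fun x : Fin s → Fin n => H (Sum.elim a x))) := by
  rw [← av_prod (fun p : (ι → Fin n) × (Fin s → Fin n) => H (Sum.elim p.1 p.2)),
    ← av_equiv (Equiv.sumArrowEquivProdArrow ι (Fin s) (Fin n))]
  refine av_congr fun b => ?_
  congr 1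
  funext l
  rcases l with l | l <;> rfl

theorem av_unique {α : Type*} [Fintype α] [Unique α] (f : α → ℝ) : av f = f default := by
  unfold av
  simp

theorem avM_empty {ι' : Type} [Fintype ι'] [DecidableEq ι']
    (F : St κ (Fin n ⊕ ι') → (ι' → Fin n) → ℝ) :
    avM (β := Empty) (fun M b _ => F M b) = av (fun M => av (fun b => F M b)) := by
  rw [avM_eq_outer]
  refine av_congr fun M => ?_
  rw [av_prod (fun q : (ι' → Fin n) × (Empty → Fin n) => F M q.1)]
  refine av_congr fun b => ?_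
  exact av_unique _

omit [Fintype κ] [DecidableEq κ] [Fintype ι] [DecidableEq ι] in
theorem sym_D1 {D : St κ (Fin n ⊕ ι) → (β ⊕ Fin s → Fin n) → ℝ} (hD : Sym D) :
    Sym (fun (M : St κ (Fin n ⊕ ι)) (w : Fin s → Fin n) =>
      av (fun v : β → Fin n => D M (Sum.elim v w))) := by
  intro π M w
  show av (fun v : β → Fin n => D (pull (Sum.map π id) M) (Sum.elim v w)) =
    av (fun v : β → Fin n => D M (Sum.elim v fun j => π (w j)))
  rw [← av_equiv (Equiv.arrowCongr (Equiv.refl β) π)
    (fun v : β → Fin n => D M (Sum.elim v fun j => π (w j)))]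
  refine av_congr fun v => ?_
  rw [hD]
  congr 1
  funext l
  rcases l with l | l <;> rfl

/-- the density with exchanged base marks -/
noncomputable def DI (D1 : St κ (Fin n ⊕ ι) → (Fin s → Fin n) → ℝ)
    (M' : St κ (Fin n ⊕ (ι ⊕ Fin s))) : ℝ :=
  av (fun w : Fin s → Fin n => D1 (pull (cw w) M') w * ind (Function.Injective w))

omit [Fintype κ] [DecidableEq κ] [Fintype ι] [DecidableEq ι] in
theorem sym_DI {D1 : St κ (Fin n ⊕ ι) → (Fin s → Fin n) → ℝ} (hD1 : Sym D1) :
    Sym (fun (M' : St κ (Fin n ⊕ (ι ⊕ Fin s))) (_ : Empty → Fin n) => DI D1 M') := by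
  intro π M' v
  show DI D1 (pull (Sum.map π id) M') = DI D1 M'
  unfold DI
  rw [← av_equiv (Equiv.arrowCongr (Equiv.refl (Fin s)) π)
    (fun w : Fin s → Fin n => D1 (pull (cw w) M') w * ind (Function.Injective w))]
  refine av_congr fun w => ?_
  have hcoe : (Equiv.arrowCongr (Equiv.refl (Fin s)) π) w = fun j => π (w j) := rfl
  rw [hcoe]
  by_cases hw : Function.Injective w
  · have hw' : Function.Injective fun j => π (w j) := π.injective.comp hw
    rw [ind_true' hw, ind_true' hw']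
    congr 1
    have : pull (cw w) (pull (Sum.map π id) M') =
        pull (Sum.map π id) (pull (cw fun j => π (w j)) M') := by
      rw [pull_pull, pull_pull]
      congr 1
      funext z
      rcases z with z | k
      · show Sum.map π id (cw w (Sum.inl z)) = cw (fun j => π (w j)) (Sum.inl (π z))
        rcases dich w z with ⟨j, rfl⟩ | h
        · rw [cw_at hw]
          exact (cw_at hw' j).symm
        · rw [cw_off h, cw_off (fun j hj => h j (π.injective hj))]
          rfl
      · rfl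
    rw [this, hD1]
  · have hw' : ¬ Function.Injective fun j => π (w j) := fun h => hw fun i j hij =>
      h (congrArg π hij)
    rw [ind_false' hw, ind_false' hw', mul_zero, mul_zero]

end partC

end EX

/-- **EX**: the exchange lemma -/
theorem stmtEX (κ : Type) [Fintype κ] [DecidableEq κ] : StmtEX κ := by
  intro hTKv j hSeen ι β _ _ _ _ s c K C
  classical
  filter_upwards [EXP.av_bad_le κ hTKv (ι ⊕ Fin s) s c K j (C + 1),
    hSeen (ι ⊕ Fin s) Empty c K (C + 1),
    EXP.good_half s s (Fintype.card (St κ (ι ⊕ Fin s))), eventually_ge_atTop 3]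
    with n hbad hseen hhalf hn3 t ht g I ρ hρ D hD hD01
  have hn1' : 1 ≤ n := by omega
  have hn0' : 0 < n := by omega
  have hne : Nonempty (Fin n) := ⟨⟨0, hn0'⟩⟩
  have hn0 : (0 : ℝ) < n := by exact_mod_cast hn0'
  have hn3r : (3 : ℝ) ≤ n := by exact_mod_cast hn3
  set D1 : St κ (Fin n ⊕ ι) → (Fin s → Fin n) → ℝ := fun M w =>
    av (fun v : β → Fin n => D M (Sum.elim v w)) with hD1
  have hsym1 : Sym D1 := EX.sym_D1 hD
  have hD10 : ∀ M w, 0 ≤ D1 M w := fun M w => av_nonneg fun v => (hD01 _ _).1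
  have hD11 : ∀ M w, D1 M w ≤ 1 := fun M w => av_le_one fun v => (hD01 _ _).2
  have hDI0 : ∀ M', 0 ≤ EX.DI D1 M' := fun M' =>
    av_nonneg fun w => mul_nonneg (hD10 _ _) (ind_nonneg _)
  have hDI1 : ∀ M', EX.DI D1 M' ≤ 1 := fun M' => av_le_one fun w => by
    calc D1 (pull (EX.cw w) M') w * ind (Function.Injective w) ≤ 1 * 1 :=
          mul_le_mul (hD11 _ _) (ind_le_one _) (ind_nonneg _) zero_le_one
      _ = 1 := one_mul _
  -- the mass of the density
  have hmass1 : avM (fun (M : St κ (Fin n ⊕ ι)) (_ : ι → Fin n) v => D M v) =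
      av (fun w : Fin s → Fin n => av (fun M : St κ (Fin n ⊕ ι) => D1 M w)) := by
    rw [EX.avM_split]
    exact av_const _
  have hmassI : av (fun M' : St κ (Fin n ⊕ (ι ⊕ Fin s)) => EX.DI D1 M') ≤
      avM (fun (M : St κ (Fin n ⊕ ι)) (_ : ι → Fin n) v => D M v) := by
    rw [hmass1]
    unfold EX.DI
    rw [av_comm]
    refine av_mono fun w => ?_
    by_cases hw : Function.Injective w
    · rw [← av_pull (EX.cw (ι := ι) w) (EX.cw_inj hw) (fun M => D1 M w)]
      refine (av_congr fun M' => ?_).le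
      rw [ind_true' hw, mul_one]
    · have hz : av (fun M' : St κ (Fin n ⊕ (ι ⊕ Fin s)) =>
          D1 (pull (EX.cw w) M') w * ind (Function.Injective w)) = 0 := by
        rw [← av_zero (α := St κ (Fin n ⊕ (ι ⊕ Fin s)))]
        refine av_congr fun M' => ?_
        rw [ind_false' hw, mul_zero]
      rw [hz]
      exact av_nonneg fun M => hD10 _ _
  -- the seen bound
  have hs := hseen t ht (EX.UU s I) (EX.YY ι s) (by
      intro l hl
      rcases l with k | i
      · simp at hl
      · exact inr_mem_disjSum.2 (mem_univ i)) (fun M' _ => EX.DI D1 M') (EX.sym_DI hsym1)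
    (fun M' _ => ⟨hDI0 M', hDI1 M'⟩) (fun _ _ _ => 1) (fun _ _ _ _ _ _ => rfl)
    (fun _ _ _ => ⟨zero_le_one, le_rfl⟩)
  simp only [one_mul] at hs
  rw [EX.avM_empty (fun M' b => EX.DI D1 M' * ind (Seen t (EX.UU s I) (EX.YY ι s) M' b)),
    EX.avM_empty (fun M' _ => EX.DI D1 M')] at hs
  have hcard : (((EX.YY ι s).card : ℕ) : ℝ) = s := by
    rw [card_disjSum]; simp
  rw [hcard] at hs
  have hmass2 : av (fun M' : St κ (Fin n ⊕ (ι ⊕ Fin s)) =>
      av (fun _ : ι ⊕ Fin s → Fin n => EX.DI D1 M')) =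
      av (fun M' : St κ (Fin n ⊕ (ι ⊕ Fin s)) => EX.DI D1 M') :=
    av_congr fun M' => av_const _
  rw [hmass2] at hs
  -- the exchange
  have hmain : avM (fun M a v => D M v * ind (Ev t g I ρ M a v)) ≤
      2 * av (fun M' : St κ (Fin n ⊕ (ι ⊕ Fin s)) => av (fun b =>
        EX.DI D1 M' * ind (Seen t (EX.UU s I) (EX.YY ι s) M' b))) + (n : ℝ) ^ (-(C + 1)) := by
    rw [EX.avM_split]
    have e1 : ∀ (a : ι → Fin n) (x : Fin s → Fin n), av (fun M : St κ (Fin n ⊕ ι) =>
        av (fun v : β → Fin n => D M (Sum.elim v x) * ind (Ev t g I ρ M a (Sum.elim v x)))) ≤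
        2 * av (fun w : Fin s → Fin n => av (fun M' : St κ (Fin n ⊕ (ι ⊕ Fin s)) =>
        D1 (pull (EX.cw w) M') w * ind (Function.Injective w) *
          ind (Seen t (EX.UU s I) (EX.YY ι s) M' (Sum.elim a x)))) + (n : ℝ) ^ (-(C + 1)) := by
      intro a x
      have e2 : av (fun M : St κ (Fin n ⊕ ι) =>
        av (fun v : β → Fin n => D M (Sum.elim v x) * ind (Ev t g I ρ M a (Sum.elim v x)))) ≤
        av (fun M : St κ (Fin n ⊕ ι) => D1 M x * ind (EX.Ev1 t g I ρ M a x)) := by
        refine av_mono fun M => ?_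
        rw [hD1]
        simp only
        rw [← av_mul_right]
        refine av_mono fun v => ?_
        refine mul_le_mul_of_nonneg_left (ind_mono ?_) (hD01 _ _).1
        rintro ⟨h1, h2, h3, _, h5⟩
        exact ⟨h1, h2, h3, h5⟩
      have e3 := EX.partB t g I ρ D1 hsym1 hD10 hD11 (fun f hf E hE =>
        hhalf (St κ (ι ⊕ Fin s)) le_rfl f hf E hE) a x
      have e4 := hbad t ht (Sum.elim a x) (EX.UU s I)
      linarith
    refine (av_mono fun a => av_mono fun x => e1 a x).trans (le_of_eq ?_)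
    have e5 : ∀ a : ι → Fin n, av (fun x : Fin s → Fin n =>
        2 * av (fun w : Fin s → Fin n => av (fun M' : St κ (Fin n ⊕ (ι ⊕ Fin s)) =>
        D1 (pull (EX.cw w) M') w * ind (Function.Injective w) *
          ind (Seen t (EX.UU s I) (EX.YY ι s) M' (Sum.elim a x)))) + (n : ℝ) ^ (-(C + 1))) =
        2 * av (fun x : Fin s → Fin n => av (fun M' : St κ (Fin n ⊕ (ι ⊕ Fin s)) =>
          EX.DI D1 M' * ind (Seen t (EX.UU s I) (EX.YY ι s) M' (Sum.elim a x)))) +
            (n : ℝ) ^ (-(C + 1)) := by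
      intro a
      rw [av_add, av_mul_left, av_const]
      congr 2
      refine av_congr fun x => ?_
      rw [av_comm]
      refine av_congr fun M' => ?_
      rw [av_mul_right]
      rfl
    rw [av_congr e5, av_add, av_mul_left, av_const]
    congr 2
    rw [← EX.av_sum_elim (fun b => av (fun M' : St κ (Fin n ⊕ (ι ⊕ Fin s)) =>
          EX.DI D1 M' * ind (Seen t (EX.UU s I) (EX.YY ι s) M' b))), av_comm]
  -- conclusion
  have hpos : 0 ≤ (n : ℝ) ^ (-(5 / 8 * (s : ℝ))) := Real.rpow_nonneg hn0.le _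
  have h3 : 3 * (n : ℝ) ^ (-(C + 1)) ≤ (n : ℝ) ^ (-C) := by
    calc 3 * (n : ℝ) ^ (-(C + 1)) ≤ n * (n : ℝ) ^ (-(C + 1)) := by gcongr
      _ = (n : ℝ) ^ (-C) := by
          nth_rewrite 1 [← Real.rpow_one (n : ℝ)]
          rw [← Real.rpow_add hn0]; congr 1; ring
  have h4 := mul_le_mul_of_nonneg_left hmassI hpos
  linarith

end ZOL
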