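import Mathlib

/-!
# First-order logic of ordered coloured graphs
-/

namespace ZOL

open FirstOrder

/-- The relation symbols: adjacency, order, and one unary predicate for every colour. -/
inductive Rl (C : Type) : ℕ → Type
  | adj : Rl C 2
  | lt : Rl C 2
  | color (c : C) : Rl C 1

/-- The signature `{E, <} ∪ {P_c : c ∈ C}`. -/
def sig (C : Type) : Language := ⟨fun _ => Empty, Rl C⟩

/-- The ordered coloured graph `(G, <)` as a first-order structure: `G` is a simple graph on `V`,
`P c` is the set of vertices of colour `c`, `o` is a linear order on `V`. -/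
@[reducible] def str {C V : Type} (G : SimpleGraph V) (P : C → V → Prop) (o : LinearOrder V) :
    (sig C).Structure V where
  funMap := fun f _ => nomatch f
  RelMap := fun r x => match r, x with
    | Rl.adj, x => G.Adj (x 0) (x 1)
    | Rl.lt, x => o.lt (x 0) (x 1)
    | Rl.color c, x => P c (x 0)

/-- The ordered coloured graph satisfies the sentence. -/
def Holds {C V : Type} (φ : (sig C).Sentence) (G : SimpleGraph V) (P : C → V → Prop)
    (o : LinearOrder V) : Prop :=
  @Language.Sentence.Realize (sig C) V (str G P o) φ

/-- `φ` is order-invariant: on every finite coloured graph its truth value does not depend on the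
linear order. -/
def OrderInvariant {C : Type} (φ : (sig C).Sentence) : Prop :=
  ∀ (V : Type) [Finite V] (G : SimpleGraph V) (P : C → V → Prop) (o₁ o₂ : LinearOrder V),
    Holds φ G P o₁ ↔ Holds φ G P o₂

/-- The fraction of the coloured graphs on `n` labelled vertices which satisfy `φ` (with the
standard order of `Fin n`). -/
noncomputable def mu {C : Type} (φ : (sig C).Sentence) (n : ℕ) : ℝ :=
  (Nat.card {p : SimpleGraph (Fin n) × (C → Fin n → Prop) //
      Holds φ p.1 p.2 (inferInstance : LinearOrder (Fin n))} : ℝ) /
    (Nat.card (SimpleGraph (Fin n) × (C → Fin n → Prop)) : ℝ)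

end ZOL
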