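import Pool.Agent.ZOL.Basic
import Pool.Agent.ZOL.Logic

/-!
# From circuits to first-order sentences
-/

namespace ZOL

open Filter Finset FirstOrder

section structures

variable {C V W : Type}

/-- the graph of a structure -/
def gr (M : St (Option C) V) : SimpleGraph V where
  Adj x y := x ≠ y ∧ M (x, y, none) ≠ M (y, x, none)
  symm := ⟨fun _ _ h => ⟨h.1.symm, h.2.symm⟩⟩
  loopless := ⟨fun _ h => h.1 rfl⟩

/-- the colours of a structure -/
def pc (M : St (Option C) V) (c : C) (x : V) : Prop := M (x, x, some c) = true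

/-- the present vertices -/
abbrev Pres (M : St (Option C) V) : Type := {x : V // M (x, x, none) = true}

/-- an isomorphism of ordered coloured graphs preserves `Holds` -/
lemma holds_iso {φ : (sig C).Sentence} {G : SimpleGraph V} {H : SimpleGraph W}
    {P : C → V → Prop} {Q : C → W → Prop} {o : LinearOrder V} {o' : LinearOrder W} (e : V ≃ W)
    (h1 : ∀ x y, G.Adj x y ↔ H.Adj (e x) (e y)) (h2 : ∀ c x, P c x ↔ Q c (e x))
    (h3 : ∀ x y, o.lt x y ↔ o'.lt (e x) (e y)) : Holds φ G P o ↔ Holds φ H Q o' := by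
  let _ : (sig C).Structure V := str G P o
  let _ : (sig C).Structure W := str H Q o'
  have e' : (sig C).Equiv V W :=
    { toEquiv := e
      map_fun' := fun f _ => nomatch f
      map_rel' := by
        intro n r x
        match r, x with
        | Rl.adj, x => exact (h1 _ _).symm
        | Rl.lt, x => exact (h3 _ _).symm
        | Rl.color c, x => exact (h2 _ _).symm }
  exact Language.StrongHomClass.realize_sentence e' φ

/-- the property of the induced structure on the present vertices -/
def HoldsP (φ : (sig C).Sentence) (o : LinearOrder V) (M : St (Option C) V) : Prop :=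
  Holds φ ((gr M).comap (Subtype.val : Pres M → V)) (fun c x => pc M c x.1)
    (LinearOrder.lift' (Subtype.val : Pres M → V) Subtype.val_injective)

/-- order-invariant sentences define invariant properties of structures -/
lemma holdsP_pull [Finite V] {φ : (sig C).Sentence} (hφ : OrderInvariant φ) (o : LinearOrder V)
    (π : Equiv.Perm V) (M : St (Option C) V) : HoldsP φ o (pull π M) ↔ HoldsP φ o M := by
  let e : Pres (pull π M) ≃ Pres M := π.subtypeEquiv (fun x => Iff.rfl)
  unfold HoldsP
  rw [hφ _ _ _ _ (LinearOrder.lift' (fun x : Pres (pull π M) => π x.1)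
    (fun x y h => Subtype.ext (π.injective h)))]
  refine holds_iso e ?_ ?_ ?_
  · intro x y
    show (x.1 ≠ y.1 ∧ M (π x.1, π y.1, none) ≠ M (π y.1, π x.1, none)) ↔
      (π x.1 ≠ π y.1 ∧ M (π x.1, π y.1, none) ≠ M (π y.1, π x.1, none))
    rw [π.injective.ne_iff]
  · intro c x
    exact Iff.rfl
  · intro x y
    exact Iff.rfl

/-! ### Relativised evaluation -/

/-- value of a term -/
def tm {m : ℕ} (t : (sig C).Term (Empty ⊕ Fin m)) (v : Fin m → V) : V :=
  match t with
  | Language.Term.var (Sum.inr i) => v i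
  | Language.Term.var (Sum.inl e) => nomatch e
  | Language.Term.func f _ => nomatch f

/-- relativised evaluation -/
def ev (o : LinearOrder V) (M : St (Option C) V) :
    ∀ {m : ℕ}, (sig C).BoundedFormula Empty m → (Fin m → V) → Prop
  | _, .falsum, _ => False
  | _, .equal t₁ t₂, v => tm t₁ v = tm t₂ v
  | _, .rel R ts, v => (str (gr M) (pc M) o).RelMap R (fun i => tm (ts i) v)
  | _, .imp f g, v => ev o M f v → ev o M g v
  | _, .all f, v => ∀ x, M (x, x, none) = true → ev o M f (Fin.snoc v x)

lemma tm_iff (o : LinearOrder V) (M : St (Option C) V) {m : ℕ}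
    (t : (sig C).Term (Empty ⊕ Fin m)) (v : Fin m → Pres M) :
    (@Language.Term.realize (sig C) (Pres M)
      (str ((gr M).comap (Subtype.val : Pres M → V)) (fun c x => pc M c x.1)
        (LinearOrder.lift' (Subtype.val : Pres M → V) Subtype.val_injective)) _
      (Sum.elim default v) t).1 = tm t (fun i => (v i).1) := by
  cases t with
  | var a =>
    cases a with
    | inl e => exact e.elim
    | inr i => rfl
  | func f _ => exact f.elim

lemma ev_iff (o : LinearOrder V) (M : St (Option C) V) {m : ℕ}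
    (φ : (sig C).BoundedFormula Empty m) (v : Fin m → Pres M) :
    @Language.BoundedFormula.Realize (sig C) (Pres M)
      (str ((gr M).comap (Subtype.val : Pres M → V)) (fun c x => pc M c x.1)
        (LinearOrder.lift' (Subtype.val : Pres M → V) Subtype.val_injective)) _ _ φ default v ↔
      ev o M φ (fun i => (v i).1) := by
  let _ : (sig C).Structure (Pres M) :=
    (str ((gr M).comap (Subtype.val : Pres M → V)) (fun c x => pc M c x.1)
        (LinearOrder.lift' (Subtype.val : Pres M → V) Subtype.val_injective))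
  induction φ with
  | falsum => exact Iff.rfl
  | equal t₁ t₂ =>
    show (_ = _) ↔ _ = _
    rw [← tm_iff o M t₁ v, ← tm_iff o M t₂ v]
    exact Subtype.ext_iff
  | rel R ts =>
    have h : (fun i => tm (ts i) (fun i => (v i).1)) = fun i =>
      (Language.Term.realize (Sum.elim default v) (ts i)).1 := by
      funext i
      exact (tm_iff o M (ts i) v).symm
    show _ ↔ (str (gr M) (pc M) o).RelMap R (fun i => tm (ts i) (fun i => (v i).1))
    rw [h]
    cases R with
    | adj => exact Iff.rfl
    | lt => exact Iff.rfl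
    | color c => exact Iff.rfl
  | imp f g ih1 ih2 => exact imp_congr (ih1 v) (ih2 v)
  | all f ih =>
    show (∀ a : Pres M, _) ↔ ∀ x, _ → _
    have h : ∀ a : Pres M, (fun i => ((Fin.snoc v a : Fin _ → Pres M) i).1) =
        (Fin.snoc (fun i => (v i).1) a.1 : Fin _ → V) := by
      intro a
      funext i
      refine Fin.lastCases ?_ (fun i => ?_) i
      · simp
      · simp
    constructor
    · intro H x hx
      have := (ih (Fin.snoc v ⟨x, hx⟩)).1 (H ⟨x, hx⟩)
      rw [h] at this
      exact this
    · intro H a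
      refine (ih (Fin.snoc v a)).2 ?_
      rw [h]
      exact H a.1 a.2

lemma holdsP_iff (φ : (sig C).Sentence) (o : LinearOrder V) (M : St (Option C) V) :
    HoldsP φ o M ↔ ev o M φ (fun i => nomatch i) := by
  have h := ev_iff o M φ (default : Fin 0 → Pres M)
  have e : (fun i => ((default : Fin 0 → Pres M) i).1) = fun i => nomatch i := by
    funext i; exact i.elim0
  rw [e] at h
  exact h

end structures

/-! ### Circuits for first-order sentences -/

section circuits

variable {C : Type}

/-- the standard order -/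
abbrev oF (n : ℕ) : LinearOrder (Fin n) := (inferInstance : LinearOrder (Fin n))

lemma Lev.congr {I : Type*} {c S j : ℕ} {f g : (I → Bool) → Bool} (h : ∀ x, f x = g x)
    (hf : Lev c S j f) : Lev c S j g := by
  rw [show g = f from funext fun x => (h x).symm]
  exact hf

open Classical in
lemma lev_ev {m : ℕ} (φ : (sig C).BoundedFormula Empty m) : ∃ j, ∀ n, 2 ≤ n →
    ∀ v : Fin m → Fin n, Lev 2 n j (fun M : St (Option C) (Fin n) =>
      decide (ev (oF n) M φ v)) := by
  induction φ with
  | falsum =>
    refine ⟨0, fun n hn v => ⟨∅, by simp, fun x y _ => ?_⟩⟩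
    exact decide_eq_decide.2 Iff.rfl
  | equal t₁ t₂ =>
    refine ⟨0, fun n hn v => ?_⟩
    exact ⟨∅, by simp, fun x y _ => decide_eq_decide.2 Iff.rfl⟩
  | rel R ts =>
    refine ⟨0, fun n hn v => ?_⟩
    cases R with
    | adj =>
      refine ⟨{(tm (ts 0) v, tm (ts 1) v, none), (tm (ts 1) v, tm (ts 0) v, none)},
        Finset.card_le_two, fun x y h => ?_⟩
      have h1 := h (tm (ts 0) v, tm (ts 1) v, none) (by simp)
      have h2 := h (tm (ts 1) v, tm (ts 0) v, none) (by simp)
      refine decide_eq_decide.2 ?_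
      show (tm (ts 0) v ≠ tm (ts 1) v ∧ x (tm (ts 0) v, tm (ts 1) v, none) ≠
        x (tm (ts 1) v, tm (ts 0) v, none)) ↔ (tm (ts 0) v ≠ tm (ts 1) v ∧
        y (tm (ts 0) v, tm (ts 1) v, none) ≠ y (tm (ts 1) v, tm (ts 0) v, none))
      rw [h1, h2]
    | lt => exact ⟨∅, by simp, fun x y _ => decide_eq_decide.2 Iff.rfl⟩
    | color c =>
      refine ⟨{(tm (ts 0) v, tm (ts 0) v, some c)}, by simp, fun x y h => ?_⟩
      have h1 := h (tm (ts 0) v, tm (ts 0) v, some c) (by simp)
      refine decide_eq_decide.2 ?_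
      show (x (tm (ts 0) v, tm (ts 0) v, some c) = true) ↔
        (y (tm (ts 0) v, tm (ts 0) v, some c) = true)
      rw [h1]
  | imp f g ih1 ih2 =>
    obtain ⟨j1, h1⟩ := ih1
    obtain ⟨j2, h2⟩ := ih2
    refine ⟨max j1 j2 + 1, fun n hn v => ⟨2, ![fun M => !(decide (ev (oF n) M f v)), fun M =>
      decide (ev (oF n) M g v)], hn, ?_, Or.inl ?_⟩⟩
    · intro l
      fin_cases l
      · exact Lev.level_mono (by omega) (le_max_left _ _) (Lev.not _ (h1 n hn v))
      · exact Lev.level_mono (by omega) (le_max_right _ _) (h2 n hn v)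
    · intro M
      rw [decide_eq_true_iff]
      show (ev (oF n) M f v → ev (oF n) M g v) ↔ _
      constructor
      · intro h
        by_cases h3 : ev (oF n) M f v
        · exact ⟨1, by simpa using h h3⟩
        · exact ⟨0, by simpa using h3⟩
      · rintro ⟨l, hl⟩ h3
        fin_cases l
        · exact absurd h3 (by simpa using hl)
        · simpa using hl
  | @all m f ih =>
    obtain ⟨j, h⟩ := ih
    refine ⟨j + 1 + 1, fun n hn v => ⟨n, fun x M => decide (M (x, x, none) = true →
      ev (oF n) M f (Fin.snoc v x)), le_rfl, ?_, Or.inr ?_⟩⟩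
    · intro x
      refine ⟨2, ![fun M => !(M (x, x, none)), fun M => decide (ev (oF n) M f (Fin.snoc v x))],
        hn, ?_, Or.inl ?_⟩
      · intro l
        fin_cases l
        · refine Lev.level_mono (by omega) (Nat.zero_le _) ?_
          refine ⟨{(x, x, none)}, by simp, fun M M' h => ?_⟩
          have := h (x, x, none) (by simp)
          show (!(M (x, x, none))) = !(M' (x, x, none))
          rw [this]
        · exact h n hn _
      · intro M
        rw [decide_eq_true_iff]
        constructor
        · intro h4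
          cases h3 : M (x, x, none) with
          | true => exact ⟨1, by simpa using h4 h3⟩
          | false => exact ⟨0, by simpa using h3⟩
        · rintro ⟨l, hl⟩ h3
          fin_cases l
          · exact absurd h3 (by simpa using hl)
          · simpa using hl
    · intro M
      rw [decide_eq_true_iff]
      simp only [decide_eq_true_iff]
      exact Iff.rfl

end circuits

/-! ### Random coloured graphs -/

section random

variable {C : Type}

/-- indices of the bits of a coloured graph -/
abbrev Idx (C : Type) (n : ℕ) : Type := {p : Fin n × Fin n // p.1 < p.2} ⊕ (C × Fin n)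

/-- the graph with given bits -/
def dgr {n : ℕ} (g : Idx C n → Bool) : SimpleGraph (Fin n) where
  Adj x y := (∃ h : x < y, g (Sum.inl ⟨(x, y), h⟩) = true) ∨
    (∃ h : y < x, g (Sum.inl ⟨(y, x), h⟩) = true)
  symm := ⟨fun _ _ h => h.symm⟩
  loopless := ⟨fun x h => by
    rcases h with ⟨h, -⟩ | ⟨h, -⟩ <;> exact lt_irrefl x h⟩

/-- the colours with given bits -/
def dpc {n : ℕ} (g : Idx C n → Bool) (c : C) (x : Fin n) : Prop := g (Sum.inr (c, x)) = true

open Classical in
/-- coloured graphs are given by their bits -/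
noncomputable def idxEquiv (C : Type) (n : ℕ) :
    (Idx C n → Bool) ≃ SimpleGraph (Fin n) × (C → Fin n → Prop) where
  toFun g := (dgr g, dpc g)
  invFun p := fun i => match i with
    | Sum.inl q => decide (p.1.Adj q.1.1 q.1.2)
    | Sum.inr q => decide (p.2 q.1 q.2)
  left_inv := by
    intro g
    funext i
    match i with
    | Sum.inl ⟨(x, y), h⟩ =>
      have : (dgr g).Adj x y ↔ g (Sum.inl ⟨(x, y), h⟩) = true := by
        constructor
        · rintro (⟨_, h1⟩ | ⟨h2, _⟩)
          · exact h1
          · exact absurd (lt_trans h h2) (lt_irrefl _)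
        · intro h1
          exact Or.inl ⟨h, h1⟩
      rw [Bool.eq_iff_iff]
      exact decide_eq_true_iff.trans this
    | Sum.inr (c, x) =>
      rw [Bool.eq_iff_iff]
      exact decide_eq_true_iff
  right_inv := by
    rintro ⟨G, P⟩
    refine Prod.ext ?_ ?_
    · ext x y
      show ((∃ h : x < y, decide (G.Adj x y) = true) ∨ (∃ h : y < x, decide (G.Adj y x) = true)) ↔ _
      simp only [decide_eq_true_eq]
      constructor
      · rintro (⟨_, h⟩ | ⟨_, h⟩)
        · exact h
        · exact h.symm
      · intro h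
        rcases lt_trichotomy x y with h1 | h1 | h1
        · exact Or.inl ⟨h1, h⟩
        · exact absurd h1 h.ne
        · exact Or.inr ⟨h1, h.symm⟩
    · funext c x
      show (decide (P c x) = true) = P c x
      simp

lemma av_ind_card {X : Type*} [Fintype X] (Q : X → Prop) :
    av (fun x => ind (Q x)) = (Nat.card {x // Q x} : ℝ) / (Nat.card X : ℝ) := by
  classical
  unfold av ind
  rw [Nat.card_eq_fintype_card, Nat.card_eq_fintype_card, Fintype.card_subtype]
  congr 1
  rw [Finset.sum_ite]
  simp

lemma mu_eq_av [Fintype C] [DecidableEq C] (φ : (sig C).Sentence) (n : ℕ) :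
    mu φ n = av (fun g : Idx C n → Bool => ind (Holds φ (dgr g) (dpc g) (oF n))) := by
  classical
  have hX : Fintype (SimpleGraph (Fin n) × (C → Fin n → Prop)) := Fintype.ofFinite _
  have h := av_ind_card (fun p : SimpleGraph (Fin n) × (C → Fin n → Prop) =>
    Holds φ p.1 p.2 (oF n))
  unfold mu
  rw [← h, ← av_equiv (idxEquiv C n)]
  rfl

/-- make the edge bits independent coordinates -/
def tw {n : ℕ} (M : St (Option C) (Fin n)) : St (Option C) (Fin n) := fun p =>
  if p.2.2 = none ∧ p.1 < p.2.1 then xor (M (p.1, p.2.1, none)) (M (p.2.1, p.1, none)) else M p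

lemma tw_invol {n : ℕ} (M : St (Option C) (Fin n)) : tw (tw M) = M := by
  funext p
  obtain ⟨x, y, c⟩ := p
  by_cases h : c = none ∧ x < y
  · have h1 : ¬ (none = (none : Option C) ∧ y < x) := fun h2 => absurd (lt_trans h.2 h2.2) (lt_irrefl _)
    obtain ⟨rfl, h2⟩ := h
    simp only [tw, if_pos h2, true_and, if_neg (not_lt.2 h2.le)]
    cases M (x, y, none) <;> cases M (y, x, none) <;> rfl
  · simp only [tw, if_neg h]

/-- the bits of the ordered structure on the present vertices -/
def jx (C : Type) (n : ℕ) : Fin n ⊕ Idx C n → Fin n × Fin n × Option C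
  | Sum.inl x => (x, x, none)
  | Sum.inr (Sum.inl p) => (p.1.1, p.1.2, none)
  | Sum.inr (Sum.inr q) => (q.2, q.2, some q.1)

lemma jx_injective (C : Type) (n : ℕ) : Function.Injective (jx C n) := by
  intro a b h
  match a, b with
  | Sum.inl x, Sum.inl y =>
    simp only [jx, Prod.mk.injEq] at h
    rw [h.1]
  | Sum.inl x, Sum.inr (Sum.inl p) =>
    simp only [jx, Prod.mk.injEq] at h
    exact absurd (h.1.symm.trans h.2.1) p.2.ne
  | Sum.inl x, Sum.inr (Sum.inr q) =>
    simp [jx] at h
  | Sum.inr (Sum.inl p), Sum.inl x =>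
    simp only [jx, Prod.mk.injEq] at h
    exact absurd (h.1.trans h.2.1.symm) p.2.ne
  | Sum.inr (Sum.inl p), Sum.inr (Sum.inl q) =>
    simp only [jx, Prod.mk.injEq] at h
    congr 2
    exact Subtype.ext (Prod.ext h.1 h.2.1)
  | Sum.inr (Sum.inl p), Sum.inr (Sum.inr q) => simp [jx] at h
  | Sum.inr (Sum.inr q), Sum.inl x => simp [jx] at h
  | Sum.inr (Sum.inr q), Sum.inr (Sum.inl p) => simp [jx] at h
  | Sum.inr (Sum.inr p), Sum.inr (Sum.inr q) =>
    simp only [jx, Prod.mk.injEq, Option.some.injEq] at h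
    congr 2
    exact Prod.ext h.2.2 h.1

/-- the property, in terms of the bits -/
def HB (φ : (sig C).Sentence) {n : ℕ} (s : Fin n → Bool) (g : Idx C n → Bool) : Prop :=
  Holds φ ((dgr g).comap (Subtype.val : {x // s x = true} → Fin n)) (fun c x => dpc g c x.1)
    (LinearOrder.lift' (Subtype.val : {x // s x = true} → Fin n) Subtype.val_injective)

lemma holdsP_tw (φ : (sig C).Sentence) {n : ℕ} (M : St (Option C) (Fin n)) :
    HoldsP φ (oF n) (tw M) ↔
      HB φ (fun x => M (jx C n (Sum.inl x))) (fun i => M (jx C n (Sum.inr i))) := by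
  have h0 : ∀ x : Fin n, tw M (x, x, none) = M (x, x, none) := by
    intro x
    simp [tw]
  have h1 : ∀ x y : Fin n, x < y → tw M (x, y, none) = xor (M (x, y, none)) (M (y, x, none)) := by
    intro x y h
    simp [tw, h]
  have h2 : ∀ x y : Fin n, x < y → tw M (y, x, none) = M (y, x, none) := by
    intro x y h
    have : ¬ y < x := not_lt.2 h.le
    simp [tw, this]
  have h3 : ∀ x y : Fin n, x < y → (tw M (x, y, none) ≠ tw M (y, x, none) ↔
      M (x, y, none) = true) := by
    intro x y h
    rw [h1 x y h, h2 x y h]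
    cases M (x, y, none) <;> cases M (y, x, none) <;> simp
  refine holds_iso (Equiv.subtypeEquivRight fun x => ?_) ?_ ?_ ?_
  · rw [h0]
    exact Iff.rfl
  · intro x y
    show (x.1 ≠ y.1 ∧ tw M (x.1, y.1, none) ≠ tw M (y.1, x.1, none)) ↔
      ((∃ h : x.1 < y.1, M (x.1, y.1, none) = true) ∨ (∃ h : y.1 < x.1, M (y.1, x.1, none) = true))
    constructor
    · rintro ⟨h4, h5⟩
      rcases lt_trichotomy x.1 y.1 with h6 | h6 | h6
      · exact Or.inl ⟨h6, (h3 _ _ h6).1 h5⟩
      · exact absurd h6 h4
      · exact Or.inr ⟨h6, (h3 _ _ h6).1 h5.symm⟩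
    · rintro (⟨h6, h7⟩ | ⟨h6, h7⟩)
      · exact ⟨h6.ne, (h3 _ _ h6).2 h7⟩
      · exact ⟨h6.ne', ((h3 _ _ h6).2 h7).symm⟩
  · intro c x
    show tw M (x.1, x.1, some c) = true ↔ M (x.1, x.1, some c) = true
    have : tw M (x.1, x.1, some c) = M (x.1, x.1, some c) := by simp [tw]
    rw [this]
  · intro x y
    exact Iff.rfl

/-- increasing maps act on bits -/
def ixm {m n : ℕ} (e : Fin m → Fin n) (he : StrictMono e) : Idx C m → Idx C n
  | Sum.inl p => Sum.inl ⟨(e p.1.1, e p.1.2), he p.2⟩
  | Sum.inr q => Sum.inr (q.1, e q.2)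

lemma ixm_injective {m n : ℕ} (e : Fin m → Fin n) (he : StrictMono e) :
    Function.Injective (ixm (C := C) e he) := by
  intro a b h
  match a, b with
  | Sum.inl p, Sum.inl q =>
    have h1 := Sum.inl.inj h
    have h2 := congrArg Subtype.val h1
    simp only [Prod.mk.injEq] at h2
    congr 1
    exact Subtype.ext (Prod.ext (he.injective h2.1) (he.injective h2.2))
  | Sum.inl p, Sum.inr q => exact absurd h (by simp [ixm])
  | Sum.inr p, Sum.inl q => exact absurd h (by simp [ixm])
  | Sum.inr p, Sum.inr q =>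
    have h1 := Sum.inr.inj h
    simp only [Prod.mk.injEq] at h1
    congr 1
    exact Prod.ext h1.1 (he.injective h1.2)

/-- number of true bits -/
def cnt {n : ℕ} (s : Fin n → Bool) : ℕ := (univ.filter fun x => s x = true).card

lemma HB_iff (φ : (sig C).Sentence) {n : ℕ} (s : Fin n → Bool) (g : Idx C n → Bool) :
    HB φ s g ↔ Holds φ (dgr fun i => g (ixm ((univ.filter fun x => s x = true).orderEmbOfFin rfl)
        (OrderEmbedding.strictMono _) i))
      (dpc fun i => g (ixm ((univ.filter fun x => s x = true).orderEmbOfFin rfl)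
        (OrderEmbedding.strictMono _) i)) (oF (cnt s)) := by
  set e := (univ.filter fun x => s x = true).orderEmbOfFin rfl with he
  have hm : ∀ i, s (e i) = true := by
    intro i
    have := Finset.orderEmbOfFin_mem (univ.filter fun x => s x = true) rfl i
    exact (Finset.mem_filter.1 this).2
  have hlt : ∀ x y, e x < e y ↔ x < y := fun x y => e.lt_iff_lt
  let f : Fin (cnt s) → {x // s x = true} := fun i => ⟨e i, hm i⟩
  have hf : Function.Bijective f := by
    constructor
    · intro i j h
      have h1 : (f i).1 = (f j).1 := by rw [h]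
      exact e.injective h1
    · rintro ⟨x, hx⟩
      have h1 : x ∈ Set.range e := by
        rw [he, Finset.range_orderEmbOfFin]
        simpa using hx
      obtain ⟨i, hi⟩ := h1
      exact ⟨i, Subtype.ext hi⟩
  symm
  refine holds_iso (Equiv.ofBijective f hf) ?_ ?_ ?_
  · intro x y
    show ((∃ h : x < y, g (Sum.inl ⟨(e x, e y), _⟩) = true) ∨
      (∃ h : y < x, g (Sum.inl ⟨(e y, e x), _⟩) = true)) ↔
      ((∃ h : e x < e y, g (Sum.inl ⟨(e x, e y), h⟩) = true) ∨
        (∃ h : e y < e x, g (Sum.inl ⟨(e y, e x), h⟩) = true))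
    constructor
    · rintro (⟨h, h1⟩ | ⟨h, h1⟩)
      · exact Or.inl ⟨(hlt _ _).2 h, h1⟩
      · exact Or.inr ⟨(hlt _ _).2 h, h1⟩
    · rintro (⟨h, h1⟩ | ⟨h, h1⟩)
      · exact Or.inl ⟨(hlt _ _).1 h, h1⟩
      · exact Or.inr ⟨(hlt _ _).1 h, h1⟩
  · intro c x
    exact Iff.rfl
  · intro x y
    exact (hlt x y).symm

variable [Fintype C] [DecidableEq C]

/-- the probability of the property of the present vertices is a mixture -/
lemma av_holdsP (φ : (sig C).Sentence) (n : ℕ) :
    av (fun M : St (Option C) (Fin n) => ind (HoldsP φ (oF n) M)) =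
      av (fun s : Fin n → Bool => mu φ (cnt s)) := by
  rw [← av_invol tw tw_invol]
  have h1 : (fun M : St (Option C) (Fin n) => ind (HoldsP φ (oF n) (tw M))) =
      fun M : St (Option C) (Fin n) => (fun h : Fin n ⊕ Idx C n → Bool =>
        ind (HB φ (fun x => h (Sum.inl x)) (fun i => h (Sum.inr i)))) (fun j => M (jx C n j)) := by
    funext M
    exact ind_congr (holdsP_tw φ M)
  rw [h1, av_comp_inj (jx C n) (jx_injective C n)
    (fun h : Fin n ⊕ Idx C n → Bool =>
        ind (HB φ (fun x => h (Sum.inl x)) (fun i => h (Sum.inr i)))),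
    ← av_equiv (Equiv.sumArrowEquivProdArrow (Fin n) (Idx C n) Bool).symm, av_prod]
  refine av_congr fun s => ?_
  show av (fun g : Idx C n → Bool => ind (HB φ s g)) = _
  rw [mu_eq_av, av_congr (fun g => ind_congr (HB_iff φ s g))]
  exact av_comp_inj _ (ixm_injective _ _)
    (fun g : Idx C (cnt s) → Bool => ind (Holds φ (dgr g) (dpc g) (oF (cnt s))))

end random

/-! ### The binomial distribution -/

section binomial

lemma av_cnt_ge {n k : ℕ} (u : ℕ → ℝ) (hu : ∀ k, 0 ≤ u k) :
    (n.choose k : ℝ) / 2 ^ n * u k ≤ av (fun s : Fin n → Bool => u (cnt s)) := by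
  classical
  have h1 : (n.choose k : ℝ) * u k ≤ ∑ s : Fin n → Bool, u (cnt s) := by
    have h2 : ∑ s ∈ univ.filter (fun s : Fin n → Bool => cnt s = k), u (cnt s) ≤
        ∑ s : Fin n → Bool, u (cnt s) :=
      Finset.sum_le_sum_of_subset_of_nonneg (Finset.filter_subset _ _) fun s _ _ => hu _
    refine le_trans (le_of_eq ?_) h2
    rw [Finset.sum_congr rfl (g := fun _ => u k) (fun s hs => by
      rw [(Finset.mem_filter.1 hs).2]), Finset.sum_const, nsmul_eq_mul]
    congr 2
    have h3 : (univ.filter (fun s : Fin n → Bool => cnt s = k)).card =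
        ((univ : Finset (Fin n)).powersetCard k).card := by
      refine Finset.card_bij' (fun s _ => univ.filter fun x => s x = true)
        (fun S _ => fun x => decide (x ∈ S)) ?_ ?_ ?_ ?_
      · intro s hs
        rw [Finset.mem_powersetCard]
        exact ⟨Finset.subset_univ _, (Finset.mem_filter.1 hs).2⟩
      · intro S hS
        rw [Finset.mem_powersetCard] at hS
        refine Finset.mem_filter.2 ⟨Finset.mem_univ _, ?_⟩
        have h5 : (univ.filter fun x : Fin n => decide (x ∈ S) = true) = S := by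
          ext x
          simp
        show (univ.filter fun x : Fin n => decide (x ∈ S) = true).card = k
        rw [h5, hS.2]
      · intro s hs
        funext x
        simp
      · intro S hS
        ext x
        simp
    rw [h3, Finset.card_powersetCard, Finset.card_univ, Fintype.card_fin]
  have h4 : (Fintype.card (Fin n → Bool) : ℝ) = 2 ^ n := by simp
  unfold av
  rw [h4, div_mul_eq_mul_div]
  exact div_le_div_of_nonneg_right h1 (by positivity)

lemma choose_mid {k : ℕ} (hk : 1 ≤ k) :
    1 / (4 * (k : ℝ)) ≤ ((2 * k).choose k : ℝ) / 2 ^ (2 * k) ∧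
      1 / (4 * (k : ℝ)) ≤ ((2 * k).choose (k + 1) : ℝ) / 2 ^ (2 * k) := by
  have h1 : (4 : ℝ) ^ k ≤ 2 * k * (2 * k).choose k := by
    have := Nat.four_pow_le_two_mul_self_mul_centralBinom k hk
    rw [Nat.centralBinom_eq_two_mul_choose] at this
    exact_mod_cast this
  have h2 : ((2 * k).choose (k + 1) : ℝ) * (k + 1) = (2 * k).choose k * k := by
    have := Nat.choose_succ_right_eq (2 * k) k
    have h3 : 2 * k - k = k := by omega
    rw [h3] at this
    exact_mod_cast this
  have hk' : (1 : ℝ) ≤ k := by exact_mod_cast hk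
  have h4 : (2 : ℝ) ^ (2 * k) = 4 ^ k := by rw [pow_mul]; norm_num
  have h5 : (0 : ℝ) < 4 ^ k := by positivity
  have hc : (0 : ℝ) ≤ (2 * k).choose k := by positivity
  rw [h4]
  constructor
  · rw [div_le_div_iff₀ (by positivity) h5]
    nlinarith
  · rw [div_le_div_iff₀ (by positivity) h5]
    have h6 : ((2 * k).choose k : ℝ) ≤ 2 * (2 * k).choose (k + 1) := by
      have h7 : (0 : ℝ) ≤ (2 * k).choose (k + 1) := by positivity
      nlinarith
    nlinarith

end binomial

/-! ### The limit -/

section limit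

variable {C : Type} [Fintype C] [DecidableEq C]

lemma mu_nonneg (φ : (sig C).Sentence) (n : ℕ) : 0 ≤ mu φ n := by
  rw [mu_eq_av]
  exact av_nonneg fun _ => ind_nonneg _

lemma mu_le_one (φ : (sig C).Sentence) (n : ℕ) : mu φ n ≤ 1 := by
  rw [mu_eq_av]
  exact av_le_one fun _ => ind_le_one _

/-- the alternative for two consecutive values -/
lemma mu_alt (hM : Main (Option C)) {φ : (sig C).Sentence} (hφ : OrderInvariant φ) :
    ∀ᶠ k : ℕ in atTop, (mu φ k ≤ 1 / k ∧ mu φ (k + 1) ≤ 1 / k) ∨
      (1 - 1 / k ≤ mu φ k ∧ 1 - 1 / k ≤ mu φ (k + 1)) := by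
  classical
  obtain ⟨j, hj⟩ := lev_ev φ
  have h1 := hM 2 1 j 4
  have h2 : Tendsto (fun k : ℕ => 2 * k) atTop atTop :=
    Filter.tendsto_atTop_mono (fun k => by show k ≤ 2 * k; omega) tendsto_id
  filter_upwards [h2.eventually h1, eventually_ge_atTop 1] with k hk hk1
  set n := 2 * k with hn
  have h3 := hk (fun M => decide (ev (oF n) M φ (fun i => nomatch i)))
    (by rw [pow_one]; exact hj n (by omega) _) (by
      intro π M
      refine decide_eq_decide.2 ?_
      rw [← holdsP_iff, ← holdsP_iff]
      exact holdsP_pull hφ _ π M)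
  set x := av (fun M : St (Option C) (Fin n) => ind (HoldsP φ (oF n) M)) with hx
  have h4 : av (fun M : St (Option C) (Fin n) =>
      ind (decide (ev (oF n) M φ (fun i => nomatch i)) = true)) = x := by
    refine av_congr fun M => ind_congr ?_
    rw [decide_eq_true_iff, ← holdsP_iff]
  have h5 : av (fun M : St (Option C) (Fin n) =>
      ind (decide (ev (oF n) M φ (fun i => nomatch i)) = false)) = 1 - x := by
    have h6 : ∀ M : St (Option C) (Fin n),
        ind (decide (ev (oF n) M φ (fun i => nomatch i)) = false) =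
          1 - ind (HoldsP φ (oF n) M) := by
      intro M
      rw [← ind_not]
      refine ind_congr ?_
      rw [decide_eq_false_iff_not, ← holdsP_iff]
    rw [av_congr h6, av_sub, av_const]
  rw [h4, h5] at h3
  have hmix : x = av (fun s : Fin n → Bool => mu φ (cnt s)) := av_holdsP φ n
  have hmix' : 1 - x = av (fun s : Fin n → Bool => 1 - mu φ (cnt s)) := by
    rw [av_sub, av_const, hmix]
  have g1 := fun l => av_cnt_ge (n := n) (k := l) (mu φ) (mu_nonneg φ)
  have g2 := fun l => av_cnt_ge (n := n) (k := l) (fun k => 1 - mu φ k)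
    (fun k => sub_nonneg.2 (mu_le_one φ k))
  rw [← hmix] at g1
  rw [← hmix'] at g2
  obtain ⟨b1, b2⟩ := choose_mid hk1
  have hk' : (1 : ℝ) ≤ k := by exact_mod_cast hk1
  have hx0 : 0 ≤ x := av_nonneg fun _ => ind_nonneg _
  have hx1 : x ≤ 1 := av_le_one fun _ => ind_le_one _
  have hpow : ((n : ℕ) : ℝ) ^ (-(4 : ℝ)) = 1 / (16 * k ^ 4) := by
    rw [Real.rpow_neg (by positivity), hn]
    push_cast
    rw [show (4 : ℝ) = ((4 : ℕ) : ℝ) by norm_num, Real.rpow_natCast]
    rw [mul_pow]
    norm_num
  rw [hpow] at h3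
  -- bounds from a small value
  have key : ∀ (y m₁ m₂ : ℝ), y ≤ 1 / (8 * (k : ℝ) ^ 4) → 1 / (4 * (k : ℝ)) * m₁ ≤ y →
      1 / (4 * (k : ℝ)) * m₂ ≤ y → m₁ ≤ 1 / k ∧ m₂ ≤ 1 / k := by
    intro y m₁ m₂ hy h6 h7
    have h8 : 1 / (8 * (k : ℝ) ^ 4) ≤ 1 / (4 * (k : ℝ)) * (1 / k) := by
      rw [div_mul_div_comm, one_mul]
      refine one_div_le_one_div_of_le (by positivity) ?_
      have : (1 : ℝ) ≤ k ^ 2 := one_le_pow₀ hk'
      nlinarith [pow_pos (lt_of_lt_of_le one_pos hk') 2]
    have h9 : (0 : ℝ) < 1 / (4 * (k : ℝ)) := by positivity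
    exact ⟨le_of_mul_le_mul_left (h6.trans (hy.trans h8)) h9,
      le_of_mul_le_mul_left (h7.trans (hy.trans h8)) h9⟩
  have e1 : 1 / (4 * (k : ℝ)) * mu φ k ≤ x :=
    (mul_le_mul_of_nonneg_right b1 (mu_nonneg φ _)).trans (g1 k)
  have e2 : 1 / (4 * (k : ℝ)) * mu φ (k + 1) ≤ x :=
    (mul_le_mul_of_nonneg_right b2 (mu_nonneg φ _)).trans (g1 (k + 1))
  have e3 : 1 / (4 * (k : ℝ)) * (1 - mu φ k) ≤ 1 - x :=
    (mul_le_mul_of_nonneg_right b1 (sub_nonneg.2 (mu_le_one φ _))).trans (g2 k)
  have e4 : 1 / (4 * (k : ℝ)) * (1 - mu φ (k + 1)) ≤ 1 - x :=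
    (mul_le_mul_of_nonneg_right b2 (sub_nonneg.2 (mu_le_one φ _))).trans (g2 (k + 1))
  have hhalf : 1 / (8 * (k : ℝ) ^ 4) = 2 * (1 / (16 * k ^ 4)) := by
    field_simp
    norm_num
  rcases le_total x (1 / 2) with hc | hc
  · left
    exact key x _ _ (by rw [hhalf]; nlinarith) e1 e2
  · right
    have := key (1 - x) _ _ (by rw [hhalf]; nlinarith) e3 e4
    constructor <;> linarith [this.1, this.2]

/-- **The final step**: near-constancy of invariant circuits implies the zero-one law. -/
theorem zero_one_of_main (hM : Main (Option C)) {φ : (sig C).Sentence} (hφ : OrderInvariant φ) :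
    Tendsto (mu φ) atTop (nhds 0) ∨ Tendsto (mu φ) atTop (nhds 1) := by
  obtain ⟨k₀, hk₀⟩ := eventually_atTop.1 ((mu_alt hM hφ).and (eventually_ge_atTop 3))
  have hsmall : ∀ k, k₀ ≤ k → (1 : ℝ) / k < 1 / 2 := by
    intro k hk
    have h1 : (3 : ℝ) ≤ k := by exact_mod_cast (hk₀ k hk).2
    rw [div_lt_div_iff₀ (by positivity) (by norm_num)]
    linarith
  have hlim : Tendsto (fun k : ℕ => (1 : ℝ) / k) atTop (nhds 0) := tendsto_one_div_atTop_nhds_zero_nat
  rcases (hk₀ k₀ le_rfl).1 with h | h
  · left
    have h1 : ∀ k, k₀ ≤ k → mu φ k ≤ 1 / k ∧ mu φ (k + 1) ≤ 1 / k := by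
      intro k hk
      induction k, hk using Nat.le_induction with
      | base => exact h
      | succ k hk ih =>
        rcases (hk₀ (k + 1) (by omega)).1 with h2 | h2
        · exact h2
        · exfalso
          have h3 := hsmall k hk
          have h4 := hsmall (k + 1) (by omega)
          linarith [h2.1, ih.2]
    refine tendsto_of_tendsto_of_tendsto_of_le_of_le' tendsto_const_nhds hlim
      (Eventually.of_forall (mu_nonneg φ)) ?_
    filter_upwards [eventually_ge_atTop k₀] with k hk
    exact (h1 k hk).1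
  · right
    have h1 : ∀ k, k₀ ≤ k → 1 - 1 / (k : ℝ) ≤ mu φ k ∧ 1 - 1 / (k : ℝ) ≤ mu φ (k + 1) := by
      intro k hk
      induction k, hk using Nat.le_induction with
      | base => exact h
      | succ k hk ih =>
        rcases (hk₀ (k + 1) (by omega)).1 with h2 | h2
        · exfalso
          have h3 := hsmall k hk
          have h4 := hsmall (k + 1) (by omega)
          linarith [h2.1, ih.2]
        · exact h2
    have hlim' : Tendsto (fun k : ℕ => 1 - (1 : ℝ) / k) atTop (nhds 1) := by
      have := hlim.const_sub (1 : ℝ)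
      rwa [sub_zero] at this
    refine tendsto_of_tendsto_of_tendsto_of_le_of_le' hlim' tendsto_const_nhds ?_
      (Eventually.of_forall (mu_le_one φ))
    filter_upwards [eventually_ge_atTop k₀] with k hk
    exact (h1 k hk).1

end limit

end ZOL
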