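import Pool.Agent.ZOL.TK

/-!
# TKv: the structure version of TK
-/

set_option autoImplicit false

open Finset Filter Topology
open scoped BigOperators

namespace ZOL73

open ZOL

/-- composition of a circuit with a map whose coordinates are `q`-juntas -/
theorem lev_comp {I I' : Type*} [DecidableEq I] (e : (I → Bool) → (I' → Bool)) (q : ℕ)
    (h : ∀ i', ∃ s : Finset I, s.card ≤ q ∧ ∀ x y : I → Bool, (∀ i ∈ s, x i = y i) →
      e x i' = e y i') {c S : ℕ} (j : ℕ) {t : (I' → Bool) → Bool} (ht : Lev c S j t) :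
    Lev (q * c) S j (fun z => t (e z)) := by
  classical
  induction j generalizing t with
  | zero =>
    obtain ⟨s, hs, h2⟩ := ht
    choose σ hσ1 hσ2 using h
    refine ⟨s.biUnion σ, ?_, ?_⟩
    · calc (s.biUnion σ).card ≤ s.card * q := card_biUnion_le_card_mul _ _ _ fun i _ => hσ1 i
        _ ≤ c * q := by gcongr
        _ = q * c := by ring
    · intro x y hxy
      apply h2
      intro i' hi'
      exact hσ2 i' x y fun i hi => hxy i (mem_biUnion.2 ⟨i', hi', hi⟩)
  | succ j ih =>
    obtain ⟨m, t', hm, ht', hor⟩ := ht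
    refine ⟨m, fun l z => t' l (e z), hm, fun l => ih (ht' l), ?_⟩
    rcases hor with hor | hor
    · exact Or.inl fun x => hor (e x)
    · exact Or.inr fun x => hor (e x)

section shift
variable {κ ι : Type} {n : ℕ}

/-- the selection map -/
def sel (z : Fin n → Bool) : Fin n ⊕ ι → (Fin n × Bool) ⊕ ι := Sum.map (fun x => (x, z x)) id

/-- the shift of the vertices -/
def shift (z : Fin n → Bool) : (Fin n × Bool) ⊕ ι → (Fin n × Bool) ⊕ ι :=
  Sum.map (fun p => (p.1, xor p.2 (z p.1))) id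

theorem shift_shift (z : Fin n → Bool) (p : (Fin n × Bool) ⊕ ι) : shift z (shift z p) = p := by
  rcases p with ⟨x, b⟩ | k
  · simp [shift]
  · simp [shift]

/-- the shift as an equivalence of structures -/
def shiftEquiv (z : Fin n → Bool) : St κ ((Fin n × Bool) ⊕ ι) ≃ St κ ((Fin n × Bool) ⊕ ι) where
  toFun T := pull (shift z) T
  invFun T := pull (shift z) T
  left_inv T := by
    funext p
    simp only [pull, shift_shift]
  right_inv T := by
    funext p
    simp only [pull, shift_shift]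

theorem shift_sel (z y : Fin n → Bool) (p : Fin n ⊕ ι) :
    shift z (sel y p) = sel (fun x => xor (y x) (z x)) p := by
  rcases p with x | k <;> rfl

/-- the value of `t` on the selected structure -/
noncomputable def Fsel (t : St κ (Fin n) → Bool) (a : ι → Fin n) (B : Finset ι)
    (T : St κ ((Fin n × Bool) ⊕ ι)) (z : Fin n → Bool) : Bool :=
  t (pull (ctx a B) (pull (sel z) T))

theorem Fsel_shift (t : St κ (Fin n) → Bool) (a : ι → Fin n) (B : Finset ι)
    (T : St κ ((Fin n × Bool) ⊕ ι)) (z y : Fin n → Bool) :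
    Fsel t a B (pull (shift z) T) y = Fsel t a B T (fun x => xor (y x) (z x)) := by
  unfold Fsel
  congr 2
  funext p
  simp only [pull, shift_sel]

theorem Fsel_flip (t : St κ (Fin n) → Bool) (a : ι → Fin n) (B : Finset ι)
    (T : St κ ((Fin n × Bool) ⊕ ι)) (z : Fin n → Bool) (A : Finset (Fin n)) :
    Fsel t a B (pull (shift z) T) (flipS A fun _ => false) = Fsel t a B T (flipS A z) := by
  rw [Fsel_shift]
  congr 1
  funext x
  by_cases h : x ∈ A <;> simp [flipS, h]

theorem numMS_shift (t : St κ (Fin n) → Bool) (a : ι → Fin n) (B : Finset ι)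
    (T : St κ ((Fin n × Bool) ⊕ ι)) (z : Fin n → Bool) (w : ℕ) :
    numMS (Fsel t a B (pull (shift z) T)) (fun _ => false) w = numMS (Fsel t a B T) z w := by
  have h0 : Fsel t a B (pull (shift z) T) (fun _ => false) = Fsel t a B T z := by
    rw [Fsel_shift]
    congr 1
    funext x
    simp
  unfold numMS
  refine sum_congr rfl fun S _ => ?_
  have h1 : MinSens (Fsel t a B (pull (shift z) T)) (fun _ => false) S ↔
      MinSens (Fsel t a B T) z S := by
    unfold MinSens
    simp only [Fsel_flip, h0]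
  rw [h1]

theorem ctx_cases (a : ι → Fin n) (B : Finset ι) (x : Fin n) :
    ctx a B x = Sum.inl x ∨ ∃ k, ctx a B x = Sum.inr k := by
  unfold ctx
  split_ifs with h
  · exact Or.inr ⟨_, rfl⟩
  · exact Or.inl rfl

theorem lev_Fsel {t : St κ (Fin n) → Bool} {c S j : ℕ} (ht : Lev c S j t) (a : ι → Fin n)
    (B : Finset ι) (T : St κ ((Fin n × Bool) ⊕ ι)) : Lev (2 * c) S j (Fsel t a B T) := by
  refine lev_comp (fun z => pull (ctx a B) (pull (sel z) T)) 2 ?_ j ht
  rintro ⟨x, y, b⟩
  refine ⟨{x, y}, card_le_two, fun z z' h => ?_⟩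
  have hx : ∀ x' ∈ ({x, y} : Finset (Fin n)), sel (ι := ι) z (ctx a B x') = sel z' (ctx a B x') := by
    intro x' hx'
    rcases ctx_cases a B x' with h1 | ⟨k, h1⟩
    · rw [h1]
      simp [sel, h x' hx']
    · rw [h1]
      simp [sel]
  simp only [pull]
  rw [hx x (by simp), hx y (by simp)]

end shift

theorem tkv (κ : Type) [Fintype κ] [DecidableEq κ] (ι : Type) [Fintype ι] [DecidableEq ι]
    (c K j w : ℕ) (ε C : ℝ) (hε : 0 < ε) : ∀ᶠ n : ℕ in atTop,
    ∀ t : St κ (Fin n) → Bool, Lev c (n ^ K) j t → ∀ (a : ι → Fin n) (B : Finset ι),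
    Pr (fun T : St κ ((Fin n × Bool) ⊕ ι) => (n : ℝ) ^ ε <
      numMS (Fsel t a B T) (fun _ => false) w) ≤ (n : ℝ) ^ (-C) := by
  filter_upwards [tk (2 * c) K 1 j w ε C hε] with n hn t ht a B
  have h1 : ∀ z : Fin n → Bool, Pr (fun T : St κ ((Fin n × Bool) ⊕ ι) => (n : ℝ) ^ ε <
      numMS (Fsel t a B T) (fun _ => false) w) =
      Pr (fun T : St κ ((Fin n × Bool) ⊕ ι) => (n : ℝ) ^ ε < numMS (Fsel t a B T) z w) := by
    intro z
    rw [← Pr_equiv (shiftEquiv z)]
    refine Pr_congr fun T => ?_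
    show (n : ℝ) ^ ε < numMS (Fsel t a B (pull (shift z) T)) (fun _ => false) w ↔ _
    rw [numMS_shift]
  have h2 : Pr (fun T : St κ ((Fin n × Bool) ⊕ ι) => (n : ℝ) ^ ε <
      numMS (Fsel t a B T) (fun _ => false) w) =
      Pr (fun x : (Fin n → Bool) × St κ ((Fin n × Bool) ⊕ ι) =>
        (n : ℝ) ^ ε < numMS (Fsel t a B x.2) x.1 w) := by
    rw [Pr_prod, ← expect_congr rfl fun z _ => h1 z, Fintype.expect_const]
  rw [h2, Pr_prod']
  refine expect_le_const fun T => ?_
  exact hn (Fin n) (by simp) (Fsel t a B T) (lev_Fsel ht a B T)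

end ZOL73

namespace ZOL

/-- **TKv** -/
theorem stmtTKv (κ : Type) [Fintype κ] [DecidableEq κ] : StmtTKv κ := by
  intro ι _ _ c K j w ε C hε
  filter_upwards [ZOL73.tkv κ ι c K j w ε C hε] with n hn t ht a B
  rw [ZOL73.av_ind_eq]
  exact hn t ht a B

end ZOL
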