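import Pool.Agent.ZOL.Core
import Pool.Agent.ZOL.TKv

/-!
# GR: generic rows
-/

set_option autoImplicit false

open Finset Filter Topology

namespace ZOL

namespace GR

section ovr
variable {κ ι V : Type}

theorem ovr_ovr (g γ : St κ ι) (M : St κ (V ⊕ ι)) : ovr g (ovr γ M) = ovr g M := by
  funext p
  rcases p with ⟨x | k, y | k', c⟩ <;> rfl

theorem ovr_self (M : St κ (V ⊕ ι)) : ovr (pull Sum.inr M) M = M := by
  funext p
  rcases p with ⟨x | k, y | k', c⟩ <;> rfl

theorem pull_inr_ovr (g : St κ ι) (M : St κ (V ⊕ ι)) : pull Sum.inr (ovr g M) = g := by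
  funext p
  rcases p with ⟨k, k', c⟩
  rfl

theorem glue_ovr (g γ : St κ ι) (a : ι → V) (A : Finset ι) (M : St κ (V ⊕ ι)) :
    glue g a A (ovr γ M) = glue g a A M := by
  unfold glue
  rw [ovr_ovr]

theorem Qev_ovr [DecidableEq ι] (t : St κ V → Bool) (g γ : St κ ι) (B W : Finset ι)
    (M : St κ (V ⊕ ι)) (a : ι → V) : Qev t g B W (ovr γ M) a ↔ Qev t g B W M a := by
  unfold Qev
  simp only [glue_ovr]

variable [Fintype κ] [DecidableEq κ] [Fintype V] [DecidableEq V] [Fintype ι] [DecidableEq ι]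

theorem av_ovr (F : St κ (V ⊕ ι) → ℝ) :
    av F = av (fun γ : St κ ι => av (fun M : St κ (V ⊕ ι) => F (ovr γ M))) := by
  classical
  rw [av_comm, av_mix {p : (V ⊕ ι) × (V ⊕ ι) × κ | p.1.isRight = true ∧ p.2.1.isRight = true} F]
  refine av_congr fun M => ?_
  have h := av_pull (κ := κ) (X := V ⊕ ι) (Y := ι) Sum.inr Sum.inr_injective
    (fun γ => F (ovr γ M))
  rw [← h]
  refine av_congr fun M' => ?_
  congr 1
  funext p
  rcases p with ⟨x | k, y | k', c⟩ <;> simp [mix, ovr, pull]

/-- one value is at most the cardinality times the average -/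
theorem le_card_mul_av {α : Type*} [Fintype α] {f : α → ℝ} (hf : ∀ x, 0 ≤ f x) (x : α) :
    f x ≤ Fintype.card α * av f := by
  rw [← sum_eq_card_mul_av]
  exact single_le_sum (f := f) (fun y _ => hf y) (mem_univ x)

end ovr

section ctx
variable {ι V : Type}

open Classical in
/-- auxiliary form of `ctx` -/
noncomputable def ctxAux (P : ι → Prop) (x : V) : V ⊕ ι :=
  if h : ∃ k, P k then Sum.inr h.choose else Sum.inl x

theorem ctx_eq_aux (a : ι → V) (A : Finset ι) (x : V) :
    ctx a A x = ctxAux (fun k => k ∈ A ∧ a k = x) x := by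
  by_cases h : ∃ k, k ∈ A ∧ a k = x
  · rw [ctx, ctxAux, dif_pos h, dif_pos h]
  · rw [ctx, ctxAux, dif_neg h, dif_neg h]

theorem ctx_congr {a a' : ι → V} {A : Finset ι} (h : ∀ k ∈ A, a k = a' k) : ctx a A = ctx a' A := by
  funext x
  rw [ctx_eq_aux, ctx_eq_aux]
  congr 1
  funext k
  apply propext
  constructor
  · rintro ⟨h1, h2⟩; exact ⟨h1, by rw [← h k h1]; exact h2⟩
  · rintro ⟨h1, h2⟩; exact ⟨h1, by rw [h k h1]; exact h2⟩

end ctx

theorem mem_JW_left {κ V ι : Type} [Fintype κ] [DecidableEq κ] [Fintype V] [DecidableEq V]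
    [DecidableEq ι] {W : Finset ι} {k : ι} (hk : k ∈ W) (x : V) (c : κ) :
    ((Sum.inr k, Sum.inl x, c) : (V ⊕ ι) × (V ⊕ ι) × κ) ∈ JW W := by
  unfold JW
  rw [mem_image]
  exact ⟨((k, c, true), x), by simp [hk], rfl⟩

theorem mem_JW_right {κ V ι : Type} [Fintype κ] [DecidableEq κ] [Fintype V] [DecidableEq V]
    [DecidableEq ι] {W : Finset ι} {k : ι} (hk : k ∈ W) (x : V) (c : κ) :
    ((Sum.inl x, Sum.inr k, c) : (V ⊕ ι) × (V ⊕ ι) × κ) ∈ JW W := by
  unfold JW
  rw [mem_image]
  exact ⟨((k, c, false), x), by simp [hk], rfl⟩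

theorem notMem_JW_int {κ V ι : Type} [Fintype κ] [DecidableEq κ] [Fintype V] [DecidableEq V]
    [DecidableEq ι] (W : Finset ι) (k k' : ι) (c : κ) :
    ((Sum.inr k, Sum.inr k', c) : (V ⊕ ι) × (V ⊕ ι) × κ) ∉ JW W := by
  unfold JW
  rw [mem_image]
  rintro ⟨⟨⟨k1, c1, b⟩, x⟩, _, h⟩
  cases b <;> simp [rb] at h

section main
variable {κ ι : Type} [Fintype κ] [DecidableEq κ] [Fintype ι] [DecidableEq ι] {n : ℕ}

/-- the embedding: mark `k ∈ W` becomes the fresh copy of its label -/
def ea (a : ι → Fin n) (W : Finset ι) : Fin n ⊕ ι → (Fin n × Bool) ⊕ ι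
  | Sum.inl x => Sum.inl (x, false)
  | Sum.inr k => if k ∈ W then Sum.inl (a k, true) else Sum.inr k

/-- the reference embedding -/
def e0 : Fin n ⊕ ι → (Fin n × Bool) ⊕ ι
  | Sum.inl x => Sum.inl (x, false)
  | Sum.inr k => Sum.inr k

omit [Fintype ι] [DecidableEq ι] in
theorem e0_inj : Function.Injective (e0 (ι := ι) (n := n)) := by
  rintro (x | k) (y | k') h
  · simp only [e0, Sum.inl.injEq, Prod.mk.injEq, and_true] at h
    rw [h]
  · simp [e0] at h
  · simp [e0] at h
  · simp only [e0, Sum.inr.injEq] at h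
    rw [h]

omit [Fintype ι] in
theorem ea_inj {a : ι → Fin n} {W : Finset ι} (ha : Set.InjOn a W) :
    Function.Injective (ea a W) := by
  rintro (x | k) (y | k') h
  · simp only [ea, Sum.inl.injEq, Prod.mk.injEq, and_true] at h
    rw [h]
  · by_cases hk : k' ∈ W <;> simp [ea, hk] at h
  · by_cases hk : k ∈ W <;> simp [ea, hk] at h
  · by_cases hk : k ∈ W <;> by_cases hk' : k' ∈ W
    · simp only [ea, hk, hk', if_true, Sum.inl.injEq, Prod.mk.injEq, and_true] at h
      rw [ha hk hk' h]
    · simp [ea, hk, hk'] at h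
    · simp [ea, hk, hk'] at h
    · simp only [ea, hk, hk', if_false, Sum.inr.injEq] at h
      rw [h]

/-- the function of TKv -/
noncomputable def Ft (t : St κ (Fin n) → Bool) (a : ι → Fin n) (B : Finset ι)
    (T : St κ ((Fin n × Bool) ⊕ ι)) (z : Fin n → Bool) : Bool :=
  t (pull (ctx a B) (pull (Sum.map (fun x => (x, z x)) id) T))

omit [Fintype ι] [Fintype κ] [DecidableEq κ] in
/-- the inserted structures are the selected structures -/
theorem glue_eq {a : ι → Fin n} {B W A : Finset ι} (hBW : Disjoint B W)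
    (ha : Set.InjOn a (↑(B ∪ W) : Set ι)) (hA : A ⊆ W) (t : St κ (Fin n) → Bool)
    (T : St κ ((Fin n × Bool) ⊕ ι)) :
    t (glue (pull Sum.inr (pull (ea a W) T)) a (B ∪ A) (pull (ea a W) T)) =
      Ft t a B T (flipS (A.image a) fun _ => false) := by
  unfold Ft glue
  rw [ovr_self]
  congr 1
  rw [pull_pull, pull_pull]
  congr 1
  funext x
  simp only [Function.comp]
  have haB : Set.InjOn a (↑B : Set ι) := ha.mono (by intro k hk; simp at hk ⊢; exact Or.inl hk)
  rcases ctx_spec a (B ∪ A) x with ⟨k, hk, hkx, hx⟩ | ⟨hne, hx⟩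
  · rw [hx]
    by_cases hkB : k ∈ B
    · have hkW : k ∉ W := fun h => disjoint_left.1 hBW hkB h
      have h1 : ctx a B x = Sum.inr k := by rw [← hkx]; exact ctx_of_mem haB hkB
      rw [h1]
      simp [ea, hkW]
    · have hkA : k ∈ A := by
        rcases mem_union.1 hk with h | h
        · exact absurd h hkB
        · exact h
      have hkW : k ∈ W := hA hkA
      have h1 : ctx a B x = Sum.inl x := by
        refine ctx_of_notMem fun k' hk' h => ?_
        have : k' = k := ha (by simp [hk']) (by simp [hkW]) (by rw [h, hkx])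
        exact hkB (this ▸ hk')
      rw [h1]
      have h2 : x ∈ A.image a := mem_image.2 ⟨k, hkA, hkx⟩
      have h3 : flipS (A.image a) (fun _ => false) x = true := by rw [flipS, if_pos h2]; rfl
      simp only [ea, hkW, if_true, hkx, Sum.map_inl, h3]
  · rw [hx]
    have h1 : ctx a B x = Sum.inl x := ctx_of_notMem fun k' hk' => hne k' (by simp [hk'])
    rw [h1]
    have h2 : x ∉ A.image a := by
      rw [mem_image]
      rintro ⟨k, hk, hkx⟩
      exact hne k (by simp [hk]) hkx
    simp only [ea, Sum.map_inl, flipS, h2, if_false]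

omit [Fintype ι] [Fintype κ] [DecidableEq κ] in
theorem minSens_of_Qev {a : ι → Fin n} {B W : Finset ι} (hBW : Disjoint B W)
    (t : St κ (Fin n) → Bool) (T : St κ ((Fin n × Bool) ⊕ ι))
    (hQ : Qev t (pull Sum.inr (pull (ea a W) T)) B W (pull (ea a W) T) a) :
    MinSens (Ft t a B T) (fun _ => false) (W.image a) := by
  obtain ⟨ha, h1, h2⟩ := hQ
  have h0 : t (glue (pull Sum.inr (pull (ea a W) T)) a B (pull (ea a W) T)) =
      Ft t a B T (fun _ => false) := by
    have := glue_eq hBW ha (empty_subset W) t T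
    rw [union_empty, image_empty, flipS_empty] at this
    exact this
  rw [h0] at h1 h2
  rw [glue_eq hBW ha (Subset.refl W) t T] at h1
  refine ⟨h1, fun S hS => ?_⟩
  have hS' : (W.filter fun k => a k ∈ S).image a = S := by
    ext x
    rw [mem_image]
    constructor
    · rintro ⟨k, hk, rfl⟩
      exact (mem_filter.1 hk).2
    · intro hx
      obtain ⟨k, hk, hkx⟩ := mem_image.1 (hS.1 hx)
      exact ⟨k, mem_filter.2 ⟨hk, by rw [hkx]; exact hx⟩, hkx⟩
  have hsub : (W.filter fun k => a k ∈ S) ⊂ W := by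
    refine ⟨filter_subset _ _, fun h => hS.2 ?_⟩
    intro x hx
    obtain ⟨k, hk, hkx⟩ := mem_image.1 hx
    rw [← hkx]
    exact (mem_filter.1 (h hk)).2
  have h3 := h2 _ hsub
  rw [glue_eq hBW ha hsub.1 t T, hS'] at h3
  exact h3

/-- the core computation -/
theorem core (hn : 0 < n) (t : St κ (Fin n) → Bool) {B W : Finset ι} (hBW : Disjoint B W)
    (H : St κ (Fin n ⊕ ι) → (ι → Fin n) → ℝ) (hH0 : ∀ M a, 0 ≤ H M a) (hH1 : ∀ M a, H M a ≤ 1)
    (hH : ∀ M M' a a', (∀ i, i ∉ JW W → (∀ k k' c, i ≠ (Sum.inr k, Sum.inr k', c)) → M i = M' i) →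
      (∀ k, k ∉ W → a k = a' k) → H M a = H M' a')
    (N : ℝ) (hN : 0 ≤ N) (a : ι → Fin n) :
    av (fun b : ι → Fin n => av (fun M : St κ (Fin n ⊕ ι) =>
      H M (mix (↑W : Set ι) a b) * ind (Qev t (pull Sum.inr M) B W M (mix (↑W : Set ι) a b)))) ≤
    ((W.card : ℝ) / n) ^ W.card * N * av (fun M : St κ (Fin n ⊕ ι) => H M a) +
      av (fun T : St κ ((Fin n × Bool) ⊕ ι) => ind (N <
        numMS (Ft t a B T) (fun _ => false) W.card)) := by
  classical
  have hne : Nonempty (Fin n) := ⟨⟨0, hn⟩⟩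
  set w := W.card with hw
  -- the labels
  have hmixW : ∀ b : ι → Fin n, ∀ k ∈ W, mix (↑W : Set ι) a b k = b k := by
    intro b k hk; simp [mix, hk]
  have hmixN : ∀ b : ι → Fin n, ∀ k, k ∉ W → mix (↑W : Set ι) a b k = a k := by
    intro b k hk; simp [mix, hk]
  -- pass to T
  have h1 : ∀ b : ι → Fin n, av (fun M : St κ (Fin n ⊕ ι) =>
      H M (mix (↑W : Set ι) a b) * ind (Qev t (pull Sum.inr M) B W M (mix (↑W : Set ι) a b))) ≤
      av (fun T : St κ ((Fin n × Bool) ⊕ ι) => H (pull e0 T) a *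
        ind ((W.image b).card = w ∧ MinSens (Ft t a B T) (fun _ => false) (W.image b))) := by
    intro b
    set ab := mix (↑W : Set ι) a b with hab
    by_cases hinj : Set.InjOn ab (↑(B ∪ W) : Set ι)
    · have hinjW : Set.InjOn ab (↑W : Set ι) :=
        hinj.mono (by intro k hk; simp at hk ⊢; exact Or.inr hk)
      have himg : W.image ab = W.image b := image_congr fun k hk => hmixW b k hk
      rw [← av_pull (ea ab W) (ea_inj hinjW) (fun M : St κ (Fin n ⊕ ι) =>
        H M ab * ind (Qev t (pull Sum.inr M) B W M ab))]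
      refine av_mono fun T => ?_
      have h2 : H (pull (ea ab W) T) ab = H (pull e0 T) a := by
        refine hH _ _ _ _ (fun i hi hint => ?_) (fun k hk => hmixN b k hk)
        rcases i with ⟨x | k, y | k', c⟩
        · rfl
        · have hk : k' ∉ W := fun h => hi (mem_JW_right h x c)
          simp [pull, ea, e0, hk]
        · have hk : k ∉ W := fun h => hi (mem_JW_left h y c)
          simp [pull, ea, e0, hk]
        · exact absurd rfl (hint k k' c)
      rw [h2]
      refine mul_le_mul_of_nonneg_left (ind_mono fun hQ => ?_) (hH0 _ _)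
      have h3 := minSens_of_Qev hBW t T hQ
      have h4 : ctx ab B = ctx a B := ctx_congr fun k hk =>
        hmixN b k fun h => disjoint_left.1 hBW hk h
      have h5 : Ft t ab B T = Ft t a B T := by
        funext z
        unfold Ft
        rw [h4]
      rw [h5, himg] at h3
      refine ⟨?_, h3⟩
      rw [← himg, card_image_of_injOn hinjW]
    · have h2 : av (fun M : St κ (Fin n ⊕ ι) =>
          H M ab * ind (Qev t (pull Sum.inr M) B W M ab)) = 0 := by
        rw [← av_zero (α := St κ (Fin n ⊕ ι))]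
        refine av_congr fun M => ?_
        rw [ind_false' fun hQ => hinj hQ.1, mul_zero]
      rw [h2]
      exact av_nonneg fun T => mul_nonneg (hH0 _ _) (ind_nonneg _)
  have h2 : av (fun b : ι → Fin n => av (fun M : St κ (Fin n ⊕ ι) =>
      H M (mix (↑W : Set ι) a b) * ind (Qev t (pull Sum.inr M) B W M (mix (↑W : Set ι) a b)))) ≤
      av (fun T : St κ ((Fin n × Bool) ⊕ ι) => H (pull e0 T) a * av (fun b : ι → Fin n =>
        ind ((W.image b).card = w ∧ MinSens (Ft t a B T) (fun _ => false) (W.image b)))) := by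
    refine (av_mono h1).trans (le_of_eq ?_)
    rw [av_comm]
    refine av_congr fun T => ?_
    rw [av_mul_left]
  refine h2.trans ?_
  -- the labels hit a minimal sensitive set
  have h3 : ∀ T : St κ ((Fin n × Bool) ⊕ ι), av (fun b : ι → Fin n =>
        ind ((W.image b).card = w ∧ MinSens (Ft t a B T) (fun _ => false) (W.image b))) ≤
      ((w : ℝ) / n) ^ w * numMS (Ft t a B T) (fun _ => false) w := by
    intro T
    have h4 : ∀ b : ι → Fin n,
        ind ((W.image b).card = w ∧ MinSens (Ft t a B T) (fun _ => false) (W.image b)) ≤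
        ∑ S : Finset (Fin n), ind (S.card = w ∧ MinSens (Ft t a B T) (fun _ => false) S) *
          ind (∀ k ∈ W, b k ∈ S) := by
      intro b
      have h5 : ind ((W.image b).card = w ∧ MinSens (Ft t a B T) (fun _ => false) (W.image b)) =
          ind ((W.image b).card = w ∧ MinSens (Ft t a B T) (fun _ => false) (W.image b)) *
            ind (∀ k ∈ W, b k ∈ W.image b) := by
        rw [ind_true' (p := ∀ k ∈ W, b k ∈ W.image b) fun k hk => mem_image_of_mem b hk, mul_one]
      rw [h5]
      exact single_le_sum (f := fun S : Finset (Fin n) =>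
        ind (S.card = w ∧ MinSens (Ft t a B T) (fun _ => false) S) * ind (∀ k ∈ W, b k ∈ S))
        (fun S _ => mul_nonneg (ind_nonneg _) (ind_nonneg _)) (mem_univ (W.image b))
    refine (av_mono h4).trans ?_
    rw [av_sum]
    unfold numMS
    rw [mul_sum]
    refine sum_le_sum fun S _ => ?_
    rw [av_mul_left]
    by_cases hS : S.card = w ∧ MinSens (Ft t a B T) (fun _ => false) S
    · rw [ind_true' hS, one_mul, mul_one, ZOL73.av_ind_eq,
        ZOL73.Pr_forall_mem W (fun _ (x : Fin n) => x ∈ S)]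
      have h6 : ZOL73.Pr (fun x : Fin n => x ∈ S) = (w : ℝ) / n := by
        rw [ZOL73.Pr_eq, Fintype.expect_eq_sum_div_card]
        simp [hS.1]
      rw [prod_const, h6]
    · rw [ind_false' hS, zero_mul, mul_zero]
  have h4 : ∀ T : St κ ((Fin n × Bool) ⊕ ι), H (pull e0 T) a * av (fun b : ι → Fin n =>
        ind ((W.image b).card = w ∧ MinSens (Ft t a B T) (fun _ => false) (W.image b))) ≤
      ((w : ℝ) / n) ^ w * N * H (pull e0 T) a +
        ind (N < numMS (Ft t a B T) (fun _ => false) w) := by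
    intro T
    have hh0 := hH0 (pull e0 T) a
    have hh1 := hH1 (pull e0 T) a
    have hp : 0 ≤ ((w : ℝ) / n) ^ w := by positivity
    by_cases hc : N < numMS (Ft t a B T) (fun _ => false) w
    · rw [ind_true' hc]
      have h5 : av (fun b : ι → Fin n =>
        ind ((W.image b).card = w ∧ MinSens (Ft t a B T) (fun _ => false) (W.image b))) ≤ 1 :=
        av_le_one fun b => ind_le_one _
      have h6 : H (pull e0 T) a * av (fun b : ι → Fin n =>
        ind ((W.image b).card = w ∧ MinSens (Ft t a B T) (fun _ => false) (W.image b))) ≤ 1 * 1 := by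
        apply mul_le_mul hh1 h5 (av_nonneg fun b => ind_nonneg _) zero_le_one
      have h7 : 0 ≤ ((w : ℝ) / n) ^ w * N * H (pull e0 T) a := by positivity
      linarith
    · rw [ind_false' hc, add_zero]
      have h5 := h3 T
      push Not at hc
      calc H (pull e0 T) a * av (fun b : ι → Fin n =>
        ind ((W.image b).card = w ∧ MinSens (Ft t a B T) (fun _ => false) (W.image b))) ≤
          H (pull e0 T) a * (((w : ℝ) / n) ^ w * numMS (Ft t a B T) (fun _ => false) w) := by
            gcongr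
        _ ≤ H (pull e0 T) a * (((w : ℝ) / n) ^ w * N) := by gcongr
        _ = _ := by ring
  refine (av_mono h4).trans (le_of_eq ?_)
  rw [av_add, av_mul_left]
  congr 2
  exact av_pull e0 e0_inj (fun M : St κ (Fin n ⊕ ι) => H M a)

end main

end GR

/-- **GR**: generic rows -/
theorem stmtGR (κ : Type) [Fintype κ] [DecidableEq κ] : StmtGR κ := by
  intro hTK ι β _ _ _ _ c K j ε C hε
  classical
  set q := Fintype.card ι with hq
  set Q : ℕ := Fintype.card (St κ ι) with hQ
  have hev : ∀ᶠ n : ℕ in atTop, ∀ w ∈ Finset.range (q + 1),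
      ∀ t : St κ (Fin n) → Bool, Lev c (n ^ K) j t → ∀ (a : ι → Fin n) (B : Finset ι),
      av (fun T : St κ ((Fin n × Bool) ⊕ ι) => ind ((n : ℝ) ^ (ε / 2) <
        numMS (fun z : Fin n → Bool =>
          t (pull (ctx a B) (pull (Sum.map (fun x => (x, z x)) id) T))) (fun _ => false) w))
        ≤ (n : ℝ) ^ (-(C + 1)) := by
    rw [Filter.eventually_all_finset]
    intro w _
    exact hTK ι c K j w (ε / 2) (C + 1) (half_pos hε)
  filter_upwards [hev, eventually_ge_atTop 1, eventually_ge_atTop Q,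
    ((tendsto_rpow_atTop (half_pos hε)).comp tendsto_natCast_atTop_atTop).eventually_ge_atTop
      ((Q : ℝ) * (q : ℝ) ^ q)] with n h1 hn1' hnQ h3 t ht g B W hW hBW G hG hG01
  have hn0 : 0 < n := hn1'
  have hn1 : (1 : ℝ) ≤ n := by exact_mod_cast hn1'
  have hnr : (0 : ℝ) < n := by linarith
  have hne : Nonempty (Fin n) := ⟨⟨0, hn0⟩⟩
  set w := W.card with hw
  have hw1 : 1 ≤ w := card_pos.2 hW
  have hwq : w ≤ q := by rw [hw, hq]; exact card_le_univ W
  set X : ℝ := (n : ℝ) ^ (ε / 2) with hX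
  have hX0 : 0 ≤ X := by positivity
  -- the densities with fixed internal data
  have hcore : ∀ (γ : St κ ι) (v : β → Fin n) (a : ι → Fin n),
      av (fun b : ι → Fin n => av (fun M : St κ (Fin n ⊕ ι) =>
        G (ovr γ M) (mix (↑W : Set ι) a b) v *
          ind (Qev t (pull Sum.inr M) B W M (mix (↑W : Set ι) a b)))) ≤
      ((w : ℝ) / n) ^ w * X * av (fun M : St κ (Fin n ⊕ ι) => G (ovr γ M) a v) +
        (n : ℝ) ^ (-(C + 1)) := by
    intro γ v a
    have h4 := GR.core hn0 t hBW (fun M a => G (ovr γ M) a v) (fun M a => (hG01 _ _ _).1)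
      (fun M a => (hG01 _ _ _).2) (fun M M' a a' hM ha => ?_) X hX0 a
    · refine h4.trans ?_
      have h5 := h1 w (mem_range.2 (by omega)) t ht a B
      have h6 : av (fun T : St κ ((Fin n × Bool) ⊕ ι) => ind (X <
        numMS (GR.Ft t a B T) (fun _ => false) W.card)) ≤ (n : ℝ) ^ (-(C + 1)) := h5
      linarith
    · refine hG _ _ _ _ _ (fun i hi => ?_) ha
      rcases i with ⟨x | k, y | k', c⟩
      · exact hM _ hi (by simp)
      · exact hM _ hi (by simp)
      · exact hM _ hi (by simp)
      · rfl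
  -- average over everything
  have havM : ∀ F : St κ (Fin n ⊕ ι) → (ι → Fin n) → (β → Fin n) → ℝ,
      avM F = av (fun v : β → Fin n => av (fun a : ι → Fin n =>
        av (fun M : St κ (Fin n ⊕ ι) => F M a v))) := by
    intro F
    unfold avM
    rw [av_prod, av_congr fun M => av_prod (fun p : (ι → Fin n) × (β → Fin n) => F M p.1 p.2),
      av_comm (fun (M : St κ (Fin n ⊕ ι)) (a : ι → Fin n) =>
        av (fun v : β → Fin n => F M a v)), av_comm (fun (v : β → Fin n) (a : ι → Fin n) =>
        av (fun M : St κ (Fin n ⊕ ι) => F M a v))]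
    refine av_congr fun a => ?_
    rw [av_comm]
  have hγ : ∀ γ : St κ ι, avM (fun M a v => G (ovr γ M) a v * ind (Qev t (pull Sum.inr M) B W M a)) ≤
      ((w : ℝ) / n) ^ w * X * avM (fun M a v => G (ovr γ M) a v) + (n : ℝ) ^ (-(C + 1)) := by
    intro γ
    rw [havM, havM, ← av_mul_left]
    have h5 : ∀ v : β → Fin n, av (fun a : ι → Fin n => av (fun M : St κ (Fin n ⊕ ι) =>
        G (ovr γ M) a v * ind (Qev t (pull Sum.inr M) B W M a))) ≤
        ((w : ℝ) / n) ^ w * X * av (fun a : ι → Fin n => av (fun M : St κ (Fin n ⊕ ι) =>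
          G (ovr γ M) a v)) + (n : ℝ) ^ (-(C + 1)) := by
      intro v
      rw [av_mix (↑W : Set ι) (fun a : ι → Fin n => av (fun M : St κ (Fin n ⊕ ι) =>
        G (ovr γ M) a v * ind (Qev t (pull Sum.inr M) B W M a)))]
      refine (av_mono fun a => hcore γ v a).trans (le_of_eq ?_)
      rw [av_add, av_mul_left, av_const]
    refine (av_mono h5).trans (le_of_eq ?_)
    rw [av_add]
    congr 1
    exact av_const _
  have hswap : ∀ X : St κ ι → (β → Fin n) → (ι → Fin n) → ℝ,
      av (fun γ => av (fun v => av (fun a => X γ v a))) =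
        av (fun v => av (fun a => av (fun γ => X γ v a))) := by
    intro X
    rw [av_comm (fun γ v => av (fun a => X γ v a))]
    exact av_congr fun v => av_comm (fun γ a => X γ v a)
  -- back to `g`
  have hgam : avM (fun M a v => G M a v * ind (Qev t g B W M a)) =
      av (fun γ : St κ ι => avM (fun M a v => G (ovr γ M) a v * ind (Qev t g B W M a))) := by
    rw [havM]
    simp only [havM]
    refine Eq.trans ?_ (hswap _).symm
    refine av_congr fun v => av_congr fun a => ?_
    rw [GR.av_ovr]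
    refine av_congr fun γ => av_congr fun M => ?_
    rw [ind_congr (GR.Qev_ovr t g γ B W M a)]
  have hgam2 : avM G = av (fun γ : St κ ι => avM (fun M a v => G (ovr γ M) a v)) := by
    rw [havM]
    simp only [havM]
    refine Eq.trans ?_ (hswap _).symm
    refine av_congr fun v => av_congr fun a => ?_
    rw [GR.av_ovr]
  -- forcing the internal data
  have hforce : ∀ γ : St κ ι, avM (fun M a v => G (ovr γ M) a v * ind (Qev t g B W M a)) ≤
      Q * avM (fun M a v => G (ovr γ M) a v * ind (Qev t (pull Sum.inr M) B W M a)) := by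
    intro γ
    have h5 : avM (fun M a v => G (ovr γ M) a v * ind (Qev t (pull Sum.inr M) B W M a)) =
        av (fun g' : St κ ι => avM (fun M a v => G (ovr γ M) a v * ind (Qev t g' B W M a))) := by
      rw [havM]
      simp only [havM]
      refine Eq.trans ?_ (hswap _).symm
      refine av_congr fun v => av_congr fun a => ?_
      rw [GR.av_ovr]
      refine av_congr fun g' => av_congr fun M => ?_
      rw [GR.pull_inr_ovr, ind_congr (GR.Qev_ovr t g' g' B W M a), GR.ovr_ovr]
    rw [h5]
    exact GR.le_card_mul_av (f := fun g' : St κ ι => avM (fun M a v =>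
      G (ovr γ M) a v * ind (Qev t g' B W M a)))
      (fun g' => av_nonneg fun p => mul_nonneg (hG01 _ _ _).1 (ind_nonneg _)) g
  have hQ0 : (0 : ℝ) ≤ Q := Nat.cast_nonneg _
  have hGav : 0 ≤ avM G := av_nonneg fun p => (hG01 _ _ _).1
  calc avM (fun M a v => G M a v * ind (Qev t g B W M a)) =
      av (fun γ : St κ ι => avM (fun M a v => G (ovr γ M) a v * ind (Qev t g B W M a))) := hgam
    _ ≤ av (fun γ : St κ ι => Q * (((w : ℝ) / n) ^ w * X * avM (fun M a v => G (ovr γ M) a v) +
          (n : ℝ) ^ (-(C + 1)))) :=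
        av_mono fun γ => (hforce γ).trans (mul_le_mul_of_nonneg_left (hγ γ) hQ0)
    _ = Q * (((w : ℝ) / n) ^ w * X * avM G + (n : ℝ) ^ (-(C + 1))) := by
        rw [av_mul_left, av_add, av_mul_left, ← hgam2, av_const]
    _ = (Q * (w : ℝ) ^ w) * X * ((n : ℝ) ^ w)⁻¹ * avM G + Q * (n : ℝ) ^ (-(C + 1)) := by
        rw [div_pow]; ring
    _ ≤ X * X * ((n : ℝ) ^ w)⁻¹ * avM G + n * (n : ℝ) ^ (-(C + 1)) := by
        have h6 : (Q : ℝ) * (w : ℝ) ^ w ≤ X := by
          refine le_trans ?_ h3
          gcongr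
          have h7 : w ^ w ≤ q ^ q := (Nat.pow_le_pow_left hwq w).trans
            (Nat.pow_le_pow_right (by omega) hwq)
          exact_mod_cast h7
        have h8 : (Q : ℝ) ≤ n := by exact_mod_cast hnQ
        gcongr
    _ = (n : ℝ) ^ (ε - (w : ℝ)) * avM G + (n : ℝ) ^ (-C) := by
        have h6 : X * X * ((n : ℝ) ^ w)⁻¹ = (n : ℝ) ^ (ε - (w : ℝ)) := by
          rw [hX, ← Real.rpow_add hnr, ← Real.rpow_natCast, ← Real.rpow_neg hnr.le,
            ← Real.rpow_add hnr]
          congr 1
          ring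
        have h7 : (n : ℝ) * (n : ℝ) ^ (-(C + 1)) = (n : ℝ) ^ (-C) := by
          nth_rewrite 1 [← Real.rpow_one (n : ℝ)]
          rw [← Real.rpow_add hnr]; congr 1; ring
        rw [h6, h7]

end ZOL
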