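import Pool.Agent.ZOL.Stmts

/-!
# Near-constancy from the induction hypothesis
-/

set_option linter.unusedSectionVars false

namespace ZOL.NC

open ZOL Filter Finset

section av

variable {α β : Type*} [Fintype α] [Fintype β]

theorem av_equiv (e : α ≃ β) (f : β → ℝ) : av (fun x => f (e x)) = av f := by
  rw [av, av, Fintype.card_congr e, Equiv.sum_comp e f]

theorem av_prod (F : α → β → ℝ) :
    av (fun p : α × β => F p.1 p.2) = av (fun a => av (fun b => F a b)) := by
  simp only [av]
  rw [Fintype.sum_prod_type, Fintype.card_prod, ← Finset.sum_div]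
  push_cast
  rw [div_div, mul_comm (Fintype.card α : ℝ)]

theorem av_const [Nonempty α] (c : ℝ) : av (fun _ : α => c) = c := by
  rw [av, Finset.sum_const, Finset.card_univ, nsmul_eq_mul]
  have : (Fintype.card α : ℝ) ≠ 0 := by exact_mod_cast Fintype.card_ne_zero
  field_simp

theorem av_mono {f g : α → ℝ} (h : ∀ x, f x ≤ g x) : av f ≤ av g := by
  rw [av, av]
  exact div_le_div_of_nonneg_right (Finset.sum_le_sum fun x _ => h x) (Nat.cast_nonneg _)

theorem av_nonneg {f : α → ℝ} (h : ∀ x, 0 ≤ f x) : 0 ≤ av f := by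
  rw [av]
  exact div_nonneg (Finset.sum_nonneg fun x _ => h x) (Nat.cast_nonneg _)

theorem av_add (f g : α → ℝ) : av (fun x => f x + g x) = av f + av g := by
  simp only [av]
  rw [Finset.sum_add_distrib, add_div]

theorem av_sub (f g : α → ℝ) : av (fun x => f x - g x) = av f - av g := by
  simp only [av]
  rw [Finset.sum_sub_distrib, sub_div]

theorem av_mul_left (c : ℝ) (f : α → ℝ) : av (fun x => c * f x) = c * av f := by
  simp only [av]
  rw [← Finset.mul_sum, mul_div_assoc]

theorem av_abs (f : α → ℝ) : |av f| ≤ av (fun x => |f x|) := by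
  simp only [av]
  rw [abs_div, abs_of_nonneg (Nat.cast_nonneg (Fintype.card α) : (0 : ℝ) ≤ _)]
  exact div_le_div_of_nonneg_right (Finset.abs_sum_le_sum_abs _ _) (Nat.cast_nonneg _)

theorem av_comm (F : α → β → ℝ) :
    av (fun a => av (fun b => F a b)) = av (fun b => av (fun a => F a b)) := by
  rw [← av_prod, ← av_prod, ← av_equiv (Equiv.prodComm α β)]
  rfl

theorem ind_nonneg (p : Prop) : 0 ≤ ind p := by
  rw [ind]
  split_ifs <;> norm_num

theorem ind_le_one (p : Prop) : ind p ≤ 1 := by
  rw [ind]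
  split_ifs <;> norm_num

theorem ind_congr {p q : Prop} (h : p ↔ q) : ind p = ind q := by rw [propext h]

theorem av_le_one [Nonempty α] {f : α → ℝ} (h : ∀ x, f x ≤ 1) : av f ≤ 1 := by
  calc av f ≤ av (fun _ : α => (1 : ℝ)) := av_mono h
    _ = 1 := av_const 1

end av

section str

variable {κ : Type} {V ι : Type}

theorem pull_pull {X Y Z : Type} (e : Y → X) (e' : Z → Y) (M : St κ X) :
    pull e' (pull e M) = pull (fun z => e (e' z)) M := rfl

/-- the permutation of structures given by a permutation of the vertices -/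
def pullEquiv {X : Type} (π : Equiv.Perm X) : St κ X ≃ St κ X where
  toFun := pull π
  invFun := pull π.symm
  left_inv M := by
    funext p
    simp [pull]
  right_inv M := by
    funext p
    simp [pull]

/-- override the bits between the base vertices -/
def join (L : St κ V) (M : St κ (V ⊕ ι)) : St κ (V ⊕ ι)
  | (Sum.inl x, Sum.inl y, c) => L (x, y, c)
  | (Sum.inl x, Sum.inr k, c) => M (Sum.inl x, Sum.inr k, c)
  | (Sum.inr k, z, c) => M (Sum.inr k, z, c)

theorem pull_join (L : St κ V) (M : St κ (V ⊕ ι)) : pull Sum.inl (join L M) = L := by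
  funext p
  rfl

theorem join_join (L : St κ V) (M : St κ (V ⊕ ι)) : join (pull Sum.inl M) (join L M) = M := by
  funext p
  obtain ⟨x, y, c⟩ := p
  rcases x with x | k <;> rcases y with y | k' <;> rfl

/-- exchange of the base part -/
def joinEquiv : St κ V × St κ (V ⊕ ι) ≃ St κ V × St κ (V ⊕ ι) :=
  Function.Involutive.toPerm (fun p => (pull Sum.inl p.2, join p.1 p.2)) (by
    rintro ⟨L, M⟩
    simp only [Prod.mk.injEq]
    exact ⟨pull_join L M, join_join L M⟩)

theorem pull_inr_ovr (g : St κ ι) (M : St κ (V ⊕ ι)) : pull Sum.inr (ovr g M) = g := by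
  funext p
  rfl

theorem ovr_ovr (g : St κ ι) (M : St κ (V ⊕ ι)) : ovr (pull Sum.inr M) (ovr g M) = M := by
  funext p
  obtain ⟨x, y, c⟩ := p
  rcases x with x | k <;> rcases y with y | k' <;> rfl

/-- exchange of the internal part -/
def ovrEquiv : St κ ι × St κ (V ⊕ ι) ≃ St κ ι × St κ (V ⊕ ι) :=
  Function.Involutive.toPerm (fun p => (pull Sum.inr p.2, ovr p.1 p.2)) (by
    rintro ⟨L, M⟩
    simp only [Prod.mk.injEq]
    exact ⟨pull_inr_ovr L M, ovr_ovr L M⟩)

variable [Fintype κ] [DecidableEq κ] [Fintype V] [DecidableEq V] [Fintype ι] [DecidableEq ι]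

theorem av_pullEquiv {X : Type} [Fintype X] [DecidableEq X] (π : Equiv.Perm X)
    (F : St κ X → ℝ) : av (fun M => F (pull π M)) = av F := av_equiv (pullEquiv π) F

theorem av_join (F : St κ (V ⊕ ι) → ℝ) :
    av (fun L : St κ V => av (fun M : St κ (V ⊕ ι) => F (join L M))) = av F := by
  rw [← av_prod]
  refine (av_equiv (joinEquiv (κ := κ) (V := V) (ι := ι)) (fun q => F q.2)).trans ?_
  rw [av_prod (fun (_ : St κ V) (M : St κ (V ⊕ ι)) => F M), av_const]

theorem av_pull_inl (G : St κ V → ℝ) :
    av (fun M : St κ (V ⊕ ι) => G (pull Sum.inl M)) = av G := by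
  have h1 : av (fun p : St κ V × St κ (V ⊕ ι) => G (pull Sum.inl p.2)) =
      av (fun p : St κ V × St κ (V ⊕ ι) => G p.1) := by
    rw [← av_equiv (joinEquiv (κ := κ) (V := V) (ι := ι))]
    rfl
  rw [av_prod (fun (_ : St κ V) (M : St κ (V ⊕ ι)) => G (pull Sum.inl M)), av_const,
    av_prod (fun (L : St κ V) (_ : St κ (V ⊕ ι)) => G L)] at h1
  rw [h1]
  congr 1
  funext L
  exact av_const _

theorem av_ovr (F : St κ (V ⊕ ι) → ℝ) :
    av (fun g : St κ ι => av (fun M : St κ (V ⊕ ι) => F (ovr g M))) = av F := by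
  rw [← av_prod]
  refine (av_equiv (ovrEquiv (κ := κ) (V := V) (ι := ι)) (fun q => F q.2)).trans ?_
  rw [av_prod (fun (_ : St κ ι) (M : St κ (V ⊕ ι)) => F M), av_const]

end str

section resample

variable {κ V : Type} [Fintype κ] [DecidableEq κ] [Fintype V] [DecidableEq V]

/-- the inclusion of the base with the vertex `u` replaced by the mark -/
def cc (u : V ⊕ Unit) (x : V) : V ⊕ Unit := Equiv.swap u (Sum.inr ()) (Sum.inl x)

theorem cc_injective (u : V ⊕ Unit) : Function.Injective (cc u) := by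
  intro x y h
  exact Sum.inl_injective ((Equiv.swap u (Sum.inr ())).injective h)

theorem cc_inr : (cc (Sum.inr ()) : V → V ⊕ Unit) = Sum.inl := by
  funext x
  rw [cc, Equiv.swap_self]
  rfl

theorem cc_inl_self (k : V) : cc (Sum.inl k) k = Sum.inr () := Equiv.swap_apply_left _ _

theorem cc_inl_ne {k x : V} (h : x ≠ k) : cc (Sum.inl k) x = Sum.inl x :=
  Equiv.swap_apply_of_ne_of_ne (fun h' => h (Sum.inl_injective h')) (by simp)

theorem mem_range_cc (u w : V ⊕ Unit) : w ∈ Set.range (cc u) ↔ w ≠ u := by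
  constructor
  · rintro ⟨x, rfl⟩ h
    rw [cc] at h
    have h1 : (Sum.inl x : V ⊕ Unit) = Sum.inr () := by
      apply (Equiv.swap u (Sum.inr ())).injective
      rw [h, Equiv.swap_apply_right]
    exact absurd h1 (by simp)
  · intro h
    rcases hw : Equiv.swap u (Sum.inr ()) w with x | z
    · refine ⟨x, ?_⟩
      apply (Equiv.swap u (Sum.inr ())).injective
      rw [hw, cc]
      exact Equiv.swap_apply_self _ _ _
    · exfalso
      apply h
      apply (Equiv.swap u (Sum.inr ())).injective
      rw [hw, Equiv.swap_apply_left]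

/-- injections missing the same vertex differ by a permutation -/
theorem exists_perm {X : Type} {e e' : V → X} (he : Function.Injective e)
    (he' : Function.Injective e') (h : Set.range e = Set.range e') :
    ∃ π : Equiv.Perm V, ∀ x, e x = e' (π x) := by
  refine ⟨(Equiv.ofInjective e he).trans ((Equiv.setCongr h).trans
    (Equiv.ofInjective e' he').symm), fun x => ?_⟩
  simp only [Equiv.trans_apply]
  rw [Equiv.apply_ofInjective_symm he']
  rfl

variable (f : St κ V → Bool)

/-- value of `f` after deleting the vertex `u` -/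
def phi (M : St κ (V ⊕ Unit)) (u : V ⊕ Unit) : Bool := f (pull (cc u) M)

variable (hf : ∀ (π : Equiv.Perm V) (M : St κ V), f (pull π M) = f M)

include hf in
theorem phi_pull (σ : Equiv.Perm (V ⊕ Unit)) (M : St κ (V ⊕ Unit)) (u : V ⊕ Unit) :
    phi f (pull σ M) u = phi f M (σ u) := by
  rw [phi, phi, pull_pull]
  obtain ⟨π, hπ⟩ := exists_perm (e := fun z => σ (cc u z)) (e' := cc (σ u))
    (σ.injective.comp (cc_injective u)) (cc_injective _) (by
      ext w
      rw [mem_range_cc]
      constructor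
      · rintro ⟨x, rfl⟩ h
        have h1 := σ.injective h
        exact (mem_range_cc u (cc u x)).mp ⟨x, rfl⟩ h1
      · intro h
        have h1 : σ.symm w ≠ u := by
          intro h2
          apply h
          rw [← h2, Equiv.apply_symm_apply]
        obtain ⟨x, hx⟩ := (mem_range_cc u _).mpr h1
        exact ⟨x, by simp only; rw [hx, Equiv.apply_symm_apply]⟩)
  have h1 : pull (fun z => σ (cc u z)) M = pull π (pull (cc (σ u)) M) := by
    rw [pull_pull]
    congr 1
    funext z
    exact hπ z
  rw [h1, hf]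

/-- number of vertices whose deletion gives another value than the deletion of `u` -/
noncomputable def TT (M : St κ (V ⊕ Unit)) (u : V ⊕ Unit) : ℝ :=
  ∑ w : V ⊕ Unit, ind (phi f M w ≠ phi f M u)

include hf in
theorem TT_pull (σ : Equiv.Perm (V ⊕ Unit)) (M : St κ (V ⊕ Unit)) (u : V ⊕ Unit) :
    TT f (pull σ M) u = TT f M (σ u) := by
  rw [TT, TT]
  simp only [phi_pull f hf]
  exact Equiv.sum_comp σ (fun w => ind (phi f M w ≠ phi f M (σ u)))

include hf in
theorem av_TT (F : ℝ → ℝ) (u : V ⊕ Unit) :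
    av (fun M : St κ (V ⊕ Unit) => F (TT f M u)) =
      av (fun M : St κ (V ⊕ Unit) => F (TT f M (Sum.inr ()))) := by
  rw [← av_pullEquiv (Equiv.swap u (Sum.inr ())) (fun M => F (TT f M u))]
  congr 1
  funext M
  rw [TT_pull f hf, Equiv.swap_apply_left]

theorem sum_TT_sq (M : St κ (V ⊕ Unit)) :
    2 * ∑ u, TT f M u ^ 2 = (Fintype.card V + 1) * ∑ u, TT f M u := by
  classical
  obtain ⟨m1, h1⟩ : ∃ m1, m1 = (Finset.univ.filter (fun u => phi f M u = true)).card := ⟨_, rfl⟩
  obtain ⟨m0, h0⟩ : ∃ m0, m0 = (Finset.univ.filter (fun u => ¬ phi f M u = true)).card := ⟨_, rfl⟩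
  have hcard : m1 + m0 = Fintype.card V + 1 := by
    rw [h1, h0, Finset.card_filter_add_card_filter_not, Finset.card_univ, Fintype.card_sum,
      Fintype.card_unit]
  have hT : ∀ u, TT f M u = if phi f M u = true then (m0 : ℝ) else (m1 : ℝ) := by
    intro u
    rw [TT]
    split_ifs with h
    · rw [h0, Finset.card_filter]
      push_cast
      refine Finset.sum_congr rfl fun w _ => ?_
      rw [ind, h]
      by_cases hw : phi f M w = true
      · simp [hw]
      · simp [hw]
    · have h' : phi f M u = false := by simpa using h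
      rw [h1, Finset.card_filter]
      push_cast
      refine Finset.sum_congr rfl fun w _ => ?_
      rw [ind, h']
      simp
  have e1 : ∑ u, TT f M u = m1 * m0 + m0 * m1 := by
    simp only [hT]
    rw [Finset.sum_ite, Finset.sum_const, Finset.sum_const, ← h1, ← h0, nsmul_eq_mul,
      nsmul_eq_mul]
  have e2 : ∑ u, TT f M u ^ 2 = m1 * m0 ^ 2 + m0 * m1 ^ 2 := by
    simp only [hT, ite_pow]
    rw [Finset.sum_ite, Finset.sum_const, Finset.sum_const, ← h1, ← h0, nsmul_eq_mul,
      nsmul_eq_mul]
  rw [e1, e2]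
  have h3 : (Fintype.card V : ℝ) + 1 = m1 + m0 := by exact_mod_cast hcard.symm
  rw [h3]
  ring

include hf in
/-- second moment against first moment -/
theorem av_sq :
    2 * av (fun M : St κ (V ⊕ Unit) => TT f M (Sum.inr ()) ^ 2) =
      (Fintype.card V + 1) * av (fun M : St κ (V ⊕ Unit) => TT f M (Sum.inr ())) := by
  classical
  have hc : (Fintype.card (V ⊕ Unit) : ℝ) ≠ 0 := by exact_mod_cast Fintype.card_ne_zero
  have h1 : ∀ F : ℝ → ℝ, (Fintype.card (V ⊕ Unit) : ℝ) *
      av (fun M : St κ (V ⊕ Unit) => F (TT f M (Sum.inr ()))) =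
      av (fun M : St κ (V ⊕ Unit) => ∑ u, F (TT f M u)) := by
    intro F
    have h2 : av (fun M : St κ (V ⊕ Unit) => ∑ u, F (TT f M u)) =
        ∑ u : V ⊕ Unit, av (fun M : St κ (V ⊕ Unit) => F (TT f M u)) := by
      simp only [av]
      rw [Finset.sum_comm, Finset.sum_div]
    rw [h2, Finset.sum_congr rfl fun u _ => av_TT f hf F u, Finset.sum_const, Finset.card_univ,
      nsmul_eq_mul]
  have h3 := h1 (fun x => x ^ 2)
  have h4 := h1 (fun x => x)
  apply mul_left_cancel₀ hc
  have h5 : av (fun M : St κ (V ⊕ Unit) => 2 * ∑ u, TT f M u ^ 2) =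
      av (fun M : St κ (V ⊕ Unit) => (Fintype.card V + 1) * ∑ u, TT f M u) := by
    congr 1
    funext M
    exact sum_TT_sq f M
  rw [av_mul_left, av_mul_left, ← h3, ← h4] at h5
  linarith

/-! ### resampling operators -/

/-- average over the resampling of the data at the vertex `k` -/
noncomputable def AA (k : V) (g : St κ V → ℝ) (L : St κ V) : ℝ :=
  av (fun M : St κ (V ⊕ Unit) => g (pull (cc (Sum.inl k)) (join L M)))

theorem av_AA (k : V) (g : St κ V → ℝ) : av (AA k g) = av g := by
  have h1 : av (AA k g) = av (fun L : St κ V => av (fun M : St κ (V ⊕ Unit) =>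
      (fun M' => g (pull (cc (Sum.inl k)) M')) (join L M))) := rfl
  rw [h1]
  refine (av_join (fun M' : St κ (V ⊕ Unit) => g (pull (cc (Sum.inl k)) M'))).trans ?_
  refine (av_pullEquiv (Equiv.swap (Sum.inl k : V ⊕ Unit) (Sum.inr ()))
    (fun M'' : St κ (V ⊕ Unit) => g (pull Sum.inl M''))).trans ?_
  exact av_pull_inl g

theorem AA_sub (k : V) (g h : St κ V → ℝ) (L : St κ V) :
    AA k (fun L => g L - h L) L = AA k g L - AA k h L := by
  rw [AA, AA, AA, ← av_sub]

theorem av_abs_AA (k : V) (g : St κ V → ℝ) :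
    av (fun L => |AA k g L|) ≤ av (fun L => |g L|) := by
  rw [← av_AA k (fun L => |g L|)]
  exact av_mono fun L => av_abs _

/-- `g` does not depend on the data at the vertex `k` -/
def IR (k : V) (g : St κ V → ℝ) : Prop :=
  ∀ L L' : St κ V, (∀ x y c, x ≠ k → y ≠ k → L (x, y, c) = L' (x, y, c)) → g L = g L'

theorem IR_AA (k : V) (g : St κ V → ℝ) : IR k (AA k g) := by
  intro L L' h
  rw [AA, AA]
  congr 1
  funext M
  congr 1
  funext p
  obtain ⟨x, y, c⟩ := p
  change join L M (cc (Sum.inl k) x, cc (Sum.inl k) y, c) =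
    join L' M (cc (Sum.inl k) x, cc (Sum.inl k) y, c)
  by_cases hx : x = k
  · subst hx
    rw [cc_inl_self]
    rfl
  · rw [cc_inl_ne hx]
    by_cases hy : y = k
    · subst hy
      rw [cc_inl_self]
      rfl
    · rw [cc_inl_ne hy]
      exact h x y c hx hy

theorem IR.AA {j : V} {g : St κ V → ℝ} (hg : IR j g) (k : V) : IR j (AA k g) := by
  intro L L' h
  rw [NC.AA, NC.AA]
  congr 1
  funext M
  apply hg
  intro x y c hx hy
  change join L M (cc (Sum.inl k) x, cc (Sum.inl k) y, c) =
    join L' M (cc (Sum.inl k) x, cc (Sum.inl k) y, c)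
  by_cases hxk : x = k
  · subst hxk
    rw [cc_inl_self]
    rfl
  · rw [cc_inl_ne hxk]
    by_cases hyk : y = k
    · subst hyk
      rw [cc_inl_self]
      rfl
    · rw [cc_inl_ne hyk]
      exact h x y c hx hy

/-- iterated resampling -/
noncomputable def iter (l : List V) (g : St κ V → ℝ) : St κ V → ℝ := l.foldr (fun k h => AA k h) g

theorem iter_IR (l : List V) (g : St κ V → ℝ) : ∀ k ∈ l, IR k (iter l g) := by
  induction l with
  | nil => simp
  | cons a l ih =>
    intro k hk
    change IR k (AA a (iter l g))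
    rcases List.mem_cons.mp hk with rfl | hk
    · exact IR_AA _ _
    · exact (ih k hk).AA a

theorem av_iter (l : List V) (g : St κ V → ℝ) : av (iter l g) = av g := by
  induction l with
  | nil => rfl
  | cons a l ih =>
    change av (AA a (iter l g)) = av g
    rw [av_AA, ih]

theorem iter_close (l : List V) (g : St κ V → ℝ) {e : ℝ}
    (he : ∀ k, av (fun L => |g L - AA k g L|) ≤ e) :
    av (fun L => |g L - iter l g L|) ≤ l.length * e := by
  induction l with
  | nil =>
    change av (fun L => |g L - g L|) ≤ _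
    simp only [sub_self, abs_zero, List.length_nil, Nat.cast_zero, zero_mul]
    rw [av_const]
  | cons a l ih =>
    have h1 : ∀ L, |g L - iter (a :: l) g L| ≤
        |g L - AA a g L| + |AA a (fun L => g L - iter l g L) L| := by
      intro L
      change |g L - AA a (iter l g) L| ≤ _
      have h2 : g L - AA a (iter l g) L =
          (g L - AA a g L) + AA a (fun L => g L - iter l g L) L := by
        rw [AA_sub]
        ring
      rw [h2]
      exact abs_add_le _ _
    calc av (fun L => |g L - iter (a :: l) g L|) ≤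
          av (fun L => |g L - AA a g L| + |AA a (fun L => g L - iter l g L) L|) := av_mono h1
      _ = av (fun L => |g L - AA a g L|) + av (fun L => |AA a (fun L => g L - iter l g L) L|) :=
          av_add _ _
      _ ≤ e + l.length * e := add_le_add (he a) ((av_abs_AA a _).trans ih)
      _ = (a :: l).length * e := by
          rw [List.length_cons]
          push_cast
          ring

theorem const_of_IR (g : St κ V → ℝ) (h : ∀ k, IR k g) (L L' : St κ V) : g L = g L' := by
  classical
  have key : ∀ s : Finset V, g L = g (fun p => if p.1 ∈ s ∨ p.2.1 ∈ s then L' p else L p) := by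
    intro s
    induction s using Finset.induction_on with
    | empty => simp
    | insert a s _ ih =>
      rw [ih]
      apply h a
      intro x y c hx hy
      simp only [Finset.mem_insert, hx, hy, false_or]
  rw [key Finset.univ]
  congr 1
  funext p
  simp

theorem near_const_of (g : St κ V → ℝ) {e : ℝ}
    (he : ∀ k, av (fun L => |g L - AA k g L|) ≤ e) :
    av (fun L => |g L - av g|) ≤ Fintype.card V * e := by
  have h1 := iter_close (Finset.univ : Finset V).toList g he
  have h2 : ∀ L, iter (Finset.univ : Finset V).toList g L = av g := by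
    intro L
    have h3 : iter (Finset.univ : Finset V).toList g = fun _ =>
        iter (Finset.univ : Finset V).toList g L := by
      funext L'
      exact const_of_IR _ (fun k => iter_IR _ g k (Finset.mem_toList.mpr (Finset.mem_univ k))) _ _
    rw [← av_iter (Finset.univ : Finset V).toList g, h3, av_const]
  simp only [h2, Finset.length_toList, Finset.card_univ] at h1
  exact h1

end resample

section final

variable {κ : Type} [Fintype κ] [DecidableEq κ]

theorem ctx_const {V : Type} [Fintype V] [DecidableEq V] (x : V) :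
    ctx (fun _ : Unit => x) Finset.univ = cc (Sum.inl x) := by
  classical
  funext y
  rw [ctx]
  by_cases h : x = y
  · subst h
    rw [dif_pos ⟨(), Finset.mem_univ _, rfl⟩, cc_inl_self]
  · rw [dif_neg, cc_inl_ne (fun h' => h h'.symm)]
    rintro ⟨_, _, h'⟩
    exact h h'

theorem ctx_empty {V ι : Type} (a : ι → V) : ctx a ∅ = Sum.inl := by
  funext y
  rw [ctx, dif_neg]
  rintro ⟨_, h, _⟩
  simp at h

/-- the density used with the induction hypothesis -/
noncomputable def dens {n : ℕ} (f : St κ (Fin n) → Bool) (g : St κ Unit)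
    (M : St κ (Fin n ⊕ Unit)) : ℝ :=
  av (fun x : Fin n => ind (phi f (ovr g M) (Sum.inl x) ≠ phi f (ovr g M) (Sum.inr ())))

theorem dens_eq {n : ℕ} (f : St κ (Fin n) → Bool) (g : St κ Unit) (M : St κ (Fin n ⊕ Unit)) :
    dens f g M = TT f (ovr g M) (Sum.inr ()) / n := by
  rw [dens, av, TT, Fintype.sum_sum_type, Fintype.card_fin]
  congr 1
  simp [ind]

theorem ovr_pull {V ι : Type} (g : St κ ι) (M : St κ (V ⊕ ι)) (π : Equiv.Perm V) :
    ovr g (pull (Sum.map π id) M) = pull (Sum.map π id) (ovr g M) := by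
  funext p
  obtain ⟨x, y, c⟩ := p
  rcases x with x | k <;> rcases y with y | k' <;> rfl

theorem main_aux {j : ℕ} {ξ : ℝ} (hξ : 0 ≤ ξ) (hIH : IH κ j ξ) (c K : ℕ) (C : ℝ) :
    ∀ᶠ n : ℕ in atTop, ∀ f : St κ (Fin n) → Bool, Lev c (n ^ K) j f →
    (∀ (π : Equiv.Perm (Fin n)) (M : St κ (Fin n)), f (pull π M) = f M) →
    av (fun M : St κ (Fin n ⊕ Unit) => TT f M (Sum.inr ()) ^ 2 / n ^ 2) ≤
      (n : ℝ) ^ (-(5 / 8 : ℝ)) * av (fun M : St κ (Fin n ⊕ Unit) => TT f M (Sum.inr ()) / n)
        + (n : ℝ) ^ (-C) := by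
  classical
  filter_upwards [hIH Unit Empty c K C, eventually_ge_atTop 1] with n hn hn1 f hf hinv
  have hn0 : (0 : ℝ) < n := by exact_mod_cast hn1
  have hne : Nonempty (Fin n) := ⟨⟨0, hn1⟩⟩
  have hd0 : ∀ (g : St κ Unit) M, 0 ≤ dens f g M := fun g M => av_nonneg fun x => ind_nonneg _
  have hd1 : ∀ (g : St κ Unit) M, dens f g M ≤ 1 := fun g M => av_le_one fun x => ind_le_one _
  have hsym : ∀ g : St κ Unit, Sym (fun (M : St κ (Fin n ⊕ Unit)) (_ : Empty → Fin n) =>
      dens f g M) := by
    intro g π M v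
    simp only
    rw [dens_eq, dens_eq, ovr_pull]
    have h1 : (Sum.map π id : Fin n ⊕ Unit → Fin n ⊕ Unit) =
        (Equiv.sumCongr π (Equiv.refl Unit) : Equiv.Perm (Fin n ⊕ Unit)) := by
      funext z
      rcases z with z | z <;> rfl
    rw [h1, TT_pull f hinv]
    rfl
  -- the inequality for each `g`
  have key : ∀ g : St κ Unit, av (fun M => dens f g M ^ 2) ≤
      (n : ℝ) ^ (-(5 / 8 : ℝ)) * av (fun M => dens f g M) + (n : ℝ) ^ (-C) := by
    intro g
    have h1 := hn f hf g ∅ Finset.univ Finset.univ_nonempty (Finset.disjoint_empty_left _)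
      (fun M _ => dens f g M) (hsym g) (fun M _ => ⟨hd0 g M, hd1 g M⟩)
      (fun _ _ _ => 1) (fun _ _ _ _ _ _ => rfl) (fun _ _ _ => ⟨zero_le_one, le_rfl⟩)
    have h2 : avM (fun (M : St κ (Fin n ⊕ Unit)) (a : Unit → Fin n) (_ : Empty → Fin n) =>
        1 * dens f g M * ind (Qev f g ∅ Finset.univ M a)) = av (fun M => dens f g M ^ 2) := by
      rw [avM, av_prod (fun (M : St κ (Fin n ⊕ Unit)) (q : (Unit → Fin n) × (Empty → Fin n)) =>
        1 * dens f g M * ind (Qev f g ∅ Finset.univ M q.1))]
      congr 1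
      funext M
      rw [av_prod (fun (a : Unit → Fin n) (_ : Empty → Fin n) =>
        1 * dens f g M * ind (Qev f g ∅ Finset.univ M a))]
      simp only [av_const]
      rw [av_mul_left, one_mul, sq]
      congr 1
      rw [dens, ← av_equiv (Equiv.funUnique Unit (Fin n))]
      congr 1
      funext a
      have ha : a = fun _ => a () := by
        funext z
        rfl
      have hQ : Qev f g ∅ Finset.univ M a ↔
          phi f (ovr g M) (Sum.inl (a ())) ≠ phi f (ovr g M) (Sum.inr ()) := by
        have e1 : glue g a (∅ ∪ Finset.univ) M = pull (cc (Sum.inl (a ()))) (ovr g M) := by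
          rw [glue, Finset.empty_union]
          conv_lhs => rw [ha]
          rw [ctx_const]
        have e2 : glue g a ∅ M = pull (cc (Sum.inr ())) (ovr g M) := by
          rw [glue, ctx_empty, cc_inr]
        constructor
        · rintro ⟨_, h3, _⟩
          rw [e1, e2] at h3
          exact h3
        · intro h3
          refine ⟨fun x _ y _ _ => rfl, ?_, ?_⟩
          · rw [e1, e2]
            exact h3
          · intro A hA
            have hA' : A = ∅ := by
              by_contra hne'
              obtain ⟨z, hz⟩ := Finset.nonempty_iff_ne_empty.mpr hne'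
              apply hA.2
              intro w _
              exact hz
            rw [hA', Finset.union_empty]
      exact ind_congr hQ
    have h3 : avM (fun (M : St κ (Fin n ⊕ Unit)) (_ : Unit → Fin n) (_ : Empty → Fin n) =>
        1 * dens f g M) = av (fun M => dens f g M) := by
      rw [avM, av_prod (fun (M : St κ (Fin n ⊕ Unit)) (q : (Unit → Fin n) × (Empty → Fin n)) =>
        1 * dens f g M)]
      simp only [av_const, one_mul]
    rw [h2, h3] at h1
    refine h1.trans ?_
    gcongr
    · exact av_nonneg (hd0 g)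
    · exact_mod_cast hn1
    · rw [Finset.card_univ, Fintype.card_unit]
      norm_num
      linarith
  -- average over `g`
  have h4 : av (fun g : St κ Unit => av (fun M : St κ (Fin n ⊕ Unit) => dens f g M ^ 2)) ≤
      av (fun g : St κ Unit => (n : ℝ) ^ (-(5 / 8 : ℝ)) * av (fun M => dens f g M)
        + (n : ℝ) ^ (-C)) := av_mono key
  rw [av_add, av_mul_left, av_const] at h4
  simp only [dens_eq, div_pow] at h4
  have h5 := av_ovr (κ := κ) (V := Fin n) (ι := Unit) (fun M => TT f M (Sum.inr ()) ^ 2 / n ^ 2)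
  have h6 := av_ovr (κ := κ) (V := Fin n) (ι := Unit) (fun M => TT f M (Sum.inr ()) / n)
  rw [h5, h6] at h4
  exact h4

theorem influence {n : ℕ} (f : St κ (Fin n) → Bool)
    (hinv : ∀ (π : Equiv.Perm (Fin n)) (M : St κ (Fin n)), f (pull π M) = f M) (k : Fin n) :
    av (fun L => |ind (f L = true) - AA k (fun L => ind (f L = true)) L|) ≤
      av (fun M : St κ (Fin n ⊕ Unit) => TT f M (Sum.inr ()) / n) := by
  classical
  have hn0 : (0 : ℝ) < n := by
    have := k.pos
    exact_mod_cast this
  have h1 : ∀ L : St κ (Fin n), |ind (f L = true) - AA k (fun L => ind (f L = true)) L| ≤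
      av (fun M : St κ (Fin n ⊕ Unit) => (fun M' => ind (phi f M' (Sum.inl k) ≠
        phi f M' (Sum.inr ()))) (join L M)) := by
    intro L
    have h2 : ind (f L = true) - AA k (fun L => ind (f L = true)) L =
        av (fun M : St κ (Fin n ⊕ Unit) => ind (f L = true) -
          ind (f (pull (cc (Sum.inl k)) (join L M)) = true)) := by
      rw [av_sub, av_const]
      rfl
    rw [h2]
    refine (av_abs _).trans (av_mono fun M => ?_)
    have h3 : phi f (join L M) (Sum.inr ()) = f L := by
      rw [phi, cc_inr, pull_join]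
    have h4 : phi f (join L M) (Sum.inl k) = f (pull (cc (Sum.inl k)) (join L M)) := rfl
    simp only
    rw [h3, h4, ind, ind, ind]
    by_cases ha : f L = true <;>
      by_cases hb : f (pull (cc (Sum.inl k)) (join L M)) = true <;> simp [ha, hb]
  have h5 : ∀ k' : Fin n, av (fun M' : St κ (Fin n ⊕ Unit) => ind (phi f M' (Sum.inl k') ≠
      phi f M' (Sum.inr ()))) = av (fun M' : St κ (Fin n ⊕ Unit) =>
        ind (phi f M' (Sum.inl k) ≠ phi f M' (Sum.inr ()))) := by
    intro k'
    rw [← av_pullEquiv (Equiv.swap (Sum.inl k) (Sum.inl k'))]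
    congr 1
    funext M
    rw [phi_pull f hinv, phi_pull f hinv, Equiv.swap_apply_right,
      Equiv.swap_apply_of_ne_of_ne (by simp) (by simp)]
  have h6 : av (fun M : St κ (Fin n ⊕ Unit) => TT f M (Sum.inr ())) =
      n * av (fun M' : St κ (Fin n ⊕ Unit) =>
        ind (phi f M' (Sum.inl k) ≠ phi f M' (Sum.inr ()))) := by
    have h7 : ∀ M : St κ (Fin n ⊕ Unit), TT f M (Sum.inr ()) =
        ∑ k' : Fin n, ind (phi f M (Sum.inl k') ≠ phi f M (Sum.inr ())) := by
      intro M
      rw [TT, Fintype.sum_sum_type]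
      simp [ind]
    simp only [h7]
    have h8 : av (fun M : St κ (Fin n ⊕ Unit) => ∑ k' : Fin n,
        ind (phi f M (Sum.inl k') ≠ phi f M (Sum.inr ()))) =
        ∑ k' : Fin n, av (fun M : St κ (Fin n ⊕ Unit) =>
          ind (phi f M (Sum.inl k') ≠ phi f M (Sum.inr ()))) := by
      simp only [av]
      rw [Finset.sum_comm, Finset.sum_div]
    rw [h8, Finset.sum_congr rfl fun k' _ => h5 k', Finset.sum_const, Finset.card_univ,
      Fintype.card_fin, nsmul_eq_mul]
  have h9 : av (fun M : St κ (Fin n ⊕ Unit) => TT f M (Sum.inr ()) / n) =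
      av (fun M' : St κ (Fin n ⊕ Unit) =>
        ind (phi f M' (Sum.inl k) ≠ phi f M' (Sum.inr ()))) := by
    have h10 : av (fun M : St κ (Fin n ⊕ Unit) => TT f M (Sum.inr ()) / n) =
        (n : ℝ)⁻¹ * av (fun M : St κ (Fin n ⊕ Unit) => TT f M (Sum.inr ())) := by
      rw [← av_mul_left]
      congr 1
      funext M
      ring
    rw [h10, h6, inv_mul_cancel_left₀ hn0.ne']
  rw [h9]
  refine (av_mono h1).trans ?_
  exact (av_join (fun M' : St κ (Fin n ⊕ Unit) =>
    ind (phi f M' (Sum.inl k) ≠ phi f M' (Sum.inr ())))).le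

/-- **Near-constancy.** -/
theorem nearConst : StmtNearConst κ := by
  classical
  intro h c K j C
  obtain ⟨ξ, hξ, hIH⟩ := h j
  have hlim : Tendsto (fun n : ℕ => (n : ℝ) ^ (-(5 / 8 : ℝ))) atTop (nhds 0) :=
    (tendsto_rpow_neg_atTop (by norm_num)).comp tendsto_natCast_atTop_atTop
  have hq : ∀ᶠ n : ℕ in atTop, (n : ℝ) ^ (-(5 / 8 : ℝ)) < 1 / 4 :=
    (tendsto_order.mp hlim).2 _ (by norm_num)
  filter_upwards [main_aux hξ hIH c K (C + 2), hq, eventually_ge_atTop 2] with n hn hnq hn2
  intro f hf hinv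
  have hn0 : (0 : ℝ) < n := by
    have : 0 < n := by omega
    exact_mod_cast this
  have hn2' : (2 : ℝ) ≤ n := by exact_mod_cast hn2
  have h1 := hn f hf hinv
  obtain ⟨E, hE⟩ : ∃ E, E = av (fun M : St κ (Fin n ⊕ Unit) => TT f M (Sum.inr ()) / n) :=
    ⟨_, rfl⟩
  have hE0 : 0 ≤ E := by
    rw [hE]
    exact av_nonneg fun M => div_nonneg (Finset.sum_nonneg fun w _ => ind_nonneg _) hn0.le
  have h2 : av (fun M : St κ (Fin n ⊕ Unit) => TT f M (Sum.inr ()) ^ 2 / n ^ 2) =
      (n + 1) / (2 * n) * E := by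
    have h3 := av_sq f hinv
    rw [Fintype.card_fin] at h3
    have h4 : av (fun M : St κ (Fin n ⊕ Unit) => TT f M (Sum.inr ()) ^ 2 / n ^ 2) =
        ((n : ℝ) ^ 2)⁻¹ * av (fun M : St κ (Fin n ⊕ Unit) => TT f M (Sum.inr ()) ^ 2) := by
      rw [← av_mul_left]
      congr 1
      funext M
      ring
    have h5 : E = (n : ℝ)⁻¹ * av (fun M : St κ (Fin n ⊕ Unit) => TT f M (Sum.inr ())) := by
      rw [hE, ← av_mul_left]
      congr 1
      funext M
      ring
    rw [h4, h5]
    have h6 : av (fun M : St κ (Fin n ⊕ Unit) => TT f M (Sum.inr ()) ^ 2) =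
        (n + 1) / 2 * av (fun M : St κ (Fin n ⊕ Unit) => TT f M (Sum.inr ())) := by
      linarith
    rw [h6]
    field_simp
  rw [h2, ← hE] at h1
  have h7 : E ≤ 4 * (n : ℝ) ^ (-(C + 2)) := by
    have h8 : (1 / 2 : ℝ) * E ≤ (n + 1) / (2 * n) * E := by
      apply mul_le_mul_of_nonneg_right _ hE0
      rw [le_div_iff₀ (by positivity)]
      linarith
    have h9 : (n : ℝ) ^ (-(5 / 8 : ℝ)) * E ≤ 1 / 4 * E :=
      mul_le_mul_of_nonneg_right hnq.le hE0
    linarith
  -- near-constancy
  have h10 := near_const_of (fun L : St κ (Fin n) => ind (f L = true)) (e := E)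
    (fun k => by rw [hE]; exact influence f hinv k)
  rw [Fintype.card_fin] at h10
  obtain ⟨μ, hμ⟩ : ∃ μ, μ = av (fun L : St κ (Fin n) => ind (f L = true)) := ⟨_, rfl⟩
  have hf' : av (fun L : St κ (Fin n) => ind (f L = false)) = 1 - μ := by
    rw [hμ, ← av_const (α := St κ (Fin n)) (1 : ℝ), ← av_sub]
    congr 1
    funext L
    by_cases ha : f L = true
    · simp [ind, ha]
    · have ha' : f L = false := by simpa using ha
      simp [ind, ha']
  have hμ0 : 0 ≤ μ := by
    rw [hμ]
    exact av_nonneg fun L => ind_nonneg _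
  have hμ1 : μ ≤ 1 := by
    rw [hμ]
    exact av_le_one fun L => ind_le_one _
  have h11 : av (fun L : St κ (Fin n) => |ind (f L = true) - μ|) = 2 * (μ * (1 - μ)) := by
    have h12 : ∀ L : St κ (Fin n), |ind (f L = true) - μ| =
        (1 - μ) * ind (f L = true) + μ * ind (f L = false) := by
      intro L
      by_cases ha : f L = true
      · simp only [ind, ha, if_true]
        rw [abs_of_nonneg (by linarith)]
        simp
      · have ha' : f L = false := by simpa using ha
        simp only [ind, ha', if_true]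
        rw [abs_of_nonpos (by simp [hμ0])]
        simp
    simp only [h12]
    rw [av_add, av_mul_left, av_mul_left, hf', ← hμ]
    ring
  rw [← hμ, h11] at h10
  rw [← hμ, hf']
  have h13 : μ * (1 - μ) ≤ n * (2 * (n : ℝ) ^ (-(C + 2))) := by
    have h14 : (n : ℝ) * E ≤ n * (4 * (n : ℝ) ^ (-(C + 2))) :=
      mul_le_mul_of_nonneg_left h7 hn0.le
    linarith
  refine h13.trans ?_
  have h15 : (n : ℝ) ^ (-(C + 2)) = (n : ℝ) ^ (-C) * ((n : ℝ) ^ 2)⁻¹ := by
    rw [neg_add, Real.rpow_add hn0, Real.rpow_neg hn0.le 2, Real.rpow_two]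
  rw [h15]
  have h16 : (0 : ℝ) < (n : ℝ) ^ (-C) := Real.rpow_pos_of_pos hn0 _
  have h17 : (n : ℝ) * (2 * ((n : ℝ) ^ (-C) * ((n : ℝ) ^ 2)⁻¹)) = (n : ℝ) ^ (-C) * (2 / n) := by
    field_simp
  rw [h17]
  have h18 : (2 : ℝ) / n ≤ 1 := by
    rw [div_le_one hn0]
    exact hn2'
  calc (n : ℝ) ^ (-C) * (2 / n) ≤ (n : ℝ) ^ (-C) * 1 := mul_le_mul_of_nonneg_left h18 h16.le
    _ = (n : ℝ) ^ (-C) := mul_one _

end final

end ZOL.NC
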