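import Pool.Agent.ZOL.CoreBasic

/-!
# The covering lemma: seen marks
-/

namespace ZOL
namespace SE

open Filter Finset CB

section decomp

variable {κ ι V : Type} [DecidableEq ι]

lemma seen_decomp {t : St κ V → Bool} {U Y : Finset ι} (hYU : Y ⊆ U) (hY : Y.Nonempty)
    {M : St κ (V ⊕ ι)} {a : ι → V} (h : Seen t U Y M a) :
    ∃ (W B : Finset ι) (g : St κ ι), W ⊆ Y ∧ W.Nonempty ∧ B ⊆ U \ Y ∧ Qev t g B W M a ∧
      Seen t U (Y \ W) M a := by
  classical
  obtain ⟨y, hy⟩ := hY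
  obtain ⟨hinj, hs⟩ := h
  obtain ⟨g, A, hAU, hyA, hne⟩ := hs y hy
  obtain ⟨B, hB⟩ : ∃ B, B = A \ Y := ⟨_, rfl⟩
  obtain ⟨P, hP⟩ : ∃ P : Finset ι → Prop, P = fun W => t (glue g a (B ∪ W) M) ≠ t (glue g a B M) :=
    ⟨_, rfl⟩
  have hBA : B ∪ (A ∩ Y) = A := by
    rw [hB, Finset.sdiff_union_inter]
  have hBA' : B ∪ insert y (A ∩ Y) = insert y A := by
    rw [Finset.union_insert, hBA]
  have hex : ∃ W ⊆ Y, P W := by
    by_cases h1 : P (A ∩ Y)
    · exact ⟨_, Finset.inter_subset_right, h1⟩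
    · refine ⟨insert y (A ∩ Y), ?_, ?_⟩
      · exact Finset.insert_subset hy Finset.inter_subset_right
      · rw [hP] at h1 ⊢
        simp only [ne_eq, not_not] at h1
        show t (glue g a (B ∪ insert y (A ∩ Y)) M) ≠ t (glue g a B M)
        rw [hBA', ← h1, hBA]
        exact hne
  obtain ⟨W0, hW0, hP0⟩ := hex
  obtain ⟨W, hW⟩ := (Y.powerset.filter fun W => P W).exists_minimal
    ⟨W0, by simp [hW0, hP0]⟩
  have hW1 : W ⊆ Y ∧ P W := by simpa using hW.1
  have hPne : ¬ P ∅ := by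
    rw [hP]; simp
  have hBU : B ⊆ U \ Y := by
    rw [hB]; exact Finset.sdiff_subset_sdiff hAU (Finset.Subset.refl _)
  refine ⟨W, B, g, hW1.1, ?_, hBU, ⟨?_, ?_, ?_⟩, hinj, ?_⟩
  · rw [Finset.nonempty_iff_ne_empty]
    rintro rfl
    exact hPne hW1.2
  · refine hinj.mono ?_
    exact_mod_cast Finset.union_subset (hBU.trans Finset.sdiff_subset) (hW1.1.trans hYU)
  · have := hW1.2
    rw [hP] at this
    exact this
  · intro A' hA'
    by_contra hne'
    have hPA : P A' := by rw [hP]; exact hne'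
    have := hW.2 (y := A') (by simp [hPA, hA'.1.trans hW1.1]) hA'.1
    exact hA'.2 this
  · intro y' hy'
    exact hs y' (Finset.sdiff_subset hy')

end decomp

variable {κ : Type} [Fintype κ] [DecidableEq κ]

lemma seen_aux {j : ℕ} {ξ : ℝ} (hξ : 0 < ξ) (hIH : IH κ j ξ) (ι β : Type) [Fintype ι]
    [DecidableEq ι] [Fintype β] [DecidableEq β] (c K : ℕ) (w : ℕ) :
    ∀ C : ℝ, ∀ᶠ n : ℕ in atTop,
    ∀ (t : St κ (Fin n) → Bool), Lev c (n ^ K) j t →
    ∀ (U Y : Finset ι), Y ⊆ U → Y.card ≤ w →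
    ∀ (D : St κ (Fin n ⊕ ι) → (β → Fin n) → ℝ), Sym D → (∀ M v, 0 ≤ D M v ∧ D M v ≤ 1) →
    ∀ (ω : St κ (Fin n ⊕ ι) → (ι → Fin n) → (β → Fin n) → ℝ), Indep Y ω →
      (∀ M a v, 0 ≤ ω M a v ∧ ω M a v ≤ 1) →
    avM (fun M a v => ω M a v * D M v * ind (Seen t U Y M a)) ≤
      (n : ℝ) ^ (-(5 / 8 * (Y.card : ℝ))) * avM (fun M a v => ω M a v * D M v)
        + (n : ℝ) ^ (-C) := by
  have hempty : ∀ (C : ℝ) (n : ℕ), 1 ≤ n → ∀ (t : St κ (Fin n) → Bool) (U : Finset ι)
      (D : St κ (Fin n ⊕ ι) → (β → Fin n) → ℝ), (∀ M v, 0 ≤ D M v ∧ D M v ≤ 1) →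
      ∀ (ω : St κ (Fin n ⊕ ι) → (ι → Fin n) → (β → Fin n) → ℝ),
      (∀ M a v, 0 ≤ ω M a v ∧ ω M a v ≤ 1) →
      avM (fun M a v => ω M a v * D M v * ind (Seen t U ∅ M a)) ≤
      (n : ℝ) ^ (-(5 / 8 * ((∅ : Finset ι).card : ℝ))) * avM (fun M a v => ω M a v * D M v)
        + (n : ℝ) ^ (-C) := by
    intro C n hn t U D hD ω hω
    have h1 : avM (fun M a v => ω M a v * D M v * ind (Seen t U ∅ M a)) ≤
        avM (fun M a v => ω M a v * D M v) := by
      refine avM_mono fun M a v => ?_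
      exact mul_le_of_le_one_right (mul_nonneg (hω M a v).1 (hD M v).1) (ind_le_one _)
    have h2 : (0 : ℝ) ≤ (n : ℝ) ^ (-C) := by positivity
    simp only [Finset.card_empty, Nat.cast_zero, mul_zero, neg_zero, Real.rpow_zero, one_mul]
    linarith
  induction w with
  | zero =>
    intro C
    filter_upwards [eventually_ge_atTop 1] with n hn t ht U Y hYU hYc D hDs hD ω hωi hω
    obtain rfl : Y = ∅ := Finset.card_eq_zero.1 (Nat.le_zero.1 hYc)
    exact hempty C n hn t U D hD ω hω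
  | succ w ih =>
    intro C
    obtain ⟨N0, hN0⟩ : ∃ N0 : ℝ, N0 = (Fintype.card (Finset ι × Finset ι × St κ ι) : ℝ) :=
      ⟨_, rfl⟩
    have hN0nn : 0 ≤ N0 := by rw [hN0]; positivity
    have e1 : ∀ᶠ n : ℕ in atTop, N0 ≤ (n : ℝ) ^ ξ :=
      ((tendsto_rpow_atTop hξ).comp tendsto_natCast_atTop_atTop).eventually_ge_atTop N0
    have e2 : ∀ᶠ n : ℕ in atTop, 2 * N0 ≤ (n : ℝ) :=
      tendsto_natCast_atTop_atTop.eventually_ge_atTop _
    filter_upwards [eventually_ge_atTop 1, ih (C + 1), hIH ι β c K (C + 1), e1, e2] with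
      n hn hih hI he1 he2 t ht U Y hYU hYc D hDs hD ω hωi hω
    rcases Y.eq_empty_or_nonempty with rfl | hY
    · exact hempty C n hn t U D hD ω hω
    have hn1 : (1 : ℝ) ≤ (n : ℝ) := by exact_mod_cast hn
    have hn0 : (0 : ℝ) < (n : ℝ) := by linarith
    obtain ⟨E, hE⟩ : ∃ E, E = avM (fun M a v => ω M a v * D M v) := ⟨_, rfl⟩
    have hE0 : 0 ≤ E := by
      rw [hE]; exact avM_nonneg fun M a v => mul_nonneg (hω M a v).1 (hD M v).1
    rw [← hE]
    -- the terms
    obtain ⟨cond, hcond⟩ : ∃ cond : Finset ι × Finset ι × St κ ι → Prop,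
        cond = fun p => p.1 ⊆ Y ∧ p.1.Nonempty ∧ p.2.1 ⊆ U \ Y := ⟨_, rfl⟩
    have hcov : avM (fun M a v => ω M a v * D M v * ind (Seen t U Y M a)) ≤
        ∑ p : Finset ι × Finset ι × St κ ι, avM (fun M a v => ω M a v * D M v *
          ind (cond p ∧ Qev t p.2.2 p.2.1 p.1 M a ∧ Seen t U (Y \ p.1) M a)) := by
      rw [← avM_sum]
      refine avM_mono fun M a v => ?_
      rw [← Finset.mul_sum]
      refine mul_le_mul_of_nonneg_left ?_ (mul_nonneg (hω M a v).1 (hD M v).1)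
      refine le_trans (ind_mono ?_) (ind_exists_le _)
      intro hs
      obtain ⟨W, B, g, h1, h2, h3, h4, h5⟩ := seen_decomp hYU hY hs
      exact ⟨(W, B, g), by rw [hcond]; exact ⟨h1, h2, h3⟩, h4, h5⟩
    have hterm : ∀ p : Finset ι × Finset ι × St κ ι, avM (fun M a v => ω M a v * D M v *
          ind (cond p ∧ Qev t p.2.2 p.2.1 p.1 M a ∧ Seen t U (Y \ p.1) M a)) ≤
        (n : ℝ) ^ (-(5 / 8 * (Y.card : ℝ))) * (n : ℝ) ^ (-ξ) * E
          + 2 * (n : ℝ) ^ (-(C + 1)) := by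
      intro p
      by_cases hp : cond p
      · obtain ⟨W, B, g⟩ := p
        have hp' : W ⊆ Y ∧ W.Nonempty ∧ B ⊆ U \ Y := by rw [hcond] at hp; exact hp
        obtain ⟨hW1, hW2, hB⟩ := hp'
        have hBY : Disjoint B Y := by
          refine Finset.disjoint_of_subset_left hB Finset.sdiff_disjoint
        have hBW : Disjoint B W := Finset.disjoint_of_subset_right hW1 hBY
        have hcard : (Y \ W).card + W.card = Y.card := Finset.card_sdiff_add_card_eq_card hW1
        have hWc : 1 ≤ W.card := Finset.card_pos.2 hW2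
        -- the new weight
        have hω' : Indep (Y \ W) (fun (M : St κ (Fin n ⊕ ι)) (a : ι → Fin n) (v : β → Fin n) =>
            ω M a v * ind (Qev t g B W M a)) := by
          refine Indep.mul (hωi.mono Finset.sdiff_subset) (Indep.ind_Qev t g B W ?_)
          rw [Finset.disjoint_union_left]
          exact ⟨Finset.disjoint_of_subset_right Finset.sdiff_subset hBY,
            Finset.disjoint_sdiff⟩
        have h1 := hih t ht U (Y \ W) (Finset.sdiff_subset.trans hYU) (by omega) D hDs hD _ hω'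
          (fun M a v => ⟨mul_nonneg (hω M a v).1 (ind_nonneg _),
            mul_le_one₀ (hω M a v).2 (ind_nonneg _) (ind_le_one _)⟩)
        have h2 := hI t ht g B W hW2 hBW D hDs hD ω (hωi.mono hW1) hω
        rw [← hE] at h2
        have h3 : avM (fun M a v => ω M a v * D M v *
            ind (cond (W, B, g) ∧ Qev t g B W M a ∧ Seen t U (Y \ W) M a)) ≤
            avM (fun M a v => ω M a v * ind (Qev t g B W M a) * D M v *
              ind (Seen t U (Y \ W) M a)) := by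
          refine le_of_eq (avM_congr fun M a v => ?_)
          rw [ind_and, ind_and, ind_true' hp]
          ring
        have h4 : avM (fun M a v => ω M a v * ind (Qev t g B W M a) * D M v) =
            avM (fun M a v => ω M a v * D M v * ind (Qev t g B W M a)) :=
          avM_congr fun M a v => by ring
        rw [h4] at h1
        have hpow : (n : ℝ) ^ (-(5 / 8 * ((Y \ W).card : ℝ))) *
            (n : ℝ) ^ (-(5 / 8 * (W.card : ℝ) + ξ)) =
            (n : ℝ) ^ (-(5 / 8 * (Y.card : ℝ))) * (n : ℝ) ^ (-ξ) := by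
          rw [← Real.rpow_add hn0, ← Real.rpow_add hn0, ← hcard]
          congr 1
          push_cast
          ring
        have hle1 : (n : ℝ) ^ (-(5 / 8 * ((Y \ W).card : ℝ))) ≤ 1 := by
          refine Real.rpow_le_one_of_one_le_of_nonpos hn1 ?_
          have : (0 : ℝ) ≤ ((Y \ W).card : ℝ) := Nat.cast_nonneg _
          linarith
        have hnn : (0 : ℝ) ≤ (n : ℝ) ^ (-(5 / 8 * ((Y \ W).card : ℝ))) := by positivity
        have hCn : (0 : ℝ) ≤ (n : ℝ) ^ (-(C + 1)) := by positivity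
        calc _ ≤ _ := h3
          _ ≤ (n : ℝ) ^ (-(5 / 8 * ((Y \ W).card : ℝ))) *
              avM (fun M a v => ω M a v * D M v * ind (Qev t g B W M a)) +
              (n : ℝ) ^ (-(C + 1)) := h1
          _ ≤ (n : ℝ) ^ (-(5 / 8 * ((Y \ W).card : ℝ))) *
              ((n : ℝ) ^ (-(5 / 8 * (W.card : ℝ) + ξ)) * E + (n : ℝ) ^ (-(C + 1))) +
              (n : ℝ) ^ (-(C + 1)) := by
            have := mul_le_mul_of_nonneg_left h2 hnn
            linarith
          _ = (n : ℝ) ^ (-(5 / 8 * (Y.card : ℝ))) * (n : ℝ) ^ (-ξ) * E +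
              (n : ℝ) ^ (-(5 / 8 * ((Y \ W).card : ℝ))) * (n : ℝ) ^ (-(C + 1)) +
              (n : ℝ) ^ (-(C + 1)) := by
            rw [← hpow]; ring
          _ ≤ (n : ℝ) ^ (-(5 / 8 * (Y.card : ℝ))) * (n : ℝ) ^ (-ξ) * E +
              2 * (n : ℝ) ^ (-(C + 1)) := by
            have := mul_le_mul_of_nonneg_right hle1 hCn
            linarith
      · have h0 : avM (fun M a v => ω M a v * D M v *
          ind (cond p ∧ Qev t p.2.2 p.2.1 p.1 M a ∧ Seen t U (Y \ p.1) M a)) = 0 := by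
          have : ∀ (M : St κ (Fin n ⊕ ι)) (a : ι → Fin n) (v : β → Fin n), ω M a v * D M v *
            ind (cond p ∧ Qev t p.2.2 p.2.1 p.1 M a ∧ Seen t U (Y \ p.1) M a) = 0 := by
            intro M a v
            rw [ind_false' (fun h => hp h.1), mul_zero]
          rw [avM_congr this]
          exact av_zero
        rw [h0]
        have : (0 : ℝ) ≤ (n : ℝ) ^ (-(5 / 8 * (Y.card : ℝ))) * (n : ℝ) ^ (-ξ) * E := by
          positivity
        have : (0 : ℝ) ≤ (n : ℝ) ^ (-(C + 1)) := by positivity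
        linarith
    have hsum := Finset.sum_le_sum fun p (_ : p ∈ (Finset.univ :
      Finset (Finset ι × Finset ι × St κ ι))) => hterm p
    rw [Finset.sum_const, Finset.card_univ, nsmul_eq_mul, ← hN0] at hsum
    refine hcov.trans (hsum.trans ?_)
    have hq : (0 : ℝ) < (n : ℝ) ^ ξ := by positivity
    have h5 : N0 * (n : ℝ) ^ (-ξ) ≤ 1 := by
      rw [Real.rpow_neg hn0.le, ← div_eq_mul_inv, div_le_one hq]
      exact he1
    have h6 : 2 * N0 * (n : ℝ) ^ (-(C + 1)) ≤ (n : ℝ) ^ (-C) := by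
      have : (n : ℝ) ^ (-C) = n * (n : ℝ) ^ (-(C + 1)) := by
        nth_rewrite 2 [← Real.rpow_one (n : ℝ)]
        rw [← Real.rpow_add hn0]
        congr 1
        ring
      rw [this]
      exact mul_le_mul_of_nonneg_right he2 (by positivity)
    have h7 : (0 : ℝ) ≤ (n : ℝ) ^ (-(5 / 8 * (Y.card : ℝ))) * E := by positivity
    calc N0 * ((n : ℝ) ^ (-(5 / 8 * (Y.card : ℝ))) * (n : ℝ) ^ (-ξ) * E
          + 2 * (n : ℝ) ^ (-(C + 1)))
        = (N0 * (n : ℝ) ^ (-ξ)) * ((n : ℝ) ^ (-(5 / 8 * (Y.card : ℝ))) * E)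
          + 2 * N0 * (n : ℝ) ^ (-(C + 1)) := by ring
      _ ≤ 1 * ((n : ℝ) ^ (-(5 / 8 * (Y.card : ℝ))) * E) + (n : ℝ) ^ (-C) :=
          add_le_add (mul_le_mul_of_nonneg_right h5 h7) h6
      _ = _ := by ring

theorem seen : StmtSeen κ := by
  intro j ξ hξ hIH ι β _ _ _ _ c K C
  filter_upwards [seen_aux hξ hIH ι β c K (Fintype.card ι) C] with
    n h t ht U Y hYU D hDs hD ω hωi hω
  exact h t ht U Y hYU (Finset.card_le_univ Y) D hDs hD ω hωi hω

end SE
end ZOL
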