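import Pool.Agent.ZOL.CoreBasic

/-!
# The induction step: OR gates starting from the value `true`
-/

namespace ZOL
namespace ST

open Filter Finset CB

section basic

variable {κ ι V β : Type}

/-- `l` is the first child accepting `x` -/
def First {m : ℕ} {X : Type*} (t : Fin m → X → Bool) (x : X) (l : Fin m) : Prop :=
  t l x = true ∧ ∀ l' < l, t l' x = false

lemma exists_first {m : ℕ} {X : Type*} (t : Fin m → X → Bool) (x : X) (h : ∃ l, t l x = true) :
    ∃ l, First t x l := by
  classical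
  obtain ⟨l, hl⟩ := (univ.filter fun l : Fin m => t l x = true).exists_minimal
    (by obtain ⟨l, hl⟩ := h; exact ⟨l, by simp [hl]⟩)
  refine ⟨l, by simpa using hl.1, fun l' hl' => ?_⟩
  by_contra hne
  have := hl.2 (y := l') (by simpa using hne) hl'.le
  exact absurd (lt_of_lt_of_le hl' this) (lt_irrefl _)

lemma sum_first {m : ℕ} {X : Type*} (t : Fin m → X → Bool) (x : X) :
    ∑ l, ind (First t x l) ≤ 1 := by
  by_cases h : ∃ l, First t x l
  · obtain ⟨l, hl⟩ := h
    rw [Finset.sum_eq_single l]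
    · exact ind_le_one _
    · intro l' _ hne
      refine ind_false' fun hl' => ?_
      rcases lt_trichotomy l l' with h1 | h1 | h1
      · have := hl'.2 l h1
        rw [hl.1] at this
        exact absurd this (by simp)
      · exact hne h1.symm
      · have := hl.2 l' h1
        rw [hl'.1] at this
        exact absurd this (by simp)
    · intro hl'
      exact absurd (Finset.mem_univ l) hl'
  · rw [Finset.sum_eq_zero fun l _ => ind_false' fun hl => h ⟨l, hl⟩]
    exact zero_le_one

variable [DecidableEq ι]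

lemma Qev_not (t : St κ V → Bool) (g : St κ ι) (B W : Finset ι) (M : St κ (V ⊕ ι))
    (a : ι → V) : Qev (fun x => !(t x)) g B W M a ↔ Qev t g B W M a := by
  unfold Qev
  simp only [ne_eq, Bool.not_inj_iff]

/-- decomposition of a pattern of an OR gate -/
lemma decomp {m : ℕ} {t : Fin m → St κ V → Bool} {h : St κ V → Bool}
    (hh : ∀ x, h x = true ↔ ∃ l, t l x = true) {g : St κ ι} {B W : Finset ι}
    {M : St κ (V ⊕ ι)} {a : ι → V} (hQ : Qev h g B W M a) :
    Fev h g B W M a ∨ ∃ (l : Fin m) (W1 : Finset ι), First t (glue g a B M) l ∧ W1 ⊆ W ∧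
      W1.Nonempty ∧ Qev (t l) g B W1 M a ∧ (W1 ≠ W → Qev h g (B ∪ W1) (W \ W1) M a) := by
  classical
  obtain ⟨hinj, hne, hall⟩ := hQ
  by_cases hB : h (glue g a B M) = true
  · right
    obtain ⟨l, hl⟩ := exists_first t _ ((hh _).1 hB)
    have hfalse : h (glue g a (B ∪ W) M) = false := by
      rw [hB] at hne
      simpa using hne
    have hlf : t l (glue g a (B ∪ W) M) = false := by
      by_contra hc
      have : h (glue g a (B ∪ W) M) = true := (hh _).2 ⟨l, by simpa using hc⟩
      rw [hfalse] at this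
      exact absurd this (by simp)
    obtain ⟨P, hP⟩ : ∃ P : Finset ι → Prop,
        P = fun W => t l (glue g a (B ∪ W) M) ≠ t l (glue g a B M) := ⟨_, rfl⟩
    have hPW : P W := by
      rw [hP]
      show t l (glue g a (B ∪ W) M) ≠ t l (glue g a B M)
      rw [hlf, hl.1]; simp
    obtain ⟨W1, hW1⟩ := (W.powerset.filter fun W => P W).exists_minimal ⟨W, by simp [hPW]⟩
    have hW1' : W1 ⊆ W ∧ P W1 := by simpa using hW1.1
    refine ⟨l, W1, hl, hW1'.1, ?_, ⟨?_, ?_, ?_⟩, ?_⟩
    · rw [Finset.nonempty_iff_ne_empty]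
      rintro rfl
      have := hW1'.2
      rw [hP] at this
      simp at this
    · refine hinj.mono ?_
      exact_mod_cast Finset.union_subset_union_right hW1'.1
    · have := hW1'.2
      rw [hP] at this
      exact this
    · intro A' hA'
      by_contra hne'
      have hPA : P A' := by rw [hP]; exact hne'
      have := hW1.2 (y := A') (by simp [hPA, hA'.1.trans hW1'.1]) hA'.1
      exact hA'.2 this
    · intro hWW
      have hss : W1 ⊂ W := Finset.ssubset_iff_subset_ne.2 ⟨hW1'.1, hWW⟩
      have hun : B ∪ W1 ∪ (W \ W1) = B ∪ W := by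
        rw [Finset.union_assoc, Finset.union_sdiff_of_subset hW1'.1]
      refine ⟨by rw [hun]; exact hinj, ?_, ?_⟩
      · rw [hun, hall W1 hss]; exact hne
      · intro A hA
        have hA' : W1 ∪ A ⊂ W := by
          refine Finset.ssubset_iff_subset_ne.2 ⟨Finset.union_subset hW1'.1
            (hA.1.trans Finset.sdiff_subset), ?_⟩
          intro he
          apply hA.2
          intro k hk
          have hk1 : k ∈ W1 ∪ A := by rw [he]; exact (Finset.mem_sdiff.1 hk).1
          rcases Finset.mem_union.1 hk1 with h1 | h1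
          · exact absurd h1 (Finset.mem_sdiff.1 hk).2
          · exact h1
        rw [Finset.union_assoc, hall _ hA', hall W1 hss]
  · left
    have hB' : h (glue g a B M) = false := by simpa using hB
    refine ⟨hinj, ?_, fun A hA => ?_⟩
    · rw [hB'] at hne
      simpa using hne
    · rw [hall A hA]; exact hB'

omit [DecidableEq ι] in
lemma Indep.ind_First {X : Finset ι} {m : ℕ} (t : Fin m → St κ V → Bool) (g : St κ ι)
    (B : Finset ι) (hX : Disjoint B X) (l : Fin m) :
    Indep X (fun (M : St κ (V ⊕ ι)) (a : ι → V) (_ : β → V) =>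
      ind (First t (glue g a B M) l)) := by
  intro M M' a a' v hA
  simp only [glue_congr hA g B hX]

end basic

variable {κ : Type} [Fintype κ] [DecidableEq κ]

lemma step_aux {j : ℕ} {ξ ξ' ξ'' : ℝ} (hξ : 0 < ξ) (h1 : ξ'' < ξ) (h2 : ξ'' < ξ')
    (hIH : IH κ j ξ) (hF : FBound κ j ξ') (ι β : Type) [Fintype ι] [DecidableEq ι]
    [Fintype β] [DecidableEq β] (c K : ℕ) (w : ℕ) :
    ∀ C : ℝ, ∀ᶠ n : ℕ in atTop,
    ∀ (m : ℕ) (t : Fin m → St κ (Fin n) → Bool) (h : St κ (Fin n) → Bool), m ≤ n ^ K →
      (∀ l, Lev c (n ^ K) j (t l)) → (∀ x, h x = true ↔ ∃ l, t l x = true) →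
    ∀ (g : St κ ι) (B W : Finset ι), W.Nonempty → Disjoint B W → W.card ≤ w →
    ∀ (D : St κ (Fin n ⊕ ι) → (β → Fin n) → ℝ), Sym D → (∀ M v, 0 ≤ D M v ∧ D M v ≤ 1) →
    ∀ (ω : St κ (Fin n ⊕ ι) → (ι → Fin n) → (β → Fin n) → ℝ), Indep W ω →
      (∀ M a v, 0 ≤ ω M a v ∧ ω M a v ≤ 1) →
    avM (fun M a v => ω M a v * D M v * ind (Qev h g B W M a)) ≤
      (n : ℝ) ^ (-(5 / 8 * (W.card : ℝ) + ξ'')) * avM (fun M a v => ω M a v * D M v)
        + (n : ℝ) ^ (-C) := by
  induction w with
  | zero =>
    intro C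
    filter_upwards with n m t h hm ht hh g B W hW hBW hWc
    exact absurd hWc (by have := Finset.card_pos.2 hW; omega)
  | succ w ih =>
    intro C
    obtain ⟨δ, hδ⟩ : ∃ δ : ℝ, δ = min (min (ξ' - ξ'') (ξ - ξ'')) ξ := ⟨_, rfl⟩
    have hδ0 : 0 < δ := by
      rw [hδ]; exact lt_min (lt_min (by linarith) (by linarith)) hξ
    have hδ1 : δ ≤ ξ' - ξ'' := by rw [hδ]; exact (min_le_left _ _).trans (min_le_left _ _)
    have hδ2 : δ ≤ ξ - ξ'' := by rw [hδ]; exact (min_le_left _ _).trans (min_le_right _ _)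
    have hδ3 : δ ≤ ξ := by rw [hδ]; exact min_le_right _ _
    obtain ⟨N0, hN0⟩ : ∃ N0 : ℝ, N0 = (Fintype.card (Finset ι) : ℝ) := ⟨_, rfl⟩
    have hN0nn : 0 ≤ N0 := by rw [hN0]; positivity
    obtain ⟨C', hC'⟩ : ∃ C' : ℝ, C' = C + 1 + K + |ξ''| := ⟨_, rfl⟩
    have e1 : ∀ᶠ n : ℕ in atTop, 1 + N0 ≤ (n : ℝ) ^ δ :=
      ((tendsto_rpow_atTop hδ0).comp tendsto_natCast_atTop_atTop).eventually_ge_atTop _
    have e2 : ∀ᶠ n : ℕ in atTop, 1 + 2 * N0 ≤ (n : ℝ) :=
      tendsto_natCast_atTop_atTop.eventually_ge_atTop _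
    filter_upwards [eventually_ge_atTop 1, ih C', hIH ι β c K C', hF ι β c K C', e1, e2] with
      n hn hih hI hFn he1 he2 m t h hm ht hh g B W hW hBW hWc D hDs hD ω hωi hω
    have hn1 : (1 : ℝ) ≤ (n : ℝ) := by exact_mod_cast hn
    have hn0 : (0 : ℝ) < (n : ℝ) := by linarith
    obtain ⟨E, hE⟩ : ∃ E, E = avM (fun M a v => ω M a v * D M v) := ⟨_, rfl⟩
    have hE0 : 0 ≤ E := by
      rw [hE]; exact avM_nonneg fun M a v => mul_nonneg (hω M a v).1 (hD M v).1
    rw [← hE]
    obtain ⟨El, hEl⟩ : ∃ El : Fin m → ℝ, El = fun l => avM (fun M a v =>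
      ω M a v * ind (First t (glue g a B M) l) * D M v) := ⟨_, rfl⟩
    have hEl0 : ∀ l, 0 ≤ El l := by
      intro l
      rw [hEl]
      exact avM_nonneg fun M a v =>
        mul_nonneg (mul_nonneg (hω M a v).1 (ind_nonneg _)) (hD M v).1
    have hElsum : ∑ l, El l ≤ E := by
      rw [hEl, ← avM_sum, hE]
      refine avM_mono fun M a v => ?_
      have : ∑ l, ω M a v * ind (First t (glue g a B M) l) * D M v =
          (ω M a v * D M v) * ∑ l, ind (First t (glue g a B M) l) := by
        rw [Finset.mul_sum]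
        exact Finset.sum_congr rfl fun l _ => by ring
      rw [this]
      exact mul_le_of_le_one_right (mul_nonneg (hω M a v).1 (hD M v).1) (sum_first _ _)
    -- the terms
    obtain ⟨T, hT⟩ : ∃ T : Fin m → Finset ι → ℝ, T = fun l W1 => avM (fun M a v =>
        ω M a v * D M v * ind (First t (glue g a B M) l ∧ W1 ⊆ W ∧ W1.Nonempty ∧
          Qev (t l) g B W1 M a ∧ (W1 ≠ W → Qev h g (B ∪ W1) (W \ W1) M a))) := ⟨_, rfl⟩
    have hcov : avM (fun M a v => ω M a v * D M v * ind (Qev h g B W M a)) ≤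
        avM (fun M a v => ω M a v * D M v * ind (Fev h g B W M a)) + ∑ l, ∑ W1, T l W1 := by
      rw [hT]
      simp only
      simp_rw [← avM_sum]
      rw [← avM_add]
      refine avM_mono fun M a v => ?_
      simp_rw [← Finset.mul_sum]
      rw [← mul_add]
      refine mul_le_mul_of_nonneg_left ?_ (mul_nonneg (hω M a v).1 (hD M v).1)
      by_cases hQ : Qev h g B W M a
      · rcases decomp hh hQ with hF' | ⟨l, W1, hl⟩
        · rw [ind_true' hF', ind_true' hQ]
          have : 0 ≤ ∑ l, ∑ W1, ind (First t (glue g a B M) l ∧ W1 ⊆ W ∧ W1.Nonempty ∧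
            Qev (t l) g B W1 M a ∧ (W1 ≠ W → Qev h g (B ∪ W1) (W \ W1) M a)) :=
            Finset.sum_nonneg fun l _ => Finset.sum_nonneg fun W1 _ => ind_nonneg _
          linarith
        · rw [ind_true' hQ]
          have h3 : (1 : ℝ) ≤ ∑ l, ∑ W1, ind (First t (glue g a B M) l ∧ W1 ⊆ W ∧ W1.Nonempty ∧
            Qev (t l) g B W1 M a ∧ (W1 ≠ W → Qev h g (B ∪ W1) (W \ W1) M a)) := by
            calc (1 : ℝ) = ind (First t (glue g a B M) l ∧ W1 ⊆ W ∧ W1.Nonempty ∧
                Qev (t l) g B W1 M a ∧ (W1 ≠ W → Qev h g (B ∪ W1) (W \ W1) M a)) :=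
                  (ind_true' hl).symm
              _ ≤ ∑ W1, ind (First t (glue g a B M) l ∧ W1 ⊆ W ∧ W1.Nonempty ∧
                Qev (t l) g B W1 M a ∧ (W1 ≠ W → Qev h g (B ∪ W1) (W \ W1) M a)) :=
                  Finset.single_le_sum (f := fun W1 => ind (First t (glue g a B M) l ∧ W1 ⊆ W ∧
                    W1.Nonempty ∧ Qev (t l) g B W1 M a ∧
                    (W1 ≠ W → Qev h g (B ∪ W1) (W \ W1) M a)))
                    (fun _ _ => ind_nonneg _) (Finset.mem_univ W1)
              _ ≤ _ := Finset.single_le_sum (f := fun l => ∑ W1,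
                    ind (First t (glue g a B M) l ∧ W1 ⊆ W ∧
                    W1.Nonempty ∧ Qev (t l) g B W1 M a ∧
                    (W1 ≠ W → Qev h g (B ∪ W1) (W \ W1) M a)))
                    (fun _ _ => Finset.sum_nonneg fun _ _ => ind_nonneg _) (Finset.mem_univ l)
          have := ind_nonneg (Fev h g B W M a)
          linarith
      · rw [ind_false' hQ]
        exact add_nonneg (ind_nonneg _)
          (Finset.sum_nonneg fun l _ => Finset.sum_nonneg fun W1 _ => ind_nonneg _)
    obtain ⟨P, hP⟩ : ∃ P : ℝ, P = (n : ℝ) ^ (-(5 / 8 * (W.card : ℝ) + ξ'')) := ⟨_, rfl⟩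
    obtain ⟨err, herr⟩ : ∃ err : ℝ, err = (n : ℝ) ^ (|ξ''| - C') := ⟨_, rfl⟩
    have hP0 : 0 ≤ P := by rw [hP]; positivity
    have herr0 : 0 ≤ err := by rw [herr]; positivity
    have hCerr : (n : ℝ) ^ (-C') ≤ err := by
      rw [herr]
      refine Real.rpow_le_rpow_of_exponent_le hn1 ?_
      have := abs_nonneg ξ''
      linarith
    have hδn : 0 ≤ (n : ℝ) ^ (-δ) := by positivity
    have hFterm : avM (fun M a v => ω M a v * D M v * ind (Fev h g B W M a)) ≤
        P * (n : ℝ) ^ (-δ) * E + err := by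
      have h3 := hFn m t h hm ht hh g B W hW hBW D hDs hD ω hωi hω
      rw [← hE] at h3
      have h4 : (n : ℝ) ^ (-(5 / 8 * (W.card : ℝ) + ξ')) ≤ P * (n : ℝ) ^ (-δ) := by
        rw [hP, ← Real.rpow_add hn0]
        refine Real.rpow_le_rpow_of_exponent_le hn1 ?_
        linarith
      have := mul_le_mul_of_nonneg_right h4 hE0
      linarith
    have hterm : ∀ l W1, T l W1 ≤ P * (n : ℝ) ^ (-δ) * El l + 2 * err := by
      intro l W1
      by_cases hW1 : W1 ⊆ W ∧ W1.Nonempty
      · obtain ⟨hW1, hW1n⟩ := hW1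
        have hBW1 : Disjoint B W1 := Finset.disjoint_of_subset_right hW1 hBW
        have hωl : Indep W (fun (M : St κ (Fin n ⊕ ι)) (a : ι → Fin n) (v : β → Fin n) =>
            ω M a v * ind (First t (glue g a B M) l)) :=
          Indep.mul hωi (Indep.ind_First t g B hBW l)
        have hωl01 : ∀ (M : St κ (Fin n ⊕ ι)) (a : ι → Fin n) (v : β → Fin n),
            0 ≤ ω M a v * ind (First t (glue g a B M) l) ∧
            ω M a v * ind (First t (glue g a B M) l) ≤ 1 := fun M a v =>
          ⟨mul_nonneg (hω M a v).1 (ind_nonneg _),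
            mul_le_one₀ (hω M a v).2 (ind_nonneg _) (ind_le_one _)⟩
        have h3 := hI (t l) (ht l) g B W1 hW1n hBW1 D hDs hD _ (hωl.mono hW1) hωl01
        have hEl' : avM (fun M a v => ω M a v * ind (First t (glue g a B M) l) * D M v) =
            El l := by rw [hEl]
        rw [hEl'] at h3
        by_cases hWW : W1 = W
        · subst hWW
          have h4 : T l W1 ≤ avM (fun M a v => ω M a v * ind (First t (glue g a B M) l) * D M v *
              ind (Qev (t l) g B W1 M a)) := by
            rw [hT]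
            refine avM_mono fun M a v => ?_
            have : ω M a v * ind (First t (glue g a B M) l) * D M v *
              ind (Qev (t l) g B W1 M a) = ω M a v * D M v *
              ind (First t (glue g a B M) l ∧ Qev (t l) g B W1 M a) := by
              rw [ind_and]; ring
            rw [this]
            exact mul_le_mul_of_nonneg_left (ind_mono fun hh => ⟨hh.1, hh.2.2.2.1⟩)
              (mul_nonneg (hω M a v).1 (hD M v).1)
          have h5 : (n : ℝ) ^ (-(5 / 8 * (W1.card : ℝ) + ξ)) ≤ P * (n : ℝ) ^ (-δ) := by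
            rw [hP, ← Real.rpow_add hn0]
            refine Real.rpow_le_rpow_of_exponent_le hn1 ?_
            linarith
          have := mul_le_mul_of_nonneg_right h5 (hEl0 l)
          linarith
        · have hss : W1 ⊂ W := Finset.ssubset_iff_subset_ne.2 ⟨hW1, hWW⟩
          have hne : (W \ W1).Nonempty := Finset.sdiff_nonempty.2 hss.2
          have hcard : (W \ W1).card + W1.card = W.card :=
            Finset.card_sdiff_add_card_eq_card hW1
          have hc1 : 1 ≤ W1.card := Finset.card_pos.2 hW1n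
          have hdis : Disjoint (B ∪ W1) (W \ W1) := by
            rw [Finset.disjoint_union_left]
            exact ⟨Finset.disjoint_of_subset_right Finset.sdiff_subset hBW,
              Finset.disjoint_sdiff⟩
          have h4 := hih m t h hm ht hh g (B ∪ W1) (W \ W1) hne hdis (by omega) D hDs hD
            (fun (M : St κ (Fin n ⊕ ι)) (a : ι → Fin n) (v : β → Fin n) =>
              ω M a v * ind (First t (glue g a B M) l) * ind (Qev (t l) g B W1 M a))
            (Indep.mul (hωl.mono Finset.sdiff_subset) (Indep.ind_Qev (t l) g B W1 hdis))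
            (fun M a v => ⟨mul_nonneg (hωl01 M a v).1 (ind_nonneg _),
              mul_le_one₀ (hωl01 M a v).2 (ind_nonneg _) (ind_le_one _)⟩)
          have h5 : avM (fun M a v => ω M a v * ind (First t (glue g a B M) l) *
              ind (Qev (t l) g B W1 M a) * D M v) =
              avM (fun M a v => ω M a v * ind (First t (glue g a B M) l) * D M v *
              ind (Qev (t l) g B W1 M a)) := avM_congr fun M a v => by ring
          rw [h5] at h4
          have h6 : T l W1 ≤ avM (fun M a v => ω M a v * ind (First t (glue g a B M) l) *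
              ind (Qev (t l) g B W1 M a) * D M v *
              ind (Qev h g (B ∪ W1) (W \ W1) M a)) := by
            rw [hT]
            refine avM_mono fun M a v => ?_
            have : ω M a v * ind (First t (glue g a B M) l) *
              ind (Qev (t l) g B W1 M a) * D M v * ind (Qev h g (B ∪ W1) (W \ W1) M a) =
              ω M a v * D M v * ind (First t (glue g a B M) l ∧ Qev (t l) g B W1 M a ∧
                Qev h g (B ∪ W1) (W \ W1) M a) := by
              rw [ind_and, ind_and]; ring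
            rw [this]
            exact mul_le_mul_of_nonneg_left
              (ind_mono fun hh => ⟨hh.1, hh.2.2.2.1, hh.2.2.2.2 hWW⟩)
              (mul_nonneg (hω M a v).1 (hD M v).1)
          obtain ⟨Q, hQ⟩ : ∃ Q : ℝ, Q = (n : ℝ) ^ (-(5 / 8 * ((W \ W1).card : ℝ) + ξ'')) :=
            ⟨_, rfl⟩
          have hQ0 : 0 ≤ Q := by rw [hQ]; positivity
          rw [← hQ] at h4
          have h7 : Q * (n : ℝ) ^ (-(5 / 8 * (W1.card : ℝ) + ξ)) ≤ P * (n : ℝ) ^ (-δ) := by
            rw [hQ, hP, ← Real.rpow_add hn0, ← Real.rpow_add hn0]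
            refine Real.rpow_le_rpow_of_exponent_le hn1 ?_
            rw [← hcard]
            push_cast
            linarith
          have h8 : Q * (n : ℝ) ^ (-C') ≤ err := by
            rw [hQ, herr, ← Real.rpow_add hn0]
            refine Real.rpow_le_rpow_of_exponent_le hn1 ?_
            have h9 : (0 : ℝ) ≤ ((W \ W1).card : ℝ) := Nat.cast_nonneg _
            have h10 := neg_abs_le ξ''
            linarith
          have h11 := mul_le_mul_of_nonneg_left h3 hQ0
          have h12 := mul_le_mul_of_nonneg_right h7 (hEl0 l)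
          calc T l W1 ≤ _ := h6
            _ ≤ _ := h4
            _ ≤ Q * ((n : ℝ) ^ (-(5 / 8 * (W1.card : ℝ) + ξ)) * El l + (n : ℝ) ^ (-C')) +
                (n : ℝ) ^ (-C') := by linarith
            _ = Q * (n : ℝ) ^ (-(5 / 8 * (W1.card : ℝ) + ξ)) * El l + Q * (n : ℝ) ^ (-C') +
                (n : ℝ) ^ (-C') := by ring
            _ ≤ P * (n : ℝ) ^ (-δ) * El l + 2 * err := by linarith
      · have h0 : T l W1 = 0 := by
          rw [hT]
          have : ∀ (M : St κ (Fin n ⊕ ι)) (a : ι → Fin n) (v : β → Fin n), ω M a v * D M v *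
            ind (First t (glue g a B M) l ∧ W1 ⊆ W ∧ W1.Nonempty ∧
              Qev (t l) g B W1 M a ∧ (W1 ≠ W → Qev h g (B ∪ W1) (W \ W1) M a)) = 0 := by
            intro M a v
            rw [ind_false' (fun hh => hW1 ⟨hh.2.1, hh.2.2.1⟩), mul_zero]
          exact (avM_congr this).trans av_zero
        rw [h0]
        have := mul_nonneg (mul_nonneg hP0 hδn) (hEl0 l)
        linarith
    have hsum : ∑ l, ∑ W1, T l W1 ≤ P * (n : ℝ) ^ (-δ) * N0 * E + 2 * N0 * (m : ℝ) * err := by
      calc ∑ l, ∑ W1, T l W1 ≤ ∑ l : Fin m, ∑ _W1 : Finset ι,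
            (P * (n : ℝ) ^ (-δ) * El l + 2 * err) :=
          Finset.sum_le_sum fun l _ => Finset.sum_le_sum fun W1 _ => hterm l W1
        _ = P * (n : ℝ) ^ (-δ) * N0 * (∑ l, El l) + 2 * N0 * (m : ℝ) * err := by
          simp only [Finset.sum_const, Finset.card_univ, nsmul_eq_mul]
          rw [← hN0, ← Finset.mul_sum, Finset.sum_add_distrib, ← Finset.mul_sum]
          simp only [Finset.sum_const, Finset.card_univ, nsmul_eq_mul, Fintype.card_fin]
          ring
        _ ≤ _ := by
          have := mul_le_mul_of_nonneg_left hElsum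
            (mul_nonneg (mul_nonneg hP0 hδn) hN0nn)
          linarith
    have hmn : (m : ℝ) ≤ (n : ℝ) ^ (K : ℝ) := by
      rw [Real.rpow_natCast]
      exact_mod_cast hm
    have hnK : (1 : ℝ) ≤ (n : ℝ) ^ (K : ℝ) := Real.one_le_rpow hn1 (Nat.cast_nonneg _)
    have herr2 : (n : ℝ) ^ (K : ℝ) * err = (n : ℝ) ^ (-(C + 1)) := by
      rw [herr, hC', ← Real.rpow_add hn0]
      congr 1
      ring
    have herr3 : (n : ℝ) ^ (-C) = n * (n : ℝ) ^ (-(C + 1)) := by
      nth_rewrite 2 [← Real.rpow_one (n : ℝ)]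
      rw [← Real.rpow_add hn0]
      congr 1
      ring
    have herr4 : err + 2 * N0 * (m : ℝ) * err ≤ (n : ℝ) ^ (-C) := by
      have h13 : err ≤ (n : ℝ) ^ (-(C + 1)) := by
        rw [← herr2]; exact le_mul_of_one_le_left herr0 hnK
      have h14 : (m : ℝ) * err ≤ (n : ℝ) ^ (-(C + 1)) := by
        rw [← herr2]; exact mul_le_mul_of_nonneg_right hmn herr0
      have h15 : (0 : ℝ) ≤ (n : ℝ) ^ (-(C + 1)) := by positivity
      rw [herr3]
      have h16 := mul_le_mul_of_nonneg_right he2 h15
      have h17 := mul_le_mul_of_nonneg_left h14 (by positivity : (0 : ℝ) ≤ 2 * N0)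
      nlinarith
    have hmain : P * (n : ℝ) ^ (-δ) * E + P * (n : ℝ) ^ (-δ) * N0 * E ≤ P * E := by
      have h18 : (1 + N0) * (n : ℝ) ^ (-δ) ≤ 1 := by
        have hq : (0 : ℝ) < (n : ℝ) ^ δ := by positivity
        rw [Real.rpow_neg hn0.le, ← div_eq_mul_inv, div_le_one hq]
        exact he1
      have h19 := mul_le_mul_of_nonneg_right h18 (mul_nonneg hP0 hE0)
      nlinarith
    rw [← hP]
    calc _ ≤ _ := hcov
      _ ≤ (P * (n : ℝ) ^ (-δ) * E + err) +
          (P * (n : ℝ) ^ (-δ) * N0 * E + 2 * N0 * (m : ℝ) * err) := add_le_add hFterm hsum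
      _ ≤ P * E + (n : ℝ) ^ (-C) := by linarith

/-- the induction step (with `0 < ξ`) -/
theorem step {j : ℕ} {ξ ξ' ξ'' : ℝ} (hξ : 0 < ξ) (h1 : ξ'' < ξ) (h2 : ξ'' < ξ')
    (hIH : IH κ j ξ) (hF : FBound κ j ξ') : IH κ (j + 1) ξ'' := by
  intro ι β _ _ _ _ c K C
  filter_upwards [step_aux hξ h1 h2 hIH hF ι β c K (Fintype.card ι) C] with
    n hn f hf g B W hW hBW D hDs hD ω hωi hω
  obtain ⟨m, t, hm, ht, hf | hf⟩ := hf
  · exact hn m t f hm ht hf g B W hW hBW (Finset.card_le_univ W) D hDs hD ω hωi hω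
  · have h3 := hn m (fun l x => !(t l x)) (fun x => !(f x)) hm (fun l => Lev.not j (ht l)) (by
      intro x
      have h1 : (f x = false) ↔ ¬ (f x = true) := by simp
      simp only [Bool.not_eq_true']
      rw [h1, hf x]
      push Not
      simp only [ne_eq, Bool.not_eq_true]) g B W hW hBW
      (Finset.card_le_univ W) D hDs hD ω hωi hω
    refine le_trans (le_of_eq (avM_congr fun M a v => ?_)) h3
    rw [ind_congr (Qev_not f g B W M a)]

end ST
end ZOL
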