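import Pool.Agent.ZOL.Flow6
import Pool.Agent.ZOL.Seen
import Pool.Agent.ZOL.GR
import Pool.Agent.ZOL.IHZero
import Pool.Agent.ZOL.NearConst
import Pool.Agent.ZOL.TKv
import Pool.Agent.ZOL.CE
import Pool.Agent.ZOL.EX
import Pool.Agent.ZOL.Step
import Pool.Agent.ZOL.FOSide

/-!
# Assembly of the zero-one law
-/

namespace ZOL

open Filter Finset

section

variable (κ : Type) [Fintype κ] [DecidableEq κ]

/-- the induction hypothesis holds at every depth with every gain `ξ ∈ (0, 3/8)` -/
theorem ih_all (j : ℕ) : ∀ ξ : ℝ, 0 < ξ → ξ < 3 / 8 → IH κ j ξ := by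
  induction j with
  | zero => exact fun ξ _ hξ => stmtIH0 κ ξ hξ
  | succ j ih =>
    intro ξ h0 h1
    set ξ' : ℝ := (ξ + 3 / 8) / 2 with hξ'
    have h2 : ξ < ξ' := by rw [hξ']; linarith
    have h3 : ξ' < 3 / 8 := by rw [hξ']; linarith
    have h4 : 0 < ξ' := by linarith
    have hIH := ih ξ' h4 h3
    have hseen : SeenBound κ j := SE.seen j ξ' h4 hIH
    have hEX : EXBound κ j := stmtEX κ (stmtTKv κ) j hseen
    have hCE : CEBound κ j := stmtCE κ j hEX
    have hF : FBound κ j ξ' := stmtF κ stmtTK (stmtGR κ (stmtTKv κ)) j hCE ξ' h4 h3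
    exact ST.step h4 h2 h2 hIH hF

/-- near-constancy of invariant functions computed by bounded depth circuits -/
theorem main_all : Main κ :=
  NC.nearConst (fun j => ⟨1 / 8, by norm_num, ih_all κ j (1 / 8) (by norm_num) (by norm_num)⟩)

end

/-- **Zero-one law for order-invariant first-order logic.** -/
theorem zero_one_law (C : Type) [Finite C] (φ : (sig C).Sentence) (hφ : OrderInvariant φ) :
    Tendsto (mu φ) atTop (nhds 0) ∨ Tendsto (mu φ) atTop (nhds 1) := by
  classical
  have := Fintype.ofFinite C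
  exact zero_one_of_main (main_all (Option C)) hφ

end ZOL
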