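import Pool.Agent.ZOL.Noise

/-!
Energy bound and hypercontractivity for the noise operator on a set of coordinates.
-/

open Finset ZOL

namespace ZOL.Noise

variable {ι : Type*} [DecidableEq ι]

/-- Weight of a noise pattern. -/
noncomputable def wt (J : Finset ι) (u : ℝ) (s : Finset ι) : ℝ :=
  ((1 - u) / 2) ^ #s * ((1 + u) / 2) ^ (#J - #s)

omit [DecidableEq ι] in
theorem wt_nonneg' {J : Finset ι} {u : ℝ} (h0 : -1 ≤ u) (h1 : u ≤ 1) (s : Finset ι) :
    0 ≤ wt J u s := wt_nonneg h0 h1 s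

theorem noise_eq_wt (J : Finset ι) (u : ℝ) (D : (ι → Bool) → ℝ) (x : ι → Bool) :
    noise J u D x = ∑ s ∈ J.powerset, wt J u s * D (flipS s x) := rfl

/-- likelihood ratio -/
noncomputable def rat (u : ℝ) (i : ι) (s : Finset ι) : ℝ :=
  if i ∈ s then (1 + u) / (1 - u) else (1 - u) / (1 + u)

theorem wt_symmDiff {J : Finset ι} {i : ι} (hi : i ∈ J) {u : ℝ} (h0 : 0 ≤ u) (h1 : u < 1)
    {s : Finset ι} (hs : s ∈ J.powerset) :
    wt J u (symmDiff s {i}) = wt J u s * rat u i s := by
  have hs' := Finset.mem_powerset.1 hs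
  have h1' : (1 - u) ≠ 0 := by linarith
  have h2' : (1 + u) ≠ 0 := by linarith
  unfold wt rat
  by_cases his : i ∈ s
  · have hsd : symmDiff s {i} = s.erase i := by
      ext j
      simp only [Finset.mem_symmDiff, Finset.mem_singleton, Finset.mem_erase]
      by_cases hj : j = i
      · subst hj; simp [his]
      · simp [hj]
    have hc : 1 ≤ #s := Finset.card_pos.2 ⟨i, his⟩
    have hc2 : #s ≤ #J := Finset.card_le_card hs'
    rw [hsd, Finset.card_erase_of_mem his, if_pos his,
      show #J - (#s - 1) = (#J - #s) + 1 by omega]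
    obtain ⟨k, hk⟩ : ∃ k, #s = k + 1 := ⟨#s - 1, by omega⟩
    rw [hk, Nat.add_sub_cancel, pow_succ, pow_succ]
    field_simp
  · have hsd : symmDiff s {i} = insert i s := by
      ext j
      simp only [Finset.mem_symmDiff, Finset.mem_singleton, Finset.mem_insert]
      by_cases hj : j = i
      · subst hj; simp [his]
      · simp [hj]
    have hc2 : #(insert i s) ≤ #J := Finset.card_le_card (Finset.insert_subset hi hs')
    rw [Finset.card_insert_of_notMem his] at hc2
    rw [hsd, Finset.card_insert_of_notMem his, if_neg his]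
    obtain ⟨k, hk⟩ : ∃ k, #J - #s = k + 1 := ⟨#J - #s - 1, by omega⟩
    rw [show #J - (#s + 1) = k by omega, hk, pow_succ, pow_succ]
    field_simp

theorem noise_sub_flip_eq {J : Finset ι} {i : ι} (hi : i ∈ J) {u : ℝ} (h0 : 0 ≤ u) (h1 : u < 1)
    (D : (ι → Bool) → ℝ) (x : ι → Bool) :
    noise J u D x - noise J u D (flip1 i x) =
      ∑ s ∈ J.powerset, wt J u s * (1 - rat u i s) * D (flipS s x) := by
  have h : noise J u D (flip1 i x) = ∑ s ∈ J.powerset, wt J u s * rat u i s * D (flipS s x) := by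
    rw [noise_eq_wt]
    refine Finset.sum_nbij' (fun s => symmDiff s {i}) (fun s => symmDiff s {i}) ?_ ?_ ?_ ?_ ?_
    · intro s hs
      rw [Finset.mem_powerset] at hs ⊢
      intro j hj
      rcases Finset.mem_symmDiff.1 hj with h | h
      · exact hs h.1
      · rw [Finset.mem_singleton.1 h.1]; exact hi
    · intro s hs
      rw [Finset.mem_powerset] at hs ⊢
      intro j hj
      rcases Finset.mem_symmDiff.1 hj with h | h
      · exact hs h.1
      · rw [Finset.mem_singleton.1 h.1]; exact hi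
    · intro s _; simp
    · intro s _; simp
    · intro s hs
      have hs2 : symmDiff s {i} ∈ J.powerset := by
        rw [Finset.mem_powerset] at hs ⊢
        intro j hj
        rcases Finset.mem_symmDiff.1 hj with h | h
        · exact hs h.1
        · rw [Finset.mem_singleton.1 h.1]; exact hi
      rw [← wt_symmDiff hi h0 h1 hs2, flip1, flipS_flipS]
      simp
  rw [h, noise_eq_wt, ← Finset.sum_sub_distrib]
  refine Finset.sum_congr rfl fun s _ => by ring

/-- Product formula. -/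
theorem sum_wt_prod (J : Finset ι) (u : ℝ) (f g : ι → ℝ) :
    ∑ s ∈ J.powerset, wt J u s * ∏ i ∈ J, (if i ∈ s then f i else g i) =
      ∏ i ∈ J, ((1 - u) / 2 * f i + (1 + u) / 2 * g i) := by
  rw [Finset.prod_add]
  refine Finset.sum_congr rfl fun s hs => ?_
  have hs' := Finset.mem_powerset.1 hs
  have h1 : ∏ i ∈ J, (if i ∈ s then f i else g i) = (∏ i ∈ s, f i) * ∏ i ∈ J \ s, g i := by
    rw [← Finset.prod_sdiff hs', mul_comm]
    congr 1
    · exact Finset.prod_congr rfl fun i hi => by rw [if_pos hi]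
    · exact Finset.prod_congr rfl fun i hi => by rw [if_neg (Finset.mem_sdiff.1 hi).2]
  rw [h1, Finset.prod_mul_distrib, Finset.prod_mul_distrib, Finset.prod_const, Finset.prod_const,
    Finset.card_sdiff_of_subset hs', wt]
  ring

/-- Energy bound, quantitative form. -/
theorem energy_bound {J : Finset ι} {u θ lam : ℝ} (h0 : 0 ≤ u) (h1 : u < 1) (hθ : 0 < θ)
    (hθ' : θ * (2 * u) ≤ 1 - u) {D : (ι → Bool) → ℝ} (hD0 : ∀ y, 0 ≤ D y)
    (hD1 : ∀ y, D y ≤ 1) (x : ι → Bool) :
    ∑ i ∈ J, |noise J u D x - noise J u D (flip1 i x)| ≤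
      lam * noise J u D x +
        1 / θ * Real.exp (4 * θ ^ 2 * #J * (u ^ 2 / (1 - u ^ 2)) - θ * lam) := by
  classical
  have hu1 : 0 < 1 - u := by linarith
  have hu2 : 0 < 1 + u := by linarith
  set e : ι → ℝ := fun i => if 0 ≤ noise J u D x - noise J u D (flip1 i x) then 1 else -1 with he
  have he1 : ∀ i, e i = 1 ∨ e i = -1 := by
    intro i; simp only [he]; split_ifs <;> simp
  have habs : ∀ i, |noise J u D x - noise J u D (flip1 i x)| =
      e i * (noise J u D x - noise J u D (flip1 i x)) := by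
    intro i
    simp only [he]
    split_ifs with h
    · rw [abs_of_nonneg h, one_mul]
    · rw [abs_of_neg (not_le.1 h)]; ring
  set Z : Finset ι → ℝ := fun s => ∑ i ∈ J, e i * (1 - rat u i s) with hZ
  have hmain : ∑ i ∈ J, |noise J u D x - noise J u D (flip1 i x)| =
      ∑ s ∈ J.powerset, wt J u s * D (flipS s x) * Z s := by
    calc ∑ i ∈ J, |noise J u D x - noise J u D (flip1 i x)|
        = ∑ i ∈ J, ∑ s ∈ J.powerset,
            e i * (wt J u s * (1 - rat u i s) * D (flipS s x)) := by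
          refine Finset.sum_congr rfl fun i hi => ?_
          rw [habs, noise_sub_flip_eq hi h0 h1, Finset.mul_sum]
      _ = ∑ s ∈ J.powerset, ∑ i ∈ J,
            e i * (wt J u s * (1 - rat u i s) * D (flipS s x)) := Finset.sum_comm
      _ = _ := by
          refine Finset.sum_congr rfl fun s _ => ?_
          rw [hZ, Finset.mul_sum]
          refine Finset.sum_congr rfl fun i _ => by ring
  -- pointwise bound on Z
  have hpt : ∀ s, Z s ≤ lam + 1 / θ * Real.exp (θ * (Z s - lam)) := by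
    intro s
    have := Real.add_one_le_exp (θ * (Z s - lam))
    have h2 : Z s - lam ≤ 1 / θ * Real.exp (θ * (Z s - lam)) := by
      rw [one_div, ← div_eq_inv_mul, le_div_iff₀ hθ]
      nlinarith
    linarith
  have hstep : ∑ s ∈ J.powerset, wt J u s * D (flipS s x) * Z s ≤
      lam * noise J u D x + 1 / θ * ∑ s ∈ J.powerset, wt J u s * Real.exp (θ * (Z s - lam)) := by
    rw [noise_eq_wt, Finset.mul_sum, Finset.mul_sum, ← Finset.sum_add_distrib]
    refine Finset.sum_le_sum fun s _ => ?_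
    have hw := wt_nonneg' (J := J) (by linarith : -1 ≤ u) h1.le s
    have hd0 := hD0 (flipS s x)
    have hd1 := hD1 (flipS s x)
    have hE : 0 ≤ 1 / θ * Real.exp (θ * (Z s - lam)) := by positivity
    calc wt J u s * D (flipS s x) * Z s
        ≤ wt J u s * D (flipS s x) * (lam + 1 / θ * Real.exp (θ * (Z s - lam))) :=
          mul_le_mul_of_nonneg_left (hpt s) (mul_nonneg hw hd0)
      _ = lam * (wt J u s * D (flipS s x)) +
          wt J u s * (D (flipS s x) * (1 / θ * Real.exp (θ * (Z s - lam)))) := by ring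
      _ ≤ lam * (wt J u s * D (flipS s x)) +
          wt J u s * (1 * (1 / θ * Real.exp (θ * (Z s - lam)))) := by
          have := mul_le_mul_of_nonneg_right hd1 hE
          have := mul_le_mul_of_nonneg_left this hw
          linarith
      _ = _ := by ring
  -- exponential moment
  have hexp : ∑ s ∈ J.powerset, wt J u s * Real.exp (θ * (Z s - lam)) ≤
      Real.exp (4 * θ ^ 2 * #J * (u ^ 2 / (1 - u ^ 2)) - θ * lam) := by
    have hprod : ∀ s ∈ J.powerset, Real.exp (θ * (Z s - lam)) = Real.exp (-(θ * lam)) *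
        ∏ i ∈ J, (if i ∈ s then Real.exp (θ * (e i * (-(2 * u) / (1 - u))))
          else Real.exp (θ * (e i * (2 * u / (1 + u))))) := by
      intro s _
      have : ∏ i ∈ J, (if i ∈ s then Real.exp (θ * (e i * (-(2 * u) / (1 - u))))
          else Real.exp (θ * (e i * (2 * u / (1 + u))))) =
          Real.exp (∑ i ∈ J, θ * (e i * (1 - rat u i s))) := by
        rw [Real.exp_sum]
        refine Finset.prod_congr rfl fun i _ => ?_
        unfold rat
        split_ifs
        · congr 3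
          field_simp; ring
        · congr 3
          field_simp; ring
      rw [this, ← Real.exp_add, ← Finset.mul_sum]
      congr 1
      rw [hZ]; ring
    have hsum : ∑ s ∈ J.powerset, wt J u s * Real.exp (θ * (Z s - lam)) =
        Real.exp (-(θ * lam)) * ∏ i ∈ J, ((1 - u) / 2 * Real.exp (θ * (e i * (-(2 * u) / (1 - u))))
          + (1 + u) / 2 * Real.exp (θ * (e i * (2 * u / (1 + u))))) := by
      rw [← sum_wt_prod, Finset.mul_sum]
      refine Finset.sum_congr rfl fun s hs => ?_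
      rw [hprod s hs]; ring
    rw [hsum]
    -- each factor
    have hq : 0 ≤ u ^ 2 / (1 - u ^ 2) := by
      apply div_nonneg (sq_nonneg u); nlinarith
    have hfac : ∀ i ∈ J, (1 - u) / 2 * Real.exp (θ * (e i * (-(2 * u) / (1 - u))))
          + (1 + u) / 2 * Real.exp (θ * (e i * (2 * u / (1 + u)))) ≤
        Real.exp (4 * θ ^ 2 * (u ^ 2 / (1 - u ^ 2))) := by
      intro i _
      have hexp2 : ∀ y : ℝ, |y| ≤ 1 → Real.exp y ≤ 1 + y + y ^ 2 := by
        intro y hy
        have := Real.abs_exp_sub_one_sub_id_le hy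
        have := (abs_le.1 this).2
        linarith
      have hb1 : |θ * (e i * (-(2 * u) / (1 - u)))| ≤ 1 := by
        rw [abs_mul, abs_mul, abs_of_pos hθ]
        have : |e i| = 1 := by rcases he1 i with h | h <;> rw [h] <;> simp
        rw [this, one_mul, abs_div, abs_neg, abs_of_nonneg (by linarith : 0 ≤ 2 * u),
          abs_of_pos hu1, ← mul_div_assoc, div_le_one hu1]
        exact hθ'
      have hb2 : |θ * (e i * (2 * u / (1 + u)))| ≤ 1 := by
        rw [abs_mul, abs_mul, abs_of_pos hθ]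
        have : |e i| = 1 := by rcases he1 i with h | h <;> rw [h] <;> simp
        rw [this, one_mul, abs_div, abs_of_nonneg (by linarith : 0 ≤ 2 * u),
          abs_of_pos hu2, ← mul_div_assoc, div_le_one hu2]
        linarith
      have a1 := hexp2 _ hb1
      have a2 := hexp2 _ hb2
      have hee : e i ^ 2 = 1 := by rcases he1 i with h | h <;> rw [h] <;> norm_num
      have hid : (1 - u) / 2 * (1 + θ * (e i * (-(2 * u) / (1 - u))) +
            (θ * (e i * (-(2 * u) / (1 - u)))) ^ 2) +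
          (1 + u) / 2 * (1 + θ * (e i * (2 * u / (1 + u))) +
            (θ * (e i * (2 * u / (1 + u)))) ^ 2) =
          4 * θ ^ 2 * (u ^ 2 / (1 - u ^ 2)) + 1 := by
        have h3 : (1 - u ^ 2) = (1 - u) * (1 + u) := by ring
        rw [h3]
        have hne1 : (1 - u) ≠ 0 := hu1.ne'
        have hne2 : (1 + u) ≠ 0 := hu2.ne'
        have e2 : (θ * (e i * (-(2 * u) / (1 - u)))) ^ 2 = θ ^ 2 * (4 * u ^ 2 / (1 - u) ^ 2) := by
          rw [mul_pow, mul_pow, hee]; field_simp; ring
        have e3 : (θ * (e i * (2 * u / (1 + u)))) ^ 2 = θ ^ 2 * (4 * u ^ 2 / (1 + u) ^ 2) := by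
          rw [mul_pow, mul_pow, hee]; field_simp; ring
        rw [e2, e3]
        field_simp
        ring
      have := Real.add_one_le_exp (4 * θ ^ 2 * (u ^ 2 / (1 - u ^ 2)))
      have c1 := mul_le_mul_of_nonneg_left a1 (by linarith : 0 ≤ (1 - u) / 2)
      have c2 := mul_le_mul_of_nonneg_left a2 (by linarith : 0 ≤ (1 + u) / 2)
      linarith
    have hpr : ∏ i ∈ J, ((1 - u) / 2 * Real.exp (θ * (e i * (-(2 * u) / (1 - u))))
          + (1 + u) / 2 * Real.exp (θ * (e i * (2 * u / (1 + u))))) ≤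
        Real.exp (4 * θ ^ 2 * (u ^ 2 / (1 - u ^ 2))) ^ #J := by
      refine (Finset.prod_le_prod (fun i _ => ?_) hfac).trans (le_of_eq ?_)
      · have q1 : 0 ≤ (1 - u) / 2 := by linarith
        have q2 : 0 ≤ (1 + u) / 2 := by linarith
        exact add_nonneg (mul_nonneg q1 (Real.exp_pos _).le) (mul_nonneg q2 (Real.exp_pos _).le)
      · rw [Finset.prod_const]
    calc Real.exp (-(θ * lam)) * _ ≤ Real.exp (-(θ * lam)) *
          Real.exp (4 * θ ^ 2 * (u ^ 2 / (1 - u ^ 2))) ^ #J :=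
          mul_le_mul_of_nonneg_left hpr (Real.exp_pos _).le
      _ = _ := by
          rw [← Real.exp_nat_mul, ← Real.exp_add]
          congr 1; ring
  rw [hmain]
  refine hstep.trans ?_
  have := mul_le_mul_of_nonneg_left hexp (by positivity : 0 ≤ 1 / θ)
  linarith

/-! ### Hypercontractivity -/

theorem mJ_insert {J : Finset ι} {i : ι} (hi : i ∉ J) (D : (ι → Bool) → ℝ) (x : ι → Bool) :
    mJ (insert i J) D x = (mJ J D x + mJ J D (flip1 i x)) / 2 := by
  unfold mJ; rw [noise_insert hi]; ring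

theorem mJ_nonneg {J : Finset ι} {D : (ι → Bool) → ℝ} (h : ∀ y, 0 ≤ D y) (x : ι → Bool) :
    0 ≤ mJ J D x := noise_nonneg (by norm_num) (by norm_num) h x

theorem mJ_mono {J : Finset ι} {D E : (ι → Bool) → ℝ} (h : ∀ y, D y ≤ E y) (x : ι → Bool) :
    mJ J D x ≤ mJ J E x := noise_mono (by norm_num) (by norm_num) x fun _ _ => h _

/-- Cauchy-Schwarz for the average over `J`. -/
theorem mJ_cauchy (J : Finset ι) (f g : (ι → Bool) → ℝ) (x : ι → Bool) :
    (mJ J (fun y => f y * g y) x) ^ 2 ≤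
      mJ J (fun y => f y ^ 2) x * mJ J (fun y => g y ^ 2) x := by
  rw [mJ_eq, mJ_eq, mJ_eq, div_pow, div_mul_div_comm, ← pow_two]
  apply div_le_div_of_nonneg_right _ (by positivity)
  exact Finset.sum_mul_sq_le_sq_mul_sq _ _ _

/-- Bonami's inequality (2 to 4), with the coordinates outside `J` frozen. -/
theorem bonami (J : Finset ι) {ρ : ℝ} (hρ : ρ ^ 2 ≤ 1 / 3) (D : (ι → Bool) → ℝ)
    (x : ι → Bool) :
    mJ J (fun y => noise J ρ D y ^ 4) x ≤ (mJ J (fun y => D y ^ 2) x) ^ 2 := by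
  induction J using Finset.induction_on generalizing D x with
  | empty => simp only [noise_empty, mJ]; apply le_of_eq; ring
  | insert i J hi ih =>
    set a : (ι → Bool) → ℝ := fun y => (D y + D (flip1 i y)) / 2 with ha
    set b : (ι → Bool) → ℝ := fun y => (D y - D (flip1 i y)) / 2 with hb
    set A : (ι → Bool) → ℝ := noise J ρ a with hA
    set B : (ι → Bool) → ℝ := noise J ρ b with hB
    have hAx : ∀ y, A y = (noise J ρ D y + noise J ρ D (flip1 i y)) / 2 := by
      intro y
      have : noise J ρ a y = 1 / 2 * noise J ρ (fun z => D z + D (flip1 i z)) y := by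
        rw [← noise_const_mul]; congr 1; funext z; rw [ha]; ring
      rw [hA, this, noise_add, noise_flip1]; ring
    have hBx : ∀ y, B y = (noise J ρ D y - noise J ρ D (flip1 i y)) / 2 := by
      intro y
      have : noise J ρ b y = 1 / 2 * noise J ρ (fun z => D z - D (flip1 i z)) y := by
        rw [← noise_const_mul]; congr 1; funext z; rw [hb]; ring
      rw [hB, this, noise_sub, noise_flip1]; ring
    have hT : ∀ y, noise (insert i J) ρ D y = A y + ρ * B y := by
      intro y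
      rw [noise_insert hi, hAx, hBx]; ring
    have hAf : ∀ y, A (flip1 i y) = A y := by
      intro y; rw [hAx, hAx, flip1_flip1]; ring
    have hBf : ∀ y, B (flip1 i y) = - B y := by
      intro y; rw [hBx, hBx, flip1_flip1]; ring
    have hL : mJ (insert i J) (fun y => noise (insert i J) ρ D y ^ 4) x =
        mJ J (fun y => A y ^ 4) x + 6 * ρ ^ 2 * mJ J (fun y => A y ^ 2 * B y ^ 2) x +
          ρ ^ 4 * mJ J (fun y => B y ^ 4) x := by
      rw [mJ_insert hi]
      have h1 : mJ J (fun y => noise (insert i J) ρ D y ^ 4) (flip1 i x) =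
          mJ J (fun y => (A y - ρ * B y) ^ 4) x := by
        unfold mJ
        rw [noise_flip1]
        congr 1; funext y
        rw [hT, hAf, hBf]; ring
      have h2 : mJ J (fun y => noise (insert i J) ρ D y ^ 4) x =
          mJ J (fun y => (A y + ρ * B y) ^ 4) x := by
        congr 1; funext y; rw [hT]
      rw [h1, h2]
      unfold mJ
      have h3 : ∀ (p : ℝ), p / 2 = 1 / 2 * p := by intro p; ring
      rw [h3, ← noise_const_mul, ← noise_const_mul, ← noise_add, ← noise_add, ← noise_add, ← noise_const_mul]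
      congr 1; funext y; ring
    have hR : mJ (insert i J) (fun y => D y ^ 2) x =
        mJ J (fun y => a y ^ 2) x + mJ J (fun y => b y ^ 2) x := by
      rw [mJ_insert hi]
      unfold mJ
      rw [noise_flip1]
      have h3 : ∀ (p : ℝ), p / 2 = 1 / 2 * p := by intro p; ring
      rw [h3, ← noise_add, ← noise_const_mul, ← noise_add]
      congr 1; funext y; rw [ha, hb]; ring
    have iA := ih a x
    have iB := ih b x
    have hα : 0 ≤ mJ J (fun y => a y ^ 2) x := mJ_nonneg (fun y => sq_nonneg _) x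
    have hβ : 0 ≤ mJ J (fun y => b y ^ 2) x := mJ_nonneg (fun y => sq_nonneg _) x
    have hP : 0 ≤ mJ J (fun y => A y ^ 4) x := mJ_nonneg (fun y => by positivity) x
    have hQ : 0 ≤ mJ J (fun y => B y ^ 4) x := mJ_nonneg (fun y => by positivity) x
    have hC := mJ_cauchy J (fun y => A y ^ 2) (fun y => B y ^ 2) x
    have hC0 : 0 ≤ mJ J (fun y => A y ^ 2 * B y ^ 2) x :=
      mJ_nonneg (fun y => by positivity) x
    have e4 : ∀ F : (ι → Bool) → ℝ, mJ J (fun y => (F y ^ 2) ^ 2) x =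
        mJ J (fun y => F y ^ 4) x := by
      intro F; congr 1; funext y; ring
    rw [e4 A, e4 B] at hC
    rw [hL, hR]
    set α := mJ J (fun y => a y ^ 2) x
    set β := mJ J (fun y => b y ^ 2) x
    set P := mJ J (fun y => A y ^ 4) x
    set Q := mJ J (fun y => B y ^ 4) x
    set R := mJ J (fun y => A y ^ 2 * B y ^ 2) x
    have hPQ : P * Q ≤ (α * β) ^ 2 := by
      calc P * Q ≤ α ^ 2 * β ^ 2 := mul_le_mul iA iB hQ (sq_nonneg _)
        _ = (α * β) ^ 2 := by ring
    have hRle : R ≤ α * β :=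
      (pow_le_pow_iff_left₀ hC0 (mul_nonneg hα hβ) two_ne_zero).1 (hC.trans hPQ)
    have hρ4 : ρ ^ 4 ≤ 1 := by nlinarith [sq_nonneg ρ]
    have h6 : 6 * ρ ^ 2 * R ≤ 2 * (α * β) := by
      have : 6 * ρ ^ 2 * R ≤ 2 * R := by nlinarith
      linarith
    have h4 : ρ ^ 4 * Q ≤ β ^ 2 := by
      have : ρ ^ 4 * Q ≤ 1 * Q := mul_le_mul_of_nonneg_right hρ4 hQ
      linarith
    nlinarith

/-- `4/3 -> 2` type consequence. -/
theorem second_moment_step (J : Finset ι) {ρ : ℝ} (hρ : ρ ^ 2 ≤ 1 / 3) {D : (ι → Bool) → ℝ}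
    (hD : ∀ y, 0 ≤ D y) (x : ι → Bool) :
    (mJ J (fun y => noise J ρ D y ^ 2) x) ^ 2 ≤
      (mJ J D x) ^ 2 * mJ J (fun y => D y ^ 2) x := by
  set X := mJ J (fun y => noise J ρ D y ^ 2) x with hX
  set G : (ι → Bool) → ℝ := noise J ρ (noise J ρ D) with hG
  have hX0 : 0 ≤ X := mJ_nonneg (fun y => sq_nonneg _) x
  have hm0 : 0 ≤ mJ J D x := mJ_nonneg hD x
  have h2nn : 0 ≤ mJ J (fun y => D y ^ 2) x := mJ_nonneg (fun y => sq_nonneg _) x
  have e1 : X = mJ J (fun y => D y * G y) x := by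
    rw [hX, hG, ← mJ_noise_mul]
    congr 1; funext y; ring
  -- first Cauchy-Schwarz
  have c1 : X ^ 2 ≤ mJ J D x * mJ J (fun y => D y * G y ^ 2) x := by
    have := mJ_cauchy J (fun y => √(D y)) (fun y => √(D y) * G y) x
    have f1 : mJ J (fun y => √(D y) * (√(D y) * G y)) x = X := by
      rw [e1]; congr 1; funext y
      rw [← mul_assoc, Real.mul_self_sqrt (hD y)]
    have f2 : mJ J (fun y => √(D y) ^ 2) x = mJ J D x := by
      congr 1; funext y; rw [Real.sq_sqrt (hD y)]
    have f3 : mJ J (fun y => (√(D y) * G y) ^ 2) x = mJ J (fun y => D y * G y ^ 2) x := by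
      congr 1; funext y; rw [mul_pow, Real.sq_sqrt (hD y)]
    rw [f1, f2, f3] at this
    exact this
  have c2 : (mJ J (fun y => D y * G y ^ 2) x) ^ 2 ≤
      mJ J (fun y => D y ^ 2) x * X ^ 2 := by
    have h1 := mJ_cauchy J D (fun y => G y ^ 2) x
    have h2 : mJ J (fun y => (G y ^ 2) ^ 2) x ≤ X ^ 2 := by
      have := bonami J hρ (noise J ρ D) x
      have e : mJ J (fun y => (G y ^ 2) ^ 2) x = mJ J (fun y => noise J ρ (noise J ρ D) y ^ 4) x := by
        congr 1; funext y; rw [hG]; ring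
      rw [e]; exact this
    exact h1.trans (mul_le_mul_of_nonneg_left h2 h2nn)
  have hDG : 0 ≤ mJ J (fun y => D y * G y ^ 2) x :=
    mJ_nonneg (fun y => mul_nonneg (hD y) (sq_nonneg _)) x
  rcases hX0.eq_or_lt with h0 | h0
  · rw [← h0]
    have : 0 ≤ mJ J D x ^ 2 * mJ J (fun y => D y ^ 2) x := by positivity
    simpa using this
  · have h4 : (X ^ 2) ^ 2 ≤ (mJ J D x ^ 2 * mJ J (fun y => D y ^ 2) x) * X ^ 2 := by
      calc (X ^ 2) ^ 2 ≤ (mJ J D x * mJ J (fun y => D y * G y ^ 2) x) ^ 2 :=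
            pow_le_pow_left₀ (sq_nonneg _) c1 2
        _ = mJ J D x ^ 2 * (mJ J (fun y => D y * G y ^ 2) x) ^ 2 := by ring
        _ ≤ mJ J D x ^ 2 * (mJ J (fun y => D y ^ 2) x * X ^ 2) :=
            mul_le_mul_of_nonneg_left c2 (sq_nonneg _)
        _ = _ := by ring
    have hX2 : 0 < X ^ 2 := by positivity
    have : X ^ 2 * X ^ 2 ≤ (mJ J D x ^ 2 * mJ J (fun y => D y ^ 2) x) * X ^ 2 := by
      rw [← pow_two]; exact h4
    exact le_of_mul_le_mul_right this hX2

/-- Iterated second moment bound. -/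
theorem second_moment_iter (J : Finset ι) {ρ : ℝ} (hρ : ρ ^ 2 ≤ 1 / 3) (hρ0 : 0 ≤ ρ)
    {D : (ι → Bool) → ℝ} (hD0 : ∀ y, 0 ≤ D y) (hD1 : ∀ y, D y ≤ 1) (x : ι → Bool) (k : ℕ) :
    (mJ J (fun y => noise J (ρ ^ k) D y ^ 2) x) ^ (2 ^ k) ≤ (mJ J D x) ^ (2 ^ (k + 1) - 1) := by
  have hρ1 : ρ ≤ 1 := by nlinarith
  induction k with
  | zero =>
    simp only [pow_zero, pow_one, zero_add, Nat.add_one_sub_one]
    refine mJ_mono (fun y => ?_) x
    rw [noise_one]
    nlinarith [hD0 y, hD1 y]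
  | succ k ih =>
    have hk0 : -1 ≤ ρ ^ k := by have := pow_nonneg hρ0 k; linarith
    have hk1 : ρ ^ k ≤ 1 := pow_le_one₀ hρ0 hρ1
    have hstep := second_moment_step J hρ (D := noise J (ρ ^ k) D)
      (fun y => noise_nonneg hk0 hk1 hD0 y) x
    have e1 : (fun y => noise J ρ (noise J (ρ ^ k) D) y ^ 2) = fun y => noise J (ρ ^ (k + 1)) D y ^ 2 := by
      funext y; rw [noise_noise, show ρ * ρ ^ k = ρ ^ (k + 1) by ring]
    rw [e1, mJ_noise] at hstep
    set X := mJ J (fun y => noise J (ρ ^ (k + 1)) D y ^ 2) x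
    set Y := mJ J (fun y => noise J (ρ ^ k) D y ^ 2) x
    set m := mJ J D x with hm
    have hm0 : 0 ≤ m := mJ_nonneg hD0 x
    have hX0 : 0 ≤ X := mJ_nonneg (fun y => sq_nonneg _) x
    have hY0 : 0 ≤ Y := mJ_nonneg (fun y => sq_nonneg _) x
    have hp : 1 ≤ 2 ^ (k + 1) := Nat.one_le_two_pow
    calc X ^ (2 ^ (k + 1)) = (X ^ 2) ^ (2 ^ k) := by rw [← pow_mul]; congr 1; ring
      _ ≤ (m ^ 2 * Y) ^ (2 ^ k) := pow_le_pow_left₀ (sq_nonneg _) hstep _
      _ = m ^ (2 ^ (k + 1)) * Y ^ (2 ^ k) := by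
          rw [mul_pow, ← pow_mul]; congr 2; ring
      _ ≤ m ^ (2 ^ (k + 1)) * m ^ (2 ^ (k + 1) - 1) :=
          mul_le_mul_of_nonneg_left ih (pow_nonneg hm0 _)
      _ = m ^ (2 ^ (k + 1 + 1) - 1) := by
          rw [← pow_add]
          congr 1
          have : 2 ^ (k + 1 + 1) = 2 ^ (k + 1) + 2 ^ (k + 1) := by ring
          omega

/-- The part of the smoothed density above `K` times its mean has small mass. -/
theorem tail_mass (J : Finset ι) {ρ : ℝ} (hρ : ρ ^ 2 ≤ 1 / 3) (hρ0 : 0 ≤ ρ)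
    {D : (ι → Bool) → ℝ} (hD0 : ∀ y, 0 ≤ D y) (hD1 : ∀ y, D y ≤ 1) (x : ι → Bool) (k : ℕ)
    {K ε : ℝ} (hK : 0 < K) (hε : 0 < ε) (hm : ε ≤ mJ J D x) :
    mJ J (fun y => if K * mJ J D y < noise J (ρ ^ k) D y then noise J (ρ ^ k) D y else 0) x ≤
      (1 / K) * (1 / ε) ^ ((1 : ℝ) / 2 ^ k) * mJ J D x := by
  have hρ1 : ρ ≤ 1 := by nlinarith
  have hk0 : -1 ≤ ρ ^ k := by have := pow_nonneg hρ0 k; linarith
  have hk1 : ρ ^ k ≤ 1 := pow_le_one₀ hρ0 hρ1
  set m := mJ J D x with hmdef
  have hm0 : 0 < m := hε.trans_le hm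
  set X := mJ J (fun y => noise J (ρ ^ k) D y ^ 2) x with hX
  have hX0 : 0 ≤ X := mJ_nonneg (fun y => sq_nonneg _) x
  -- mean is constant on the J-fibre
  have hfib : ∀ s ∈ J.powerset, mJ J D (flipS s x) = m := by
    intro s hs
    have key : ∀ (t : Finset ι), t ⊆ J → ∀ y, mJ J D (flipS t y) = mJ J D y := by
      intro t
      induction t using Finset.induction_on with
      | empty => intro _ y; rw [flipS_empty]
      | insert i t hi ih =>
        intro ht y
        rw [flipS_insert hi, ih (fun j hj => ht (Finset.mem_insert_of_mem hj))]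
        have hiJ : i ∈ J := ht (Finset.mem_insert_self _ _)
        obtain ⟨L, hL, rfl⟩ : ∃ L, i ∉ L ∧ J = insert i L :=
          ⟨J.erase i, by simp, (Finset.insert_erase hiJ).symm⟩
        rw [mJ_insert hL, mJ_insert hL, flip1_flip1, add_comm]
    exact key s (Finset.mem_powerset.1 hs) x
  have h1 : mJ J (fun y => if K * mJ J D y < noise J (ρ ^ k) D y then noise J (ρ ^ k) D y else 0) x ≤
      1 / (K * m) * X := by
    rw [hX]
    unfold mJ
    rw [← noise_const_mul]
    refine noise_mono (by norm_num) (by norm_num) x fun s hs => ?_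
    have hf := hfib s hs
    unfold mJ at hf
    simp only [hf]
    have hKm : 0 < K * m := mul_pos hK hm0
    have hy := noise_nonneg (J := J) hk0 hk1 hD0 (flipS s x)
    split_ifs with h
    · rw [one_div, ← div_eq_inv_mul, le_div_iff₀ hKm]
      nlinarith
    · positivity
  have hXle : X ≤ m ^ 2 * (1 / ε) ^ ((1 : ℝ) / 2 ^ k) := by
    have hit := second_moment_iter J hρ hρ0 hD0 hD1 x k
    rw [← hX, ← hmdef] at hit
    have h2k : (0 : ℝ) < 2 ^ k := by positivity
    -- raise to the power 2^k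
    have hB : 0 ≤ m ^ 2 * (1 / ε) ^ ((1 : ℝ) / 2 ^ k) := by positivity
    refine (pow_le_pow_iff_left₀ hX0 hB (by positivity : 2 ^ k ≠ 0)).1 ?_
    have e1 : (m ^ 2 * (1 / ε) ^ ((1 : ℝ) / 2 ^ k)) ^ (2 ^ k) = m ^ (2 ^ (k + 1)) * (1 / ε) := by
      rw [mul_pow, ← pow_mul, ← Real.rpow_natCast ((1 / ε) ^ ((1 : ℝ) / 2 ^ k)),
        ← Real.rpow_mul (by positivity)]
      congr 1
      · congr 1; ring
      · rw [show (1 : ℝ) / 2 ^ k * ((2 ^ k : ℕ) : ℝ) = 1 by push_cast; field_simp, Real.rpow_one]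
    rw [e1]
    refine hit.trans ?_
    have hp : 1 ≤ 2 ^ (k + 1) := Nat.one_le_two_pow
    obtain ⟨q, hq⟩ : ∃ q, 2 ^ (k + 1) = q + 1 := ⟨2 ^ (k + 1) - 1, by omega⟩
    rw [hq, Nat.add_sub_cancel, pow_succ, mul_assoc]
    have : 1 ≤ m * (1 / ε) := by
      rw [mul_one_div, one_le_div hε]; exact hm
    exact le_mul_of_one_le_right (pow_nonneg hm0.le _) this
  calc _ ≤ 1 / (K * m) * X := h1
    _ ≤ 1 / (K * m) * (m ^ 2 * (1 / ε) ^ ((1 : ℝ) / 2 ^ k)) :=
        mul_le_mul_of_nonneg_left hXle (by positivity)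
    _ = _ := by field_simp

end ZOL.Noise
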