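import Pool.Agent.ZOL.Basic
import Pool.Agent.ZOL.Noise2

/-!
# Proofs of the noise statements of `Stmts.lean`
-/

open Finset Filter

namespace ZOL

theorem noiseDeriv : StmtNoiseDeriv := by
  intro I _ _ J D x u hu
  have h := Noise.hasDerivAt_noise J hu D x
  refine h.congr_deriv ?_
  unfold Noise.flip1
  rw [div_eq_mul_inv, one_div]
  ring

theorem noiseRatio : StmtNoiseRatio := by
  intro I _ _ J D hD u h0 h1 i hi x
  exact Noise.noise_flip_le hi h0 h1 hD x

theorem noiseSemi : StmtNoiseSemi := by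
  intro I _ _ J D u v x
  exact Noise.noise_noise J u v D x

/-- `flipS S` as a permutation of the cube -/
def flipEquiv {I : Type*} [DecidableEq I] (S : Finset I) : (I → Bool) ≃ (I → Bool) where
  toFun := flipS S
  invFun := flipS S
  left_inv := flipS_invol S
  right_inv := flipS_invol S

theorem sum_flipS {I : Type*} [Fintype I] [DecidableEq I] (S : Finset I) (f : (I → Bool) → ℝ) :
    ∑ x, f (flipS S x) = ∑ x, f x :=
  Equiv.sum_comp (flipEquiv S) f

theorem noiseSelfAdj : StmtNoiseSelfAdj := by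
  intro I _ _ J D G u
  unfold av
  congr 1
  unfold noise
  simp only [Finset.mul_sum, Finset.sum_mul]
  rw [Finset.sum_comm]
  nth_rw 2 [Finset.sum_comm]
  refine Finset.sum_congr rfl fun s _ => ?_
  rw [← sum_flipS s]
  refine Finset.sum_congr rfl fun x _ => ?_
  rw [flipS_invol]
  ring

/-- averaging the noisy function gives the average -/
theorem av_noise {I : Type*} [Fintype I] [DecidableEq I] (J : Finset I) (D : (I → Bool) → ℝ)
    (u : ℝ) : av (fun x => noise J u D x) = av D := by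
  induction J using Finset.induction_on with
  | empty => simp
  | insert i J hi ih =>
    have h2 : av (fun x => noise J u D (Noise.flip1 i x)) = av (fun x => noise J u D x) :=
      av_flipS {i} (fun x => noise J u D x)
    have : av (fun x => noise (insert i J) u D x) =
        (1 + u) / 2 * av (fun x => noise J u D x) +
          (1 - u) / 2 * av (fun x => noise J u D (Noise.flip1 i x)) := by
      simp only [Noise.noise_insert hi]
      unfold av
      rw [Finset.sum_add_distrib, ← Finset.mul_sum, ← Finset.mul_sum]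
      ring
    rw [this, h2, ih]
    ring

theorem noiseHyper : StmtNoiseHyper := by
  intro I _ _ J D hD k x hm
  have hs3 : (0 : ℝ) < Real.sqrt 3 := Real.sqrt_pos.2 (by norm_num)
  have hρ0 : (0 : ℝ) ≤ 1 / Real.sqrt 3 := by positivity
  have hρ : (1 / Real.sqrt 3) ^ 2 ≤ (1 : ℝ) / 3 := by
    rw [div_pow, Real.sq_sqrt (by norm_num), one_pow]
  have hit := Noise.second_moment_iter J hρ hρ0 (fun y => (hD y).1) (fun y => (hD y).2) x k
  unfold Noise.mJ at hit
  set m := noise J 0 D x with hmdef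
  set X := noise J 0 (fun y => noise J ((1 / Real.sqrt 3) ^ k) D y ^ 2) x with hX
  have hX0 : 0 ≤ X := Noise.noise_nonneg (by norm_num) (by norm_num) (fun y => sq_nonneg _) x
  have hB : 0 ≤ m ^ 2 * (1 / m) ^ ((1 / 2 : ℝ) ^ k) := by positivity
  refine (pow_le_pow_iff_left₀ hX0 hB (by positivity : 2 ^ k ≠ 0)).1 ?_
  have e1 : (m ^ 2 * (1 / m) ^ ((1 / 2 : ℝ) ^ k)) ^ (2 ^ k) = m ^ (2 ^ (k + 1)) * (1 / m) := by
    rw [mul_pow, ← pow_mul, ← Real.rpow_natCast ((1 / m) ^ ((1 / 2 : ℝ) ^ k)),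
      ← Real.rpow_mul (by positivity)]
    congr 1
    · congr 1; ring
    · rw [show (1 / 2 : ℝ) ^ k * ((2 ^ k : ℕ) : ℝ) = 1 by
        push_cast; rw [← mul_pow]; norm_num, Real.rpow_one]
  rw [e1]
  have e2 : m ^ (2 ^ (k + 1)) * (1 / m) = m ^ (2 ^ (k + 1) - 1) := by
    have hp : 1 ≤ 2 ^ (k + 1) := Nat.one_le_two_pow
    obtain ⟨N, hN⟩ : ∃ N, 2 ^ (k + 1) = N + 1 := ⟨2 ^ (k + 1) - 1, by omega⟩
    rw [hN, pow_succ, Nat.add_sub_cancel]
    field_simp
  rw [e2]
  exact hit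

theorem noiseEnergy : StmtNoiseEnergy := by
  intro A C
  set A' := max A 1 with hA'
  have hA1 : 1 ≤ A' := le_max_right _ _
  have hAA : A ≤ A' := le_max_left _ _
  have hA0 : 0 < A' := by linarith
  -- the tail estimate
  have hy : Tendsto (fun n : ℕ => ((n : ℝ)) ^ (1 / 20 : ℝ)) atTop atTop :=
    (tendsto_rpow_atTop (by norm_num)).comp tendsto_natCast_atTop_atTop
  have ht := (tendsto_rpow_mul_exp_neg_mul_atTop_nhds_zero (20 * (1 / 2 + C)) (1 / (16 * A'))
    (by positivity)).comp hy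
  have hev := ht.eventually (gt_mem_nhds (show (0 : ℝ) < 1 / (8 * A') by positivity))
  filter_upwards [hev, eventually_ge_atTop 1] with n hn hn1
  intro I _ _ J hJ D hD u hu0 hu1 x
  have hnR : (1 : ℝ) ≤ n := by exact_mod_cast hn1
  have hn0 : (0 : ℝ) < n := by linarith
  set y : ℝ := (n : ℝ) ^ (1 / 20 : ℝ) with hydef
  have hy1 : 1 ≤ y := Real.one_le_rpow hnR (by norm_num)
  have hy0 : 0 < y := by linarith
  have hyinv : (n : ℝ) ^ (-(1 / 20 : ℝ)) = 1 / y := by
    rw [hydef, Real.rpow_neg hn0.le, ← one_div]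
  rw [hyinv] at hu1
  have hyle : 0 < 1 / y := by positivity
  have hu1' : u < 1 := by linarith
  set θ : ℝ := (n : ℝ) ^ (-(1 / 2 : ℝ)) / (8 * A') with hθ
  have hnh : 0 < (n : ℝ) ^ (-(1 / 2 : ℝ)) := Real.rpow_pos_of_pos hn0 _
  have hθ0 : 0 < θ := by positivity
  have hnhy : (n : ℝ) ^ (-(1 / 2 : ℝ)) ≤ 1 / y := by
    rw [← hyinv]
    exact Real.rpow_le_rpow_of_exponent_le hnR (by norm_num)
  have hθ' : θ * (2 * u) ≤ 1 - u := by
    have h1 : θ ≤ 1 / y / 8 := by
      rw [hθ]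
      rw [div_le_div_iff₀ (by positivity) (by positivity)]
      nlinarith
    have h2 : θ * (2 * u) ≤ (1 / y / 8) * (2 * 1) := by
      refine mul_le_mul h1 (by linarith) (by positivity) (by positivity)
    linarith
  have hE := Noise.energy_bound (J := J) (lam := (n : ℝ) ^ (11 / 20 : ℝ)) hu0 hu1' hθ0 hθ'
    (fun y => (hD y).1) (fun y => (hD y).2) x
  refine hE.trans ?_
  refine add_le_add le_rfl ?_
  -- the exponent
  have hθlam : θ * (n : ℝ) ^ (11 / 20 : ℝ) = y / (8 * A') := by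
    rw [hθ, div_mul_eq_mul_div, ← Real.rpow_add hn0]
    norm_num [hydef]
  have hfrac : u ^ 2 / (1 - u ^ 2) ≤ y := by
    have h1 : 0 < 1 - u ^ 2 := by nlinarith
    rw [div_le_iff₀ h1]
    have h2 : 1 / y ≤ 1 - u ^ 2 := by nlinarith
    have h3 : 1 ≤ y * (1 - u ^ 2) := by
      rw [div_le_iff₀ hy0] at h2
      linarith
    nlinarith
  have hfrac0 : 0 ≤ u ^ 2 / (1 - u ^ 2) := by
    have h1 : 0 < 1 - u ^ 2 := by nlinarith
    positivity
  have hθsq : 4 * θ ^ 2 * (n : ℝ) = 1 / (16 * A' ^ 2) := by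
    rw [hθ, div_pow, ← Real.rpow_natCast ((n : ℝ) ^ (-(1 / 2 : ℝ))), ← Real.rpow_mul hn0.le]
    have : (-(1 / 2 : ℝ)) * ((2 : ℕ) : ℝ) = -1 := by norm_num
    rw [this, Real.rpow_neg_one]
    field_simp
    norm_num
  have hexp1 : 4 * θ ^ 2 * (#J : ℝ) * (u ^ 2 / (1 - u ^ 2)) ≤ y / (16 * A') := by
    have hJ' : (#J : ℝ) ≤ A' * n := hJ.trans (mul_le_mul_of_nonneg_right hAA hn0.le)
    calc 4 * θ ^ 2 * (#J : ℝ) * (u ^ 2 / (1 - u ^ 2)) ≤ 4 * θ ^ 2 * (A' * n) * y := by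
          refine mul_le_mul (mul_le_mul_of_nonneg_left hJ' (by positivity)) hfrac hfrac0
            (by positivity)
      _ = (4 * θ ^ 2 * n) * A' * y := by ring
      _ = y / (16 * A') := by rw [hθsq]; field_simp
  have hexp : 4 * θ ^ 2 * (#J : ℝ) * (u ^ 2 / (1 - u ^ 2)) - θ * (n : ℝ) ^ (11 / 20 : ℝ) ≤
      -(1 / (16 * A')) * y := by
    rw [hθlam]
    have : -(1 / (16 * A')) * y = y / (16 * A') - y / (8 * A') := by
      field_simp; ring
    rw [this]
    linarith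
  have hstep : 1 / θ * Real.exp (4 * θ ^ 2 * (#J : ℝ) * (u ^ 2 / (1 - u ^ 2)) -
      θ * (n : ℝ) ^ (11 / 20 : ℝ)) ≤ 1 / θ * Real.exp (-(1 / (16 * A')) * y) :=
    mul_le_mul_of_nonneg_left (Real.exp_le_exp.2 hexp) (by positivity)
  refine hstep.trans ?_
  simp only [Function.comp] at hn
  have hyp : y ^ (20 * (1 / 2 + C)) = (n : ℝ) ^ (1 / 2 + C) := by
    rw [hydef, ← Real.rpow_mul hn0.le]
    congr 1; ring
  rw [hyp] at hn
  have hθinv : 1 / θ = 8 * A' * (n : ℝ) ^ (1 / 2 : ℝ) := by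
    rw [hθ, Real.rpow_neg hn0.le]
    have : (n : ℝ) ^ (1 / 2 : ℝ) ≠ 0 := (Real.rpow_pos_of_pos hn0 _).ne'
    field_simp
  rw [hθinv]
  have hC : (n : ℝ) ^ (1 / 2 + C) = (n : ℝ) ^ (1 / 2 : ℝ) * (n : ℝ) ^ C := Real.rpow_add hn0 _ _
  rw [hC] at hn
  have hCinv : (n : ℝ) ^ (-C) = 1 / (n : ℝ) ^ C := by rw [Real.rpow_neg hn0.le, ← one_div]
  have hCpos : 0 < (n : ℝ) ^ C := Real.rpow_pos_of_pos hn0 _
  rw [hCinv, le_div_iff₀ hCpos]
  have h8 : 0 < 8 * A' := by positivity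
  calc 8 * A' * (n : ℝ) ^ (1 / 2 : ℝ) * Real.exp (-(1 / (16 * A')) * y) * (n : ℝ) ^ C
      = 8 * A' * ((n : ℝ) ^ (1 / 2 : ℝ) * (n : ℝ) ^ C * Real.exp (-(1 / (16 * A')) * y)) := by ring
    _ ≤ 8 * A' * (1 / (8 * A')) := mul_le_mul_of_nonneg_left hn.le h8.le
    _ = 1 := by field_simp

end ZOL
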