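import Pool.Agent.ZOL.Core
import Pool.Agent.ZOL.NoiseMain

/-!
# API for `avM`, noisy densities and pattern events
-/

namespace ZOL

open Filter Finset

section avM

variable {κ ι V β : Type} [Fintype κ] [DecidableEq κ] [Fintype V] [DecidableEq V] [Fintype ι]
  [DecidableEq ι] [Fintype β] [DecidableEq β]

lemma avM_congr {F G : St κ (V ⊕ ι) → (ι → V) → (β → V) → ℝ} (h : ∀ M a v, F M a v = G M a v) :
    avM F = avM G := av_congr fun p => h p.1 p.2.1 p.2.2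

lemma avM_mono {F G : St κ (V ⊕ ι) → (ι → V) → (β → V) → ℝ} (h : ∀ M a v, F M a v ≤ G M a v) :
    avM F ≤ avM G := av_mono fun p => h p.1 p.2.1 p.2.2

lemma avM_nonneg {F : St κ (V ⊕ ι) → (ι → V) → (β → V) → ℝ} (h : ∀ M a v, 0 ≤ F M a v) :
    0 ≤ avM F := av_nonneg fun p => h p.1 p.2.1 p.2.2

lemma avM_add (F G : St κ (V ⊕ ι) → (ι → V) → (β → V) → ℝ) :
    avM (fun M a v => F M a v + G M a v) = avM F + avM G := av_add _ _

lemma avM_sub (F G : St κ (V ⊕ ι) → (ι → V) → (β → V) → ℝ) :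
    avM (fun M a v => F M a v - G M a v) = avM F - avM G := av_sub _ _

lemma avM_mul_left (c : ℝ) (F : St κ (V ⊕ ι) → (ι → V) → (β → V) → ℝ) :
    avM (fun M a v => c * F M a v) = c * avM F := av_mul_left _ _

lemma avM_mul_right (c : ℝ) (F : St κ (V ⊕ ι) → (ι → V) → (β → V) → ℝ) :
    avM (fun M a v => F M a v * c) = avM F * c := av_mul_right _ _

lemma avM_sum {γ : Type*} (s : Finset γ) (F : γ → St κ (V ⊕ ι) → (ι → V) → (β → V) → ℝ) :
    avM (fun M a v => ∑ i ∈ s, F i M a v) = ∑ i ∈ s, avM (F i) :=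
  av_sum s (fun i (p : St κ (V ⊕ ι) × (ι → V) × (β → V)) => F i p.1 p.2.1 p.2.2)

lemma avM_le_one {F : St κ (V ⊕ ι) → (ι → V) → (β → V) → ℝ} (h : ∀ M a v, F M a v ≤ 1) :
    avM F ≤ 1 := av_le_one fun p => h p.1 p.2.1 p.2.2

lemma avM_le_of_le {F : St κ (V ⊕ ι) → (ι → V) → (β → V) → ℝ} {c : ℝ} (hc : 0 ≤ c)
    (h : ∀ M a v, F M a v ≤ c) : avM F ≤ c := av_le_of_le hc fun p => h p.1 p.2.1 p.2.2

/-- average over the structure inside -/
lemma avM_eq_inner (F : St κ (V ⊕ ι) → (ι → V) → (β → V) → ℝ) :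
    avM F = av (fun q : (ι → V) × (β → V) => av (fun M : St κ (V ⊕ ι) => F M q.1 q.2)) := by
  unfold avM
  rw [av_prod (fun p : St κ (V ⊕ ι) × (ι → V) × (β → V) => F p.1 p.2.1 p.2.2)]
  exact av_comm (fun (M : St κ (V ⊕ ι)) (q : (ι → V) × (β → V)) => F M q.1 q.2)

lemma avM_eq_outer (F : St κ (V ⊕ ι) → (ι → V) → (β → V) → ℝ) :
    avM F = av (fun M : St κ (V ⊕ ι) => av (fun q : (ι → V) × (β → V) => F M q.1 q.2)) := by
  unfold avM
  exact av_prod (fun p : St κ (V ⊕ ι) × (ι → V) × (β → V) => F p.1 p.2.1 p.2.2)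

lemma avM_flip (S : Finset ((V ⊕ ι) × (V ⊕ ι) × κ))
    (F : St κ (V ⊕ ι) → (ι → V) → (β → V) → ℝ) :
    avM (fun M a v => F (flipS S M) a v) = avM F := by
  rw [avM_eq_inner, avM_eq_inner]
  exact av_congr fun q => av_flipS S (fun M => F M q.1 q.2)

/-- adding one more base mark amounts to an additional average over a vertex -/
lemma avM_base_mark [Nonempty V] (F : St κ (V ⊕ ι) → (ι → V) → (β → V) → V → ℝ) :
    ∑ x, avM (fun M a v => F M a v x) =
      Fintype.card V * avM (β := β ⊕ Unit)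
        (fun M a v => F M a (fun b => v (Sum.inl b)) (v (Sum.inr ()))) := by
  have h1 : avM (β := β ⊕ Unit)
      (fun M a v => F M a (fun b => v (Sum.inl b)) (v (Sum.inr ()))) =
      av (fun q : (St κ (V ⊕ ι) × (ι → V) × (β → V)) × V => F q.1.1 q.1.2.1 q.1.2.2 q.2) := by
    unfold avM
    let E : (St κ (V ⊕ ι) × (ι → V) × ((β ⊕ Unit) → V)) ≃
        (St κ (V ⊕ ι) × (ι → V) × (β → V)) × V :=
      { toFun := fun p => ((p.1, p.2.1, fun b => p.2.2 (Sum.inl b)), p.2.2 (Sum.inr ()))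
        invFun := fun q => (q.1.1, q.1.2.1, Sum.elim q.1.2.2 (fun _ => q.2))
        left_inv := by
          rintro ⟨M, a, v⟩
          simp only [Prod.mk.injEq, true_and]
          funext b
          rcases b with b | b <;> rfl
        right_inv := by
          rintro ⟨⟨M, a, v⟩, x⟩
          rfl }
    exact av_equiv E (fun q : (St κ (V ⊕ ι) × (ι → V) × (β → V)) × V =>
      F q.1.1 q.1.2.1 q.1.2.2 q.2)
  rw [h1, av_prod (fun q : (St κ (V ⊕ ι) × (ι → V) × (β → V)) × V =>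
    F q.1.1 q.1.2.1 q.1.2.2 q.2), av_comm, ← sum_eq_card_mul_av]
  rfl

end avM

/-! ### Row bits -/

section rows

variable {κ ι V β : Type} [Fintype κ] [DecidableEq κ] [Fintype V] [DecidableEq V]
  [DecidableEq ι]

omit [Fintype κ] [DecidableEq κ] [Fintype V] [DecidableEq V] [DecidableEq ι] in
lemma rb_injective : Function.Injective (fun p : (ι × κ × Bool) × V => rb (κ := κ) p.1 p.2) := by
  rintro ⟨⟨k, c, d⟩, x⟩ ⟨⟨k', c', d'⟩, x'⟩ h
  unfold rb at h
  cases d <;> cases d' <;> simp_all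

lemma mem_JW {W : Finset ι} {i : (V ⊕ ι) × (V ⊕ ι) × κ} :
    i ∈ JW W ↔ ∃ (ρ : ι × κ × Bool) (x : V), ρ.1 ∈ W ∧ i = rb ρ x := by
  unfold JW
  constructor
  · intro h
    obtain ⟨⟨ρ, x⟩, hp, rfl⟩ := Finset.mem_image.1 h
    simp only [mem_product, mem_univ, and_true] at hp
    exact ⟨ρ, x, hp, rfl⟩
  · rintro ⟨ρ, x, hρ, rfl⟩
    exact Finset.mem_image.2 ⟨(ρ, x), by simp [hρ], rfl⟩

lemma rb_mem_JW {W : Finset ι} {ρ : ι × κ × Bool} (h : ρ.1 ∈ W) (x : V) :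
    rb ρ x ∈ JW (V := V) W := mem_JW.2 ⟨ρ, x, h, rfl⟩

lemma JW_mono {W W' : Finset ι} (h : W ⊆ W') : JW (κ := κ) (V := V) W ⊆ JW W' := by
  intro i hi
  obtain ⟨ρ, x, hρ, rfl⟩ := mem_JW.1 hi
  exact rb_mem_JW (h hρ) x

/-- sums over row bits as double sums -/
lemma sum_JW (W : Finset ι) (f : (V ⊕ ι) × (V ⊕ ι) × κ → ℝ) :
    ∑ i ∈ JW W, f i = ∑ ρ ∈ W ×ˢ (univ : Finset (κ × Bool)), ∑ x : V, f (rb ρ x) := by
  unfold JW
  rw [Finset.sum_image (fun p _ q _ h => rb_injective h), Finset.sum_product]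

lemma card_JW (W : Finset ι) :
    (JW (κ := κ) (V := V) W).card = W.card * (Fintype.card κ * 2) * Fintype.card V := by
  unfold JW
  rw [Finset.card_image_of_injective _ rb_injective]
  simp [Finset.card_product]

lemma indep_flip {W : Finset ι} {ω : St κ (V ⊕ ι) → (ι → V) → (β → V) → ℝ} (hω : Indep W ω)
    {i : (V ⊕ ι) × (V ⊕ ι) × κ} (hi : i ∈ JW W) (M : St κ (V ⊕ ι)) (a : ι → V) (v : β → V) :
    ω (flipS {i} M) a v = ω M a v := by
  apply hω
  refine ⟨?_, fun _ _ => rfl⟩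
  intro x y c hxy
  obtain ⟨ρ, z, hρ, rfl⟩ := mem_JW.1 hi
  rw [flipS_apply, if_neg]
  intro h
  rw [Finset.mem_singleton] at h
  unfold rb at h
  have := hxy ρ.1 hρ
  split_ifs at h
  · exact this.1 (Prod.mk.inj h).1
  · exact this.2 (Prod.mk.inj (Prod.mk.inj h).2).1

omit [Fintype κ] [DecidableEq κ] [Fintype V] [DecidableEq V] [DecidableEq ι] in
lemma Indep.mono {W W' : Finset ι} (h : W' ⊆ W) {ω : St κ (V ⊕ ι) → (ι → V) → (β → V) → ℝ}
    (hω : Indep W ω) : Indep W' ω := by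
  intro M M' a a' v hag
  apply hω
  exact ⟨fun x y c hxy => hag.1 x y c fun k hk => hxy k (h hk),
    fun k hk => hag.2 k fun hk' => hk (h hk')⟩

/-- the permutation of the index set induced by a permutation of `V` -/
def permIdx (π : Equiv.Perm V) : (V ⊕ ι) × (V ⊕ ι) × κ ≃ (V ⊕ ι) × (V ⊕ ι) × κ where
  toFun i := (Sum.map π id i.1, Sum.map π id i.2.1, i.2.2)
  invFun i := (Sum.map π.symm id i.1, Sum.map π.symm id i.2.1, i.2.2)
  left_inv := by rintro ⟨x, y, c⟩; simp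
  right_inv := by rintro ⟨x, y, c⟩; simp

omit [Fintype κ] [DecidableEq κ] [Fintype V] [DecidableEq V] [DecidableEq ι] in
lemma permIdx_rb (π : Equiv.Perm V) (ρ : ι × κ × Bool) (x : V) :
    permIdx π (rb ρ x) = rb ρ (π x) := by
  obtain ⟨k, c, d⟩ := ρ
  cases d <;> simp [permIdx, rb]

lemma permIdx_mem_JW (π : Equiv.Perm V) (W : Finset ι) (i : (V ⊕ ι) × (V ⊕ ι) × κ) :
    i ∈ JW W ↔ permIdx π i ∈ JW W := by
  constructor
  · intro h
    obtain ⟨ρ, x, hρ, rfl⟩ := mem_JW.1 h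
    rw [permIdx_rb]
    exact rb_mem_JW hρ _
  · intro h
    obtain ⟨ρ, x, hρ, hx⟩ := mem_JW.1 h
    have : i = rb ρ (π.symm x) := by
      apply (permIdx π).injective
      rw [hx, permIdx_rb, Equiv.apply_symm_apply]
    rw [this]
    exact rb_mem_JW hρ _

lemma Sym.nD {D : St κ (V ⊕ ι) → (β → V) → ℝ} (hD : Sym D) (W : Finset ι) (u : ℝ) :
    Sym (nD W u D) := by
  intro π M v
  unfold ZOL.nD
  have h := Noise.noise_equiv (permIdx (κ := κ) (ι := ι) π) (permIdx_mem_JW π W) u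
    (fun M' => D M' v) M
  have h2 : (fun i => M (permIdx π i)) = pull (Sum.map π id) M := rfl
  rw [h2] at h
  rw [← h]
  congr 1
  funext z
  exact hD π z v

omit [Fintype V] in
/-- flips commute with relabelling -/
lemma flipS_pull_perm [Fintype V] (π : Equiv.Perm V) (ρ : ι × κ × Bool) (x : V)
    (M : St κ (V ⊕ ι)) :
    flipS {rb ρ x} (pull (Sum.map π id) M) = pull (Sum.map π id) (flipS {rb ρ (π x)} M) := by
  funext i
  rw [show pull (Sum.map π id) (flipS {rb ρ (π x)} M) i =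
    flipS {rb ρ (π x)} M (permIdx π i) from rfl, flipS_apply, flipS_apply]
  have : i ∈ ({rb ρ x} : Finset _) ↔ permIdx π i ∈ ({rb ρ (π x)} : Finset _) := by
    rw [Finset.mem_singleton, Finset.mem_singleton, ← permIdx_rb]
    exact ((permIdx π).injective.eq_iff).symm
  by_cases h : i ∈ ({rb ρ x} : Finset _)
  · rw [if_pos h, if_pos (this.1 h)]; rfl
  · rw [if_neg h, if_neg (fun h' => h (this.2 h'))]; rfl

lemma nD_nonneg {W : Finset ι} {u : ℝ} (h0 : 0 ≤ u) (h1 : u ≤ 1)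
    {D : St κ (V ⊕ ι) → (β → V) → ℝ} (hD : ∀ M v, 0 ≤ D M v ∧ D M v ≤ 1) (M : St κ (V ⊕ ι))
    (v : β → V) : 0 ≤ nD W u D M v :=
  Noise.noise_nonneg (by linarith) h1 (fun y => (hD y v).1) M

lemma nD_le_one {W : Finset ι} {u : ℝ} (h0 : 0 ≤ u) (h1 : u ≤ 1)
    {D : St κ (V ⊕ ι) → (β → V) → ℝ} (hD : ∀ M v, 0 ≤ D M v ∧ D M v ≤ 1) (M : St κ (V ⊕ ι))
    (v : β → V) : nD W u D M v ≤ 1 :=
  Noise.noise_le_one (by linarith) h1 (fun y => (hD y v).2) M

lemma nD_one (W : Finset ι) (D : St κ (V ⊕ ι) → (β → V) → ℝ) (M : St κ (V ⊕ ι)) (v : β → V) :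
    nD W 1 D M v = D M v := Noise.noise_one _ _ _

/-- noise on the rows of `W` does not change averages against weights independent of `W` -/
lemma avM_nD [Fintype ι] [Fintype β] [DecidableEq β] {W : Finset ι}
    {ω : St κ (V ⊕ ι) → (ι → V) → (β → V) → ℝ}
    (hω : ∀ i ∈ JW W, ∀ M a v, ω (flipS {i} M) a v = ω M a v) (u : ℝ)
    (D : St κ (V ⊕ ι) → (β → V) → ℝ) :
    avM (fun M a v => ω M a v * nD W u D M v) = avM (fun M a v => ω M a v * D M v) := by
  rw [avM_eq_inner, avM_eq_inner]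
  refine av_congr fun q => ?_
  unfold nD
  have h : ∀ M, ω M q.1 q.2 * noise (JW W) u (fun M' => D M' q.2) M =
      noise (JW W) u (fun M' => ω M' q.1 q.2 * D M' q.2) M := by
    intro M
    exact (Noise.noise_mul_indep (w := fun M' => ω M' q.1 q.2) (fun i hi y => hω i hi y q.1 q.2)
      M).symm
  rw [av_congr h]
  exact av_noise (JW W) (fun M' => ω M' q.1 q.2 * D M' q.2) u

end rows

end ZOL
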