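import Pool.Agent.ZOL.Stmts

/-!
# Basic API: averages, indicators, pullbacks
-/

namespace ZOL

open Filter Finset

/-! ### Indicators -/

lemma ind_true' {p : Prop} (h : p) : ind p = 1 := by simp [ind, h]

lemma ind_false' {p : Prop} (h : ¬ p) : ind p = 0 := by simp [ind, h]

lemma ind_nonneg (p : Prop) : 0 ≤ ind p := by
  unfold ind; split_ifs <;> norm_num

lemma ind_le_one (p : Prop) : ind p ≤ 1 := by
  unfold ind; split_ifs <;> norm_num

lemma ind_mono {p q : Prop} (h : p → q) : ind p ≤ ind q := by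
  by_cases hp : p
  · rw [ind_true' hp, ind_true' (h hp)]
  · rw [ind_false' hp]; exact ind_nonneg q

lemma ind_congr {p q : Prop} (h : p ↔ q) : ind p = ind q := by
  rw [show p = q from propext h]

lemma ind_and (p q : Prop) : ind (p ∧ q) = ind p * ind q := by
  by_cases hp : p <;> by_cases hq : q <;> simp [ind, hp, hq]

lemma ind_not (p : Prop) : ind (¬ p) = 1 - ind p := by
  by_cases hp : p <;> simp [ind, hp]

lemma ind_or_le (p q : Prop) : ind (p ∨ q) ≤ ind p + ind q := by
  by_cases hp : p <;> by_cases hq : q <;> simp [ind, hp, hq]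

lemma ind_exists_le {α : Type*} [Fintype α] (p : α → Prop) :
    ind (∃ x, p x) ≤ ∑ x, ind (p x) := by
  by_cases h : ∃ x, p x
  · obtain ⟨x, hx⟩ := h
    calc ind (∃ x, p x) ≤ 1 := ind_le_one _
      _ = ind (p x) := (ind_true' hx).symm
      _ ≤ ∑ x, ind (p x) := Finset.single_le_sum (f := fun x => ind (p x))
          (fun y _ => ind_nonneg _) (Finset.mem_univ x)
  · rw [ind_false' h]; exact Finset.sum_nonneg fun y _ => ind_nonneg _

lemma ind_sq (p : Prop) : ind p * ind p = ind p := by
  by_cases hp : p <;> simp [ind, hp]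

/-! ### Averages -/

section av

variable {α β : Type*} [Fintype α] [Fintype β]

lemma av_congr {f g : α → ℝ} (h : ∀ x, f x = g x) : av f = av g := by
  unfold av; rw [Finset.sum_congr rfl fun x _ => h x]

lemma av_nonneg {f : α → ℝ} (h : ∀ x, 0 ≤ f x) : 0 ≤ av f :=
  div_nonneg (Finset.sum_nonneg fun x _ => h x) (Nat.cast_nonneg _)

lemma av_mono {f g : α → ℝ} (h : ∀ x, f x ≤ g x) : av f ≤ av g := by
  unfold av
  exact div_le_div_of_nonneg_right (Finset.sum_le_sum fun x _ => h x) (Nat.cast_nonneg _)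

lemma av_add (f g : α → ℝ) : av (fun x => f x + g x) = av f + av g := by
  unfold av; rw [Finset.sum_add_distrib, add_div]

lemma av_sub (f g : α → ℝ) : av (fun x => f x - g x) = av f - av g := by
  unfold av; rw [Finset.sum_sub_distrib, sub_div]

lemma av_mul_left (c : ℝ) (f : α → ℝ) : av (fun x => c * f x) = c * av f := by
  unfold av; rw [← Finset.mul_sum, mul_div_assoc]

lemma av_mul_right (c : ℝ) (f : α → ℝ) : av (fun x => f x * c) = av f * c := by
  unfold av; rw [← Finset.sum_mul]; ring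

lemma av_neg (f : α → ℝ) : av (fun x => - f x) = - av f := by
  unfold av; rw [Finset.sum_neg_distrib, neg_div]

lemma av_sum {γ : Type*} (s : Finset γ) (f : γ → α → ℝ) :
    av (fun x => ∑ c ∈ s, f c x) = ∑ c ∈ s, av (f c) := by
  unfold av; rw [Finset.sum_comm, Finset.sum_div]

lemma av_const [Nonempty α] (c : ℝ) : av (fun _ : α => c) = c := by
  unfold av
  have : (Fintype.card α : ℝ) ≠ 0 := by exact_mod_cast Fintype.card_ne_zero
  simp only [Finset.sum_const, Finset.card_univ, nsmul_eq_mul]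
  field_simp

lemma av_zero : av (fun _ : α => (0 : ℝ)) = 0 := by simp [av]

lemma av_const_le (c : ℝ) (hc : 0 ≤ c) : av (fun _ : α => c) ≤ c := by
  rcases isEmpty_or_nonempty α with h | h
  · simp [av, hc]
  · rw [av_const]

lemma av_le_of_le {f : α → ℝ} {c : ℝ} (hc : 0 ≤ c) (h : ∀ x, f x ≤ c) : av f ≤ c :=
  (av_mono h).trans (av_const_le c hc)

lemma av_le_one {f : α → ℝ} (h : ∀ x, f x ≤ 1) : av f ≤ 1 :=
  av_le_of_le zero_le_one h

lemma av_comm (f : α → β → ℝ) : av (fun x => av (fun y => f x y)) = av (fun y => av (fun x => f x y)) := by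
  unfold av
  simp only [Finset.sum_div]
  rw [Finset.sum_comm]
  refine Finset.sum_congr rfl fun y _ => Finset.sum_congr rfl fun x _ => ?_
  ring

lemma av_prod (f : α × β → ℝ) : av f = av (fun x => av (fun y => f (x, y))) := by
  unfold av
  simp only [Finset.sum_div]
  rw [Fintype.sum_prod_type, Fintype.card_prod]
  push_cast
  refine Finset.sum_congr rfl fun x _ => Finset.sum_congr rfl fun y _ => ?_
  rw [div_div, mul_comm]

lemma av_equiv (e : α ≃ β) (f : β → ℝ) : av (fun x => f (e x)) = av f := by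
  unfold av
  rw [Fintype.card_congr e, Equiv.sum_comp e f]

lemma av_bij (e : α → β) (he : Function.Bijective e) (f : β → ℝ) : av (fun x => f (e x)) = av f :=
  av_equiv (Equiv.ofBijective e he) f

lemma av_invol (e : α → α) (he : ∀ x, e (e x) = x) (f : α → ℝ) : av (fun x => f (e x)) = av f :=
  av_bij e (Function.Involutive.bijective he) f

/-- Markov's inequality -/
lemma av_markov {f : α → ℝ} (hf : ∀ x, 0 ≤ f x) {c : ℝ} (hc : 0 < c) :
    av (fun x => ind (c ≤ f x)) ≤ av f / c := by
  rw [le_div_iff₀ hc, ← av_mul_right]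
  refine av_mono fun x => ?_
  by_cases h : c ≤ f x
  · rw [ind_true' h]; linarith
  · rw [ind_false' h]; linarith [hf x]

lemma av_markov' {f : α → ℝ} (hf : ∀ x, 0 ≤ f x) {c : ℝ} (hc : 0 < c) :
    av (fun x => ind (c < f x)) ≤ av f / c :=
  (av_mono fun _ => ind_mono le_of_lt).trans (av_markov hf hc)

lemma abs_av_le (f : α → ℝ) : |av f| ≤ av (fun x => |f x|) := by
  unfold av
  rw [abs_div, Nat.abs_cast]
  exact div_le_div_of_nonneg_right (Finset.abs_sum_le_sum_abs _ _) (Nat.cast_nonneg _)

lemma sum_eq_card_mul_av (f : α → ℝ) : ∑ x, f x = Fintype.card α * av f := by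
  rcases isEmpty_or_nonempty α with h | h
  · simp [av]
  · unfold av
    have : (Fintype.card α : ℝ) ≠ 0 := by exact_mod_cast Fintype.card_ne_zero
    field_simp

end av

/-! ### Pullback of the uniform distribution along an injection; mixing -/

section funspace

variable {I J Y : Type*} [Fintype I] [DecidableEq I] [Fintype J] [DecidableEq J]
  [Fintype Y]

/-- **Pullback lemma**: the restriction of a uniform function along an injection is uniform. -/
lemma av_comp_inj [Nonempty Y] (e : J → I) (he : Function.Injective e) (F : (J → Y) → ℝ) :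
    av (fun x : I → Y => F (fun j => x (e j))) = av F := by
  classical
  -- split `I` into the range of `e` and its complement
  let s : Set I := Set.range e
  let E1 : (I → Y) ≃ ({i // i ∈ s} → Y) × ({i // i ∉ s} → Y) :=
    Equiv.piEquivPiSubtypeProd (fun i => i ∈ s) (fun _ => Y)
  let er : J ≃ {i // i ∈ s} := Equiv.ofInjective e he
  let E2 : ({i // i ∈ s} → Y) ≃ (J → Y) := (Equiv.arrowCongr er.symm (Equiv.refl Y))
  let E : (I → Y) ≃ (J → Y) × ({i // i ∉ s} → Y) := E1.trans (Equiv.prodCongr E2 (Equiv.refl _))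
  have h1 : av (fun x : I → Y => F (fun j => x (e j))) = av (fun p : (J → Y) × ({i // i ∉ s} → Y) => F p.1) := by
    rw [← av_equiv E (fun p : (J → Y) × ({i // i ∉ s} → Y) => F p.1)]
    rfl
  rw [h1, av_prod (fun p : (J → Y) × ({i // i ∉ s} → Y) => F p.1)]
  refine av_congr fun x => ?_
  exact av_const (α := {i // i ∉ s} → Y) (F x)

/-- mix two functions: take `y` on `W` and `x` elsewhere -/
def mix {I Y : Type*} (W : Set I) [DecidablePred (· ∈ W)] (x y : I → Y) : I → Y :=
  fun i => if i ∈ W then y i else x i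

/-- **Mixing lemma**: mixing two independent uniform functions gives a uniform function. -/
lemma av_mix (W : Set I) [DecidablePred (· ∈ W)] (F : (I → Y) → ℝ) [Nonempty Y] :
    av F = av (fun x : I → Y => av (fun y : I → Y => F (mix W x y))) := by
  have h := av_comp_inj (I := I × Bool) (J := I) (Y := Y)
    (fun i => (i, decide (i ∈ W))) (fun i j h => (Prod.mk.inj h).1) F
  rw [← h]
  let E : (I × Bool → Y) ≃ (I → Y) × (I → Y) :=
    { toFun := fun f => (fun i => f (i, false), fun i => f (i, true))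
      invFun := fun p i => if i.2 then p.2 i.1 else p.1 i.1
      left_inv := by
        intro f; funext ⟨i, b⟩; cases b <;> simp
      right_inv := by
        intro p; rfl }
  rw [← av_prod (fun p : (I → Y) × (I → Y) => F (mix W p.1 p.2)),
    ← av_equiv E (fun p : (I → Y) × (I → Y) => F (mix W p.1 p.2))]
  refine av_congr fun x => ?_
  congr 1
  funext i
  by_cases hi : i ∈ W <;> simp [mix, E, hi]

/-- independence: `G` ignores `W`, `H` only looks at `W` -/
lemma av_indep (W : Set I) (G H : (I → Y) → ℝ) [Nonempty Y]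
    (hG : ∀ x y : I → Y, (∀ i, i ∉ W → x i = y i) → G x = G y)
    (hH : ∀ x y : I → Y, (∀ i, i ∈ W → x i = y i) → H x = H y) :
    av (fun x => G x * H x) = av G * av H := by
  classical
  rw [av_mix W]
  have : ∀ x : I → Y, av (fun y : I → Y => G (mix W x y) * H (mix W x y)) = G x * av H := by
    intro x
    rw [← av_mul_left]
    refine av_congr fun y => ?_
    rw [hG (mix W x y) x (fun i hi => by simp [mix, hi]),
      hH (mix W x y) y (fun i hi => by simp [mix, hi])]
  rw [av_congr this, av_mul_right]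

end funspace

/-! ### Flips -/

section flips

variable {I : Type*} [DecidableEq I]

lemma flipS_apply (S : Finset I) (x : I → Bool) (i : I) :
    flipS S x i = if i ∈ S then !(x i) else x i := rfl

lemma flipS_empty (x : I → Bool) : flipS ∅ x = x := by
  funext i; simp [flipS]

lemma flipS_flipS (S T : Finset I) (x : I → Bool) :
    flipS S (flipS T x) = flipS (symmDiff S T) x := by
  funext i
  simp only [flipS, Finset.mem_symmDiff]
  by_cases h1 : i ∈ S <;> by_cases h2 : i ∈ T <;> simp [h1, h2]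

lemma flipS_invol (S : Finset I) (x : I → Bool) : flipS S (flipS S x) = x := by
  rw [flipS_flipS, symmDiff_self]; exact flipS_empty x

lemma flipS_comm (S T : Finset I) (x : I → Bool) :
    flipS S (flipS T x) = flipS T (flipS S x) := by
  rw [flipS_flipS, flipS_flipS, symmDiff_comm]

lemma av_flipS [Fintype I] (S : Finset I) (F : (I → Bool) → ℝ) :
    av (fun x => F (flipS S x)) = av F :=
  av_invol (flipS S) (flipS_invol S) F

/-- a change of value produces a minimal sensitive set -/
lemma exists_minSens {f : (I → Bool) → Bool} {z : I → Bool} {S : Finset I}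
    (h : f (flipS S z) ≠ f z) : ∃ A ⊆ S, A.Nonempty ∧ MinSens f z A := by
  classical
  obtain ⟨A, hA⟩ := (S.powerset.filter fun A => f (flipS A z) ≠ f z).exists_minimal
    ⟨S, by simp [h]⟩
  have hA1 : A ⊆ S ∧ f (flipS A z) ≠ f z := by simpa using hA.1
  refine ⟨A, hA1.1, ?_, hA1.2, ?_⟩
  · rw [Finset.nonempty_iff_ne_empty]
    rintro rfl
    exact hA1.2 (by rw [flipS_empty])
  · intro B hB
    by_contra hne
    have := hA.2 (y := B) (by simp [hne, hB.1.trans hA1.1]) hB.1
    exact hB.2 this

end flips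

/-! ### Pullbacks -/

section pulls

variable {κ X Y Z ι V : Type}

lemma pull_pull (e : Y → X) (d : Z → Y) (M : St κ X) : pull d (pull e M) = pull (e ∘ d) M := rfl

lemma pull_id (M : St κ X) : pull id M = M := rfl

lemma pull_id' (M : St κ X) : pull (fun x => x) M = M := rfl

lemma pull_apply (e : Y → X) (M : St κ X) (x y : Y) (c : κ) : pull e M (x, y, c) = M (e x, e y, c) := rfl

/-- the pullback of a uniform structure along an injection is uniform -/
lemma av_pull [Fintype κ] [DecidableEq κ] [Fintype X] [DecidableEq X] [Fintype Y] [DecidableEq Y]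
    (e : Y → X) (he : Function.Injective e) (F : St κ Y → ℝ) :
    av (fun M : St κ X => F (pull e M)) = av F := by
  have := av_comp_inj (I := X × X × κ) (J := Y × Y × κ) (Y := Bool)
    (fun p => (e p.1, e p.2.1, p.2.2)) (by
      rintro ⟨x, y, c⟩ ⟨x', y', c'⟩ h
      simp only [Prod.mk.injEq] at h
      obtain ⟨h1, h2, h3⟩ := h
      rw [he h1, he h2, h3]) F
  exact this

lemma ovr_inr (g : St κ ι) (M : St κ (X ⊕ ι)) (k k' : ι) (c : κ) :
    ovr g M (Sum.inr k, Sum.inr k', c) = g (k, k', c) := rfl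

lemma ovr_inl_left (g : St κ ι) (M : St κ (X ⊕ ι)) (x : X) (y : X ⊕ ι) (c : κ) :
    ovr g M (Sum.inl x, y, c) = M (Sum.inl x, y, c) := rfl

lemma ovr_inl_right (g : St κ ι) (M : St κ (X ⊕ ι)) (x : X) (y : X ⊕ ι) (c : κ) :
    ovr g M (y, Sum.inl x, c) = M (y, Sum.inl x, c) := by
  cases y <;> rfl

lemma ctx_of_mem {a : ι → V} {A : Finset ι} (ha : Set.InjOn a A) {k : ι} (hk : k ∈ A) :
    ctx a A (a k) = Sum.inr k := by
  have h : ∃ k' ∈ A, a k' = a k := ⟨k, hk, rfl⟩
  unfold ctx
  rw [dif_pos h]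
  congr 1
  exact ha h.choose_spec.1 hk h.choose_spec.2

lemma ctx_of_notMem {a : ι → V} {A : Finset ι} {x : V} (h : ∀ k ∈ A, a k ≠ x) :
    ctx a A x = Sum.inl x := by
  unfold ctx
  rw [dif_neg]
  rintro ⟨k, hk, hk'⟩
  exact h k hk hk'

lemma ctx_spec (a : ι → V) (A : Finset ι) (x : V) :
    (∃ k ∈ A, a k = x ∧ ctx a A x = Sum.inr k) ∨ ((∀ k ∈ A, a k ≠ x) ∧ ctx a A x = Sum.inl x) := by
  by_cases h : ∃ k ∈ A, a k = x
  · left
    exact ⟨h.choose, h.choose_spec.1, h.choose_spec.2, by unfold ctx; rw [dif_pos h]⟩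
  · right
    push Not at h
    exact ⟨h, ctx_of_notMem h⟩

lemma ctx_injective (a : ι → V) (A : Finset ι) : Function.Injective (ctx a A) := by
  intro x y h
  rcases ctx_spec a A x with ⟨k, hk, hkx, hx⟩ | ⟨hx', hx⟩ <;>
  rcases ctx_spec a A y with ⟨l, hl, hly, hy⟩ | ⟨hy', hy⟩ <;>
  rw [hx, hy] at h
  · rw [← hkx, ← hly, Sum.inr.inj h]
  · exact absurd h (by simp)
  · exact absurd h (by simp)
  · exact Sum.inl.inj h

lemma ctx_empty (a : ι → V) (x : V) : ctx a ∅ x = Sum.inl x :=
  ctx_of_notMem (by simp)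

end pulls

/-! ### Circuits -/

section circuits

variable {I I' : Type*}

lemma Junta.mono {c c' : ℕ} (h : c ≤ c') {f : (I → Bool) → Bool} (hf : Junta c f) : Junta c' f := by
  obtain ⟨s, hs, hf⟩ := hf
  exact ⟨s, hs.trans h, hf⟩

lemma Junta.const (c : ℕ) (b : Bool) : Junta c (fun _ : I → Bool => b) :=
  ⟨∅, by simp, fun _ _ _ => rfl⟩

lemma Junta.not {c : ℕ} {f : (I → Bool) → Bool} (hf : Junta c f) : Junta c (fun x => !(f x)) := by
  obtain ⟨s, hs, hf⟩ := hf
  exact ⟨s, hs, fun x y h => by simp only [hf x y h]⟩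

lemma Lev.mono {c c' S S' : ℕ} (hc : c ≤ c') (hS : S ≤ S') :
    ∀ (j : ℕ) {f : (I → Bool) → Bool}, Lev c S j f → Lev c' S' j f
  | 0, _, hf => Junta.mono hc hf
  | j + 1, _, ⟨m, t, hm, ht, hf⟩ => ⟨m, t, hm.trans hS, fun l => Lev.mono hc hS j (ht l), hf⟩

lemma Lev.not {c S : ℕ} : ∀ (j : ℕ) {f : (I → Bool) → Bool}, Lev c S j f → Lev c S j (fun x => !(f x))
  | 0, _, hf => Junta.not hf
  | j + 1, f, ⟨m, t, hm, ht, hf⟩ => by
    refine ⟨m, fun l x => !(t l x), hm, fun l => Lev.not j (ht l), ?_⟩
    rcases hf with hf | hf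
    · right
      intro x
      have h1 : (f x = false) ↔ ¬ (f x = true) := by simp
      simp only [Bool.not_eq_true']
      rw [h1, hf x]
      push Not
      simp only [ne_eq, Bool.not_eq_true]
    · left
      intro x
      have h1 : (f x = false) ↔ ¬ (f x = true) := by simp
      simp only [Bool.not_eq_true']
      rw [h1, hf x]
      push Not
      simp only [ne_eq, Bool.not_eq_true]

lemma Lev.succ {c S : ℕ} (hS : 1 ≤ S) {j : ℕ} {f : (I → Bool) → Bool} (hf : Lev c S j f) :
    Lev c S (j + 1) f :=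
  ⟨1, fun _ => f, hS, fun _ => hf, Or.inl fun x => by simp⟩

lemma Lev.level_mono {c S : ℕ} (hS : 1 ≤ S) {j j' : ℕ} (h : j ≤ j') {f : (I → Bool) → Bool}
    (hf : Lev c S j f) : Lev c S j' f := by
  induction h with
  | refl => exact hf
  | step _ ih => exact Lev.succ hS ih

lemma Lev.const {c S : ℕ} (b : Bool) (hS : 1 ≤ S) (j : ℕ) : Lev c S j (fun _ : I → Bool => b) :=
  Lev.level_mono hS (Nat.zero_le j) (Junta.const c b)

/-- substitution: every output coordinate of `φ` depends on at most `d` input coordinates -/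
lemma Lev.subst {c S d : ℕ} (φ : (I' → Bool) → (I → Bool))
    (hφ : ∀ i : I, ∃ s : Finset I', s.card ≤ d ∧ ∀ x y : I' → Bool, (∀ i' ∈ s, x i' = y i') →
      φ x i = φ y i) :
    ∀ (j : ℕ) {f : (I → Bool) → Bool}, Lev c S j f → Lev (d * c) S j (fun x => f (φ x))
  | 0, f, hf => by
    classical
    obtain ⟨s, hs, hf⟩ := hf
    choose sf hsf1 hsf2 using hφ
    refine ⟨s.biUnion sf, ?_, ?_⟩
    · calc (s.biUnion sf).card ≤ ∑ i ∈ s, (sf i).card := Finset.card_biUnion_le
        _ ≤ ∑ i ∈ s, d := Finset.sum_le_sum fun i _ => hsf1 i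
        _ = s.card * d := by simp
        _ ≤ d * c := by rw [mul_comm]; exact Nat.mul_le_mul_left d hs
    · intro x y h
      refine hf _ _ fun i hi => hsf2 i x y fun i' hi' => h i' ?_
      exact Finset.mem_biUnion.2 ⟨i, hi, hi'⟩
  | j + 1, f, ⟨m, t, hm, ht, hf⟩ =>
    ⟨m, fun l x => t l (φ x), hm, fun l => Lev.subst φ hφ j (ht l), by
      rcases hf with hf | hf
      · exact Or.inl fun x => hf _
      · exact Or.inr fun x => hf _⟩

end circuits

end ZOL
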