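import Pool.Agent.ZOL.Basic

/-!
# Statements of the core modules (induction on depth)

Chain: `IH κ j ξ → SeenBound κ j → EXBound κ j → CEBound κ j → FBound κ j ξ' → IH κ (j+1) ξ''`.
-/

namespace ZOL

open Filter Finset

section defs

variable {κ ι V β : Type}

/-- external row bit number `ρ = (mark, bit, direction)` at the vertex `x` -/
def rb (ρ : ι × κ × Bool) (x : V) : (V ⊕ ι) × (V ⊕ ι) × κ :=
  if ρ.2.2 then (Sum.inr ρ.1, Sum.inl x, ρ.2.1) else (Sum.inl x, Sum.inr ρ.1, ρ.2.1)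

/-- the set of all external row bits of the marks in `W` -/
def JW [Fintype κ] [DecidableEq κ] [Fintype V] [DecidableEq V] [DecidableEq ι] (W : Finset ι) :
    Finset ((V ⊕ ι) × (V ⊕ ι) × κ) :=
  ((W ×ˢ (univ : Finset (κ × Bool))) ×ˢ (univ : Finset V)).image fun p => rb p.1 p.2

/-- every mark of `Y ⊆ U` is seen by `t`: inserting it on top of some `A ⊆ U`, with some internal
data, changes the value of `t` -/
def Seen [DecidableEq ι] (t : St κ V → Bool) (U Y : Finset ι) (M : St κ (V ⊕ ι)) (a : ι → V) :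
    Prop :=
  Set.InjOn a (↑U : Set ι) ∧ ∀ y ∈ Y, ∃ (g : St κ ι) (A : Finset ι), A ⊆ U ∧ y ∉ A ∧
    t (glue g a (insert y A) M) ≠ t (glue g a A M)

/-- the value of `t` on the structure with the marks in `I` inserted is sensitive to the bit `i` -/
def Sens [DecidableEq ι] [DecidableEq V] [DecidableEq κ] (t : St κ V → Bool) (g : St κ ι)
    (I : Finset ι) (M : St κ (V ⊕ ι)) (a : ι → V) (i : (V ⊕ ι) × (V ⊕ ι) × κ) : Prop :=
  t (glue g a I (flipS {i} M)) ≠ t (glue g a I M)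

/-- the event of the exchange lemma; the base marks are `v` (kept) and `w` (exchanged) -/
def Ev [DecidableEq ι] [DecidableEq V] [DecidableEq κ] {s : ℕ} (t : St κ V → Bool) (g : St κ ι)
    (I : Finset ι) (ρ : Fin s → ι × κ × Bool) (M : St κ (V ⊕ ι)) (a : ι → V)
    (vw : β ⊕ Fin s → V) : Prop :=
  Set.InjOn a (↑I : Set ι) ∧ Function.Injective (fun i => vw (Sum.inr i)) ∧
  (∀ i, ∀ k ∈ I, vw (Sum.inr i) ≠ a k) ∧ (∀ i b, vw (Sum.inr i) ≠ vw (Sum.inl b)) ∧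
  ∀ i, Sens t g I M a (rb (ρ i) (vw (Sum.inr i)))

/-- pattern event for an OR gate starting from the value `false` -/
def Fev [DecidableEq ι] (h : St κ V → Bool) (g : St κ ι) (B W : Finset ι) (M : St κ (V ⊕ ι))
    (a : ι → V) : Prop :=
  Set.InjOn a (↑(B ∪ W) : Set ι) ∧ h (glue g a (B ∪ W) M) = true ∧
    ∀ A, A ⊂ W → h (glue g a (B ∪ A) M) = false

/-- noisy density: noise on the external row bits of the marks in `W` -/
noncomputable def nD [Fintype κ] [DecidableEq κ] [Fintype V] [DecidableEq V] [DecidableEq ι]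
    (W : Finset ι) (u : ℝ) (D : St κ (V ⊕ ι) → (β → V) → ℝ) (M : St κ (V ⊕ ι)) (v : β → V) : ℝ :=
  noise (JW W) u (fun M' => D M' v) M

/-- `G` depends neither on the external row bits of the marks in `W` nor on their labels -/
def IndepExt [Fintype κ] [DecidableEq κ] [Fintype V] [DecidableEq V] [DecidableEq ι]
    (W : Finset ι) (G : St κ (V ⊕ ι) → (ι → V) → (β → V) → ℝ) : Prop :=
  ∀ M M' a a' v, (∀ i, i ∉ JW W → M i = M' i) → (∀ k, k ∉ W → a k = a' k) → G M a v = G M' a' v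

end defs

section bounds

variable (κ : Type) [Fintype κ] [DecidableEq κ]

/-- bound for seen marks -/
def SeenBound (j : ℕ) : Prop :=
  ∀ (ι β : Type) [Fintype ι] [DecidableEq ι] [Fintype β] [DecidableEq β] (c K : ℕ) (C : ℝ),
  ∀ᶠ n : ℕ in atTop,
  ∀ (t : St κ (Fin n) → Bool), Lev c (n ^ K) j t →
  ∀ (U Y : Finset ι), Y ⊆ U →
  ∀ (D : St κ (Fin n ⊕ ι) → (β → Fin n) → ℝ), Sym D → (∀ M v, 0 ≤ D M v ∧ D M v ≤ 1) →
  ∀ (ω : St κ (Fin n ⊕ ι) → (ι → Fin n) → (β → Fin n) → ℝ), Indep Y ω →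
    (∀ M a v, 0 ≤ ω M a v ∧ ω M a v ≤ 1) →
  avM (fun M a v => ω M a v * D M v * ind (Seen t U Y M a)) ≤
    (n : ℝ) ^ (-(5 / 8 * (Y.card : ℝ))) * avM (fun M a v => ω M a v * D M v)
      + (n : ℝ) ^ (-C)

/-- bound from the exchange lemma -/
def EXBound (j : ℕ) : Prop :=
  ∀ (ι β : Type) [Fintype ι] [DecidableEq ι] [Fintype β] [DecidableEq β] (s c K : ℕ) (C : ℝ),
  ∀ᶠ n : ℕ in atTop,
  ∀ (t : St κ (Fin n) → Bool), Lev c (n ^ K) j t →
  ∀ (g : St κ ι) (I : Finset ι) (ρ : Fin s → ι × κ × Bool), (∀ i, (ρ i).1 ∈ I) →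
  ∀ (D : St κ (Fin n ⊕ ι) → (β ⊕ Fin s → Fin n) → ℝ), Sym D → (∀ M v, 0 ≤ D M v ∧ D M v ≤ 1) →
  avM (fun M a v => D M v * ind (Ev t g I ρ M a v)) ≤
    2 * (n : ℝ) ^ (-(5 / 8 * (s : ℝ))) * avM (fun M _ v => D M v) + (n : ℝ) ^ (-C)

/-- child error bound -/
def CEBound (j : ℕ) : Prop :=
  ∀ (ι β : Type) [Fintype ι] [DecidableEq ι] [Fintype β] [DecidableEq β] (c K : ℕ) (C : ℝ),
  ∃ M0 : ℝ, 0 < M0 ∧ ∀ᶠ n : ℕ in atTop,
  ∀ (t : St κ (Fin n) → Bool), Lev c (n ^ K) j t →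
  ∀ (g : St κ ι) (I W : Finset ι),
  ∀ (D : St κ (Fin n ⊕ ι) → (β → Fin n) → ℝ), Sym D → (∀ M v, 0 ≤ D M v ∧ D M v ≤ 1) →
  ∀ u : ℝ, 0 ≤ u → u ≤ 1 - (n : ℝ) ^ (-(1 / 20 : ℝ)) →
  avM (fun M a v => nD W u D M v * ind (Set.InjOn a (↑I : Set ι) ∧
      M0 * nD W u D M v < ∑ i ∈ JW W, ind (Sens t g I M a i) *
        max (nD W u D M v - nD W u D (flipS {i} M) v) 0)) ≤ (n : ℝ) ^ (-C) ∧
  avM (fun M a v => nD W u D M v * ind (Set.InjOn a (↑I : Set ι) ∧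
      M0 / (1 - u) * nD W u D M v < ∑ i ∈ JW W, ind (Sens t g I M a i) *
        max (nD W u D (flipS {i} M) v - nD W u D M v) 0)) ≤ (n : ℝ) ^ (-C)

/-- generic rows -/
def GRBound : Prop :=
  ∀ (ι β : Type) [Fintype ι] [DecidableEq ι] [Fintype β] [DecidableEq β] (c K j : ℕ) (ε C : ℝ),
  0 < ε → ∀ᶠ n : ℕ in atTop,
  ∀ (t : St κ (Fin n) → Bool), Lev c (n ^ K) j t →
  ∀ (g : St κ ι) (B W : Finset ι), W.Nonempty → Disjoint B W →
  ∀ (G : St κ (Fin n ⊕ ι) → (ι → Fin n) → (β → Fin n) → ℝ), IndepExt W G →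
    (∀ M a v, 0 ≤ G M a v ∧ G M a v ≤ 1) →
  avM (fun M a v => G M a v * ind (Qev t g B W M a)) ≤
    (n : ℝ) ^ (ε - (W.card : ℝ)) * avM G + (n : ℝ) ^ (-C)

/-- pattern bound for OR gates starting from the value `false` -/
def FBound (j : ℕ) (ξ : ℝ) : Prop :=
  ∀ (ι β : Type) [Fintype ι] [DecidableEq ι] [Fintype β] [DecidableEq β] (c K : ℕ) (C : ℝ),
  ∀ᶠ n : ℕ in atTop,
  ∀ (m : ℕ) (t : Fin m → St κ (Fin n) → Bool) (h : St κ (Fin n) → Bool), m ≤ n ^ K →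
    (∀ l, Lev c (n ^ K) j (t l)) → (∀ x, h x = true ↔ ∃ l, t l x = true) →
  ∀ (g : St κ ι) (B W : Finset ι), W.Nonempty → Disjoint B W →
  ∀ (D : St κ (Fin n ⊕ ι) → (β → Fin n) → ℝ), Sym D → (∀ M v, 0 ≤ D M v ∧ D M v ≤ 1) →
  ∀ (ω : St κ (Fin n ⊕ ι) → (ι → Fin n) → (β → Fin n) → ℝ), Indep W ω →
    (∀ M a v, 0 ≤ ω M a v ∧ ω M a v ≤ 1) →
  avM (fun M a v => ω M a v * D M v * ind (Fev h g B W M a)) ≤
    (n : ℝ) ^ (-(5 / 8 * (W.card : ℝ) + ξ)) * avM (fun M a v => ω M a v * D M v)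
      + (n : ℝ) ^ (-C)

/-- base case -/
def StmtIH0 : Prop := ∀ ξ : ℝ, ξ < 3 / 8 → IH κ 0 ξ

/-- covering lemma -/
def StmtSeen : Prop := ∀ (j : ℕ) (ξ : ℝ), 0 < ξ → IH κ j ξ → SeenBound κ j

/-- exchange lemma -/
def StmtEX : Prop := StmtTKv κ → ∀ j : ℕ, SeenBound κ j → EXBound κ j

/-- child error -/
def StmtCE : Prop := ∀ j : ℕ, EXBound κ j → CEBound κ j

/-- generic rows -/
def StmtGR : Prop := StmtTKv κ → GRBound κ

/-- flow argument -/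
def StmtF : Prop :=
  StmtTK → GRBound κ → ∀ j : ℕ, CEBound κ j → ∀ ξ : ℝ, 0 < ξ → ξ < 3 / 8 → FBound κ j ξ

/-- the step: the case of an OR gate starting from the value `true` -/
def StmtStep : Prop :=
  ∀ (j : ℕ) (ξ ξ' ξ'' : ℝ), ξ'' < ξ → ξ'' < ξ' → IH κ j ξ → FBound κ j ξ' → IH κ (j + 1) ξ''

end bounds

end ZOL
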