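import Pool.Agent.ZOL.AvM

/-!
# Small lemmas about patterns and independence, shared by Seen, Step, IH0
-/

namespace ZOL
namespace CB

open Filter Finset

section glue

variable {κ ι V β : Type}

/-- auxiliary form of `ctx` -/
noncomputable def ctxAux (p : ι → Prop) (x : V) : V ⊕ ι :=
  open Classical in if h : ∃ k, p k then Sum.inr h.choose else Sum.inl x

lemma ctx_eq_aux (a : ι → V) (A : Finset ι) (x : V) :
    ctx a A x = ctxAux (fun k => k ∈ A ∧ a k = x) x := by
  unfold ctx ctxAux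
  by_cases h : ∃ k ∈ A, a k = x
  · rw [dif_pos h, dif_pos h]
  · rw [dif_neg h, dif_neg h]

lemma ctx_congr {a a' : ι → V} {A : Finset ι} (h : ∀ k ∈ A, a k = a' k) :
    (ctx a A : V → V ⊕ ι) = ctx a' A := by
  funext x
  rw [ctx_eq_aux, ctx_eq_aux]
  congr 1
  funext k
  apply propext
  constructor
  · rintro ⟨h1, h2⟩; exact ⟨h1, by rw [← h k h1]; exact h2⟩
  · rintro ⟨h1, h2⟩; exact ⟨h1, by rw [h k h1]; exact h2⟩

lemma glue_congr {X : Finset ι} {M M' : St κ (V ⊕ ι)} {a a' : ι → V}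
    (h : AgreeOff X M M' a a') (g : St κ ι) (A : Finset ι) (hA : Disjoint A X) :
    glue g a A M = glue g a' A M' := by
  have hne : ∀ k ∈ A, k ∉ X := fun k hk hk' => (Finset.disjoint_left.1 hA) hk hk'
  unfold glue
  rw [ctx_congr (a := a) (a' := a') (A := A) fun k hk => h.2 k (hne k hk)]
  funext ⟨x, y, c⟩
  rw [pull_apply, pull_apply]
  have hctx : ∀ z : V, (∀ k ∈ X, ctx a' A z ≠ Sum.inr k) := by
    intro z k hk
    rcases ctx_spec a' A z with ⟨l, hl, -, hz⟩ | ⟨-, hz⟩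
    · rw [hz]
      intro e
      exact hne l hl (by rw [Sum.inr.inj e]; exact hk)
    · rw [hz]; exact Sum.inl_ne_inr
  have hx := hctx x
  have hy := hctx y
  have hM : M (ctx a' A x, ctx a' A y, c) = M' (ctx a' A x, ctx a' A y, c) :=
    h.1 _ _ _ fun k hk => ⟨hx k hk, hy k hk⟩
  revert hM
  generalize ctx a' A x = p
  generalize ctx a' A y = q
  intro hM
  rcases p with p | p
  · rw [ovr_inl_left, ovr_inl_left]; exact hM
  · rcases q with q | q
    · rw [ovr_inl_right, ovr_inl_right]; exact hM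
    · rw [ovr_inr, ovr_inr]

lemma AgreeOff.mono {X X' : Finset ι} (hX : X ⊆ X') {M M' : St κ (V ⊕ ι)} {a a' : ι → V}
    (h : AgreeOff X M M' a a') : AgreeOff X' M M' a a' :=
  ⟨fun x y c hk => h.1 x y c fun k hk' => hk k (hX hk'), fun k hk => h.2 k fun hk' => hk (hX hk')⟩

lemma injOn_congr {a a' : ι → V} {A : Finset ι} (h : ∀ k ∈ A, a k = a' k) :
    Set.InjOn a (↑A : Set ι) ↔ Set.InjOn a' (↑A : Set ι) :=
  Set.EqOn.injOn_iff fun k hk => h k hk

lemma Indep.mul {X : Finset ι} {ω ω' : St κ (V ⊕ ι) → (ι → V) → (β → V) → ℝ}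
    (h : Indep X ω) (h' : Indep X ω') : Indep X (fun M a v => ω M a v * ω' M a v) :=
  fun M M' a a' v hA => by simp only [h M M' a a' v hA, h' M M' a a' v hA]

variable [DecidableEq ι]

lemma Qev_congr {X : Finset ι} {M M' : St κ (V ⊕ ι)} {a a' : ι → V}
    (h : AgreeOff X M M' a a') (t : St κ V → Bool) (g : St κ ι) (B W : Finset ι)
    (hX : Disjoint (B ∪ W) X) : Qev t g B W M a ↔ Qev t g B W M' a' := by
  have hd : ∀ A, A ⊆ B ∪ W → glue g a A M = glue g a' A M' := fun A hA =>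
    glue_congr h g A (Finset.disjoint_of_subset_left hA hX)
  have h1 := hd (B ∪ W) (Finset.Subset.refl _)
  have h2 := hd B Finset.subset_union_left
  have h3 : Set.InjOn a (↑(B ∪ W) : Set ι) ↔ Set.InjOn a' (↑(B ∪ W) : Set ι) :=
    injOn_congr fun k hk => h.2 k (Finset.disjoint_left.1 hX hk)
  unfold Qev
  rw [h1, h2, h3]
  have h4 : (∀ A, A ⊂ W → t (glue g a (B ∪ A) M) = t (glue g a' B M')) ↔
      (∀ A, A ⊂ W → t (glue g a' (B ∪ A) M') = t (glue g a' B M')) := by
    refine forall_congr' fun A => forall_congr' fun hA => ?_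
    rw [hd (B ∪ A) (Finset.union_subset_union_right hA.1)]
  rw [h4]

lemma Indep.ind_Qev {X : Finset ι} (t : St κ V → Bool) (g : St κ ι) (B W : Finset ι)
    (hX : Disjoint (B ∪ W) X) :
    Indep X (fun (M : St κ (V ⊕ ι)) (a : ι → V) (_ : β → V) => ind (Qev t g B W M a)) :=
  fun _ _ _ _ _ hA => ind_congr (Qev_congr hA t g B W hX)

end glue


end CB
end ZOL
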