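import Mathlib

/-!
# Definitions for the zero-one law for order-invariant first-order logic

All probability is uniform averaging over finite types.
-/

namespace ZOL

open Filter Finset

/-! ### Averages -/

/-- average of a real function over a finite type -/
noncomputable def av {α : Type*} [Fintype α] (f : α → ℝ) : ℝ :=
  (∑ x, f x) / (Fintype.card α : ℝ)

open Classical in
/-- indicator of a proposition, as a real number -/
noncomputable def ind (p : Prop) : ℝ := if p then 1 else 0

/-! ### Boolean functions and circuits -/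

section cube

variable {I : Type*} [DecidableEq I]

/-- flip the bits in `S` -/
def flipS (S : Finset I) (x : I → Bool) : I → Bool := fun i => if i ∈ S then !(x i) else x i

/-- `S` is a minimal sensitive set of `f` at `z`: flipping all of `S` changes the value, flipping
any proper subset does not. -/
def MinSens (f : (I → Bool) → Bool) (z : I → Bool) (S : Finset I) : Prop :=
  f (flipS S z) ≠ f z ∧ ∀ A, A ⊂ S → f (flipS A z) = f z

end cube

/-- `f` depends only on at most `c` coordinates -/
def Junta {I : Type*} (c : ℕ) (f : (I → Bool) → Bool) : Prop :=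
  ∃ s : Finset I, s.card ≤ c ∧ ∀ x y : I → Bool, (∀ i ∈ s, x i = y i) → f x = f y

/-- circuits of depth `j`, fan-in at most `S`, with `c`-juntas at the bottom -/
def Lev {I : Type*} (c S : ℕ) : ℕ → ((I → Bool) → Bool) → Prop
  | 0, f => Junta c f
  | j + 1, f => ∃ (m : ℕ) (t : Fin m → (I → Bool) → Bool), m ≤ S ∧ (∀ l, Lev c S j (t l)) ∧
      ((∀ x, f x = true ↔ ∃ l, t l x = true) ∨ (∀ x, f x = true ↔ ∀ l, t l x = true))

/-! ### Noise on the cube -/

section noise

variable {I : Type*} [DecidableEq I]

/-- the noise operator with parameter `u` (correlation) on the coordinates in `J` -/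
noncomputable def noise (J : Finset I) (u : ℝ) (D : (I → Bool) → ℝ) (x : I → Bool) : ℝ :=
  ∑ s ∈ J.powerset, ((1 - u) / 2) ^ s.card * ((1 + u) / 2) ^ (J.card - s.card) * D (flipS s x)

end noise

/-! ### Structures -/

/-- a structure on `X`: `κ`-many bits for every ordered pair (including the diagonal) -/
abbrev St (κ X : Type) := X × X × κ → Bool

section structures

variable {κ X Y : Type}

/-- pull a structure back along a map -/
def pull (e : Y → X) (M : St κ X) : St κ Y := fun p => M (e p.1, e p.2.1, p.2.2)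

variable {ι V : Type}

/-- override the internal bits (bits between two marks) by `g` -/
def ovr (g : St κ ι) (M : St κ (X ⊕ ι)) : St κ (X ⊕ ι)
  | (Sum.inr k, Sum.inr k', c) => g (k, k', c)
  | p => M p

open Classical in
/-- vertex `x` goes to the mark `k` if `k ∈ A` has label `a k = x`, and stays put otherwise -/
noncomputable def ctx (a : ι → V) (A : Finset ι) (x : V) : V ⊕ ι :=
  if h : ∃ k ∈ A, a k = x then Sum.inr h.choose else Sum.inl x

/-- insert the marks of `A` at their labels, with internal data `g` -/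
noncomputable def glue (g : St κ ι) (a : ι → V) (A : Finset ι) (M : St κ (V ⊕ ι)) : St κ V :=
  pull (ctx a A) (ovr g M)

/-- the pattern event: inserting `W` on top of `B` changes the value of `t`, inserting a proper
subset of `W` on top of `B` does not. -/
def Qev [DecidableEq ι] (t : St κ V → Bool) (g : St κ ι) (B W : Finset ι) (M : St κ (V ⊕ ι))
    (a : ι → V) : Prop :=
  Set.InjOn a (↑(B ∪ W) : Set ι) ∧ t (glue g a (B ∪ W) M) ≠ t (glue g a B M) ∧
    ∀ A, A ⊂ W → t (glue g a (B ∪ A) M) = t (glue g a B M)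

/-- a density with base marks `β`, symmetric under permutations of `V` -/
def Sym {β : Type} (D : St κ (V ⊕ ι) → (β → V) → ℝ) : Prop :=
  ∀ (π : Equiv.Perm V) (M : St κ (V ⊕ ι)) (v : β → V),
    D (pull (Sum.map π id) M) v = D M (fun b => π (v b))

/-- `(M,a)` and `(M',a')` agree except for data involving marks of `W` -/
def AgreeOff (W : Finset ι) (M M' : St κ (V ⊕ ι)) (a a' : ι → V) : Prop :=
  (∀ x y c, (∀ k ∈ W, x ≠ Sum.inr k ∧ y ≠ Sum.inr k) → M (x, y, c) = M' (x, y, c)) ∧
    ∀ k, k ∉ W → a k = a' k

/-- `ω` does not depend on the data of the marks in `W` -/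
def Indep {β : Type} (W : Finset ι) (ω : St κ (V ⊕ ι) → (ι → V) → (β → V) → ℝ) : Prop :=
  ∀ M M' a a' v, AgreeOff W M M' a a' → ω M a v = ω M' a' v

/-- average over structure, labels and base marks -/
noncomputable def avM [Fintype κ] [Fintype V] [DecidableEq V] [Fintype ι] [DecidableEq ι]
    [DecidableEq κ] {β : Type} [Fintype β] [DecidableEq β]
    (F : St κ (V ⊕ ι) → (ι → V) → (β → V) → ℝ) : ℝ :=
  av (fun p : St κ (V ⊕ ι) × (ι → V) × (β → V) => F p.1 p.2.1 p.2.2)

end structures

/-! ### The induction hypothesis -/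

/-- The induction hypothesis for circuits of depth `j` with gain `ξ`. -/
def IH (κ : Type) [Fintype κ] [DecidableEq κ] (j : ℕ) (ξ : ℝ) : Prop :=
  ∀ (ι β : Type) [Fintype ι] [DecidableEq ι] [Fintype β] [DecidableEq β] (c K : ℕ) (C : ℝ),
  ∀ᶠ n : ℕ in atTop,
  ∀ (t : St κ (Fin n) → Bool), Lev c (n ^ K) j t →
  ∀ (g : St κ ι) (B W : Finset ι), W.Nonempty → Disjoint B W →
  ∀ (D : St κ (Fin n ⊕ ι) → (β → Fin n) → ℝ), Sym D → (∀ M v, 0 ≤ D M v ∧ D M v ≤ 1) →
  ∀ (ω : St κ (Fin n ⊕ ι) → (ι → Fin n) → (β → Fin n) → ℝ), Indep W ω →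
    (∀ M a v, 0 ≤ ω M a v ∧ ω M a v ≤ 1) →
  avM (fun M a v => ω M a v * D M v * ind (Qev t g B W M a)) ≤
    (n : ℝ) ^ (-(5 / 8 * (W.card : ℝ) + ξ)) * avM (fun M a v => ω M a v * D M v)
      + (n : ℝ) ^ (-C)

end ZOL
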