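import Pool.Agent.ZOL.AvM

/-!
# Flow argument, part 1: combinatorics of patterns
-/

namespace ZOL

open Filter Finset

section patterns

variable {κ ι V β : Type}

lemma ctx_congr_fl {a a' : ι → V} {A : Finset ι} (h : ∀ k ∈ A, a k = a' k) :
    ctx a A = ctx a' A := by
  funext x
  have hp : (fun k => k ∈ A ∧ a k = x) = (fun k => k ∈ A ∧ a' k = x) := by
    funext k
    by_cases hk : k ∈ A
    · rw [h k hk]
    · simp [hk]
  unfold ctx
  have key : ∀ (p q : ι → Prop) (dp : Decidable (∃ k, p k)) (dq : Decidable (∃ k, q k)), p = q →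
      (if h : ∃ k, p k then (Sum.inr h.choose : V ⊕ ι) else Sum.inl x) =
      (if h : ∃ k, q k then (Sum.inr h.choose : V ⊕ ι) else Sum.inl x) := by
    rintro p q dp dq rfl
    rw [Subsingleton.elim dp dq]
  exact key _ _ _ _ hp

/-- `glue g a A` only looks at data of marks in `A` -/
lemma glue_congr_fl {g : St κ ι} {a a' : ι → V} {A : Finset ι} {M M' : St κ (V ⊕ ι)}
    (ha : ∀ k ∈ A, a k = a' k)
    (hM : ∀ x y c, (∀ k, x = Sum.inr k → k ∈ A) → (∀ k, y = Sum.inr k → k ∈ A) →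
      M (x, y, c) = M' (x, y, c)) :
    glue g a A M = glue g a' A M' := by
  funext ⟨x, y, c⟩
  unfold glue
  rw [ctx_congr_fl ha]
  simp only [pull]
  have hx : ∀ z : V, ∀ k, ctx a' A z = Sum.inr k → k ∈ A := by
    intro z k hk
    rcases ctx_spec a' A z with ⟨k', hk', _, h⟩ | ⟨_, h⟩
    · rw [h] at hk; rw [← Sum.inr.inj hk]; exact hk'
    · rw [h] at hk; exact absurd hk (by simp)
  have h1 := hM (ctx a' A x) (ctx a' A y) c (hx x) (hx y)
  rcases hcx : ctx a' A x with x' | k <;> rcases hcy : ctx a' A y with y' | k' <;>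
    rw [hcx, hcy] at h1 <;> simp only [ovr] <;> exact h1

lemma AgreeOff.glue {W : Finset ι} {M M' : St κ (V ⊕ ι)} {a a' : ι → V}
    (h : AgreeOff W M M' a a') (g : St κ ι) {A : Finset ι} (hA : Disjoint A W) :
    glue g a A M = glue g a' A M' := by
  refine glue_congr_fl (fun k hk => h.2 k fun hk' => ?_) fun x y c hx hy => h.1 x y c fun k hk => ?_
  · exact (Finset.disjoint_left.1 hA hk) hk'
  · exact ⟨fun hxk => Finset.disjoint_left.1 hA (hx k hxk) hk,
      fun hyk => Finset.disjoint_left.1 hA (hy k hyk) hk⟩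

lemma AgreeOff.injOn {W : Finset ι} {M M' : St κ (V ⊕ ι)} {a a' : ι → V}
    (h : AgreeOff W M M' a a') {A : Finset ι} (hA : Disjoint A W) :
    Set.InjOn a (↑A : Set ι) ↔ Set.InjOn a' (↑A : Set ι) := by
  apply Set.EqOn.injOn_iff
  intro k hk
  exact h.2 k fun hk' => Finset.disjoint_left.1 hA hk hk'

lemma AgreeOff.flip [DecidableEq κ] [DecidableEq ι] [DecidableEq V] {W : Finset ι}
    {M M' : St κ (V ⊕ ι)} {a a' : ι → V} (h : AgreeOff W M M' a a')
    (S : Finset ((V ⊕ ι) × (V ⊕ ι) × κ)) : AgreeOff W (flipS S M) (flipS S M') a a' := by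
  refine ⟨fun x y c hxy => ?_, h.2⟩
  rw [flipS_apply, flipS_apply, h.1 x y c hxy]

lemma AgreeOff.fev [DecidableEq ι] {W : Finset ι} {M M' : St κ (V ⊕ ι)} {a a' : ι → V}
    (h : AgreeOff W M M' a a') (f : St κ V → Bool) (g : St κ ι) {B A : Finset ι}
    (hA : Disjoint (B ∪ A) W) : Fev f g B A M a ↔ Fev f g B A M' a' := by
  unfold Fev
  rw [h.injOn hA, h.glue g hA]
  have : ∀ A', A' ⊂ A → ZOL.glue g a (B ∪ A') M = ZOL.glue g a' (B ∪ A') M' := fun A' hA' =>
    h.glue g (Finset.disjoint_of_subset_left (Finset.union_subset_union_right hA'.1) hA)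
  constructor
  · rintro ⟨h1, h2, h3⟩
    exact ⟨h1, h2, fun A' hA' => by rw [← this A' hA']; exact h3 A' hA'⟩
  · rintro ⟨h1, h2, h3⟩
    exact ⟨h1, h2, fun A' hA' => by rw [this A' hA']; exact h3 A' hA'⟩

variable [DecidableEq κ] [DecidableEq ι] [DecidableEq V]

/-- flipping a row bit of a mark which is not inserted does not matter -/
lemma glue_flip_rb {g : St κ ι} {a : ι → V} {A : Finset ι} {ρ : ι × κ × Bool} (hρ : ρ.1 ∉ A)
    (x : V) (M : St κ (V ⊕ ι)) : glue g a A (flipS {rb ρ x} M) = glue g a A M := by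
  refine glue_congr_fl (fun _ _ => rfl) fun y z c hy hz => ?_
  rw [flipS_apply, if_neg]
  intro h
  rw [Finset.mem_singleton] at h
  unfold rb at h
  split_ifs at h
  · exact hρ (hy _ (Prod.mk.inj h).1)
  · exact hρ (hz _ (Prod.mk.inj (Prod.mk.inj h).2).1)

omit [DecidableEq κ] [DecidableEq V] in
lemma Fev.qev {h : St κ V → Bool} {g : St κ ι} {B W : Finset ι} {M : St κ (V ⊕ ι)}
    {a : ι → V} (hF : Fev h g B W M a) (hW : W.Nonempty) : Qev h g B W M a := by
  have h0 : h (glue g a B M) = false := by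
    have := hF.2.2 ∅ (Finset.empty_ssubset.2 hW)
    rwa [Finset.union_empty] at this
  refine ⟨hF.1, ?_, fun A hA => ?_⟩
  · rw [hF.2.1, h0]; simp
  · rw [hF.2.2 A hA, h0]

/-- how a flip can destroy the pattern -/
lemma flip_cases [Fintype κ] [Fintype V] {h : St κ V → Bool} {g : St κ ι} {B W : Finset ι}
    (hBW : Disjoint B W) {M : St κ (V ⊕ ι)} {a : ι → V} {i : (V ⊕ ι) × (V ⊕ ι) × κ}
    (hi : i ∈ JW W) (hF : Fev h g B W M a) (hF' : ¬ Fev h g B W (flipS {i} M) a) :
    h (glue g a (B ∪ W) (flipS {i} M)) = false ∨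
    ∃ A, A ⊂ W ∧ A.Nonempty ∧ i ∈ JW A ∧ Fev h g B A (flipS {i} M) a ∧
      h (glue g a (B ∪ A) M) = false ∧ Fev h g (B ∪ A) (W \ A) M a := by
  by_cases h1 : h (glue g a (B ∪ W) (flipS {i} M)) = false
  · exact Or.inl h1
  right
  have h1' : h (glue g a (B ∪ W) (flipS {i} M)) = true := by simpa using h1
  have h2 : ∃ A, A ⊂ W ∧ h (glue g a (B ∪ A) (flipS {i} M)) = true := by
    by_contra hcon
    push Not at hcon
    exact hF' ⟨hF.1, h1', fun A hA => by simpa using hcon A hA⟩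
  obtain ⟨A0, hA0, hA0t⟩ := h2
  obtain ⟨A, hA⟩ := ((W.powerset.filter fun A => A ⊂ W ∧
    h (glue g a (B ∪ A) (flipS {i} M)) = true)).exists_minimal
    ⟨A0, by simp [hA0, hA0t, hA0.1]⟩
  have hA1 : A ⊂ W ∧ h (glue g a (B ∪ A) (flipS {i} M)) = true := (Finset.mem_filter.1 hA.1).2
  have hmin : ∀ A', A' ⊂ A → h (glue g a (B ∪ A') (flipS {i} M)) = false := by
    intro A' hA'
    by_contra hne
    have hne' : h (glue g a (B ∪ A') (flipS {i} M)) = true := by simpa using hne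
    have hA'W : A' ⊂ W := hA'.trans hA1.1
    have := hA.2 (y := A') (by simp [hA'W, hne', hA'W.1]) hA'.1
    exact hA'.2 this
  have hM : h (glue g a (B ∪ A) M) = false := hF.2.2 A hA1.1
  obtain ⟨ρ, x, hρ, rfl⟩ := mem_JW.1 hi
  have hρA : ρ.1 ∈ A := by
    by_contra hρA
    have hρ' : ρ.1 ∉ B ∪ A := by
      rw [Finset.mem_union]
      rintro (hB | hA')
      · exact Finset.disjoint_left.1 hBW hB hρ
      · exact hρA hA'
    rw [glue_flip_rb hρ'] at hA1
    rw [hM] at hA1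
    exact absurd hA1.2 (by simp)
  have hsub : A ⊆ W := hA1.1.1
  refine ⟨A, hA1.1, ⟨_, hρA⟩, rb_mem_JW hρA x, ⟨?_, hA1.2, hmin⟩, hM, ?_, ?_, ?_⟩
  · exact hF.1.mono (by exact_mod_cast Finset.union_subset_union_right hsub)
  · have : B ∪ A ∪ W \ A = B ∪ W := by
      rw [Finset.union_assoc, Finset.union_sdiff_of_subset hsub]
    rw [this]; exact hF.1
  · have : B ∪ A ∪ W \ A = B ∪ W := by
      rw [Finset.union_assoc, Finset.union_sdiff_of_subset hsub]
    rw [this]; exact hF.2.1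
  · intro A' hA'
    rw [Finset.union_assoc]
    apply hF.2.2
    refine ⟨Finset.union_subset hsub (hA'.1.trans Finset.sdiff_subset), fun hle => ?_⟩
    apply hA'.2
    intro k hk
    rw [Finset.mem_sdiff] at hk
    rcases Finset.mem_union.1 (hle hk.1) with hkA | hkA'
    · exact absurd hkA hk.2
    · exact hkA'

/-- the child argument: when the OR gate `h` is true, the bits whose flip makes it false are
sensitive for one of its true children -/
lemma or_child {m : ℕ} {t : Fin m → St κ V → Bool} {h : St κ V → Bool}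
    (hh : ∀ x, h x = true ↔ ∃ l, t l x = true) {g : St κ ι} {I : Finset ι} {M : St κ (V ⊕ ι)}
    {a : ι → V} (htrue : h (glue g a I M) = true) (J : Finset ((V ⊕ ι) × (V ⊕ ι) × κ))
    (c : (V ⊕ ι) × (V ⊕ ι) × κ → ℝ) (hc : ∀ i, 0 ≤ c i) {T : ℝ} (hT : 0 ≤ T) :
    ∑ i ∈ J, ind (h (glue g a I (flipS {i} M)) = false) * c i ≤
      T + ∑ l, ind (T < ∑ i ∈ J, ind (Sens (t l) g I M a i) * c i) * ∑ i ∈ J, c i := by
  obtain ⟨l, hl⟩ := (hh _).1 htrue
  have hcs : 0 ≤ ∑ i ∈ J, c i := Finset.sum_nonneg fun i _ => hc i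
  have h1 : ∑ i ∈ J, ind (h (glue g a I (flipS {i} M)) = false) * c i ≤
      ∑ i ∈ J, ind (Sens (t l) g I M a i) * c i := by
    refine Finset.sum_le_sum fun i _ => mul_le_mul_of_nonneg_right (ind_mono fun hf => ?_) (hc i)
    unfold Sens
    rw [hl]
    intro heq
    have := (hh (glue g a I (flipS {i} M))).2 ⟨l, heq⟩
    rw [hf] at this
    exact absurd this (by simp)
  refine h1.trans ?_
  have hnn : ∀ l' : Fin m, 0 ≤ ind (T < ∑ i ∈ J, ind (Sens (t l') g I M a i) * c i) * ∑ i ∈ J, c i :=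
    fun l' => mul_nonneg (ind_nonneg _) hcs
  by_cases hT' : T < ∑ i ∈ J, ind (Sens (t l) g I M a i) * c i
  · have h2 : ∑ i ∈ J, ind (Sens (t l) g I M a i) * c i ≤ ∑ i ∈ J, c i := by
      refine Finset.sum_le_sum fun i _ => ?_
      calc _ ≤ 1 * c i := mul_le_mul_of_nonneg_right (ind_le_one _) (hc i)
        _ = c i := one_mul _
    have h3 : ind (T < ∑ i ∈ J, ind (Sens (t l) g I M a i) * c i) * ∑ i ∈ J, c i ≤
        ∑ l, ind (T < ∑ i ∈ J, ind (Sens (t l) g I M a i) * c i) * ∑ i ∈ J, c i :=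
      Finset.single_le_sum (f := fun l' => ind (T < ∑ i ∈ J, ind (Sens (t l') g I M a i) * c i) *
        ∑ i ∈ J, c i) (fun l' _ => hnn l') (Finset.mem_univ l)
    rw [ind_true' hT', one_mul] at h3
    linarith
  · push Not at hT'
    have : 0 ≤ ∑ l, ind (T < ∑ i ∈ J, ind (Sens (t l) g I M a i) * c i) * ∑ i ∈ J, c i :=
      Finset.sum_nonneg fun l' _ => hnn l'
    linarith

end patterns

end ZOL
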