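import Pool.Agent.ZOL.Flow1

/-!
# Flow argument, part 2: derivative of the noisy pattern mass
-/

namespace ZOL

open Filter Finset

section deriv

variable {κ ι V β : Type} [Fintype κ] [DecidableEq κ] [Fintype V] [DecidableEq V] [Fintype ι]
  [DecidableEq ι] [Fintype β] [DecidableEq β]

/-- positive part of the decrease of the noisy density under a flip -/
noncomputable def dP (W : Finset ι) (u : ℝ) (D : St κ (V ⊕ ι) → (β → V) → ℝ)
    (i : (V ⊕ ι) × (V ⊕ ι) × κ) (M : St κ (V ⊕ ι)) (v : β → V) : ℝ :=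
  max (nD W u D M v - nD W u D (flipS {i} M) v) 0

/-- positive part of the increase of the noisy density under a flip -/
noncomputable def dM (W : Finset ι) (u : ℝ) (D : St κ (V ⊕ ι) → (β → V) → ℝ)
    (i : (V ⊕ ι) × (V ⊕ ι) × κ) (M : St κ (V ⊕ ι)) (v : β → V) : ℝ :=
  max (nD W u D (flipS {i} M) v - nD W u D M v) 0

omit [Fintype ι] [Fintype β] [DecidableEq β] in
lemma dP_nonneg (W : Finset ι) (u : ℝ) (D : St κ (V ⊕ ι) → (β → V) → ℝ)
    (i : (V ⊕ ι) × (V ⊕ ι) × κ) (M : St κ (V ⊕ ι)) (v : β → V) : 0 ≤ dP W u D i M v :=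
  le_max_right _ _

omit [Fintype ι] [Fintype β] [DecidableEq β] in
lemma dM_nonneg (W : Finset ι) (u : ℝ) (D : St κ (V ⊕ ι) → (β → V) → ℝ)
    (i : (V ⊕ ι) × (V ⊕ ι) × κ) (M : St κ (V ⊕ ι)) (v : β → V) : 0 ≤ dM W u D i M v :=
  le_max_right _ _

omit [Fintype ι] [Fintype β] [DecidableEq β] in
lemma dP_flip (W : Finset ι) (u : ℝ) (D : St κ (V ⊕ ι) → (β → V) → ℝ)
    (i : (V ⊕ ι) × (V ⊕ ι) × κ) (M : St κ (V ⊕ ι)) (v : β → V) :
    dP W u D i (flipS {i} M) v = dM W u D i M v := by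
  unfold dP dM; rw [flipS_invol]

omit [Fintype ι] [Fintype β] [DecidableEq β] in
lemma dP_le {W : Finset ι} {u : ℝ} (h0 : 0 ≤ u) (h1 : u ≤ 1)
    {D : St κ (V ⊕ ι) → (β → V) → ℝ} (hD : ∀ M v, 0 ≤ D M v ∧ D M v ≤ 1)
    (i : (V ⊕ ι) × (V ⊕ ι) × κ) (M : St κ (V ⊕ ι)) (v : β → V) :
    dP W u D i M v ≤ nD W u D M v := by
  unfold dP
  have := nD_nonneg (W := W) h0 h1 hD (flipS {i} M) v
  have := nD_nonneg (W := W) h0 h1 hD M v
  exact max_le (by linarith) (by linarith)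

omit [Fintype ι] [Fintype β] [DecidableEq β] in
lemma dP_le_one {W : Finset ι} {u : ℝ} (h0 : 0 ≤ u) (h1 : u ≤ 1)
    {D : St κ (V ⊕ ι) → (β → V) → ℝ} (hD : ∀ M v, 0 ≤ D M v ∧ D M v ≤ 1)
    (i : (V ⊕ ι) × (V ⊕ ι) × κ) (M : St κ (V ⊕ ι)) (v : β → V) :
    dP W u D i M v ≤ 1 := (dP_le h0 h1 hD i M v).trans (nD_le_one h0 h1 hD M v)

omit [Fintype β] [DecidableEq β] in
lemma dM_le {W : Finset ι} {u : ℝ} (h0 : 0 ≤ u) (h1 : u < 1)
    {D : St κ (V ⊕ ι) → (β → V) → ℝ} (hD : ∀ M v, 0 ≤ D M v ∧ D M v ≤ 1)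
    {i : (V ⊕ ι) × (V ⊕ ι) × κ} (hi : i ∈ JW W) (M : St κ (V ⊕ ι)) (v : β → V) :
    dM W u D i M v ≤ 2 / (1 - u) * nD W u D M v := by
  unfold dM
  have hn := nD_nonneg (W := W) h0 h1.le hD M v
  have hr := noiseRatio _ (JW W) (fun M' => D M' v) (fun M' => (hD M' v).1) u h0 h1 i hi M
  have h1u : 0 < 1 - u := by linarith
  have h2 : (1 + u) / (1 - u) * nD W u D M v ≤ 2 / (1 - u) * nD W u D M v :=
    mul_le_mul_of_nonneg_right (div_le_div_of_nonneg_right (by linarith) h1u.le) hn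
  refine max_le ?_ (mul_nonneg (by positivity) hn)
  unfold nD at *
  linarith

/-- The derivative of the noisy pattern mass. -/
lemma hasDerivAt_avM_nD (W : Finset ι) (D : St κ (V ⊕ ι) → (β → V) → ℝ)
    (G : St κ (V ⊕ ι) → (ι → V) → (β → V) → ℝ) {u : ℝ} (hu : u ≠ 0) :
    HasDerivAt (fun u => avM (fun M a v => G M a v * nD W u D M v))
      (avM (fun M a v => G M a v * (1 / (2 * u) *
        ∑ i ∈ JW W, (nD W u D M v - nD W u D (flipS {i} M) v)))) u := by
  unfold avM av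
  apply HasDerivAt.div_const
  apply HasDerivAt.fun_sum
  intro p _
  apply HasDerivAt.const_mul
  exact noiseDeriv _ (JW W) (fun M' => D M' p.2.2) p.1 u hu

lemma avM_antisymm {W : Finset ι} {u : ℝ} {D : St κ (V ⊕ ι) → (β → V) → ℝ}
    {ω : St κ (V ⊕ ι) → (ι → V) → (β → V) → ℝ} {F : St κ (V ⊕ ι) → (ι → V) → Prop}
    {i : (V ⊕ ι) × (V ⊕ ι) × κ} (hω : ∀ M a v, ω (flipS {i} M) a v = ω M a v) :
    avM (fun M a v => ω M a v * (ind (F M a) * ind (F (flipS {i} M) a)) *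
      (nD W u D M v - nD W u D (flipS {i} M) v)) = 0 := by
  have h := avM_flip {i} (fun (M : St κ (V ⊕ ι)) (a : ι → V) (v : β → V) =>
    ω M a v * (ind (F M a) * ind (F (flipS {i} M) a)) *
      (nD W u D M v - nD W u D (flipS {i} M) v))
  have h2 : avM (fun M a v => ω (flipS {i} M) a v *
      (ind (F (flipS {i} M) a) * ind (F (flipS {i} (flipS {i} M)) a)) *
      (nD W u D (flipS {i} M) v - nD W u D (flipS {i} (flipS {i} M)) v)) =
      avM (fun (M : St κ (V ⊕ ι)) (a : ι → V) (v : β → V) =>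
        (-1) * (ω M a v * (ind (F M a) * ind (F (flipS {i} M) a)) *
      (nD W u D M v - nD W u D (flipS {i} M) v))) := by
    refine avM_congr fun M a v => ?_
    rw [hω, flipS_invol]; ring
  rw [h2, avM_mul_left] at h
  linarith

/-- upper bound for the derivative: only flips which destroy the pattern count -/
lemma deriv_le {W : Finset ι} {u : ℝ} (hu : 0 < u) {D : St κ (V ⊕ ι) → (β → V) → ℝ}
    {ω : St κ (V ⊕ ι) → (ι → V) → (β → V) → ℝ} {F : St κ (V ⊕ ι) → (ι → V) → Prop}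
    (hω : ∀ i ∈ JW W, ∀ M a v, ω (flipS {i} M) a v = ω M a v) (hω0 : ∀ M a v, 0 ≤ ω M a v) :
    avM (fun M a v => (ω M a v * ind (F M a)) * (1 / (2 * u) *
        ∑ i ∈ JW W, (nD W u D M v - nD W u D (flipS {i} M) v))) ≤
      1 / (2 * u) * avM (fun M a v => ω M a v *
        ∑ i ∈ JW W, ind (F M a ∧ ¬ F (flipS {i} M) a) * dP W u D i M v) := by
  have e1 : avM (fun M a v => (ω M a v * ind (F M a)) * (1 / (2 * u) *
        ∑ i ∈ JW W, (nD W u D M v - nD W u D (flipS {i} M) v))) =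
      1 / (2 * u) * ∑ i ∈ JW W, avM (fun M a v => ω M a v * ind (F M a) *
        (nD W u D M v - nD W u D (flipS {i} M) v)) := by
    rw [← avM_sum, ← avM_mul_left]
    refine avM_congr fun M a v => ?_
    rw [Finset.mul_sum, Finset.mul_sum, Finset.mul_sum]
    refine Finset.sum_congr rfl fun i _ => by ring
  have e2 : avM (fun M a v => ω M a v *
        ∑ i ∈ JW W, ind (F M a ∧ ¬ F (flipS {i} M) a) * dP W u D i M v) =
      ∑ i ∈ JW W, avM (fun M a v => ω M a v *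
        (ind (F M a ∧ ¬ F (flipS {i} M) a) * dP W u D i M v)) := by
    rw [← avM_sum]
    refine avM_congr fun M a v => ?_
    rw [Finset.mul_sum]
  rw [e1, e2]
  refine mul_le_mul_of_nonneg_left (Finset.sum_le_sum fun i hi => ?_) (by positivity)
  have h0 := avM_antisymm (W := W) (u := u) (D := D) (F := F) (hω i hi)
  rw [← sub_zero (avM (fun M a v => ω M a v * ind (F M a) *
        (nD W u D M v - nD W u D (flipS {i} M) v))), ← h0, ← avM_sub]
  refine avM_mono fun M a v => ?_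
  have e3 : ind (F M a ∧ ¬ F (flipS {i} M) a) = ind (F M a) * (1 - ind (F (flipS {i} M) a)) := by
    rw [ind_and, ind_not]
  have h3 : ω M a v * ind (F M a) * (nD W u D M v - nD W u D (flipS {i} M) v) -
      ω M a v * (ind (F M a) * ind (F (flipS {i} M) a)) *
        (nD W u D M v - nD W u D (flipS {i} M) v) =
      ω M a v * (ind (F M a ∧ ¬ F (flipS {i} M) a) *
        (nD W u D M v - nD W u D (flipS {i} M) v)) := by
    rw [e3]; ring
  rw [h3]
  exact mul_le_mul_of_nonneg_left (mul_le_mul_of_nonneg_left (le_max_left _ _) (ind_nonneg _))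
    (hω0 M a v)

end deriv

end ZOL
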