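import Pool.Agent.ZOL.Flow2

/-!
# Flow argument, part 3: the two types of destroying flips
-/

namespace ZOL

open Filter Finset

section local_versions

/-- pattern bound at a fixed `n` for sets of size `w` with exponent `e` -/
def FBn (κ : Type) [Fintype κ] [DecidableEq κ] (ι β : Type) [Fintype ι] [DecidableEq ι]
    [Fintype β] [DecidableEq β] (c K j n : ℕ) (C : ℝ) (w : ℕ) (e : ℝ) : Prop :=
  ∀ (m : ℕ) (t : Fin m → St κ (Fin n) → Bool) (h : St κ (Fin n) → Bool), m ≤ n ^ K →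
    (∀ l, Lev c (n ^ K) j (t l)) → (∀ x, h x = true ↔ ∃ l, t l x = true) →
  ∀ (g : St κ ι) (B W : Finset ι), W.card = w → Disjoint B W →
  ∀ (D : St κ (Fin n ⊕ ι) → (β → Fin n) → ℝ), Sym D → (∀ M v, 0 ≤ D M v ∧ D M v ≤ 1) →
  ∀ (ω : St κ (Fin n ⊕ ι) → (ι → Fin n) → (β → Fin n) → ℝ), Indep W ω →
    (∀ M a v, 0 ≤ ω M a v ∧ ω M a v ≤ 1) →
  avM (fun M a v => ω M a v * D M v * ind (Fev h g B W M a)) ≤
    (n : ℝ) ^ (-e) * avM (fun M a v => ω M a v * D M v) + (n : ℝ) ^ (-C)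

/-- child error bound at a fixed `n` -/
def CEn (κ : Type) [Fintype κ] [DecidableEq κ] (ι β : Type) [Fintype ι] [DecidableEq ι]
    [Fintype β] [DecidableEq β] (c K j n : ℕ) (C M0 : ℝ) : Prop :=
  ∀ (t : St κ (Fin n) → Bool), Lev c (n ^ K) j t →
  ∀ (g : St κ ι) (I W : Finset ι),
  ∀ (D : St κ (Fin n ⊕ ι) → (β → Fin n) → ℝ), Sym D → (∀ M v, 0 ≤ D M v ∧ D M v ≤ 1) →
  ∀ u : ℝ, 0 ≤ u → u ≤ 1 - (n : ℝ) ^ (-(1 / 20 : ℝ)) →
  avM (fun M a v => nD W u D M v * ind (Set.InjOn a (↑I : Set ι) ∧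
      M0 * nD W u D M v < ∑ i ∈ JW W, ind (Sens t g I M a i) *
        max (nD W u D M v - nD W u D (flipS {i} M) v) 0)) ≤ (n : ℝ) ^ (-C) ∧
  avM (fun M a v => nD W u D M v * ind (Set.InjOn a (↑I : Set ι) ∧
      M0 / (1 - u) * nD W u D M v < ∑ i ∈ JW W, ind (Sens t g I M a i) *
        max (nD W u D (flipS {i} M) v - nD W u D M v) 0)) ≤ (n : ℝ) ^ (-C)

end local_versions

section main

variable {κ ι β : Type} [Fintype κ] [DecidableEq κ] [Fintype ι]
  [DecidableEq ι] [Fintype β] [DecidableEq β] {c K j n : ℕ}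

omit [Fintype κ] [DecidableEq κ] [Fintype ι] [DecidableEq ι] [Fintype β] [DecidableEq β] in
lemma one_sub_pos_of {u : ℝ} (hn : 0 < n) (hu : u ≤ 1 - (n : ℝ) ^ (-(1 / 20 : ℝ))) : 0 < 1 - u := by
  have : (0 : ℝ) < (n : ℝ) ^ (-(1 / 20 : ℝ)) := Real.rpow_pos_of_pos (by exact_mod_cast hn) _
  linarith

/-- general application of the child error bound -/
lemma ce_apply_aux {m : ℕ} {t : Fin m → St κ (Fin n) → Bool} {h : St κ (Fin n) → Bool}
    (hm : m ≤ n ^ K) (hh : ∀ x, h x = true ↔ ∃ l, t l x = true) {g : St κ ι} {I W : Finset ι}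
    {D : St κ (Fin n ⊕ ι) → (β → Fin n) → ℝ} (hD : ∀ M v, 0 ≤ D M v ∧ D M v ≤ 1) {u : ℝ}
    (hu0 : 0 ≤ u) (hu1 : u ≤ 1) {ω : St κ (Fin n ⊕ ι) → (ι → Fin n) → (β → Fin n) → ℝ}
    (hω1 : ∀ M a v, 0 ≤ ω M a v ∧ ω M a v ≤ 1) {F : St κ (Fin n ⊕ ι) → (ι → Fin n) → Prop}
    (hF : ∀ M a, F M a → Set.InjOn a (↑I : Set ι) ∧ h (glue g a I M) = true)
    (d : (Fin n ⊕ ι) × (Fin n ⊕ ι) × κ → St κ (Fin n ⊕ ι) → (β → Fin n) → ℝ)
    (hd0 : ∀ i M v, 0 ≤ d i M v) {R T C : ℝ} (hR : 0 ≤ R) (hT : 0 ≤ T)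
    (hdR : ∀ i ∈ JW W, ∀ M v, d i M v ≤ R * nD W u D M v)
    (hCE : ∀ l, avM (fun M a v => nD W u D M v * ind (Set.InjOn a (↑I : Set ι) ∧
      T * nD W u D M v < ∑ i ∈ JW W, ind (Sens (t l) g I M a i) * d i M v)) ≤ (n : ℝ) ^ (-C)) :
    avM (fun M a v => ω M a v * ∑ i ∈ JW W,
      ind (F M a ∧ h (glue g a I (flipS {i} M)) = false) * d i M v) ≤
      T * avM (fun M a v => ω M a v * nD W u D M v * ind (F M a)) +
        (n : ℝ) ^ K * ((JW (κ := κ) (V := Fin n) W).card * R) * (n : ℝ) ^ (-C) := by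
  set J := JW (κ := κ) (V := Fin n) W with hJ
  have hnR : (0 : ℝ) ≤ (n : ℝ) ^ (-C) := Real.rpow_nonneg (Nat.cast_nonneg n) _
  have hpt : ∀ M a v, ω M a v * ∑ i ∈ J,
      ind (F M a ∧ h (glue g a I (flipS {i} M)) = false) * d i M v ≤
      T * (ω M a v * nD W u D M v * ind (F M a)) +
      ∑ l : Fin m, (J.card * R) * (nD W u D M v * ind (Set.InjOn a (↑I : Set ι) ∧
      T * nD W u D M v < ∑ i ∈ J, ind (Sens (t l) g I M a i) * d i M v)) := by
    intro M a v
    have hnd := nD_nonneg (W := W) hu0 hu1 hD M v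
    have hJR : (0 : ℝ) ≤ J.card * R := by positivity
    by_cases hFM : F M a
    · obtain ⟨hinj, htrue⟩ := hF M a hFM
      have h1 := or_child hh htrue J (fun i => d i M v) (fun i => hd0 i M v)
        (T := T * nD W u D M v) (mul_nonneg hT hnd)
      have h2 : ∑ i ∈ J, ind (F M a ∧ h (glue g a I (flipS {i} M)) = false) * d i M v =
          ∑ i ∈ J, ind (h (glue g a I (flipS {i} M)) = false) * d i M v := by
        refine Finset.sum_congr rfl fun i _ => ?_
        rw [ind_congr (show (F M a ∧ h (glue g a I (flipS {i} M)) = false) ↔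
          h (glue g a I (flipS {i} M)) = false from ⟨fun h => h.2, fun h => ⟨hFM, h⟩⟩)]
      have h3 : ∑ i ∈ J, d i M v ≤ J.card * R * nD W u D M v := by
        calc ∑ i ∈ J, d i M v ≤ ∑ i ∈ J, R * nD W u D M v :=
              Finset.sum_le_sum fun i hi => hdR i hi M v
          _ = _ := by rw [Finset.sum_const, nsmul_eq_mul]; ring
      rw [h2, ind_true' hFM, mul_one]
      have hS : 0 ≤ ∑ i ∈ J, ind (h (glue g a I (flipS {i} M)) = false) * d i M v :=
        Finset.sum_nonneg fun i _ => mul_nonneg (ind_nonneg _) (hd0 i M v)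
      have h4 : ∑ l, ind (T * nD W u D M v < ∑ i ∈ J, ind (Sens (t l) g I M a i) * d i M v) *
          ∑ i ∈ J, d i M v ≤ ∑ l : Fin m, (J.card * R) * (nD W u D M v *
          ind (Set.InjOn a (↑I : Set ι) ∧
          T * nD W u D M v < ∑ i ∈ J, ind (Sens (t l) g I M a i) * d i M v)) := by
        refine Finset.sum_le_sum fun l _ => ?_
        rw [ind_congr (show (Set.InjOn a (↑I : Set ι) ∧
          T * nD W u D M v < ∑ i ∈ J, ind (Sens (t l) g I M a i) * d i M v) ↔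
          T * nD W u D M v < ∑ i ∈ J, ind (Sens (t l) g I M a i) * d i M v from
          ⟨fun h => h.2, fun h => ⟨hinj, h⟩⟩)]
        calc _ ≤ ind (T * nD W u D M v < ∑ i ∈ J, ind (Sens (t l) g I M a i) * d i M v) *
              (J.card * R * nD W u D M v) := mul_le_mul_of_nonneg_left h3 (ind_nonneg _)
          _ = _ := by ring
      have h5 : 0 ≤ ∑ l : Fin m, (J.card * R) * (nD W u D M v *
          ind (Set.InjOn a (↑I : Set ι) ∧
          T * nD W u D M v < ∑ i ∈ J, ind (Sens (t l) g I M a i) * d i M v)) :=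
        Finset.sum_nonneg fun l _ => mul_nonneg hJR (mul_nonneg hnd (ind_nonneg _))
      have hω := hω1 M a v
      calc ω M a v * ∑ i ∈ J, ind (h (glue g a I (flipS {i} M)) = false) * d i M v
          ≤ ω M a v * (T * nD W u D M v + ∑ l : Fin m, (J.card * R) * (nD W u D M v *
          ind (Set.InjOn a (↑I : Set ι) ∧
          T * nD W u D M v < ∑ i ∈ J, ind (Sens (t l) g I M a i) * d i M v))) :=
            mul_le_mul_of_nonneg_left (h1.trans (by linarith)) hω.1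
        _ ≤ _ := by
            rw [mul_add]
            have := mul_le_mul_of_nonneg_right hω.2 h5
            linarith
    · have h2 : ∑ i ∈ J, ind (F M a ∧ h (glue g a I (flipS {i} M)) = false) * d i M v = 0 := by
        refine Finset.sum_eq_zero fun i _ => ?_
        rw [ind_false' (fun h => hFM h.1), zero_mul]
      rw [h2, mul_zero]
      refine add_nonneg (mul_nonneg hT (mul_nonneg (mul_nonneg (hω1 M a v).1 hnd) (ind_nonneg _)))
        (Finset.sum_nonneg fun l _ => mul_nonneg hJR (mul_nonneg hnd (ind_nonneg _)))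
  refine (avM_mono hpt).trans ?_
  rw [avM_add, avM_mul_left, avM_sum]
  gcongr
  calc ∑ l : Fin m, avM (fun M a v => (J.card * R) * (nD W u D M v *
          ind (Set.InjOn a (↑I : Set ι) ∧
          T * nD W u D M v < ∑ i ∈ J, ind (Sens (t l) g I M a i) * d i M v)))
      ≤ ∑ _l : Fin m, (J.card * R) * (n : ℝ) ^ (-C) := by
        refine Finset.sum_le_sum fun l _ => ?_
        rw [avM_mul_left]
        exact mul_le_mul_of_nonneg_left (hCE l) (by positivity)
    _ = m * ((J.card * R) * (n : ℝ) ^ (-C)) := by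
        rw [Finset.sum_const, nsmul_eq_mul, Finset.card_univ, Fintype.card_fin]
    _ ≤ (n : ℝ) ^ K * ((J.card * R) * (n : ℝ) ^ (-C)) := by
        refine mul_le_mul_of_nonneg_right ?_ (by positivity)
        exact_mod_cast hm
    _ = _ := by ring

/-- **T1**: flips which make the top value false -/
lemma t1_bound (hn : 0 < n) {C M0 : ℝ} (hM0 : 0 < M0) (hCE : CEn κ ι β c K j n C M0) {m : ℕ}
    {t : Fin m → St κ (Fin n) → Bool} {h : St κ (Fin n) → Bool} (hm : m ≤ n ^ K)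
    (ht : ∀ l, Lev c (n ^ K) j (t l)) (hh : ∀ x, h x = true ↔ ∃ l, t l x = true)
    {g : St κ ι} {B W : Finset ι}
    {D : St κ (Fin n ⊕ ι) → (β → Fin n) → ℝ} (hDs : Sym D) (hD : ∀ M v, 0 ≤ D M v ∧ D M v ≤ 1)
    {u : ℝ} (hu0 : 0 ≤ u) (hu1 : u ≤ 1 - (n : ℝ) ^ (-(1 / 20 : ℝ)))
    {ω : St κ (Fin n ⊕ ι) → (ι → Fin n) → (β → Fin n) → ℝ}
    (hω1 : ∀ M a v, 0 ≤ ω M a v ∧ ω M a v ≤ 1) :
    avM (fun M a v => ω M a v * ∑ i ∈ JW W,
      ind (Fev h g B W M a ∧ h (glue g a (B ∪ W) (flipS {i} M)) = false) * dP W u D i M v) ≤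
      M0 * avM (fun M a v => ω M a v * nD W u D M v * ind (Fev h g B W M a)) +
        (n : ℝ) ^ K * ((JW (κ := κ) (V := Fin n) W).card) * (n : ℝ) ^ (-C) := by
  have h1u := one_sub_pos_of hn hu1
  have := ce_apply_aux (F := fun M a => Fev h g B W M a) (I := B ∪ W) (g := g) hm hh hD hu0
    (by linarith : u ≤ 1) hω1
    (fun M a hF => ⟨hF.1, hF.2.1⟩) (dP W u D) (fun i M v => dP_nonneg W u D i M v) zero_le_one
    hM0.le (C := C) (fun i _ M v => by rw [one_mul]; exact dP_le hu0 (by linarith) hD i M v)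
    (fun l => (hCE (t l) (ht l) g (B ∪ W) W D hDs hD u hu0 hu1).1)
  rw [mul_one] at this
  exact this

/-- application of the child error bound with increasing flips -/
lemma tm_bound (hn : 0 < n) {C M0 : ℝ} (hM0 : 0 < M0) (hCE : CEn κ ι β c K j n C M0) {m : ℕ}
    {t : Fin m → St κ (Fin n) → Bool} {h : St κ (Fin n) → Bool} (hm : m ≤ n ^ K)
    (ht : ∀ l, Lev c (n ^ K) j (t l)) (hh : ∀ x, h x = true ↔ ∃ l, t l x = true)
    {g : St κ ι} {B A W : Finset ι}
    {D : St κ (Fin n ⊕ ι) → (β → Fin n) → ℝ} (hDs : Sym D) (hD : ∀ M v, 0 ≤ D M v ∧ D M v ≤ 1)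
    {u : ℝ} (hu0 : 0 ≤ u) (hu1 : u ≤ 1 - (n : ℝ) ^ (-(1 / 20 : ℝ)))
    {ω : St κ (Fin n ⊕ ι) → (ι → Fin n) → (β → Fin n) → ℝ}
    (hω1 : ∀ M a v, 0 ≤ ω M a v ∧ ω M a v ≤ 1) :
    avM (fun M a v => ω M a v * ∑ i ∈ JW W,
      ind (Fev h g B A M a ∧ h (glue g a (B ∪ A) (flipS {i} M)) = false) * dM W u D i M v) ≤
      M0 / (1 - u) * avM (fun M a v => ω M a v * nD W u D M v * ind (Fev h g B A M a)) +
        (n : ℝ) ^ K * ((JW (κ := κ) (V := Fin n) W).card * (2 / (1 - u))) * (n : ℝ) ^ (-C) := by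
  have h1u := one_sub_pos_of hn hu1
  exact ce_apply_aux (F := fun M a => Fev h g B A M a) (I := B ∪ A) (g := g) hm hh hD hu0
    (by linarith : u ≤ 1) hω1
    (fun M a hF => ⟨hF.1, hF.2.1⟩) (dM W u D) (fun i M v => dM_nonneg W u D i M v)
    (by positivity) (by positivity : 0 ≤ M0 / (1 - u)) (C := C)
    (fun i hi M v => dM_le hu0 (by linarith) hD hi M v)
    (fun l => (hCE (t l) (ht l) g (B ∪ A) W D hDs hD u hu0 hu1).2)

/-- the density with the flipped vertex as an additional base mark is symmetric -/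
lemma sym_dP {W : Finset ι} {u : ℝ} {D : St κ (Fin n ⊕ ι) → (β → Fin n) → ℝ} (hDs : Sym D)
    (ρ : ι × κ × Bool) : Sym (fun (M : St κ (Fin n ⊕ ι)) (v : β ⊕ Unit → Fin n) =>
      dP W u D (rb ρ (v (Sum.inr ()))) M (fun b => v (Sum.inl b))) := by
  intro π M v
  have hs := hDs.nD W u
  simp only [dP]
  rw [flipS_pull_perm, hs, hs]

/-- **T2**: flips which make an intermediate value true -/
lemma t2_bound (hn : 0 < n) {C M0 : ℝ} (hM0 : 0 < M0) (hCE : CEn κ ι β c K j n C M0) {m : ℕ}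
    {t : Fin m → St κ (Fin n) → Bool} {h : St κ (Fin n) → Bool} (hm : m ≤ n ^ K)
    (ht : ∀ l, Lev c (n ^ K) j (t l)) (hh : ∀ x, h x = true ↔ ∃ l, t l x = true)
    {g : St κ ι} {B A W : Finset ι} (hBW : Disjoint B W) (hAW : A ⊂ W) {e1 e2 : ℝ}
    (hF1 : FBn κ ι (β ⊕ Unit) c K j n C (W \ A).card e1)
    (hF2 : FBn κ ι β c K j n C A.card e2)
    {D : St κ (Fin n ⊕ ι) → (β → Fin n) → ℝ} (hDs : Sym D) (hD : ∀ M v, 0 ≤ D M v ∧ D M v ≤ 1)
    {u : ℝ} (hu0 : 0 ≤ u) (hu1 : u ≤ 1 - (n : ℝ) ^ (-(1 / 20 : ℝ)))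
    {ω : St κ (Fin n ⊕ ι) → (ι → Fin n) → (β → Fin n) → ℝ} (hω : Indep W ω)
    (hω1 : ∀ M a v, 0 ≤ ω M a v ∧ ω M a v ≤ 1) :
    avM (fun M a v => ω M a v * ∑ i ∈ JW A,
      ind (Fev h g B A (flipS {i} M) a ∧ h (glue g a (B ∪ A) M) = false ∧
        Fev h g (B ∪ A) (W \ A) M a) * dP W u D i M v) ≤
      (n : ℝ) ^ (-e1) * (M0 / (1 - u) * ((n : ℝ) ^ (-e2) *
          avM (fun M a v => ω M a v * D M v) + (n : ℝ) ^ (-C)) +
        (n : ℝ) ^ K * ((JW (κ := κ) (V := Fin n) W).card * (2 / (1 - u))) * (n : ℝ) ^ (-C)) +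
      (A ×ˢ (univ : Finset (κ × Bool))).card * (n * (n : ℝ) ^ (-C)) := by
  have h1u := one_sub_pos_of hn hu1
  have hu1' : u ≤ 1 := by linarith
  have : Nonempty (Fin n) := ⟨⟨0, hn⟩⟩
  have hBA : Disjoint (B ∪ A) (W \ A) := by
    rw [Finset.disjoint_union_left]
    exact ⟨Finset.disjoint_of_subset_right Finset.sdiff_subset hBW, Finset.disjoint_sdiff⟩
  have hn0 : (0 : ℝ) ≤ n := Nat.cast_nonneg n
  -- the modified weight
  set ω' : ι × κ × Bool → St κ (Fin n ⊕ ι) → (ι → Fin n) → (β ⊕ Unit → Fin n) → ℝ :=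
    fun ρ M a v => ω M a (fun b => v (Sum.inl b)) *
      ind (Fev h g B A (flipS {rb ρ (v (Sum.inr ()))} M) a ∧ h (glue g a (B ∪ A) M) = false)
    with hω'
  have hω'I : ∀ ρ, Indep (W \ A) (ω' ρ) := by
    intro ρ M M' a a' v hag
    simp only [hω']
    rw [(hω.mono Finset.sdiff_subset) M M' a a' _ hag]
    congr 1
    apply ind_congr
    rw [(hag.flip _).fev h g hBA, hag.glue g hBA]
  have hω'1 : ∀ ρ M a v, 0 ≤ ω' ρ M a v ∧ ω' ρ M a v ≤ 1 := fun ρ M a v =>
    ⟨mul_nonneg (hω1 _ _ _).1 (ind_nonneg _),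
      mul_le_one₀ (hω1 _ _ _).2 (ind_nonneg _) (ind_le_one _)⟩
  -- step 1: write as a sum over row types and vertices
  have s1 : avM (fun M a v => ω M a v * ∑ i ∈ JW A,
      ind (Fev h g B A (flipS {i} M) a ∧ h (glue g a (B ∪ A) M) = false ∧
        Fev h g (B ∪ A) (W \ A) M a) * dP W u D i M v) =
      ∑ ρ ∈ A ×ˢ (univ : Finset (κ × Bool)), (n : ℝ) *
        avM (β := β ⊕ Unit) (fun M a v => ω' ρ M a v *
          dP W u D (rb ρ (v (Sum.inr ()))) M (fun b => v (Sum.inl b)) *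
          ind (Fev h g (B ∪ A) (W \ A) M a)) := by
    have e1 : ∀ (ρ : ι × κ × Bool), (n : ℝ) *
        avM (β := β ⊕ Unit) (fun M a v => ω' ρ M a v *
          dP W u D (rb ρ (v (Sum.inr ()))) M (fun b => v (Sum.inl b)) *
          ind (Fev h g (B ∪ A) (W \ A) M a)) =
        ∑ x, avM (fun M a v => (ω M a v *
          ind (Fev h g B A (flipS {rb ρ x} M) a ∧ h (glue g a (B ∪ A) M) = false)) *
          dP W u D (rb ρ x) M v * ind (Fev h g (B ∪ A) (W \ A) M a)) := by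
      intro ρ
      have := avM_base_mark (κ := κ) (ι := ι) (V := Fin n) (β := β) (fun M a v x => (ω M a v *
          ind (Fev h g B A (flipS {rb ρ x} M) a ∧ h (glue g a (B ∪ A) M) = false)) *
          dP W u D (rb ρ x) M v * ind (Fev h g (B ∪ A) (W \ A) M a))
      rw [this, Fintype.card_fin]
    rw [Finset.sum_congr rfl fun ρ _ => e1 ρ]
    rw [← sum_JW A (fun i => avM (fun M a v => (ω M a v *
          ind (Fev h g B A (flipS {i} M) a ∧ h (glue g a (B ∪ A) M) = false)) *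
          dP W u D i M v * ind (Fev h g (B ∪ A) (W \ A) M a))), ← avM_sum]
    refine avM_congr fun M a v => ?_
    rw [Finset.mul_sum]
    refine Finset.sum_congr rfl fun i _ => ?_
    rw [← and_assoc, ind_and _ (Fev h g (B ∪ A) (W \ A) M a)]
    ring
  rw [s1]
  -- step 2: apply the bound for `W \ A`
  have s2 : ∀ ρ ∈ A ×ˢ (univ : Finset (κ × Bool)), (n : ℝ) *
        avM (β := β ⊕ Unit) (fun M a v => ω' ρ M a v *
          dP W u D (rb ρ (v (Sum.inr ()))) M (fun b => v (Sum.inl b)) *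
          ind (Fev h g (B ∪ A) (W \ A) M a)) ≤
        (n : ℝ) ^ (-e1) * ((n : ℝ) * avM (β := β ⊕ Unit) (fun M a v => ω' ρ M a v *
          dP W u D (rb ρ (v (Sum.inr ()))) M (fun b => v (Sum.inl b)))) +
          n * (n : ℝ) ^ (-C) := by
    intro ρ _
    have := hF1 m t h hm ht hh g (B ∪ A) (W \ A) rfl hBA
      (fun M v => dP W u D (rb ρ (v (Sum.inr ()))) M (fun b => v (Sum.inl b))) (sym_dP hDs ρ)
      (fun M v => ⟨dP_nonneg _ _ _ _ _ _, dP_le_one hu0 hu1' hD _ _ _⟩) (ω' ρ) (hω'I ρ) (hω'1 ρ)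
    calc _ ≤ (n : ℝ) * ((n : ℝ) ^ (-e1) * avM (β := β ⊕ Unit) (fun M a v => ω' ρ M a v *
          dP W u D (rb ρ (v (Sum.inr ()))) M (fun b => v (Sum.inl b))) + (n : ℝ) ^ (-C)) :=
          mul_le_mul_of_nonneg_left this hn0
      _ = _ := by ring
  refine (Finset.sum_le_sum s2).trans ?_
  rw [Finset.sum_add_distrib, Finset.sum_const, nsmul_eq_mul, ← Finset.mul_sum]
  refine add_le_add (mul_le_mul_of_nonneg_left ?_ (Real.rpow_nonneg hn0 _)) le_rfl
  -- step 3: go back to the sum over row bits and flip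
  have s3 : ∑ ρ ∈ A ×ˢ (univ : Finset (κ × Bool)), (n : ℝ) *
        avM (β := β ⊕ Unit) (fun M a v => ω' ρ M a v *
          dP W u D (rb ρ (v (Sum.inr ()))) M (fun b => v (Sum.inl b))) =
      avM (fun M a v => ω M a v * ∑ i ∈ JW A,
        ind (Fev h g B A M a ∧ h (glue g a (B ∪ A) (flipS {i} M)) = false) * dM W u D i M v) := by
    have e1 : ∀ (ρ : ι × κ × Bool), (n : ℝ) *
        avM (β := β ⊕ Unit) (fun M a v => ω' ρ M a v *
          dP W u D (rb ρ (v (Sum.inr ()))) M (fun b => v (Sum.inl b))) =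
        ∑ x, avM (fun M a v => (ω M a v *
          ind (Fev h g B A (flipS {rb ρ x} M) a ∧ h (glue g a (B ∪ A) M) = false)) *
          dP W u D (rb ρ x) M v) := by
      intro ρ
      have := avM_base_mark (κ := κ) (ι := ι) (V := Fin n) (β := β) (fun M a v x => (ω M a v *
          ind (Fev h g B A (flipS {rb ρ x} M) a ∧ h (glue g a (B ∪ A) M) = false)) *
          dP W u D (rb ρ x) M v)
      rw [this, Fintype.card_fin]
    rw [Finset.sum_congr rfl fun ρ _ => e1 ρ]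
    rw [← sum_JW A (fun i => avM (fun M a v => (ω M a v *
          ind (Fev h g B A (flipS {i} M) a ∧ h (glue g a (B ∪ A) M) = false)) *
          dP W u D i M v))]
    have e2 : avM (fun M a v => ω M a v * ∑ i ∈ JW A,
        ind (Fev h g B A M a ∧ h (glue g a (B ∪ A) (flipS {i} M)) = false) * dM W u D i M v) =
        ∑ i ∈ JW A, avM (fun M a v => ω M a v * (ind (Fev h g B A M a ∧
          h (glue g a (B ∪ A) (flipS {i} M)) = false) * dM W u D i M v)) := by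
      rw [← avM_sum]
      exact avM_congr fun M a v => by rw [Finset.mul_sum]
    rw [e2]
    refine Finset.sum_congr rfl fun i hi => ?_
    rw [← avM_flip {i} (fun (M : St κ (Fin n ⊕ ι)) (a : ι → Fin n) (v : β → Fin n) => (ω M a v *
          ind (Fev h g B A (flipS {i} M) a ∧ h (glue g a (B ∪ A) M) = false)) *
          dP W u D i M v)]
    refine avM_congr fun M a v => ?_
    rw [indep_flip hω (JW_mono hAW.1 hi), flipS_invol, dP_flip]
    ring
  rw [s3]
  -- step 4: enlarge the sum and use the child error bound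
  have s4 : avM (fun M a v => ω M a v * ∑ i ∈ JW A,
        ind (Fev h g B A M a ∧ h (glue g a (B ∪ A) (flipS {i} M)) = false) * dM W u D i M v) ≤
      avM (fun M a v => ω M a v * ∑ i ∈ JW W,
        ind (Fev h g B A M a ∧ h (glue g a (B ∪ A) (flipS {i} M)) = false) * dM W u D i M v) := by
    refine avM_mono fun M a v => mul_le_mul_of_nonneg_left ?_ (hω1 M a v).1
    exact Finset.sum_le_sum_of_subset_of_nonneg (JW_mono hAW.1)
      (fun i _ _ => mul_nonneg (ind_nonneg _) (dM_nonneg _ _ _ _ _ _))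
  refine s4.trans ((tm_bound hn hM0 hCE hm ht hh hDs hD hu0 hu1 hω1 (A := A)).trans ?_)
  refine add_le_add (mul_le_mul_of_nonneg_left ?_ (by positivity)) le_rfl
  -- step 5: the bound for `A`
  have s5 := hF2 m t h hm ht hh g B A rfl (Finset.disjoint_of_subset_right hAW.1 hBW)
    (nD W u D) (hDs.nD W u) (fun M v => ⟨nD_nonneg hu0 hu1' hD M v, nD_le_one hu0 hu1' hD M v⟩)
    ω (hω.mono hAW.1) hω1
  rw [avM_nD (fun i hi M a v => indep_flip hω hi M a v)] at s5
  exact s5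

end main

end ZOL
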