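import Pool.Agent.ZOL.Flow3

/-!
# Flow argument, part 4: differential inequalities
-/

namespace ZOL

open Filter Finset

/-- Gronwall type lemma -/
lemma gron {φ φ' g g' : ℝ → ℝ} {x0 x1 a : ℝ} (hx : x0 ≤ x1) (ha : 0 ≤ a)
    (hφ : ∀ u ∈ Set.Icc x0 x1, HasDerivAt φ (φ' u) u)
    (hg : ∀ u ∈ Set.Icc x0 x1, HasDerivAt g (g' u) u) (hg0 : ∀ u ∈ Set.Icc x0 x1, 0 ≤ g' u)
    (hle : ∀ u ∈ Set.Icc x0 x1, φ' u ≤ a * φ u + g' u) :
    φ x1 ≤ Real.exp (a * (x1 - x0)) * (φ x0 + (g x1 - g x0)) := by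
  set ψ : ℝ → ℝ := fun u => Real.exp (-(a * (u - x0))) * φ u - g u with hψ
  have hexp : ∀ u, HasDerivAt (fun u => Real.exp (-(a * (u - x0))))
      (Real.exp (-(a * (u - x0))) * (-a)) u := by
    intro u
    have h1 : HasDerivAt (fun u => -(a * (u - x0))) (-a) u := by
      have := (((hasDerivAt_id' u).sub_const x0).const_mul a).fun_neg
      rw [mul_one] at this
      exact this
    exact h1.exp
  have hd : ∀ u ∈ Set.Icc x0 x1, HasDerivAt ψ
      (Real.exp (-(a * (u - x0))) * (-a) * φ u + Real.exp (-(a * (u - x0))) * φ' u - g' u) u :=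
    fun u hu => ((hexp u).mul (hφ u hu)).sub (hg u hu)
  have hanti : AntitoneOn ψ (Set.Icc x0 x1) := by
    apply antitoneOn_of_deriv_nonpos (convex_Icc x0 x1)
    · exact fun u hu => (hd u hu).continuousAt.continuousWithinAt
    · intro u hu
      rw [interior_Icc] at hu
      exact (hd u (Set.Ioo_subset_Icc_self hu)).differentiableAt.differentiableWithinAt
    · intro u hu
      rw [interior_Icc] at hu
      have hu' := Set.Ioo_subset_Icc_self hu
      rw [(hd u hu').deriv]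
      have he : Real.exp (-(a * (u - x0))) ≤ 1 := by
        rw [Real.exp_le_one_iff]
        have := mul_nonneg ha (sub_nonneg.2 hu'.1)
        linarith
      have he0 := (Real.exp_pos (-(a * (u - x0)))).le
      have h1 := mul_le_mul_of_nonneg_left (hle u hu') he0
      have h2 := mul_le_mul_of_nonneg_right he (hg0 u hu')
      nlinarith
  have h := hanti (Set.left_mem_Icc.2 hx) (Set.right_mem_Icc.2 hx) hx
  simp only [hψ] at h
  rw [sub_self, mul_zero, neg_zero, Real.exp_zero, one_mul] at h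
  have hpos := Real.exp_pos (a * (x1 - x0))
  have h3 : Real.exp (a * (x1 - x0)) * (Real.exp (-(a * (x1 - x0))) * φ x1) = φ x1 := by
    rw [← mul_assoc, ← Real.exp_add, add_neg_cancel, Real.exp_zero, one_mul]
  rw [← h3]
  exact mul_le_mul_of_nonneg_left (by linarith) hpos.le

section main

variable {κ ι β : Type} [Fintype κ] [DecidableEq κ] [Fintype ι]
  [DecidableEq ι] [Fintype β] [DecidableEq β] {c K j n : ℕ}

/-- bound near `u = 1`, at a fixed `n` -/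
def TRn (κ : Type) [Fintype κ] [DecidableEq κ] (ι β : Type) [Fintype ι] [DecidableEq ι]
    [Fintype β] [DecidableEq β] (c K j n : ℕ) (ε C : ℝ) : Prop :=
  ∀ h : St κ (Fin n) → Bool, Lev c (n ^ K) j h →
  ∀ (g : St κ ι) (B W : Finset ι), Disjoint B W →
  ∀ D : St κ (Fin n ⊕ ι) → (β → Fin n) → ℝ, (∀ M v, 0 ≤ D M v ∧ D M v ≤ 1) →
  ∀ ω : St κ (Fin n ⊕ ι) → (ι → Fin n) → (β → Fin n) → ℝ,
    (∀ M a v, 0 ≤ ω M a v ∧ ω M a v ≤ 1) → ∀ u : ℝ, 0 ≤ u → u ≤ 1 →
  avM (fun M a v => ω M a v * ∑ i ∈ JW W,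
      ind (Fev h g B W M a ∧ ¬ Fev h g B W (flipS {i} M) a) * dP W u D i M v) ≤
    2 ^ W.card * (n : ℝ) ^ ε * avM (fun M a v => ω M a v * nD W u D M v * ind (Fev h g B W M a))
      + (n : ℝ) ^ (-C)

/-- the destroying flips are split into the types T1 and T2 -/
lemma split_flips {h : St κ (Fin n) → Bool} {g : St κ ι} {B W : Finset ι}
    (hBW : Disjoint B W) {D : St κ (Fin n ⊕ ι) → (β → Fin n) → ℝ} {u : ℝ}
    {ω : St κ (Fin n ⊕ ι) → (ι → Fin n) → (β → Fin n) → ℝ}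
    (hω1 : ∀ M a v, 0 ≤ ω M a v ∧ ω M a v ≤ 1) :
    avM (fun M a v => ω M a v * ∑ i ∈ JW W,
      ind (Fev h g B W M a ∧ ¬ Fev h g B W (flipS {i} M) a) * dP W u D i M v) ≤
    avM (fun M a v => ω M a v * ∑ i ∈ JW W,
      ind (Fev h g B W M a ∧ h (glue g a (B ∪ W) (flipS {i} M)) = false) * dP W u D i M v) +
    ∑ A ∈ W.powerset.filter (fun A => A ⊂ W ∧ A.Nonempty),
      avM (fun M a v => ω M a v * ∑ i ∈ JW A,
        ind (Fev h g B A (flipS {i} M) a ∧ h (glue g a (B ∪ A) M) = false ∧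
          Fev h g (B ∪ A) (W \ A) M a) * dP W u D i M v) := by
  classical
  rw [← avM_sum, ← avM_add]
  refine avM_mono fun M a v => ?_
  rw [← Finset.mul_sum, ← mul_add]
  refine mul_le_mul_of_nonneg_left ?_ (hω1 M a v).1
  have hA : ∀ A ∈ W.powerset.filter (fun A => A ⊂ W ∧ A.Nonempty),
      ∑ i ∈ JW A, ind (Fev h g B A (flipS {i} M) a ∧ h (glue g a (B ∪ A) M) = false ∧
          Fev h g (B ∪ A) (W \ A) M a) * dP W u D i M v =
      ∑ i ∈ JW W, (if i ∈ JW A then ind (Fev h g B A (flipS {i} M) a ∧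
          h (glue g a (B ∪ A) M) = false ∧ Fev h g (B ∪ A) (W \ A) M a) * dP W u D i M v
          else 0) := by
    intro A hA
    have hAW := (Finset.mem_filter.1 hA).2.1
    rw [← Finset.sum_filter]
    refine Finset.sum_congr ?_ fun _ _ => rfl
    ext i
    rw [Finset.mem_filter]
    exact ⟨fun h => ⟨JW_mono hAW.1 h, h⟩, fun h => h.2⟩
  rw [Finset.sum_congr rfl hA, Finset.sum_comm, ← Finset.sum_add_distrib]
  refine Finset.sum_le_sum fun i hi => ?_
  have hd := dP_nonneg W u D i M v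
  have hnn : ∀ A ∈ W.powerset.filter (fun A => A ⊂ W ∧ A.Nonempty),
      0 ≤ (if i ∈ JW A then ind (Fev h g B A (flipS {i} M) a ∧
          h (glue g a (B ∪ A) M) = false ∧ Fev h g (B ∪ A) (W \ A) M a) * dP W u D i M v
          else 0) := by
    intro A _
    split_ifs
    · exact mul_nonneg (ind_nonneg _) hd
    · exact le_rfl
  have h0 : 0 ≤ ind (Fev h g B W M a ∧ h (glue g a (B ∪ W) (flipS {i} M)) = false) *
      dP W u D i M v := mul_nonneg (ind_nonneg _) hd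
  by_cases hF : Fev h g B W M a ∧ ¬ Fev h g B W (flipS {i} M) a
  · rw [ind_true' hF, one_mul]
    rcases flip_cases hBW hi hF.1 hF.2 with h1 | ⟨A, hAW, hAne, hiA, h2⟩
    · rw [ind_true' ⟨hF.1, h1⟩, one_mul]
      linarith [Finset.sum_nonneg hnn]
    · have hmem : A ∈ W.powerset.filter (fun A => A ⊂ W ∧ A.Nonempty) := by
        rw [Finset.mem_filter, Finset.mem_powerset]
        exact ⟨hAW.1, hAW, hAne⟩
      have := Finset.single_le_sum hnn hmem
      rw [if_pos hiA, ind_true' h2, one_mul] at this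
      linarith
  · rw [ind_false' hF, zero_mul]
    linarith [Finset.sum_nonneg hnn]

/-- the derivative bound in the main region -/
lemma main_region (hn : 0 < n) {C M0 ξ : ℝ} (hM0 : 0 < M0) (hξ : 0 ≤ ξ)
    (hCE : CEn κ ι β c K j n C M0) {m : ℕ}
    {t : Fin m → St κ (Fin n) → Bool} {h : St κ (Fin n) → Bool} (hm : m ≤ n ^ K)
    (ht : ∀ l, Lev c (n ^ K) j (t l)) (hh : ∀ x, h x = true ↔ ∃ l, t l x = true)
    {g : St κ ι} {B W : Finset ι} (hBW : Disjoint B W)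
    (hF1 : ∀ w' < W.card, 0 < w' → FBn κ ι (β ⊕ Unit) c K j n C w' (5 / 8 * w' + ξ))
    (hF2 : ∀ w' < W.card, 0 < w' → FBn κ ι β c K j n C w' (5 / 8 * w' + ξ))
    {D : St κ (Fin n ⊕ ι) → (β → Fin n) → ℝ} (hDs : Sym D) (hD : ∀ M v, 0 ≤ D M v ∧ D M v ≤ 1)
    {u : ℝ} (hu0 : 0 ≤ u) (hu1 : u ≤ 1 - (n : ℝ) ^ (-(1 / 20 : ℝ)))
    {ω : St κ (Fin n ⊕ ι) → (ι → Fin n) → (β → Fin n) → ℝ} (hω : Indep W ω)
    (hω1 : ∀ M a v, 0 ≤ ω M a v ∧ ω M a v ≤ 1) :
    avM (fun M a v => ω M a v * ∑ i ∈ JW W,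
      ind (Fev h g B W M a ∧ ¬ Fev h g B W (flipS {i} M) a) * dP W u D i M v) ≤
    M0 * avM (fun M a v => ω M a v * nD W u D M v * ind (Fev h g B W M a)) +
      (2 ^ W.card * M0 * (n : ℝ) ^ (-(5 / 8 * (W.card : ℝ) + 2 * ξ)) *
        avM (fun M a v => ω M a v * D M v) +
      2 ^ W.card * (M0 + 3 * ((n : ℝ) ^ K * (JW (κ := κ) (V := Fin n) W).card) +
        (W ×ˢ (univ : Finset (κ × Bool))).card * n) * (n : ℝ) ^ (-C)) * (1 / (1 - u)) := by
  have h1u := one_sub_pos_of hn hu1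
  have h1u' : 1 ≤ 1 / (1 - u) := by
    rw [le_div_iff₀ h1u]; linarith
  have hnR : (1 : ℝ) ≤ n := by exact_mod_cast hn
  set mass := avM (fun M a v => ω M a v * D M v) with hmass
  have hmass0 : 0 ≤ mass := avM_nonneg fun M a v => mul_nonneg (hω1 M a v).1 (hD M v).1
  set J := ((JW (κ := κ) (V := Fin n) W).card : ℝ) with hJ
  set R := ((W ×ˢ (univ : Finset (κ × Bool))).card : ℝ) with hR
  have hC0 : 0 ≤ (n : ℝ) ^ (-C) := Real.rpow_nonneg (Nat.cast_nonneg n) _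
  have hJ0 : 0 ≤ J := Nat.cast_nonneg _
  have hR0 : 0 ≤ R := Nat.cast_nonneg _
  have hK0 : (0 : ℝ) ≤ (n : ℝ) ^ K := by positivity
  refine (split_flips hBW hω1).trans ?_
  have hT1 := t1_bound hn hM0 hCE hm ht hh (g := g) (B := B) (W := W) hDs hD hu0 hu1 hω1
  have hT2 : ∀ A ∈ W.powerset.filter (fun A => A ⊂ W ∧ A.Nonempty),
      avM (fun M a v => ω M a v * ∑ i ∈ JW A,
        ind (Fev h g B A (flipS {i} M) a ∧ h (glue g a (B ∪ A) M) = false ∧
          Fev h g (B ∪ A) (W \ A) M a) * dP W u D i M v) ≤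
      (M0 * (n : ℝ) ^ (-(5 / 8 * (W.card : ℝ) + 2 * ξ)) * mass +
        (M0 + 2 * ((n : ℝ) ^ K * J) + R * n) * (n : ℝ) ^ (-C)) * (1 / (1 - u)) := by
    intro A hA
    rw [Finset.mem_filter] at hA
    obtain ⟨-, hAW, hAne⟩ := hA
    have hcA : A.card < W.card := Finset.card_lt_card hAW
    have hcA0 : 0 < A.card := hAne.card_pos
    have hsd : (W \ A).card = W.card - A.card := Finset.card_sdiff_of_subset hAW.1
    have h1 := t2_bound hn hM0 hCE hm ht hh (g := g) hBW hAW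
      (hF1 (W \ A).card (by omega) (by omega)) (hF2 A.card hcA hcA0) hDs hD hu0 hu1 hω hω1
    refine h1.trans ?_
    have hexp : (n : ℝ) ^ (-(5 / 8 * ((W \ A).card : ℝ) + ξ)) *
        (n : ℝ) ^ (-(5 / 8 * (A.card : ℝ) + ξ)) = (n : ℝ) ^ (-(5 / 8 * (W.card : ℝ) + 2 * ξ)) := by
      rw [← Real.rpow_add (by linarith), hsd, Nat.cast_sub hcA.le]
      congr 1; ring
    have hle1 : (n : ℝ) ^ (-(5 / 8 * ((W \ A).card : ℝ) + ξ)) ≤ 1 := by
      apply Real.rpow_le_one_of_one_le_of_nonpos hnR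
      have : (0 : ℝ) ≤ (W \ A).card := Nat.cast_nonneg _
      linarith
    have hcardR : ((A ×ˢ (univ : Finset (κ × Bool))).card : ℝ) ≤ R := by
      rw [hR]
      have h2 : (A ×ˢ (univ : Finset (κ × Bool))).card ≤
          (W ×ˢ (univ : Finset (κ × Bool))).card :=
        Finset.card_le_card (Finset.product_subset_product_left hAW.1)
      exact_mod_cast h2
    set p := (n : ℝ) ^ (-(5 / 8 * ((W \ A).card : ℝ) + ξ)) with hp
    set q := (n : ℝ) ^ (-(5 / 8 * (A.card : ℝ) + ξ)) with hq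
    have hp0 : 0 ≤ p := Real.rpow_nonneg (Nat.cast_nonneg n) _
    have hinv : 0 < 1 / (1 - u) := by positivity
    have e1 : p * (M0 / (1 - u) * (q * mass + (n : ℝ) ^ (-C)) +
        (n : ℝ) ^ K * (J * (2 / (1 - u))) * (n : ℝ) ^ (-C)) =
        (M0 * (p * q) * mass + p * ((M0 + 2 * ((n : ℝ) ^ K * J)) * (n : ℝ) ^ (-C))) *
          (1 / (1 - u)) := by
      field_simp
      ring
    rw [e1, hexp]
    have e2 : p * ((M0 + 2 * ((n : ℝ) ^ K * J)) * (n : ℝ) ^ (-C)) ≤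
        (M0 + 2 * ((n : ℝ) ^ K * J)) * (n : ℝ) ^ (-C) :=
      mul_le_of_le_one_left (by positivity) hle1
    have e3 : ((A ×ˢ (univ : Finset (κ × Bool))).card : ℝ) * (n * (n : ℝ) ^ (-C)) ≤
        (R * n * (n : ℝ) ^ (-C)) * (1 / (1 - u)) := by
      calc _ ≤ R * (n * (n : ℝ) ^ (-C)) := mul_le_mul_of_nonneg_right hcardR (by positivity)
        _ = (R * n * (n : ℝ) ^ (-C)) * 1 := by ring
        _ ≤ _ := mul_le_mul_of_nonneg_left h1u' (by positivity)
    have e4 := mul_le_mul_of_nonneg_right e2 hinv.le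
    nlinarith
  have hsum := Finset.sum_le_sum hT2
  rw [Finset.sum_const, nsmul_eq_mul] at hsum
  have hcard : ((W.powerset.filter (fun A => A ⊂ W ∧ A.Nonempty)).card : ℝ) ≤ 2 ^ W.card := by
    have : (W.powerset.filter (fun A => A ⊂ W ∧ A.Nonempty)).card ≤ 2 ^ W.card := by
      rw [← Finset.card_powerset]; exact Finset.card_filter_le _ _
    exact_mod_cast this
  set X := (M0 * (n : ℝ) ^ (-(5 / 8 * (W.card : ℝ) + 2 * ξ)) * mass +
        (M0 + 2 * ((n : ℝ) ^ K * J) + R * n) * (n : ℝ) ^ (-C)) * (1 / (1 - u)) with hX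
  have hX0 : 0 ≤ X := by positivity
  have h5 := mul_le_mul_of_nonneg_right hcard hX0
  have h6 : (n : ℝ) ^ K * J * (n : ℝ) ^ (-C) ≤
      2 ^ W.card * ((n : ℝ) ^ K * J) * (n : ℝ) ^ (-C) * (1 / (1 - u)) := by
    have h2 : (1 : ℝ) ≤ 2 ^ W.card := one_le_pow₀ (by norm_num)
    calc (n : ℝ) ^ K * J * (n : ℝ) ^ (-C) = 1 * ((n : ℝ) ^ K * J * (n : ℝ) ^ (-C)) * 1 := by ring
      _ ≤ 2 ^ W.card * ((n : ℝ) ^ K * J * (n : ℝ) ^ (-C)) * (1 / (1 - u)) := by gcongr
      _ = _ := by ring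
  rw [hX] at h5
  nlinarith

end main

end ZOL
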