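import Pool.Agent.ZOL.Flow4

/-!
# Flow argument, part 5: integration of the differential inequalities at a fixed `n`
-/

namespace ZOL

open Filter Finset

section main

variable {κ ι β : Type} [Fintype κ] [DecidableEq κ] [Fintype ι]
  [DecidableEq ι] [Fintype β] [DecidableEq β] {c K j n : ℕ}

/-- the constant mass term of the flow -/
noncomputable def G0 (κ : Type) [Fintype κ] [DecidableEq κ] {ι : Type} [DecidableEq ι]
    (K n : ℕ) (C M0 ξ : ℝ) (W : Finset ι) (mass : ℝ) : ℝ :=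
  2 ^ W.card * M0 * (n : ℝ) ^ (-(5 / 8 * (W.card : ℝ) + 2 * ξ)) * mass +
      2 ^ W.card * (M0 + 3 * ((n : ℝ) ^ K * (JW (κ := κ) (V := Fin n) W).card) +
        (W ×ˢ (univ : Finset (κ × Bool))).card * n) * (n : ℝ) ^ (-C)

omit [Fintype ι] in
lemma G0_nonneg {C M0 ξ mass : ℝ} (hM0 : 0 < M0) {W : Finset ι} (hm : 0 ≤ mass) :
    0 ≤ G0 κ K n C M0 ξ W mass := by
  unfold G0
  have : (0 : ℝ) ≤ (n : ℝ) ^ (-C) := Real.rpow_nonneg (Nat.cast_nonneg n) _
  have : (0 : ℝ) ≤ (n : ℝ) ^ (-(5 / 8 * (W.card : ℝ) + 2 * ξ)) :=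
    Real.rpow_nonneg (Nat.cast_nonneg n) _
  positivity

lemma flow_n (hn : 0 < n) {C M0 ξ u0 : ℝ} (hM0 : 0 < M0) (hξ : 0 ≤ ξ) (hu0 : 0 < u0)
    (hu0' : u0 ≤ 1 / 2) (hn20 : (n : ℝ) ^ (-(1 / 20 : ℝ)) ≤ 1 / 2)
    (hCE : CEn κ ι β c K j n C M0) (hTR : TRn κ ι β c K (j + 1) n (1 / 40) C) {m : ℕ}
    {t : Fin m → St κ (Fin n) → Bool} {h : St κ (Fin n) → Bool} (hm : m ≤ n ^ K)
    (ht : ∀ l, Lev c (n ^ K) j (t l)) (hh : ∀ x, h x = true ↔ ∃ l, t l x = true)
    {g : St κ ι} {B W : Finset ι} (hBW : Disjoint B W)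
    (hn40 : 2 ^ W.card * (n : ℝ) ^ (1 / 40 : ℝ) * (n : ℝ) ^ (-(1 / 20 : ℝ)) ≤ 1)
    (hF1 : ∀ w' < W.card, 0 < w' → FBn κ ι (β ⊕ Unit) c K j n C w' (5 / 8 * w' + ξ))
    (hF2 : ∀ w' < W.card, 0 < w' → FBn κ ι β c K j n C w' (5 / 8 * w' + ξ))
    {D : St κ (Fin n ⊕ ι) → (β → Fin n) → ℝ} (hDs : Sym D) (hD : ∀ M v, 0 ≤ D M v ∧ D M v ≤ 1)
    {ω : St κ (Fin n ⊕ ι) → (ι → Fin n) → (β → Fin n) → ℝ} (hω : Indep W ω)
    (hω1 : ∀ M a v, 0 ≤ ω M a v ∧ ω M a v ≤ 1) :
    avM (fun M a v => ω M a v * D M v * ind (Fev h g B W M a)) ≤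
      3 * (Real.exp (M0 / (2 * u0)) *
        (avM (fun M a v => ω M a v * nD W u0 D M v * ind (Fev h g B W M a)) +
          1 / (2 * u0) * G0 κ K n C M0 ξ W (avM (fun M a v => ω M a v * D M v)) *
            (1 / 20 * Real.log n)) + (n : ℝ) ^ (-C)) := by
  have hnR : (1 : ℝ) ≤ n := by exact_mod_cast hn
  have hn0 : (0 : ℝ) < n := by linarith
  set mass := avM (fun M a v => ω M a v * D M v) with hmass
  have hmass0 : 0 ≤ mass := avM_nonneg fun M a v => mul_nonneg (hω1 M a v).1 (hD M v).1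
  set G := G0 κ K n C M0 ξ W mass with hG
  have hG0 : 0 ≤ G := G0_nonneg hM0 hmass0
  set u1 : ℝ := 1 - (n : ℝ) ^ (-(1 / 20 : ℝ)) with hu1
  have hpos20 : (0 : ℝ) < (n : ℝ) ^ (-(1 / 20 : ℝ)) := Real.rpow_pos_of_pos hn0 _
  have hu1h : 1 / 2 ≤ u1 := by rw [hu1]; linarith
  have hu1lt : u1 < 1 := by rw [hu1]; linarith
  have hu01 : u0 ≤ u1 := hu0'.trans hu1h
  have hC0 : 0 ≤ (n : ℝ) ^ (-C) := Real.rpow_nonneg (Nat.cast_nonneg n) _
  have hlev : Lev c (n ^ K) (j + 1) h := ⟨m, t, hm, ht, Or.inl hh⟩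
  -- the flow function
  set φ : ℝ → ℝ := fun u => avM (fun M a v => (ω M a v * ind (Fev h g B W M a)) *
    nD W u D M v) with hφ
  set φ' : ℝ → ℝ := fun u => avM (fun M a v => (ω M a v * ind (Fev h g B W M a)) *
    (1 / (2 * u) * ∑ i ∈ JW W, (nD W u D M v - nD W u D (flipS {i} M) v))) with hφ'
  have hφeq : ∀ u, φ u = avM (fun M a v => ω M a v * nD W u D M v * ind (Fev h g B W M a)) :=
    fun u => avM_congr fun M a v => by ring
  have hφ1 : φ 1 = avM (fun M a v => ω M a v * D M v * ind (Fev h g B W M a)) := by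
    rw [hφeq]; exact avM_congr fun M a v => by rw [nD_one]
  have hφ0 : ∀ u, 0 ≤ u → u ≤ 1 → 0 ≤ φ u := fun u h0 h1 => avM_nonneg fun M a v =>
    mul_nonneg (mul_nonneg (hω1 M a v).1 (ind_nonneg _)) (nD_nonneg h0 h1 hD M v)
  have hder : ∀ u, u ≠ 0 → HasDerivAt φ (φ' u) u := fun u hu =>
    hasDerivAt_avM_nD W D (fun M a v => ω M a v * ind (Fev h g B W M a)) hu
  have hderle : ∀ u, 0 < u → φ' u ≤ 1 / (2 * u) * avM (fun M a v => ω M a v *
        ∑ i ∈ JW W, ind (Fev h g B W M a ∧ ¬ Fev h g B W (flipS {i} M) a) * dP W u D i M v) :=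
    fun u hu => deriv_le (F := fun M a => Fev h g B W M a) hu
      (fun i hi M a v => indep_flip hω hi M a v) (fun M a v => (hω1 M a v).1)
  -- region 1
  have hr1 : φ u1 ≤ Real.exp (M0 / (2 * u0) * (u1 - u0)) *
      (φ u0 + (-(1 / (2 * u0) * G * Real.log (1 - u1)) -
        -(1 / (2 * u0) * G * Real.log (1 - u0)))) := by
    apply gron (φ := φ) (φ' := φ') (g := fun u => -(1 / (2 * u0) * G * Real.log (1 - u)))
      (g' := fun u => 1 / (2 * u0) * G * (1 / (1 - u))) hu01 (by positivity)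
    · intro u hu
      exact hder u (by linarith [hu.1])
    · intro u hu
      have h1 : (1 - u) ≠ 0 := by linarith [hu.2]
      have h2 : HasDerivAt (fun u : ℝ => 1 - u) (-1) u := by
        simpa using (hasDerivAt_id' u).const_sub 1
      have h3 := ((h2.log h1).const_mul (1 / (2 * u0) * G)).fun_neg
      have h4 : -(1 / (2 * u0) * G * (-1 / (1 - u))) = 1 / (2 * u0) * G * (1 / (1 - u)) := by
        rw [neg_div]; ring
      rw [h4] at h3
      exact h3
    · intro u hu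
      have h1 : 0 < 1 - u := by linarith [hu.2]
      positivity
    · intro u hu
      have hupos : 0 < u := by linarith [hu.1]
      have h1u : 0 < 1 - u := by linarith [hu.2]
      have hmr := main_region hn hM0 hξ hCE hm ht hh (g := g) hBW hF1 hF2 hDs hD hupos.le
        (hu.2.trans_eq hu1) hω hω1
      rw [← hφeq u] at hmr
      have hφu := hφ0 u hupos.le (by linarith)
      refine (hderle u hupos).trans ?_
      have h2 : (1 : ℝ) / (2 * u) ≤ 1 / (2 * u0) := by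
        apply one_div_le_one_div_of_le (by positivity)
        linarith [hu.1]
      have hinner : 0 ≤ M0 * φ u + G * (1 / (1 - u)) := by positivity
      calc _ ≤ 1 / (2 * u) * (M0 * φ u + G * (1 / (1 - u))) :=
            mul_le_mul_of_nonneg_left hmr (by positivity)
        _ ≤ 1 / (2 * u0) * (M0 * φ u + G * (1 / (1 - u))) :=
            mul_le_mul_of_nonneg_right h2 hinner
        _ = _ := by field_simp
  have hlog1 : Real.log (1 - u1) = -(1 / 20 * Real.log n) := by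
    rw [hu1, sub_sub_cancel, Real.log_rpow hn0]; ring
  have hlog0 : Real.log (1 - u0) ≤ 0 := Real.log_nonpos (by linarith) (by linarith)
  have hlogn : 0 ≤ Real.log n := Real.log_nonneg hnR
  have hr1' : φ u1 ≤ Real.exp (M0 / (2 * u0)) * (φ u0 + 1 / (2 * u0) * G *
      (1 / 20 * Real.log n)) := by
    refine hr1.trans ?_
    rw [hlog1]
    have h1 : Real.exp (M0 / (2 * u0) * (u1 - u0)) ≤ Real.exp (M0 / (2 * u0)) := by
      apply Real.exp_le_exp.2
      have : M0 / (2 * u0) * (u1 - u0) ≤ M0 / (2 * u0) * 1 :=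
        mul_le_mul_of_nonneg_left (by linarith) (by positivity)
      linarith
    have h2 : φ u0 + (-(1 / (2 * u0) * G * -(1 / 20 * Real.log n)) -
        -(1 / (2 * u0) * G * Real.log (1 - u0))) ≤
        φ u0 + 1 / (2 * u0) * G * (1 / 20 * Real.log n) := by
      have : 1 / (2 * u0) * G * Real.log (1 - u0) ≤ 0 :=
        mul_nonpos_of_nonneg_of_nonpos (by positivity) hlog0
      linarith
    have h3 : 0 ≤ φ u0 + 1 / (2 * u0) * G * (1 / 20 * Real.log n) := by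
      have := hφ0 u0 hu0.le (by linarith)
      positivity
    calc _ ≤ Real.exp (M0 / (2 * u0) * (u1 - u0)) *
          (φ u0 + 1 / (2 * u0) * G * (1 / 20 * Real.log n)) :=
          mul_le_mul_of_nonneg_left h2 (Real.exp_pos _).le
      _ ≤ _ := mul_le_mul_of_nonneg_right h1 h3
  -- region 2
  have hr2 : φ 1 ≤ Real.exp (2 ^ W.card * (n : ℝ) ^ (1 / 40 : ℝ) * (1 - u1)) *
      (φ u1 + ((n : ℝ) ^ (-C) * 1 - (n : ℝ) ^ (-C) * u1)) := by
    apply gron (φ := φ) (φ' := φ') (g := fun u => (n : ℝ) ^ (-C) * u)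
      (g' := fun _ => (n : ℝ) ^ (-C)) hu1lt.le (by positivity)
    · intro u hu
      exact hder u (by linarith [hu.1])
    · intro u _
      simpa using (hasDerivAt_id' u).const_mul ((n : ℝ) ^ (-C))
    · intro u _
      exact hC0
    · intro u hu
      have hupos : 0 < u := by linarith [hu.1]
      have htr := hTR h hlev g B W hBW D hD ω hω1 u hupos.le hu.2
      rw [← hφeq u] at htr
      have hφu := hφ0 u hupos.le hu.2
      refine (hderle u hupos).trans ?_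
      have h2 : (1 : ℝ) / (2 * u) ≤ 1 := by
        rw [div_le_one (by positivity)]
        linarith [hu.1]
      have hinner : 0 ≤ 2 ^ W.card * (n : ℝ) ^ (1 / 40 : ℝ) * φ u + (n : ℝ) ^ (-C) := by
        positivity
      calc _ ≤ 1 / (2 * u) * (2 ^ W.card * (n : ℝ) ^ (1 / 40 : ℝ) * φ u + (n : ℝ) ^ (-C)) :=
            mul_le_mul_of_nonneg_left htr (by positivity)
        _ ≤ 1 * (2 ^ W.card * (n : ℝ) ^ (1 / 40 : ℝ) * φ u + (n : ℝ) ^ (-C)) :=
            mul_le_mul_of_nonneg_right h2 hinner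
        _ = _ := one_mul _
  have hr2' : φ 1 ≤ 3 * (φ u1 + (n : ℝ) ^ (-C)) := by
    refine hr2.trans ?_
    have h1 : Real.exp (2 ^ W.card * (n : ℝ) ^ (1 / 40 : ℝ) * (1 - u1)) ≤ 3 := by
      have : 2 ^ W.card * (n : ℝ) ^ (1 / 40 : ℝ) * (1 - u1) ≤ 1 := by
        rw [hu1, sub_sub_cancel]; exact hn40
      calc _ ≤ Real.exp 1 := Real.exp_le_exp.2 this
        _ ≤ 3 := by have := Real.exp_one_lt_d9; linarith
    have hφu1 := hφ0 u1 (by linarith) hu1lt.le
    have h2 : φ u1 + ((n : ℝ) ^ (-C) * 1 - (n : ℝ) ^ (-C) * u1) ≤ φ u1 + (n : ℝ) ^ (-C) := by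
      have : 0 ≤ (n : ℝ) ^ (-C) * u1 := mul_nonneg hC0 (by linarith)
      linarith
    calc _ ≤ Real.exp (2 ^ W.card * (n : ℝ) ^ (1 / 40 : ℝ) * (1 - u1)) *
          (φ u1 + (n : ℝ) ^ (-C)) := mul_le_mul_of_nonneg_left h2 (Real.exp_pos _).le
      _ ≤ _ := mul_le_mul_of_nonneg_right h1 (by positivity)
  rw [← hφ1, ← hφeq u0]
  refine hr2'.trans ?_
  linarith

end main

end ZOL
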