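import Pool.Agent.ZOL.TKJR

/-!
# TK: bounded depth circuits have few minimal sensitive sets at most points
-/

set_option autoImplicit false

open Finset Filter Topology
open scoped BigOperators

namespace ZOL73

open ZOL

theorem av_eq_expect {α : Type*} [Fintype α] (f : α → ℝ) : av f = 𝔼 x, f x := by
  rw [av, Fintype.expect_eq_sum_div_card]

theorem av_ind_eq {α : Type*} [Fintype α] (p : α → Prop) : av (fun x => ind (p x)) = Pr p := by
  classical
  rw [av_eq_expect, Pr_eq]
  refine expect_congr rfl fun x _ => ?_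
  unfold ind
  by_cases h : p x <;> simp [h]

section one
variable {I : Type} [DecidableEq I]

theorem flipS_restr {R A : Finset I} (hA : A ⊆ R) (z : I → Bool) :
    R.piecewise (flipS A z) z = flipS A z := by
  funext i
  by_cases h : i ∈ R
  · simp [h]
  · have : i ∉ A := fun h' => h (hA h')
    simp [h, flipS, this]

/-- minimal sensitive sets inside `R` survive the restriction -/
theorem minSens_restr {f : (I → Bool) → Bool} {z : I → Bool} {S R : Finset I} (hS : MinSens f z S)
    (hR : S ⊆ R) : MinSens (restr f R z) z S := by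
  have e : ∀ A : Finset I, A ⊆ R → restr f R z (flipS A z) = f (flipS A z) := by
    intro A hA
    unfold restr
    rw [flipS_restr hA]
  have e0 : restr f R z z = f z := by
    unfold restr
    rw [piecewise_same]
  refine ⟨?_, fun A hA => ?_⟩
  · rw [e S hR, e0]
    exact hS.1
  · rw [e A (hA.1.trans hR), e0]
    exact hS.2 A hA

/-- minimal sensitive sets of a junta are subsets of its support -/
theorem minSens_subset {f : (I → Bool) → Bool} {J : Finset I}
    (hJ : ∀ x y, (∀ i ∈ J, x i = y i) → f x = f y) {z : I → Bool} {S : Finset I}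
    (hS : MinSens f z S) : S ⊆ J := by
  by_contra h
  have h1 : S ∩ J ⊂ S := by
    refine ⟨inter_subset_left, fun h' => h fun i hi => ?_⟩
    exact (mem_inter.1 (h' hi)).2
  have h2 := hS.2 _ h1
  apply hS.1
  rw [← h2]
  apply hJ
  intro i hi
  by_cases hiS : i ∈ S <;> simp [flipS, hiS, hi]

end one

section count
variable {I : Type} [Fintype I] [DecidableEq I]

/-- the minimal sensitive sets of size `w` -/
noncomputable def MS (f : (I → Bool) → Bool) (z : I → Bool) (w : ℕ) : Finset (Finset I) := by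
  classical
  exact univ.filter fun S => S.card = w ∧ MinSens f z S

theorem mem_MS {f : (I → Bool) → Bool} {z : I → Bool} {w : ℕ} {S : Finset I} :
    S ∈ MS f z w ↔ S.card = w ∧ MinSens f z S := by
  classical
  simp [MS]

theorem numMS_eq (f : (I → Bool) → Bool) (z : I → Bool) (w : ℕ) :
    numMS f z w = (MS f z w).card := by
  classical
  unfold numMS MS
  rw [card_filter]
  push_cast
  refine sum_congr rfl fun S _ => ?_
  unfold ind
  by_cases h : S.card = w ∧ MinSens f z S <;> simp [h]

theorem card_MS_junta {c : ℕ} {f : (I → Bool) → Bool} (hf : Junta c f) (z : I → Bool) (w : ℕ) :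
    (MS f z w).card ≤ 2 ^ c := by
  obtain ⟨J, hJ, h⟩ := hf
  calc (MS f z w).card ≤ J.powerset.card := by
        refine card_le_card fun S hS => ?_
        rw [mem_powerset]
        exact minSens_subset h (mem_MS.1 hS).2
    _ = 2 ^ J.card := card_powerset _
    _ ≤ 2 ^ c := Nat.pow_le_pow_right (by norm_num) hJ

theorem card_MS_le (f : (I → Bool) → Bool) (z : I → Bool) (w : ℕ) :
    (MS f z w).card ≤ Fintype.card I ^ w := by
  calc (MS f z w).card ≤ (powersetCard w (univ : Finset I)).card := by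
        refine card_le_card fun S hS => ?_
        rw [mem_powersetCard]
        exact ⟨subset_univ _, (mem_MS.1 hS).1⟩
    _ = (Fintype.card I).choose w := by rw [card_powersetCard, card_univ]
    _ ≤ _ := Nat.choose_le_pow _ _

/-- the moment inequality -/
theorem moment_le (f : (I → Bool) → Bool) (z : I → Bool) (w T j m : ℕ) (hm : 0 < m) :
    ((MS f z w).card : ℝ) ^ T * (1 / (m : ℝ)) ^ (j * (w * T)) ≤
      𝔼 ρ : Die I m j, ((MS (restr f (RR j ρ) z) z w).card : ℝ) ^ T := by
  classical
  have hne := Die.nonempty (I := I) hm j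
  -- tuples
  set P : Finset (Fin T → Finset I) := Fintype.piFinset fun _ => MS f z w with hP
  have hPc : (P.card : ℝ) = ((MS f z w).card : ℝ) ^ T := by
    rw [hP, Fintype.card_piFinset, prod_const, card_univ, Fintype.card_fin]
    push_cast
    rfl
  have h1 : ∀ ρ : Die I m j, (∑ S ∈ P, if (univ.biUnion S) ⊆ RR j ρ then (1 : ℝ) else 0) ≤
      ((MS (restr f (RR j ρ) z) z w).card : ℝ) ^ T := by
    intro ρ
    rw [← sum_filter, sum_const, nsmul_eq_mul, mul_one]
    have h2 : (P.filter fun S => (univ.biUnion S) ⊆ RR j ρ) ⊆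
        Fintype.piFinset fun _ => MS (restr f (RR j ρ) z) z w := by
      intro S hS
      rw [mem_filter, hP, Fintype.mem_piFinset] at hS
      rw [Fintype.mem_piFinset]
      intro i
      have h3 := mem_MS.1 (hS.1 i)
      refine mem_MS.2 ⟨h3.1, minSens_restr h3.2 ?_⟩
      exact (subset_biUnion_of_mem S (mem_univ i)).trans hS.2
    have h4 := card_le_card h2
    rw [Fintype.card_piFinset, prod_const, card_univ, Fintype.card_fin] at h4
    exact_mod_cast h4
  calc ((MS f z w).card : ℝ) ^ T * (1 / (m : ℝ)) ^ (j * (w * T)) =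
        ∑ S ∈ P, (1 / (m : ℝ)) ^ (j * (w * T)) := by
          rw [sum_const, nsmul_eq_mul, hPc]
    _ ≤ ∑ S ∈ P, 𝔼 ρ : Die I m j, (if (univ.biUnion S) ⊆ RR j ρ then (1 : ℝ) else 0) := by
        refine sum_le_sum fun S hS => ?_
        rw [← Pr_eq (fun ρ : Die I m j => (univ.biUnion S) ⊆ RR j ρ), Pr_RR hm]
        have hm1 : (1 / (m : ℝ)) ≤ 1 := by
          rw [div_le_one (by positivity)]
          exact_mod_cast hm
        apply pow_le_pow_of_le_one (by positivity) hm1
        apply Nat.mul_le_mul_left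
        rw [hP, Fintype.mem_piFinset] at hS
        calc (univ.biUnion S).card ≤ (univ : Finset (Fin T)).card * w :=
              card_biUnion_le_card_mul _ _ _ fun i _ => (mem_MS.1 (hS i)).1.le
          _ = w * T := by rw [card_univ, Fintype.card_fin, mul_comm]
    _ = 𝔼 ρ : Die I m j, ∑ S ∈ P, (if (univ.biUnion S) ⊆ RR j ρ then (1 : ℝ) else 0) := by
        rw [expect_sum_comm]
    _ ≤ _ := expect_mono' h1

end count

theorem tk (c K K1 j w : ℕ) (ε C : ℝ) (hε : 0 < ε) : ∀ᶠ n : ℕ in atTop,
    ∀ (I : Type) [Fintype I] [DecidableEq I], Fintype.card I ≤ n ^ K1 →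
    ∀ f : (I → Bool) → Bool, Lev c (n ^ K) j f →
    Pr (fun z : I → Bool => (n : ℝ) ^ ε < numMS f z w) ≤ (n : ℝ) ^ (-C) := by
  -- parameters
  set ε' : ℝ := ε / (2 * ((j : ℝ) * w + 1)) with hε'
  have hjw : 0 < (j : ℝ) * w + 1 := by positivity
  have hε'0 : 0 < ε' := by positivity
  obtain ⟨T, hT⟩ : ∃ T : ℕ, C + 1 ≤ (ε / 2) * (T : ℝ) := by
    obtain ⟨T, hT⟩ := exists_nat_ge ((C + 1) / (ε / 2))
    refine ⟨T, ?_⟩
    rw [div_le_iff₀ (by positivity)] at hT
    linarith
  obtain ⟨c', hc'⟩ := jr.{0} c K j ε' ((K1 : ℝ) * w * T) hε'0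
  filter_upwards [hc', eventually_ge_atTop 1,
    eventually_ge_atTop (2 ^ (j * (w * T)) * (2 ^ (c' * T) + 1))] with n h1 hn1' hnB I _ _ hI f hf
  have hn1 : (1 : ℝ) ≤ n := by exact_mod_cast hn1'
  have hn0 : (0 : ℝ) < n := by linarith
  have hnε : 1 ≤ (n : ℝ) ^ ε' := Real.one_le_rpow hn1 hε'0.le
  set m := ⌈(n : ℝ) ^ ε'⌉₊ with hm
  have hm1 : (n : ℝ) ^ ε' ≤ m := Nat.le_ceil _
  have hm2 : (m : ℝ) ≤ 2 * (n : ℝ) ^ ε' := by
    have := (Nat.ceil_lt_add_one (by positivity : 0 ≤ (n : ℝ) ^ ε')).le
    linarith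
  have hm0 : 0 < m := Nat.ceil_pos.2 (by positivity)
  have hmr : (0 : ℝ) < m := by exact_mod_cast hm0
  have hne := Die.nonempty (I := I) hm0 j
  have h2 := h1 m hm1 I f hf
  -- the moment
  have hmom : 𝔼 z : I → Bool, ((MS f z w).card : ℝ) ^ T ≤
      (m : ℝ) ^ (j * (w * T)) * (2 ^ (c' * T) + 1) := by
    have h3 : (𝔼 z : I → Bool, ((MS f z w).card : ℝ) ^ T) * (1 / (m : ℝ)) ^ (j * (w * T)) ≤
        2 ^ (c' * T) + 1 := by
      calc (𝔼 z : I → Bool, ((MS f z w).card : ℝ) ^ T) * (1 / (m : ℝ)) ^ (j * (w * T)) =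
          𝔼 z : I → Bool, ((MS f z w).card : ℝ) ^ T * (1 / (m : ℝ)) ^ (j * (w * T)) := by
            rw [expect_mul]
        _ ≤ 𝔼 z : I → Bool, 𝔼 ρ : Die I m j,
              ((MS (restr f (RR j ρ) z) z w).card : ℝ) ^ T :=
            expect_mono' fun z => moment_le f z w T j m hm0
        _ = 𝔼 x : Die I m j × (I → Bool),
              ((MS (restr f (RR j x.1) x.2) x.2 w).card : ℝ) ^ T := by
            rw [expect_prod, expect_comm]
        _ ≤ 𝔼 x : Die I m j × (I → Bool), ((2 : ℝ) ^ (c' * T) +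
              (open Classical in if ¬ Junta c' (restr f (RR j x.1) x.2) then (1 : ℝ) else 0) *
              (n : ℝ) ^ ((K1 : ℝ) * w * T)) := by
            refine expect_mono' fun x => ?_
            by_cases h : Junta c' (restr f (RR j x.1) x.2)
            · rw [if_neg (not_not.2 h), zero_mul, add_zero, pow_mul]
              gcongr
              exact_mod_cast card_MS_junta h x.2 w
            · rw [if_pos h, one_mul]
              have h5 : ((MS (restr f (RR j x.1) x.2) x.2 w).card : ℝ) ^ T ≤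
                  (n : ℝ) ^ ((K1 : ℝ) * w * T) := by
                rw [Real.rpow_mul hn0.le, Real.rpow_mul hn0.le, Real.rpow_natCast,
                  Real.rpow_natCast, Real.rpow_natCast]
                gcongr
                have h6 := (card_MS_le (restr f (RR j x.1) x.2) x.2 w).trans
                  (Nat.pow_le_pow_left hI w)
                exact_mod_cast h6
              have : (0 : ℝ) ≤ 2 ^ (c' * T) := by positivity
              linarith
        _ = 2 ^ (c' * T) + Pr (fun x : Die I m j × (I → Bool) =>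
              ¬ Junta c' (restr f (RR j x.1) x.2)) * (n : ℝ) ^ ((K1 : ℝ) * w * T) := by
            rw [expect_add_distrib, Fintype.expect_const, ← expect_mul]
            congr 2
            unfold Pr
            refine expect_congr rfl fun x _ => ?_
            by_cases h : Junta c' (restr f (RR j x.1) x.2) <;> simp [h]
        _ ≤ 2 ^ (c' * T) + (n : ℝ) ^ (-((K1 : ℝ) * w * T)) * (n : ℝ) ^ ((K1 : ℝ) * w * T) := by
            gcongr
        _ = 2 ^ (c' * T) + 1 := by
            rw [← Real.rpow_add hn0, neg_add_cancel, Real.rpow_zero]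
    rw [one_div, inv_pow, ← div_eq_mul_inv, div_le_iff₀ (by positivity)] at h3
    linarith
  -- Markov
  have hεT : 0 < ((n : ℝ) ^ ε) ^ T := by positivity
  calc Pr (fun z : I → Bool => (n : ℝ) ^ ε < numMS f z w) ≤
      Pr (fun z : I → Bool => ((n : ℝ) ^ ε) ^ T ≤ ((MS f z w).card : ℝ) ^ T) := by
        refine Pr_mono fun z hz => ?_
        rw [numMS_eq] at hz
        gcongr
    _ ≤ (𝔼 z : I → Bool, ((MS f z w).card : ℝ) ^ T) / ((n : ℝ) ^ ε) ^ T :=
        Pr_markov (fun z => by positivity) hεT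
    _ ≤ ((m : ℝ) ^ (j * (w * T)) * (2 ^ (c' * T) + 1)) / ((n : ℝ) ^ ε) ^ T := by gcongr
    _ ≤ ((2 * (n : ℝ) ^ ε') ^ (j * (w * T)) * (2 ^ (c' * T) + 1)) / ((n : ℝ) ^ ε) ^ T := by gcongr
    _ = (2 ^ (j * (w * T)) * (2 ^ (c' * T) + 1)) *
          (((n : ℝ) ^ ε') ^ (j * (w * T)) / ((n : ℝ) ^ ε) ^ T) := by
        rw [mul_pow]; ring
    _ ≤ (n : ℝ) * (n : ℝ) ^ (-(C + 1)) := by
        have h6 : ((n : ℝ) ^ ε') ^ (j * (w * T)) / ((n : ℝ) ^ ε) ^ T ≤ (n : ℝ) ^ (-(C + 1)) := by
          rw [← Real.rpow_natCast, ← Real.rpow_natCast, ← Real.rpow_mul hn0.le,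
            ← Real.rpow_mul hn0.le, ← Real.rpow_sub hn0]
          apply Real.rpow_le_rpow_of_exponent_le hn1
          push_cast
          have h7 : ε' * ((j : ℝ) * (w * T)) ≤ ε / 2 * T := by
            calc ε' * ((j : ℝ) * (w * T)) = (ε / 2 * T) * (((j : ℝ) * w) / ((j : ℝ) * w + 1)) := by
                  rw [hε']; field_simp
              _ ≤ (ε / 2 * T) * 1 := by
                  gcongr
                  rw [div_le_one hjw]
                  linarith
              _ = _ := mul_one _
          linarith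
        have h8 : ((2 : ℝ) ^ (j * (w * T)) * (2 ^ (c' * T) + 1)) ≤ n := by exact_mod_cast hnB
        gcongr
    _ = (n : ℝ) ^ (-C) := by
        nth_rewrite 1 [← Real.rpow_one (n : ℝ)]
        rw [← Real.rpow_add hn0]; congr 1; ring

end ZOL73

namespace ZOL

/-- **TK** -/
theorem stmtTK : StmtTK := by
  intro c K K1 j w ε C hε
  filter_upwards [ZOL73.tk c K K1 j w ε C hε] with n hn I _ _ hI f hf
  rw [ZOL73.av_ind_eq]
  exact hn I hI f hf

end ZOL
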