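import Pool.Agent.ZOL.Flow3
import Pool.Agent.ZOL.TK

/-!
# Flow argument: the region near `u = 1`
-/

namespace ZOL.Top

open Filter Finset

section gen

variable {κ ι V : Type}

/-- every bit of the glued structure depends on at most one bit -/
lemma glue_dep [DecidableEq κ] [DecidableEq ι] [DecidableEq V] (g : St κ ι) (a : ι → V)
    (A : Finset ι) (p : V × V × κ) :
    ∃ s : Finset ((V ⊕ ι) × (V ⊕ ι) × κ), s.card ≤ 1 ∧ ∀ M M' : St κ (V ⊕ ι),
      (∀ i ∈ s, M i = M' i) → glue g a A M p = glue g a A M' p := by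
  obtain ⟨x, y, c⟩ := p
  refine ⟨{(ctx a A x, ctx a A y, c)}, by simp, fun M M' h => ?_⟩
  have h1 := h _ (mem_singleton_self _)
  show ovr g M (ctx a A x, ctx a A y, c) = ovr g M' (ctx a A x, ctx a A y, c)
  revert h1
  generalize ctx a A x = p
  generalize ctx a A y = q
  intro h1
  rcases p with p | p
  · rw [ovr_inl_left, ovr_inl_left]; exact h1
  · rcases q with q | q
    · rw [ovr_inl_right, ovr_inl_right]; exact h1
    · rw [ovr_inr, ovr_inr]

lemma lev_glue [DecidableEq κ] [DecidableEq ι] [DecidableEq V] {c S j : ℕ} {h : St κ V → Bool}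
    (hh : Lev c S j h) (g : St κ ι) (a : ι → V) (A : Finset ι) :
    Lev c S j (fun M : St κ (V ⊕ ι) => h (glue g a A M)) := by
  have := Lev.subst (d := 1) (glue g a A) (glue_dep g a A) j hh
  rwa [one_mul] at this

/-- single sensitive bits are minimal sensitive sets -/
lemma sens_le_numMS {I : Type*} [Fintype I] [DecidableEq I] (f : (I → Bool) → Bool)
    (z : I → Bool) (J : Finset I) :
    ∑ i ∈ J, ind (f (flipS {i} z) ≠ f z) ≤ numMS f z 1 := by
  classical
  unfold numMS
  have h1 : ∑ i ∈ J, ind (f (flipS {i} z) ≠ f z) ≤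
      ∑ i ∈ J, (fun S : Finset I => ind (S.card = 1 ∧ MinSens f z S)) {i} := by
    refine Finset.sum_le_sum fun i _ => ind_mono fun h => ⟨Finset.card_singleton i, h, ?_⟩
    intro A hA
    rw [Finset.ssubset_singleton_iff] at hA
    rw [hA, flipS_empty]
  refine h1.trans ?_
  rw [← Finset.sum_image (f := fun S : Finset I => ind (S.card = 1 ∧ MinSens f z S))
    (g := fun i => ({i} : Finset I)) (fun i _ j _ h => Finset.singleton_injective h)]
  exact Finset.sum_le_sum_of_subset_of_nonneg (Finset.subset_univ _) fun _ _ _ => ind_nonneg _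

/-- a flip which destroys the pattern changes one of the values -/
lemma fev_change [DecidableEq κ] [DecidableEq ι] [DecidableEq V] {h : St κ V → Bool}
    {g : St κ ι} {B W : Finset ι} {M M' : St κ (V ⊕ ι)} {a : ι → V} (h1 : Fev h g B W M a)
    (h2 : ¬ Fev h g B W M' a) :
    ∃ A ∈ W.powerset, h (glue g a (B ∪ A) M') ≠ h (glue g a (B ∪ A) M) := by
  by_contra hcon
  push Not at hcon
  refine h2 ⟨h1.1, ?_, fun A hA => ?_⟩
  · rw [hcon W (Finset.mem_powerset_self W)]
    exact h1.2.1
  · rw [hcon A (Finset.mem_powerset.2 hA.1)]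
    exact h1.2.2 A hA

end gen

theorem top_region (κ : Type) [Fintype κ] [DecidableEq κ] (ι β : Type) [Fintype ι]
    [DecidableEq ι] [Fintype β] [DecidableEq β] (c K j : ℕ) (ε C : ℝ) (hε : 0 < ε) :
    ∀ᶠ n : ℕ in atTop, ∀ h : St κ (Fin n) → Bool, Lev c (n ^ K) j h →
    ∀ (g : St κ ι) (B W : Finset ι), Disjoint B W →
    ∀ D : St κ (Fin n ⊕ ι) → (β → Fin n) → ℝ, (∀ M v, 0 ≤ D M v ∧ D M v ≤ 1) →
    ∀ ω : St κ (Fin n ⊕ ι) → (ι → Fin n) → (β → Fin n) → ℝ,
      (∀ M a v, 0 ≤ ω M a v ∧ ω M a v ≤ 1) →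
    ∀ u : ℝ, 0 ≤ u → u ≤ 1 →
    avM (fun M a v => ω M a v * ∑ i ∈ JW W,
      ind (Fev h g B W M a ∧ ¬ Fev h g B W (flipS {i} M) a) * dP W u D i M v) ≤
    2 ^ W.card * (n : ℝ) ^ ε *
      avM (fun M a v => ω M a v * nD W u D M v * ind (Fev h g B W M a)) + (n : ℝ) ^ (-C) := by
  classical
  set P : ℕ := 2 ^ Fintype.card ι * (Fintype.card ι * (Fintype.card κ * 2)) with hP
  filter_upwards [stmtTK c K 3 j 1 ε (C + 2) hε, eventually_ge_atTop (Fintype.card ι),
    eventually_ge_atTop (4 * Fintype.card κ), eventually_ge_atTop P,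
    eventually_ge_atTop 1] with n hTK hn1 hn2 hn3 hn4
  intro h hh g B W hBW D hD ω hω u hu0 hu1
  have hn0 : (0 : ℝ) < n := by exact_mod_cast hn4
  have hcard : Fintype.card ((Fin n ⊕ ι) × (Fin n ⊕ ι) × κ) ≤ n ^ 3 := by
    rw [Fintype.card_prod, Fintype.card_prod, Fintype.card_sum, Fintype.card_fin]
    calc (n + Fintype.card ι) * ((n + Fintype.card ι) * Fintype.card κ)
        ≤ (n + n) * ((n + n) * Fintype.card κ) := by gcongr
      _ = (4 * Fintype.card κ) * (n * n) := by ring
      _ ≤ n * (n * n) := Nat.mul_le_mul_right _ hn2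
      _ = n ^ 3 := by ring
  -- the bad events
  set S : Finset ι → St κ (Fin n ⊕ ι) → (ι → Fin n) → Prop := fun A M a =>
    (n : ℝ) ^ ε < numMS (fun M : St κ (Fin n ⊕ ι) => h (glue g a (B ∪ A) M)) M 1 with hS
  have hbad : ∀ A a, av (fun M : St κ (Fin n ⊕ ι) => ind (S A M a)) ≤ (n : ℝ) ^ (-(C + 2)) :=
    fun A a => hTK _ hcard _ (lev_glue hh g a (B ∪ A))
  have hJ : ((JW (κ := κ) (V := Fin n) W).card : ℝ) ≤
      (Fintype.card ι * (Fintype.card κ * 2) : ℕ) * n := by
    rw [card_JW, Fintype.card_fin]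
    have : W.card ≤ Fintype.card ι := Finset.card_le_univ W
    have h1 : W.card * (Fintype.card κ * 2) * n ≤ Fintype.card ι * (Fintype.card κ * 2) * n := by
      gcongr
    exact_mod_cast h1
  -- pointwise bound
  have hpt : ∀ M a v, ω M a v * ∑ i ∈ JW W,
      ind (Fev h g B W M a ∧ ¬ Fev h g B W (flipS {i} M) a) * dP W u D i M v ≤
      2 ^ W.card * (n : ℝ) ^ ε * (ω M a v * nD W u D M v * ind (Fev h g B W M a)) +
      ∑ A ∈ W.powerset, (JW (κ := κ) (V := Fin n) W).card * ind (S A M a) := by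
    intro M a v
    have hnn : 0 ≤ nD W u D M v := nD_nonneg hu0 hu1 hD M v
    have hω0 := (hω M a v).1
    have hω1 := (hω M a v).2
    by_cases hex : ∃ A ∈ W.powerset, S A M a
    · obtain ⟨A, hA, hSA⟩ := hex
      have h1 : ω M a v * ∑ i ∈ JW W,
          ind (Fev h g B W M a ∧ ¬ Fev h g B W (flipS {i} M) a) * dP W u D i M v ≤
          (JW (κ := κ) (V := Fin n) W).card := by
        have h2 : ∑ i ∈ JW W,
            ind (Fev h g B W M a ∧ ¬ Fev h g B W (flipS {i} M) a) * dP W u D i M v ≤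
            ∑ i ∈ JW (κ := κ) (V := Fin n) W, (1 : ℝ) := by
          refine Finset.sum_le_sum fun i _ => ?_
          exact mul_le_one₀ (ind_le_one _) (dP_nonneg _ _ _ _ _ _) (dP_le_one hu0 hu1 hD _ _ _)
        have h3 : 0 ≤ ∑ i ∈ JW W,
            ind (Fev h g B W M a ∧ ¬ Fev h g B W (flipS {i} M) a) * dP W u D i M v :=
          Finset.sum_nonneg fun i _ => mul_nonneg (ind_nonneg _) (dP_nonneg _ _ _ _ _ _)
        rw [Finset.sum_const, nsmul_eq_mul, mul_one] at h2
        calc _ ≤ 1 * ∑ i ∈ JW W,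
            ind (Fev h g B W M a ∧ ¬ Fev h g B W (flipS {i} M) a) * dP W u D i M v :=
              mul_le_mul_of_nonneg_right hω1 h3
          _ ≤ _ := by rw [one_mul]; exact h2
      have h4 : (JW (κ := κ) (V := Fin n) W).card * ind (S A M a) ≤
          ∑ A ∈ W.powerset, ((JW (κ := κ) (V := Fin n) W).card : ℝ) * ind (S A M a) :=
        Finset.single_le_sum (f := fun A => ((JW (κ := κ) (V := Fin n) W).card : ℝ) *
          ind (S A M a)) (fun A _ => mul_nonneg (Nat.cast_nonneg _) (ind_nonneg _)) hA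
      rw [ind_true' hSA, mul_one] at h4
      have h5 : 0 ≤ 2 ^ W.card * (n : ℝ) ^ ε *
          (ω M a v * nD W u D M v * ind (Fev h g B W M a)) := by
        have := ind_nonneg (Fev h g B W M a)
        positivity
      linarith
    · push Not at hex
      have h0 : 0 ≤ ∑ A ∈ W.powerset, ((JW (κ := κ) (V := Fin n) W).card : ℝ) * ind (S A M a) :=
        Finset.sum_nonneg fun A _ => mul_nonneg (Nat.cast_nonneg _) (ind_nonneg _)
      by_cases hF : Fev h g B W M a
      · rw [ind_true' hF, mul_one]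
        have h1 : ∑ i ∈ JW W,
            ind (Fev h g B W M a ∧ ¬ Fev h g B W (flipS {i} M) a) * dP W u D i M v ≤
            (∑ i ∈ JW W, ∑ A ∈ W.powerset,
              ind (h (glue g a (B ∪ A) (flipS {i} M)) ≠ h (glue g a (B ∪ A) M))) *
              nD W u D M v := by
          rw [Finset.sum_mul]
          refine Finset.sum_le_sum fun i _ => ?_
          refine mul_le_mul ?_ (dP_le hu0 hu1 hD _ _ _) (dP_nonneg _ _ _ _ _ _)
            (Finset.sum_nonneg fun _ _ => ind_nonneg _)
          by_cases hc : Fev h g B W M a ∧ ¬ Fev h g B W (flipS {i} M) a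
          · rw [ind_true' hc]
            obtain ⟨A, hA, hne⟩ := fev_change hc.1 hc.2
            have := Finset.single_le_sum (f := fun A =>
              ind (h (glue g a (B ∪ A) (flipS {i} M)) ≠ h (glue g a (B ∪ A) M)))
              (fun A _ => ind_nonneg _) hA
            rw [ind_true' hne] at this
            exact this
          · rw [ind_false' hc]
            exact Finset.sum_nonneg fun _ _ => ind_nonneg _
        have h2 : ∑ i ∈ JW W, ∑ A ∈ W.powerset,
              ind (h (glue g a (B ∪ A) (flipS {i} M)) ≠ h (glue g a (B ∪ A) M)) ≤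
            2 ^ W.card * (n : ℝ) ^ ε := by
          rw [Finset.sum_comm]
          have h3 : ∀ A ∈ W.powerset, ∑ i ∈ JW W,
              ind (h (glue g a (B ∪ A) (flipS {i} M)) ≠ h (glue g a (B ∪ A) M)) ≤
              (n : ℝ) ^ ε := by
            intro A hA
            refine (sens_le_numMS (fun M : St κ (Fin n ⊕ ι) => h (glue g a (B ∪ A) M)) M _).trans ?_
            exact not_lt.1 (hex A hA)
          refine (Finset.sum_le_sum h3).trans ?_
          rw [Finset.sum_const, Finset.card_powerset, nsmul_eq_mul]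
          push_cast
          exact le_rfl
        have h4 := mul_le_mul_of_nonneg_left (h1.trans (mul_le_mul_of_nonneg_right h2 hnn)) hω0
        calc _ ≤ _ := h4
          _ = 2 ^ W.card * (n : ℝ) ^ ε * (ω M a v * nD W u D M v) := by ring
          _ ≤ _ := le_add_of_nonneg_right h0
      · have h1 : ∑ i ∈ JW W,
            ind (Fev h g B W M a ∧ ¬ Fev h g B W (flipS {i} M) a) * dP W u D i M v = 0 := by
          refine Finset.sum_eq_zero fun i _ => ?_
          rw [ind_false' (fun hc => hF hc.1), zero_mul]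
        rw [h1, mul_zero, ind_false' hF, mul_zero, mul_zero, zero_add]
        exact h0
  have h1 := avM_mono hpt
  refine h1.trans ?_
  rw [avM_add, avM_mul_left]
  refine add_le_add le_rfl ?_
  rw [avM_sum (β := β) W.powerset (fun A M a _ =>
    ((JW (κ := κ) (V := Fin n) W).card : ℝ) * ind (S A M a))]
  have h2 : ∀ A ∈ W.powerset, avM (β := β) (fun (M : St κ (Fin n ⊕ ι)) a _ =>
      ((JW (κ := κ) (V := Fin n) W).card : ℝ) * ind (S A M a)) ≤
      ((Fintype.card ι * (Fintype.card κ * 2) : ℕ) * n) * (n : ℝ) ^ (-(C + 2)) := by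
    intro A _
    rw [avM_mul_left]
    refine mul_le_mul hJ ?_ (avM_nonneg fun _ _ _ => ind_nonneg _) (by positivity)
    rw [avM_eq_inner]
    exact av_le_of_le (by positivity) fun q => hbad A q.1
  refine (Finset.sum_le_sum h2).trans ?_
  rw [Finset.sum_const, Finset.card_powerset, nsmul_eq_mul]
  have h3 : ((2 ^ W.card : ℕ) : ℝ) * (((Fintype.card ι * (Fintype.card κ * 2) : ℕ) : ℝ) * n) ≤
      (n : ℝ) ^ (2 : ℝ) := by
    have h4 : 2 ^ W.card * ((Fintype.card ι * (Fintype.card κ * 2)) * n) ≤ n ^ 2 := by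
      calc 2 ^ W.card * ((Fintype.card ι * (Fintype.card κ * 2)) * n)
          ≤ 2 ^ Fintype.card ι * ((Fintype.card ι * (Fintype.card κ * 2)) * n) := by
            gcongr
            · norm_num
            · exact Finset.card_le_univ W
        _ = P * n := by rw [hP]; ring
        _ ≤ n * n := Nat.mul_le_mul_right _ hn3
        _ = n ^ 2 := by ring
    have h5 : (n : ℝ) ^ (2 : ℝ) = ((n ^ 2 : ℕ) : ℝ) := by
      rw [show (2 : ℝ) = ((2 : ℕ) : ℝ) by norm_num, Real.rpow_natCast]
      push_cast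
      rfl
    rw [h5]
    exact_mod_cast h4
  calc _ = (((2 ^ W.card : ℕ) : ℝ) * (((Fintype.card ι * (Fintype.card κ * 2) : ℕ) : ℝ) * n)) *
        (n : ℝ) ^ (-(C + 2)) := by ring
    _ ≤ (n : ℝ) ^ (2 : ℝ) * (n : ℝ) ^ (-(C + 2)) :=
        mul_le_mul_of_nonneg_right h3 (by positivity)
    _ = (n : ℝ) ^ (-C) := by
        rw [← Real.rpow_add hn0]
        congr 1
        ring

end ZOL.Top
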