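import Pool.Agent.ZOL.Flow1

/-!
# Flow argument: the starting point `u0`
-/

namespace ZOL

namespace U0

open Filter Finset

section noise

variable {I : Type*} [DecidableEq I]

lemma mJ_flip1_mem {J : Finset I} {i : I} (hi : i ∈ J) (D : (I → Bool) → ℝ) (y : I → Bool) :
    Noise.mJ J D (Noise.flip1 i y) = Noise.mJ J D y := by
  obtain ⟨L, hL, rfl⟩ : ∃ L, i ∉ L ∧ J = insert i L :=
    ⟨J.erase i, by simp, (Finset.insert_erase hi).symm⟩
  rw [Noise.mJ_insert hL, Noise.mJ_insert hL, Noise.flip1_flip1, add_comm]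

lemma mJ_flipS {J : Finset I} (D : (I → Bool) → ℝ) (t : Finset I) (ht : t ⊆ J) :
    ∀ y : I → Bool, Noise.mJ J D (flipS t y) = Noise.mJ J D y := by
  induction t using Finset.induction_on with
  | empty => intro y; rw [flipS_empty]
  | insert i t hi ih =>
    intro y
    rw [Noise.flipS_insert hi, ih (fun j hj => ht (Finset.mem_insert_of_mem hj))]
    exact mJ_flip1_mem (ht (Finset.mem_insert_self _ _)) D y

/-- the mean over `J` does not depend on the coordinates in `J` -/
lemma mJ_congr_off {J : Finset I} (D : (I → Bool) → ℝ) {x y : I → Bool}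
    (h : ∀ i, i ∉ J → x i = y i) : Noise.mJ J D x = Noise.mJ J D y := by
  have hxy : x = flipS (J.filter fun i => x i ≠ y i) y := by
    funext i
    rw [flipS_apply]
    by_cases hi : i ∈ J
    · by_cases hxi : x i = y i
      · simp [hxi]
      · rw [if_pos (by simp [hi, hxi])]
        cases hx : x i <;> cases hy : y i <;> simp_all
    · simp [hi, h i hi]
  rw [hxy]
  exact mJ_flipS D _ (Finset.filter_subset _ _) y

end noise

section main

variable (κ : Type) [Fintype κ] [DecidableEq κ]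

theorem u0_bound (hGR : GRBound κ) (ι β : Type) [Fintype ι] [DecidableEq ι] [Fintype β]
    [DecidableEq β] (c K j : ℕ) (δ C : ℝ) (hδ : 0 < δ) :
    ∃ u0 : ℝ, 0 < u0 ∧ u0 ≤ 1 / 2 ∧ ∀ᶠ n : ℕ in atTop,
      ∀ h : St κ (Fin n) → Bool, Lev c (n ^ K) j h →
      ∀ (g : St κ ι) (B W : Finset ι), W.Nonempty → Disjoint B W →
      ∀ D : St κ (Fin n ⊕ ι) → (β → Fin n) → ℝ, Sym D → (∀ M v, 0 ≤ D M v ∧ D M v ≤ 1) →
      ∀ ω : St κ (Fin n ⊕ ι) → (ι → Fin n) → (β → Fin n) → ℝ, Indep W ω →
        (∀ M a v, 0 ≤ ω M a v ∧ ω M a v ≤ 1) →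
      ∃ D' : St κ (Fin n ⊕ ι) → (β → Fin n) → ℝ, Sym D' ∧ (∀ M v, 0 ≤ D' M v ∧ D' M v ≤ 1) ∧
        avM (fun M a v => ω M a v * D' M v) ≤
          (n : ℝ) ^ (-(δ / 2)) * avM (fun M a v => ω M a v * D M v) + (n : ℝ) ^ (-C) ∧
        avM (fun M a v => ω M a v * nD W u0 D M v * ind (Fev h g B W M a)) ≤
          (n : ℝ) ^ (2 * δ - (W.card : ℝ)) * avM (fun M a v => ω M a v * D M v) +
            (n : ℝ) ^ (-C) + avM (fun M a v => ω M a v * D' M v * ind (Fev h g B W M a)) := by
  -- the number of hypercontractive steps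
  obtain ⟨k0, hk0⟩ := pow_unbounded_of_one_lt (2 * C / δ) (one_lt_two (α := ℝ))
  set k := k0 + 2 with hk
  have hk1 : C / 2 ^ k ≤ δ / 2 := by
    rw [div_le_div_iff₀ (by positivity) (by norm_num)]
    have h1 : 2 * C < 2 ^ k0 * δ := by rwa [div_lt_iff₀ hδ] at hk0
    have h2 : (2 : ℝ) ^ k0 * δ ≤ 2 ^ k * δ := by
      refine mul_le_mul_of_nonneg_right (pow_le_pow_right₀ (by norm_num) (by omega)) hδ.le
    linarith
  have hs3 : (0 : ℝ) < Real.sqrt 3 := Real.sqrt_pos.2 (by norm_num)
  set ρ : ℝ := 1 / Real.sqrt 3 with hρdef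
  have hρ0 : 0 < ρ := by positivity
  have hρ2 : ρ ^ 2 = 1 / 3 := by
    rw [hρdef, div_pow, Real.sq_sqrt (by norm_num), one_pow]
  have hρ1 : ρ ≤ 1 := by nlinarith
  refine ⟨ρ ^ k, by positivity, ?_, ?_⟩
  · have h1 : ρ ^ k = ρ ^ k0 * ρ ^ 2 := by rw [hk, pow_add]
    have h2 : ρ ^ k0 ≤ 1 := pow_le_one₀ hρ0.le hρ1
    rw [h1, hρ2]
    linarith
  set u0 := ρ ^ k with hu0
  have hu00 : 0 ≤ u0 := by positivity
  have hu01 : u0 ≤ 1 := pow_le_one₀ hρ0.le hρ1
  filter_upwards [hGR ι β c K j δ (C + δ) hδ, eventually_ge_atTop 1] with n hG hn1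
  intro h hh g B W hW hBW D hDs hD ω hω hω1
  classical
  have hnR : (1 : ℝ) ≤ n := by exact_mod_cast hn1
  have hn0 : (0 : ℝ) < n := by linarith
  have hnδ : 0 < (n : ℝ) ^ δ := Real.rpow_pos_of_pos hn0 _
  have hnC : 0 < (n : ℝ) ^ (-C) := Real.rpow_pos_of_pos hn0 _
  set D' : St κ (Fin n ⊕ ι) → (β → Fin n) → ℝ := fun M v =>
    if (n : ℝ) ^ δ * nD W 0 D M v < nD W u0 D M v then nD W u0 D M v else 0 with hD'
  have hωf : ∀ i ∈ JW W, ∀ M a v, ω (flipS {i} M) a v = ω M a v :=
    fun i hi M a v => indep_flip hω hi M a v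
  have hu0nn : ∀ M v, 0 ≤ nD W u0 D M v := fun M v => nD_nonneg hu00 hu01 hD M v
  have hu0le : ∀ M v, nD W u0 D M v ≤ 1 := fun M v => nD_le_one hu00 hu01 hD M v
  have h0nn : ∀ M v, 0 ≤ nD W 0 D M v := fun M v => nD_nonneg le_rfl zero_le_one hD M v
  have h0le : ∀ M v, nD W 0 D M v ≤ 1 := fun M v => nD_le_one le_rfl zero_le_one hD M v
  refine ⟨D', ?_, ?_, ?_, ?_⟩
  · intro π M v
    have h1 := hDs.nD W u0 π M v
    have h2 := hDs.nD W 0 π M v
    simp only [hD', h1, h2]
  · intro M v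
    simp only [hD']
    split_ifs
    · exact ⟨hu0nn M v, hu0le M v⟩
    · exact ⟨le_rfl, zero_le_one⟩
  · -- the mass of `D'`
    have hD0 : avM (fun M a v => ω M a v * nD W 0 D M v) = avM (fun M a v => ω M a v * D M v) :=
      avM_nD hωf 0 D
    have hD'0 : avM (fun M a v => ω M a v * nD W 0 D' M v) =
        avM (fun M a v => ω M a v * D' M v) := avM_nD hωf 0 D'
    rw [← hD0, ← hD'0]
    have hpt : ∀ M v, nD W 0 D' M v ≤ (n : ℝ) ^ (-(δ / 2)) * nD W 0 D M v + (n : ℝ) ^ (-C) := by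
      intro M v
      by_cases hc : (n : ℝ) ^ (-C) ≤ nD W 0 D M v
      · have ht := Noise.tail_mass (JW (κ := κ) (V := Fin n) W) (ρ := ρ) hρ2.le hρ0.le
          (D := fun M' => D M' v) (fun y => (hD y v).1) (fun y => (hD y v).2) M k
          hnδ hnC hc
        have e1 : nD W 0 D' M v = Noise.mJ (JW W) (fun y =>
            if (n : ℝ) ^ δ * Noise.mJ (JW W) (fun M' => D M' v) y <
              noise (JW W) (ρ ^ k) (fun M' => D M' v) y then
              noise (JW W) (ρ ^ k) (fun M' => D M' v) y else 0) M := rfl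
        rw [e1]
        refine ht.trans ?_
        have e2 : (1 / (n : ℝ) ^ δ) * (1 / (n : ℝ) ^ (-C)) ^ ((1 : ℝ) / 2 ^ k) ≤
            (n : ℝ) ^ (-(δ / 2)) := by
          rw [← inv_eq_one_div, ← inv_eq_one_div, ← Real.rpow_neg hn0.le, ← Real.rpow_neg hn0.le,
            ← Real.rpow_mul hn0.le, ← Real.rpow_add hn0]
          refine Real.rpow_le_rpow_of_exponent_le hnR ?_
          have : - -C * (1 / 2 ^ k) = C / 2 ^ k := by ring
          rw [this]
          linarith
        have e3 : Noise.mJ (JW W) (fun M' => D M' v) M = nD W 0 D M v := rfl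
        rw [e3]
        have := mul_le_mul_of_nonneg_right e2 (h0nn M v)
        linarith
      · push Not at hc
        have h1 : nD W 0 D' M v ≤ nD W 0 (nD W u0 D) M v := by
          unfold nD
          refine Noise.noise_mono (by norm_num) (by norm_num) M fun s _ => ?_
          have := hu0nn (flipS s M) v
          simp only [hD']
          split_ifs
          · exact le_rfl
          · exact this
        have h2 : nD W 0 (nD W u0 D) M v = nD W 0 D M v :=
          Noise.mJ_noise (JW W) u0 (fun M' => D M' v) M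
        have h3 : 0 ≤ (n : ℝ) ^ (-(δ / 2)) * nD W 0 D M v :=
          mul_nonneg (Real.rpow_nonneg hn0.le _) (h0nn M v)
        linarith
    calc avM (fun M a v => ω M a v * nD W 0 D' M v)
        ≤ avM (fun M a v => (n : ℝ) ^ (-(δ / 2)) * (ω M a v * nD W 0 D M v) +
            (n : ℝ) ^ (-C)) := by
          refine avM_mono fun M a v => ?_
          have h1 := mul_le_mul_of_nonneg_left (hpt M v) (hω1 M a v).1
          have h2 : ω M a v * (n : ℝ) ^ (-C) ≤ 1 * (n : ℝ) ^ (-C) :=
            mul_le_mul_of_nonneg_right (hω1 M a v).2 hnC.le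
          calc ω M a v * nD W 0 D' M v
              ≤ ω M a v * ((n : ℝ) ^ (-(δ / 2)) * nD W 0 D M v + (n : ℝ) ^ (-C)) := h1
            _ = (n : ℝ) ^ (-(δ / 2)) * (ω M a v * nD W 0 D M v) + ω M a v * (n : ℝ) ^ (-C) := by
                ring
            _ ≤ _ := by linarith
      _ ≤ _ := by
          rw [avM_add, avM_mul_left]
          have := avM_le_of_le (κ := κ) (V := Fin n) (ι := ι) (β := β)
            (F := fun _ _ _ => (n : ℝ) ^ (-C)) hnC.le (fun _ _ _ => le_rfl)
          linarith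
  · -- the main part
    have hD0 : avM (fun M a v => ω M a v * nD W 0 D M v) = avM (fun M a v => ω M a v * D M v) :=
      avM_nD hωf 0 D
    have hGI : IndepExt W (fun M a v => ω M a v * nD W 0 D M v) := by
      intro M M' a a' v hM ha
      have h1 : ω M a v = ω M' a' v := by
        apply hω
        refine ⟨fun x y c hxy => hM _ fun hi => ?_, ha⟩
        obtain ⟨ρ', z, hρ', hz⟩ := mem_JW.1 hi
        unfold rb at hz
        have := hxy ρ'.1 hρ'
        split_ifs at hz
        · exact this.1 (Prod.mk.inj hz).1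
        · exact this.2 (Prod.mk.inj (Prod.mk.inj hz).2).1
      have h2 : nD W 0 D M v = nD W 0 D M' v := mJ_congr_off _ hM
      simp only [h1, h2]
    have hb := hG h hh g B W hW hBW (fun M a v => ω M a v * nD W 0 D M v) hGI
      (fun M a v => ⟨mul_nonneg (hω1 M a v).1 (h0nn M v),
        mul_le_one₀ (hω1 M a v).2 (h0nn M v) (h0le M v)⟩)
    rw [hD0] at hb
    have hpt : ∀ M a v, ω M a v * nD W u0 D M v * ind (Fev h g B W M a) ≤
        (n : ℝ) ^ δ * (ω M a v * nD W 0 D M v * ind (Qev h g B W M a)) +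
        ω M a v * D' M v * ind (Fev h g B W M a) := by
      intro M a v
      have hi : ind (Fev h g B W M a) ≤ ind (Qev h g B W M a) := ind_mono fun hF => hF.qev hW
      have hi0 := ind_nonneg (Fev h g B W M a)
      have hω0 := (hω1 M a v).1
      by_cases hc : (n : ℝ) ^ δ * nD W 0 D M v < nD W u0 D M v
      · have e1 : D' M v = nD W u0 D M v := by simp only [hD', if_pos hc]
        rw [e1]
        have : 0 ≤ (n : ℝ) ^ δ * (ω M a v * nD W 0 D M v * ind (Qev h g B W M a)) :=
          mul_nonneg hnδ.le (mul_nonneg (mul_nonneg hω0 (h0nn M v)) (ind_nonneg _))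
        linarith
      · have e1 : D' M v = 0 := by simp only [hD', if_neg hc]
        rw [e1]
        push Not at hc
        have h1 : ω M a v * nD W u0 D M v * ind (Fev h g B W M a) ≤
            ω M a v * ((n : ℝ) ^ δ * nD W 0 D M v) * ind (Qev h g B W M a) := by
          refine mul_le_mul (mul_le_mul_of_nonneg_left hc hω0) hi hi0 ?_
          exact mul_nonneg hω0 (mul_nonneg hnδ.le (h0nn M v))
        linarith
    have hsum : avM (fun M a v => ω M a v * nD W u0 D M v * ind (Fev h g B W M a)) ≤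
        (n : ℝ) ^ δ * avM (fun M a v => ω M a v * nD W 0 D M v * ind (Qev h g B W M a)) +
        avM (fun M a v => ω M a v * D' M v * ind (Fev h g B W M a)) := by
      rw [← avM_mul_left, ← avM_add]
      exact avM_mono hpt
    refine hsum.trans ?_
    refine add_le_add ?_ le_rfl
    refine (mul_le_mul_of_nonneg_left hb hnδ.le).trans (le_of_eq ?_)
    rw [mul_add, ← mul_assoc, ← Real.rpow_add hn0, ← Real.rpow_add hn0]
    congr 2
    · congr 1; ring
    · ring

end main

end U0

end ZOL
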