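import Pool.Agent.ZOL.Flow5
import Pool.Agent.ZOL.FlowU0
import Pool.Agent.ZOL.FlowTop

/-!
# Flow argument, part 6: bootstrapping
-/

namespace ZOL

open Filter Finset

lemma ev_rpow (A p q : ℝ) (h : p < q) : ∀ᶠ n : ℕ in atTop, A * (n : ℝ) ^ p ≤ (n : ℝ) ^ q := by
  have hlim : Tendsto (fun n : ℕ => ((n : ℝ)) ^ (q - p : ℝ)) atTop atTop :=
    (tendsto_rpow_atTop (by linarith)).comp tendsto_natCast_atTop_atTop
  filter_upwards [hlim.eventually_ge_atTop A, eventually_ge_atTop 1] with n hn hn1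
  have hn0 : (0 : ℝ) < n := by exact_mod_cast hn1
  have : (n : ℝ) ^ q = (n : ℝ) ^ (q - p) * (n : ℝ) ^ p := by
    rw [← Real.rpow_add hn0]; congr 1; ring
  rw [this]
  exact mul_le_mul_of_nonneg_right hn (Real.rpow_nonneg hn0.le _)

/-- pattern bound for sets of size `w` with exponent `e` -/
def SB (κ : Type) [Fintype κ] [DecidableEq κ] (j w : ℕ) (e : ℝ) : Prop :=
  ∀ (ι β : Type) [Fintype ι] [DecidableEq ι] [Fintype β] [DecidableEq β] (c K : ℕ) (C : ℝ),
  ∀ᶠ n : ℕ in atTop, FBn κ ι β c K j n C w e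

section boot

variable {κ : Type} [Fintype κ] [DecidableEq κ] {j : ℕ}

lemma SB_zero (w : ℕ) : SB κ j w 0 := by
  intro ι β _ _ _ _ c K C
  refine Filter.Eventually.of_forall fun n => ?_
  intro m t h _ _ _ g B W _ _ D _ hD ω _ hω1
  rw [neg_zero, Real.rpow_zero, one_mul]
  have h1 : avM (fun M a v => ω M a v * D M v * ind (Fev h g B W M a)) ≤
      avM (fun M a v => ω M a v * D M v) := avM_mono fun M a v =>
    mul_le_of_le_one_right (mul_nonneg (hω1 M a v).1 (hD M v).1) (ind_le_one _)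
  have : (0 : ℝ) ≤ (n : ℝ) ^ (-C) := Real.rpow_nonneg (Nat.cast_nonneg n) _
  linarith

lemma boot_step (hGR : GRBound κ) (hCE : CEBound κ j) {ξ δ : ℝ} (hξ0 : 0 < ξ) (hδ : 0 < δ)
    (hδξ : 2 * δ < 3 / 8 - ξ) {w : ℕ} (hw : 0 < w)
    (hlow : ∀ w' < w, 0 < w' → SB κ j w' (5 / 8 * w' + ξ)) {e : ℝ} (he0 : 0 ≤ e)
    (he : SB κ j w e) : SB κ j w (min (e + δ / 4) (5 / 8 * w + ξ)) := by
  intro ι β _ _ _ _ c K C
  set C1 : ℝ := C + K + 3 with hC1
  obtain ⟨u0, hu0, hu0', hU0⟩ := U0.u0_bound κ hGR ι β c K (j + 1) δ C1 hδ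
  obtain ⟨M0, hM0, hCEn⟩ := hCE ι β c K C1
  have hTR := Top.top_region κ ι β c K (j + 1) (1 / 40) C1 (by norm_num)
  have hlow1 : ∀ᶠ n : ℕ in atTop, ∀ w' ∈ Finset.range w, 0 < w' →
      FBn κ ι (β ⊕ Unit) c K j n C1 w' (5 / 8 * w' + ξ) := by
    rw [Filter.eventually_all_finset]
    intro w' hw'
    by_cases h0 : 0 < w'
    · filter_upwards [hlow w' (Finset.mem_range.1 hw') h0 ι (β ⊕ Unit) c K C1] with n hn _ using hn
    · exact Filter.Eventually.of_forall fun n h => absurd h h0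
  have hlow2 : ∀ᶠ n : ℕ in atTop, ∀ w' ∈ Finset.range w, 0 < w' →
      FBn κ ι β c K j n C1 w' (5 / 8 * w' + ξ) := by
    rw [Filter.eventually_all_finset]
    intro w' hw'
    by_cases h0 : 0 < w'
    · filter_upwards [hlow w' (Finset.mem_range.1 hw') h0 ι β c K C1] with n hn _ using hn
    · exact Filter.Eventually.of_forall fun n h => absurd h h0
  have heE := he ι β c K C1
  set E : ℝ := Real.exp (M0 / (2 * u0)) with hE
  have hE0 : 0 < E := Real.exp_pos _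
  set P : ℝ := w * (Fintype.card κ * 2) with hP
  have hP0 : 0 ≤ P := by positivity
  set Cst : ℝ := 3 * E * (3 + 1 / (2 * u0) * (2 ^ w * (M0 + 4 * P)) * (1 / 20)) + 3 with hCst
  have hw1 : (1 : ℝ) ≤ w := by exact_mod_cast hw
  filter_upwards [hU0, hCEn, hTR, hlow1, hlow2, heE, eventually_ge_atTop 1,
    ev_rpow 2 (-(1 / 20)) 0 (by norm_num), ev_rpow (2 ^ w) (1 / 40 + -(1 / 20)) 0 (by norm_num),
    ev_rpow (9 * E) (2 * δ - w) (-(5 / 8 * w + ξ)) (by linarith),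
    ev_rpow (9 * E) (-e - δ / 2) (-(e + δ / 4)) (by linarith),
    ev_rpow (9 * E * (1 / (2 * u0) * (2 ^ w * M0) * (1 / 20) * (2 / ξ)))
      (-(5 / 8 * w + 2 * ξ) + ξ / 2) (-(5 / 8 * w + ξ)) (by linarith),
    ev_rpow Cst 0 1 (by norm_num)] with
    n hU0 hCEn hTR hlow1 hlow2 heE hn1 hN1 hN2 hN3 hN4 hN5 hN6
  have hnpos : 0 < n := hn1
  have hnR : (1 : ℝ) ≤ n := by exact_mod_cast hn1
  have hn0 : (0 : ℝ) < n := by linarith
  intro m t h hm ht hh g B W hWw hBW D hDs hD ω hω hω1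
  have hlev : Lev c (n ^ K) (j + 1) h := ⟨m, t, hm, ht, Or.inl hh⟩
  have hWne : W.Nonempty := Finset.card_pos.1 (by omega)
  obtain ⟨D', hDs', hD', hmassD', hu0b⟩ := hU0 h hlev g B W hWne hBW D hDs hD ω hω hω1
  have hFD' := heE m t h hm ht hh g B W hWw hBW D' hDs' hD' ω hω hω1
  have hflow := flow_n (κ := κ) (ι := ι) (β := β) (c := c) (K := K) (j := j) hnpos hM0 hξ0.le hu0
    hu0' (C := C1) (by rw [Real.rpow_zero] at hN1; linarith) hCEn hTR hm ht hh (g := g) hBW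
    (by
      rw [hWw, mul_assoc, ← Real.rpow_add hn0]
      rw [Real.rpow_zero] at hN2
      exact hN2)
    (fun w' hw' h0 => hlow1 w' (Finset.mem_range.2 (hWw ▸ hw')) h0)
    (fun w' hw' h0 => hlow2 w' (Finset.mem_range.2 (hWw ▸ hw')) h0) hDs hD hω hω1
  set mass := avM (fun M a v => ω M a v * D M v) with hmass
  have hmass0 : 0 ≤ mass := avM_nonneg fun M a v => mul_nonneg (hω1 M a v).1 (hD M v).1
  set x := (n : ℝ) ^ (-C1) with hx
  have hx0 : 0 < x := Real.rpow_pos_of_pos hn0 _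
  rw [← hE] at hflow
  -- cardinalities
  have hJ : ((JW (κ := κ) (V := Fin n) W).card : ℝ) = P * n := by
    rw [card_JW, hWw, Fintype.card_fin, hP]; push_cast; ring
  have hR : ((W ×ˢ (univ : Finset (κ × Bool))).card : ℝ) = P := by
    rw [Finset.card_product, hWw, Finset.card_univ, Fintype.card_prod, Fintype.card_bool, hP]
    push_cast; ring
  -- the logarithm
  have hlog0 : 0 ≤ Real.log n := Real.log_nonneg hnR
  have hlogn : Real.log n ≤ n := (Real.log_le_sub_one_of_pos hn0).trans (by linarith)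
  have hlogξ : Real.log n ≤ (n : ℝ) ^ (ξ / 2) * (2 / ξ) := by
    have := Real.log_le_rpow_div hn0.le (half_pos hξ0)
    calc Real.log n ≤ (n : ℝ) ^ (ξ / 2) / (ξ / 2) := this
      _ = _ := by field_simp
  -- the constant mass term
  have hG : 1 / (2 * u0) * G0 κ K n C1 M0 ξ W mass * (1 / 20 * Real.log n) ≤
      (1 / (2 * u0) * (2 ^ w * M0) * (1 / 20) * (2 / ξ)) *
        (n : ℝ) ^ (-(5 / 8 * w + 2 * ξ) + ξ / 2) * mass +
      1 / (2 * u0) * (2 ^ w * (M0 + 4 * P)) * (1 / 20) * ((n : ℝ) ^ (K + 2) * x) := by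
    unfold G0
    rw [hJ, hR, hWw, ← hx]
    have hA : 1 / (2 * u0) * (2 ^ w * M0 * (n : ℝ) ^ (-(5 / 8 * (w : ℝ) + 2 * ξ)) * mass) *
        (1 / 20 * Real.log n) ≤ (1 / (2 * u0) * (2 ^ w * M0) * (1 / 20) * (2 / ξ)) *
        (n : ℝ) ^ (-(5 / 8 * w + 2 * ξ) + ξ / 2) * mass := by
      rw [Real.rpow_add hn0]
      have hr0 : 0 ≤ (n : ℝ) ^ (-(5 / 8 * (w : ℝ) + 2 * ξ)) := Real.rpow_nonneg hn0.le _
      calc _ = (1 / (2 * u0) * (2 ^ w * M0) * (1 / 20) *
            (n : ℝ) ^ (-(5 / 8 * (w : ℝ) + 2 * ξ)) * mass) * Real.log n := by ring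
        _ ≤ (1 / (2 * u0) * (2 ^ w * M0) * (1 / 20) *
            (n : ℝ) ^ (-(5 / 8 * (w : ℝ) + 2 * ξ)) * mass) * ((n : ℝ) ^ (ξ / 2) * (2 / ξ)) :=
            mul_le_mul_of_nonneg_left hlogξ (by positivity)
        _ = _ := by ring
    have hB : 1 / (2 * u0) * (2 ^ w * (M0 + 3 * ((n : ℝ) ^ K * (P * n)) + P * n) * x) *
        (1 / 20 * Real.log n) ≤
        1 / (2 * u0) * (2 ^ w * (M0 + 4 * P)) * (1 / 20) * ((n : ℝ) ^ (K + 2) * x) := by
      have h1 : M0 + 3 * ((n : ℝ) ^ K * (P * n)) + P * n ≤ (M0 + 4 * P) * (n : ℝ) ^ (K + 1) := by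
        have hk : (1 : ℝ) ≤ (n : ℝ) ^ K := one_le_pow₀ hnR
        have hk1 : (1 : ℝ) ≤ (n : ℝ) ^ (K + 1) := one_le_pow₀ hnR
        have h2 : (n : ℝ) ≤ (n : ℝ) ^ (K + 1) := by
          rw [pow_succ]; nlinarith
        have h3 : M0 ≤ M0 * (n : ℝ) ^ (K + 1) := le_mul_of_one_le_right hM0.le hk1
        have h4 : P * n ≤ P * (n : ℝ) ^ (K + 1) := mul_le_mul_of_nonneg_left h2 hP0
        have h5 : 3 * ((n : ℝ) ^ K * (P * n)) = 3 * P * (n : ℝ) ^ (K + 1) := by
          rw [pow_succ]; ring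
        rw [h5]
        nlinarith
      calc _ = (1 / (2 * u0) * 2 ^ w * (1 / 20) * x) *
            ((M0 + 3 * ((n : ℝ) ^ K * (P * n)) + P * n) * Real.log n) := by ring
        _ ≤ (1 / (2 * u0) * 2 ^ w * (1 / 20) * x) *
            (((M0 + 4 * P) * (n : ℝ) ^ (K + 1)) * n) := by
            refine mul_le_mul_of_nonneg_left ?_ (by positivity)
            exact mul_le_mul h1 hlogn hlog0 (by positivity)
        _ = _ := by ring
    have : 1 / (2 * u0) * (2 ^ w * M0 * (n : ℝ) ^ (-(5 / 8 * (w : ℝ) + 2 * ξ)) * mass +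
        2 ^ w * (M0 + 3 * ((n : ℝ) ^ K * (P * n)) + P * n) * x) * (1 / 20 * Real.log n) =
        1 / (2 * u0) * (2 ^ w * M0 * (n : ℝ) ^ (-(5 / 8 * (w : ℝ) + 2 * ξ)) * mass) *
        (1 / 20 * Real.log n) + 1 / (2 * u0) * (2 ^ w * (M0 + 3 * ((n : ℝ) ^ K * (P * n)) +
        P * n) * x) * (1 / 20 * Real.log n) := by ring
    rw [this]
    exact add_le_add hA hB
  -- the value at u0
  have hne : (n : ℝ) ^ (-e) ≤ 1 := Real.rpow_le_one_of_one_le_of_nonpos hnR (by linarith)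
  have hne0 : 0 ≤ (n : ℝ) ^ (-e) := Real.rpow_nonneg hn0.le _
  have hφ0 : avM (fun M a v => ω M a v * nD W u0 D M v * ind (Fev h g B W M a)) ≤
      (n : ℝ) ^ (2 * δ - w) * mass + (n : ℝ) ^ (-e - δ / 2) * mass + 3 * x := by
    have h1 : (n : ℝ) ^ (-e) * avM (fun M a v => ω M a v * D' M v) ≤
        (n : ℝ) ^ (-e - δ / 2) * mass + x := by
      calc _ ≤ (n : ℝ) ^ (-e) * ((n : ℝ) ^ (-(δ / 2)) * mass + x) :=
            mul_le_mul_of_nonneg_left hmassD' hne0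
        _ = (n : ℝ) ^ (-e) * (n : ℝ) ^ (-(δ / 2)) * mass + (n : ℝ) ^ (-e) * x := by ring
        _ ≤ (n : ℝ) ^ (-e - δ / 2) * mass + x := by
            rw [← Real.rpow_add hn0]
            have : (n : ℝ) ^ (-e) * x ≤ 1 * x := mul_le_mul_of_nonneg_right hne hx0.le
            have h2 : -e + -(δ / 2) = -e - δ / 2 := by ring
            rw [h2]; linarith
    rw [hWw] at hu0b
    linarith
  -- the target exponent
  set e' := min (e + δ / 4) (5 / 8 * (w : ℝ) + ξ) with he'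
  have ht1 : (n : ℝ) ^ (-(5 / 8 * (w : ℝ) + ξ)) ≤ (n : ℝ) ^ (-e') :=
    Real.rpow_le_rpow_of_exponent_le hnR (neg_le_neg (min_le_right _ _))
  have ht2 : (n : ℝ) ^ (-(e + δ / 4)) ≤ (n : ℝ) ^ (-e') :=
    Real.rpow_le_rpow_of_exponent_le hnR (neg_le_neg (min_le_left _ _))
  -- tiny terms
  have hk2 : (1 : ℝ) ≤ (n : ℝ) ^ (K + 2) := one_le_pow₀ hnR
  have htiny : Cst * ((n : ℝ) ^ (K + 2) * x) ≤ (n : ℝ) ^ (-C) := by
    rw [Real.rpow_zero, mul_one, Real.rpow_one] at hN6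
    have h1 : (n : ℝ) ^ (-C) = n * ((n : ℝ) ^ (K + 2) * x) := by
      rw [hx, ← Real.rpow_natCast, ← Real.rpow_add hn0]
      nth_rewrite 2 [← Real.rpow_one (n : ℝ)]
      rw [← Real.rpow_add hn0]
      congr 1
      rw [hC1]; push_cast; ring
    rw [h1]
    exact mul_le_mul_of_nonneg_right hN6 (by positivity)
  have hxk : x ≤ (n : ℝ) ^ (K + 2) * x := le_mul_of_one_le_left hx0.le hk2
  calc avM (fun M a v => ω M a v * D M v * ind (Fev h g B W M a))
      ≤ 3 * (E * (((n : ℝ) ^ (2 * δ - w) * mass + (n : ℝ) ^ (-e - δ / 2) * mass + 3 * x) +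
          ((1 / (2 * u0) * (2 ^ w * M0) * (1 / 20) * (2 / ξ)) *
        (n : ℝ) ^ (-(5 / 8 * w + 2 * ξ) + ξ / 2) * mass +
      1 / (2 * u0) * (2 ^ w * (M0 + 4 * P)) * (1 / 20) * ((n : ℝ) ^ (K + 2) * x))) + x) := by
        refine hflow.trans ?_
        have := mul_le_mul_of_nonneg_left (add_le_add hφ0 hG) hE0.le
        linarith
    _ = 1 / 3 * (9 * E * (n : ℝ) ^ (2 * δ - w)) * mass +
        1 / 3 * (9 * E * (n : ℝ) ^ (-e - δ / 2)) * mass +
        1 / 3 * (9 * E * (1 / (2 * u0) * (2 ^ w * M0) * (1 / 20) * (2 / ξ)) *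
          (n : ℝ) ^ (-(5 / 8 * w + 2 * ξ) + ξ / 2)) * mass +
        (9 * E * x + 3 * E * (1 / (2 * u0) * (2 ^ w * (M0 + 4 * P)) * (1 / 20)) *
          ((n : ℝ) ^ (K + 2) * x) + 3 * x) := by ring
    _ ≤ 1 / 3 * (n : ℝ) ^ (-e') * mass + 1 / 3 * (n : ℝ) ^ (-e') * mass +
        1 / 3 * (n : ℝ) ^ (-e') * mass + Cst * ((n : ℝ) ^ (K + 2) * x) := by
        have a1 : 1 / 3 * (9 * E * (n : ℝ) ^ (2 * δ - w)) * mass ≤
            1 / 3 * (n : ℝ) ^ (-e') * mass :=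
          mul_le_mul_of_nonneg_right (by linarith [hN3.trans ht1]) hmass0
        have a2 : 1 / 3 * (9 * E * (n : ℝ) ^ (-e - δ / 2)) * mass ≤
            1 / 3 * (n : ℝ) ^ (-e') * mass :=
          mul_le_mul_of_nonneg_right (by linarith [hN4.trans ht2]) hmass0
        have a3 : 1 / 3 * (9 * E * (1 / (2 * u0) * (2 ^ w * M0) * (1 / 20) * (2 / ξ)) *
          (n : ℝ) ^ (-(5 / 8 * w + 2 * ξ) + ξ / 2)) * mass ≤ 1 / 3 * (n : ℝ) ^ (-e') * mass :=
          mul_le_mul_of_nonneg_right (by linarith [hN5.trans ht1]) hmass0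
        have a4 : 9 * E * x + 3 * E * (1 / (2 * u0) * (2 ^ w * (M0 + 4 * P)) * (1 / 20)) *
          ((n : ℝ) ^ (K + 2) * x) + 3 * x ≤ Cst * ((n : ℝ) ^ (K + 2) * x) := by
          have b1 : 9 * E * x ≤ 9 * E * ((n : ℝ) ^ (K + 2) * x) :=
            mul_le_mul_of_nonneg_left hxk (by positivity)
          have b2 : Cst * ((n : ℝ) ^ (K + 2) * x) = 9 * E * ((n : ℝ) ^ (K + 2) * x) +
              3 * E * (1 / (2 * u0) * (2 ^ w * (M0 + 4 * P)) * (1 / 20)) *
              ((n : ℝ) ^ (K + 2) * x) + 3 * ((n : ℝ) ^ (K + 2) * x) := by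
            rw [hCst]; ring
          rw [b2]
          linarith
        linarith
    _ = (n : ℝ) ^ (-e') * mass + Cst * ((n : ℝ) ^ (K + 2) * x) := by ring
    _ ≤ (n : ℝ) ^ (-e') * mass + (n : ℝ) ^ (-C) := by linarith

theorem flow_main (hGR : GRBound κ) (hCE : CEBound κ j) {ξ : ℝ} (hξ0 : 0 < ξ) (hξ : ξ < 3 / 8) :
    FBound κ j ξ := by
  set δ : ℝ := (3 / 8 - ξ) / 4 with hδ
  have hδ0 : 0 < δ := by rw [hδ]; linarith
  have key : ∀ w : ℕ, 0 < w → SB κ j w (5 / 8 * w + ξ) := by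
    intro w
    induction w using Nat.strong_induction_on with
    | _ w ih =>
      intro hw
      have hboot : ∀ k : ℕ, SB κ j w (min (k * (δ / 4)) (5 / 8 * w + ξ)) := by
        intro k
        induction k with
        | zero =>
          have : min (((0 : ℕ) : ℝ) * (δ / 4)) (5 / 8 * (w : ℝ) + ξ) = 0 := by
            rw [Nat.cast_zero, zero_mul, min_eq_left]
            positivity
          rw [this]
          exact SB_zero w
        | succ k ihk =>
          have hstep := boot_step hGR hCE hξ0 hδ0 (by rw [hδ]; linarith) hw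
            (fun w' hw' h0 => ih w' hw' h0) (le_min (by positivity) (by positivity)) ihk
          have : min (min ((k : ℝ) * (δ / 4)) (5 / 8 * (w : ℝ) + ξ) + δ / 4)
              (5 / 8 * (w : ℝ) + ξ) = min (((k + 1 : ℕ) : ℝ) * (δ / 4)) (5 / 8 * (w : ℝ) + ξ) := by
            push_cast
            rcases le_total ((k : ℝ) * (δ / 4)) (5 / 8 * (w : ℝ) + ξ) with h | h
            · rw [min_eq_left h]; congr 1; ring
            · rw [min_eq_right h, min_eq_right (by linarith), min_eq_right (by linarith)]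
          rw [this] at hstep
          exact hstep
      obtain ⟨k, hk⟩ := exists_nat_ge ((5 / 8 * (w : ℝ) + ξ) / (δ / 4))
      have h1 : 5 / 8 * (w : ℝ) + ξ ≤ k * (δ / 4) := by
        rwa [div_le_iff₀ (by positivity)] at hk
      have := hboot k
      rwa [min_eq_right h1] at this
  intro ι β _ _ _ _ c K C
  have hall : ∀ᶠ n : ℕ in atTop, ∀ w ∈ Finset.range (Fintype.card ι + 1), 0 < w →
      FBn κ ι β c K j n C w (5 / 8 * w + ξ) := by
    rw [Filter.eventually_all_finset]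
    intro w _
    by_cases h0 : 0 < w
    · filter_upwards [key w h0 ι β c K C] with n hn _ using hn
    · exact Filter.Eventually.of_forall fun n h => absurd h h0
  filter_upwards [hall] with n hn
  intro m t h hm ht hh g B W hW hBW D hDs hD ω hω hω1
  exact hn W.card (Finset.mem_range.2 (Nat.lt_succ_of_le (Finset.card_le_univ W))) hW.card_pos
    m t h hm ht hh g B W rfl hBW D hDs hD ω hω hω1

end boot

theorem stmtF (κ : Type) [Fintype κ] [DecidableEq κ] : StmtF κ :=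
  fun _ hGR _ hCE _ hξ0 hξ => flow_main hGR hCE hξ0 hξ

end ZOL
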