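import Pool.Agent.ZOL.Stmts

/-!
Noise operator calculus on the discrete cube, with the noise acting on a set `J` of coordinates.
-/

open Finset ZOL

namespace ZOL.Noise

variable {ι : Type*} [DecidableEq ι]

/-- Flip one coordinate. -/
def flip1 (i : ι) (x : ι → Bool) : ι → Bool := flipS {i} x

theorem flipS_empty (x : ι → Bool) : flipS ∅ x = x := by
  funext i; simp [flipS]

theorem flipS_apply (s : Finset ι) (x : ι → Bool) (i : ι) :
    flipS s x i = if i ∈ s then !x i else x i := rfl

theorem flip1_apply (j : ι) (x : ι → Bool) (i : ι) :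
    flip1 j x i = if i = j then !x i else x i := by
  simp [flip1, flipS]

theorem flip1_flip1 (i : ι) (x : ι → Bool) : flip1 i (flip1 i x) = x := by
  funext j; simp only [flip1_apply]; split_ifs <;> simp

theorem flipS_flipS (s t : Finset ι) (x : ι → Bool) :
    flipS s (flipS t x) = flipS (symmDiff s t) x := by
  funext j
  simp only [flipS_apply, Finset.mem_symmDiff]
  by_cases h1 : j ∈ s <;> by_cases h2 : j ∈ t <;> simp [h1, h2]

theorem flipS_comm (s t : Finset ι) (x : ι → Bool) :
    flipS s (flipS t x) = flipS t (flipS s x) := by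
  rw [flipS_flipS, flipS_flipS, symmDiff_comm]

theorem flipS_flip1_comm (s : Finset ι) (i : ι) (x : ι → Bool) :
    flipS s (flip1 i x) = flip1 i (flipS s x) := flipS_comm s {i} x

theorem flipS_insert {s : Finset ι} {i : ι} (h : i ∉ s) (x : ι → Bool) :
    flipS (insert i s) x = flipS s (flip1 i x) := by
  funext j
  simp only [flipS_apply, flip1_apply, Finset.mem_insert]
  by_cases hj : j = i
  · subst hj; simp [h]
  · simp [hj]

/-- Average over the coordinates in `J`. -/
noncomputable def mJ (J : Finset ι) (D : (ι → Bool) → ℝ) (x : ι → Bool) : ℝ := noise J 0 D x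

@[simp] theorem noise_empty (u : ℝ) (D : (ι → Bool) → ℝ) (x : ι → Bool) : noise ∅ u D x = D x := by
  simp [noise, flipS_empty]

theorem noise_insert {J : Finset ι} {i : ι} (hi : i ∉ J) (u : ℝ) (D : (ι → Bool) → ℝ)
    (x : ι → Bool) :
    noise (insert i J) u D x =
      (1 + u) / 2 * noise J u D x + (1 - u) / 2 * noise J u D (flip1 i x) := by
  unfold noise
  rw [Finset.sum_powerset_insert hi, Finset.mul_sum, Finset.mul_sum]
  congr 1
  · refine Finset.sum_congr rfl fun s hs => ?_
    have hs' : #s ≤ #J := Finset.card_le_card (Finset.mem_powerset.1 hs)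
    rw [Finset.card_insert_of_notMem hi, show #J + 1 - #s = (#J - #s) + 1 by omega, pow_succ]
    ring
  · refine Finset.sum_congr rfl fun s hs => ?_
    have hs0 := Finset.mem_powerset.1 hs
    have his : i ∉ s := fun h => hi (hs0 h)
    rw [Finset.card_insert_of_notMem hi, Finset.card_insert_of_notMem his,
      show #J + 1 - (#s + 1) = #J - #s by omega, pow_succ, flipS_insert his]
    ring

/-- commutation with flips -/
theorem noise_flipS (J : Finset ι) (u : ℝ) (D : (ι → Bool) → ℝ) (t : Finset ι) (x : ι → Bool) :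
    noise J u D (flipS t x) = noise J u (fun y => D (flipS t y)) x := by
  unfold noise
  refine Finset.sum_congr rfl fun s _ => ?_
  rw [flipS_comm s t x]

theorem noise_flip1 (J : Finset ι) (u : ℝ) (D : (ι → Bool) → ℝ) (i : ι) (x : ι → Bool) :
    noise J u D (flip1 i x) = noise J u (fun y => D (flip1 i y)) x := noise_flipS J u D {i} x

theorem noise_one (J : Finset ι) (D : (ι → Bool) → ℝ) (x : ι → Bool) : noise J 1 D x = D x := by
  induction J using Finset.induction_on generalizing x with
  | empty => simp
  | insert i J hi ih => rw [noise_insert hi, ih]; norm_num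

theorem mJ_eq (J : Finset ι) (D : (ι → Bool) → ℝ) (x : ι → Bool) :
    mJ J D x = (∑ s ∈ J.powerset, D (flipS s x)) / 2 ^ #J := by
  unfold mJ noise
  rw [Finset.sum_div]
  refine Finset.sum_congr rfl fun s hs => ?_
  have hs' : #s ≤ #J := Finset.card_le_card (Finset.mem_powerset.1 hs)
  have : ((1 - (0:ℝ)) / 2) ^ #s * ((1 + 0) / 2) ^ (#J - #s) = 1 / 2 ^ #J := by
    rw [show (1 - (0:ℝ)) / 2 = 1 / 2 by norm_num, show (1 + (0:ℝ)) / 2 = 1 / 2 by norm_num,
      ← pow_add, show #s + (#J - #s) = #J by omega, one_div_pow]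
  rw [this]; ring

theorem noise_add (J : Finset ι) (u : ℝ) (D E : (ι → Bool) → ℝ) (x : ι → Bool) :
    noise J u (fun y => D y + E y) x = noise J u D x + noise J u E x := by
  unfold noise
  rw [← Finset.sum_add_distrib]
  refine Finset.sum_congr rfl fun s _ => by ring

theorem noise_sub (J : Finset ι) (u : ℝ) (D E : (ι → Bool) → ℝ) (x : ι → Bool) :
    noise J u (fun y => D y - E y) x = noise J u D x - noise J u E x := by
  unfold noise
  rw [← Finset.sum_sub_distrib]
  refine Finset.sum_congr rfl fun s _ => by ring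

theorem noise_const_mul (J : Finset ι) (u c : ℝ) (D : (ι → Bool) → ℝ) (x : ι → Bool) :
    noise J u (fun y => c * D y) x = c * noise J u D x := by
  unfold noise
  rw [Finset.mul_sum]
  refine Finset.sum_congr rfl fun s _ => by ring

theorem noise_sum {κ : Type*} (K : Finset κ) (J : Finset ι) (u : ℝ) (D : κ → (ι → Bool) → ℝ)
    (x : ι → Bool) :
    noise J u (fun y => ∑ k ∈ K, D k y) x = ∑ k ∈ K, noise J u (D k) x := by
  unfold noise
  rw [Finset.sum_comm]
  refine Finset.sum_congr rfl fun s _ => by rw [Finset.mul_sum]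

theorem noise_const (J : Finset ι) (u c : ℝ) (x : ι → Bool) : noise J u (fun _ => c) x = c := by
  induction J using Finset.induction_on generalizing x with
  | empty => simp
  | insert i J hi ih => rw [noise_insert hi, ih, ih]; ring

omit [DecidableEq ι] in
theorem wt_nonneg {J : Finset ι} {u : ℝ} (h0 : -1 ≤ u) (h1 : u ≤ 1) (s : Finset ι) :
    0 ≤ ((1 - u) / 2) ^ #s * ((1 + u) / 2) ^ (#J - #s) :=
  mul_nonneg (pow_nonneg (by linarith) _) (pow_nonneg (by linarith) _)

theorem noise_mono {J : Finset ι} {u : ℝ} (h0 : -1 ≤ u) (h1 : u ≤ 1) {D E : (ι → Bool) → ℝ}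
    (x : ι → Bool) (h : ∀ s ∈ J.powerset, D (flipS s x) ≤ E (flipS s x)) :
    noise J u D x ≤ noise J u E x := by
  unfold noise
  exact Finset.sum_le_sum fun s hs => mul_le_mul_of_nonneg_left (h s hs) (wt_nonneg h0 h1 s)

theorem noise_nonneg {J : Finset ι} {u : ℝ} (h0 : -1 ≤ u) (h1 : u ≤ 1) {D : (ι → Bool) → ℝ}
    (h : ∀ y, 0 ≤ D y) (x : ι → Bool) : 0 ≤ noise J u D x := by
  unfold noise
  exact Finset.sum_nonneg fun s _ => mul_nonneg (wt_nonneg h0 h1 s) (h _)

theorem noise_le_one {J : Finset ι} {u : ℝ} (h0 : -1 ≤ u) (h1 : u ≤ 1) {D : (ι → Bool) → ℝ}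
    (h : ∀ y, D y ≤ 1) (x : ι → Bool) : noise J u D x ≤ 1 := by
  have := noise_mono (J := J) h0 h1 (D := D) (E := fun _ => 1) x (fun s _ => h _)
  rwa [noise_const] at this

theorem abs_noise_le {J : Finset ι} {u : ℝ} (h0 : -1 ≤ u) (h1 : u ≤ 1) (D : (ι → Bool) → ℝ)
    (x : ι → Bool) : |noise J u D x| ≤ noise J u (fun y => |D y|) x := by
  unfold noise
  refine (Finset.abs_sum_le_sum_abs _ _).trans (Finset.sum_le_sum fun s _ => ?_)
  rw [abs_mul, abs_of_nonneg (wt_nonneg h0 h1 s)]

/-- A weight which does not depend on the coordinates in `J` can be pulled out. -/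
theorem noise_mul_indep {J : Finset ι} {u : ℝ} {w D : (ι → Bool) → ℝ}
    (hw : ∀ i ∈ J, ∀ y, w (flip1 i y) = w y) (x : ι → Bool) :
    noise J u (fun y => w y * D y) x = w x * noise J u D x := by
  induction J using Finset.induction_on generalizing x with
  | empty => simp
  | insert i J hi ih =>
    have ih' := ih (fun j hj => hw j (Finset.mem_insert_of_mem hj))
    rw [noise_insert hi, noise_insert hi, ih', ih', hw i (Finset.mem_insert_self _ _)]
    ring

theorem noise_eq_of_indep {J : Finset ι} {u : ℝ} {w : (ι → Bool) → ℝ}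
    (hw : ∀ i ∈ J, ∀ y, w (flip1 i y) = w y) (x : ι → Bool) : noise J u w x = w x := by
  have := noise_mul_indep (u := u) (D := fun _ => 1) hw x
  rw [noise_const] at this
  simpa using this

/-- Equivariance under a bijection of the coordinates preserving `J`. -/
theorem noise_equiv {κ : Type*} [DecidableEq κ] (e : ι ≃ κ) {J : Finset ι} {J' : Finset κ}
    (hJ : ∀ i, i ∈ J ↔ e i ∈ J') (u : ℝ) (D : (ι → Bool) → ℝ) (y : κ → Bool) :
    noise J' u (fun z => D (fun i => z (e i))) y = noise J u D (fun i => y (e i)) := by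
  have hJ' : J' = J.map e.toEmbedding := by
    ext k
    simp only [Finset.mem_map, Equiv.coe_toEmbedding]
    constructor
    · intro hk
      exact ⟨e.symm k, (hJ _).2 (by simpa using hk), by simp⟩
    · rintro ⟨i, hi, rfl⟩
      exact (hJ i).1 hi
  subst hJ'
  unfold noise
  refine Finset.sum_nbij' (fun s => s.map e.symm.toEmbedding) (fun s => s.map e.toEmbedding)
    ?_ ?_ ?_ ?_ ?_
  · intro s hs
    rw [Finset.mem_powerset] at hs ⊢
    intro i hi
    obtain ⟨k, hk, rfl⟩ := Finset.mem_map.1 hi
    obtain ⟨j, hj, rfl⟩ := Finset.mem_map.1 (hs hk)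
    simpa using hj
  · intro s hs
    rw [Finset.mem_powerset] at hs ⊢
    exact Finset.map_subset_map.2 hs
  · intro s _
    ext k; simp
  · intro s _
    ext k; simp
  · intro s _
    simp only [Finset.card_map]
    congr 2
    funext i
    simp [flipS_apply]

/-- `x` and `flip1 i x` difference. -/
theorem noise_sub_flip {J : Finset ι} {i : ι} (hi : i ∉ J) (u : ℝ) (D : (ι → Bool) → ℝ)
    (x : ι → Bool) :
    noise (insert i J) u D x - noise (insert i J) u D (flip1 i x) =
      u * (noise J u D x - noise J u D (flip1 i x)) := by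
  rw [noise_insert hi, noise_insert hi, flip1_flip1]; ring

/-- Derivative of the noise operator. -/
theorem hasDerivAt_noise (J : Finset ι) {u : ℝ} (hu : u ≠ 0) (D : (ι → Bool) → ℝ)
    (x : ι → Bool) :
    HasDerivAt (fun v => noise J v D x)
      ((∑ i ∈ J, (noise J u D x - noise J u D (flip1 i x))) / (2 * u)) u := by
  induction J using Finset.induction_on generalizing x with
  | empty => simpa using hasDerivAt_const u (D x)
  | insert i J hi ih =>
    have h1 : HasDerivAt (fun v : ℝ => (1 + v) / 2) (1 / 2) u := by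
      simpa using ((hasDerivAt_id u).const_add 1).div_const 2
    have h2 : HasDerivAt (fun v : ℝ => (1 - v) / 2) (-1 / 2) u := by
      simpa using ((hasDerivAt_id u).const_sub 1).div_const 2
    have h := (h1.mul (ih x)).add (h2.mul (ih (flip1 i x)))
    have hf : (fun v => noise (insert i J) v D x) =
        fun v => (1 + v) / 2 * noise J v D x + (1 - v) / 2 * noise J v D (flip1 i x) := by
      funext v; exact noise_insert hi v D x
    rw [hf]
    refine h.congr_deriv ?_
    rw [Finset.sum_insert hi, noise_sub_flip hi]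
    have hs : ∑ j ∈ J, (noise (insert i J) u D x - noise (insert i J) u D (flip1 j x)) =
        (1 + u) / 2 * ∑ j ∈ J, (noise J u D x - noise J u D (flip1 j x)) +
        (1 - u) / 2 * ∑ j ∈ J, (noise J u D (flip1 i x) - noise J u D (flip1 j (flip1 i x))) := by
      rw [Finset.mul_sum, Finset.mul_sum, ← Finset.sum_add_distrib]
      refine Finset.sum_congr rfl fun j _ => ?_
      rw [noise_insert hi, noise_insert hi, show flip1 i (flip1 j x) = flip1 j (flip1 i x) from
        flipS_comm {i} {j} x]
      ring
    rw [hs]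
    field_simp
    ring

theorem continuous_noise (J : Finset ι) (D : (ι → Bool) → ℝ) (x : ι → Bool) :
    Continuous (fun v => noise J v D x) := by
  unfold noise; fun_prop

/-- Ratio bound. -/
theorem noise_flip_le {J : Finset ι} {i : ι} (hi : i ∈ J) {u : ℝ} (h0 : 0 ≤ u) (h1 : u < 1)
    {D : (ι → Bool) → ℝ} (hD : ∀ y, 0 ≤ D y) (x : ι → Bool) :
    noise J u D (flip1 i x) ≤ (1 + u) / (1 - u) * noise J u D x := by
  obtain ⟨K, hK, rfl⟩ : ∃ K, i ∉ K ∧ J = insert i K :=
    ⟨J.erase i, by simp, (Finset.insert_erase hi).symm⟩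
  rw [noise_insert hK, noise_insert hK, flip1_flip1]
  have ha := noise_nonneg (J := K) (by linarith) h1.le hD x
  have hb := noise_nonneg (J := K) (by linarith) h1.le hD (flip1 i x)
  set a := noise K u D x
  set b := noise K u D (flip1 i x)
  have h1' : 0 < 1 - u := by linarith
  have e : (1 + u) / (1 - u) * ((1 + u) / 2 * a + (1 - u) / 2 * b) =
      ((1 + u) * ((1 + u) / 2 * a + (1 - u) / 2 * b)) / (1 - u) := by ring
  rw [e, le_div_iff₀ h1']
  nlinarith [mul_nonneg h0 ha, mul_nonneg h0 hb, mul_nonneg (mul_nonneg h0 h0) ha]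

/-- Semigroup property. -/
theorem noise_noise (J : Finset ι) (u v : ℝ) (D : (ι → Bool) → ℝ) (x : ι → Bool) :
    noise J u (noise J v D) x = noise J (u * v) D x := by
  induction J using Finset.induction_on generalizing x with
  | empty => simp
  | insert i J hi ih =>
    have hf : noise (insert i J) v D =
        fun y => (1 + v) / 2 * noise J v D y + (1 - v) / 2 * noise J v D (flip1 i y) := by
      funext y; exact noise_insert hi v D y
    rw [hf, noise_insert hi, noise_add, noise_add, noise_const_mul, noise_const_mul, noise_const_mul, noise_const_mul,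
      ih, ih, noise_insert hi]
    have e1 : noise J u (fun y => noise J v D (flip1 i y)) x = noise J (u * v) D (flip1 i x) := by
      rw [← noise_flip1, ih]
    have e2 : noise J u (fun y => noise J v D (flip1 i y)) (flip1 i x) = noise J (u * v) D x := by
      rw [← noise_flip1, flip1_flip1, ih]
    rw [e1, e2]
    ring

theorem mJ_noise (J : Finset ι) (u : ℝ) (D : (ι → Bool) → ℝ) (x : ι → Bool) :
    mJ J (noise J u D) x = mJ J D x := by
  unfold mJ; rw [noise_noise, zero_mul]

/-- Self-adjointness with respect to the average over `J`. -/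
theorem mJ_noise_mul (J : Finset ι) (u : ℝ) (D E : (ι → Bool) → ℝ) (x : ι → Bool) :
    mJ J (fun y => noise J u D y * E y) x = mJ J (fun y => D y * noise J u E y) x := by
  unfold mJ
  induction J using Finset.induction_on generalizing D E x with
  | empty => simp
  | insert i J hi ih =>
    have hf : ∀ F : (ι → Bool) → ℝ, noise (insert i J) u F =
        fun y => (1 + u) / 2 * noise J u F y + (1 - u) / 2 * noise J u F (flip1 i y) := by
      intro F; funext y; exact noise_insert hi u F y
    rw [hf D, hf E, noise_insert hi, noise_insert hi]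
    have l1 : ∀ z, noise J 0 (fun y => ((1 + u) / 2 * noise J u D y +
        (1 - u) / 2 * noise J u D (flip1 i y)) * E y) z =
        (1 + u) / 2 * noise J 0 (fun y => noise J u D y * E y) z +
        (1 - u) / 2 * noise J 0 (fun y => noise J u (fun w => D (flip1 i w)) y * E y) z := by
      intro z
      rw [← noise_const_mul, ← noise_const_mul, ← noise_add]
      congr 1
      funext y
      rw [noise_flip1]
      ring
    have l2 : ∀ z, noise J 0 (fun y => D y * ((1 + u) / 2 * noise J u E y +
        (1 - u) / 2 * noise J u E (flip1 i y))) z =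
        (1 + u) / 2 * noise J 0 (fun y => D y * noise J u E y) z +
        (1 - u) / 2 * noise J 0 (fun y => D y * noise J u (fun w => E (flip1 i w)) y) z := by
      intro z
      rw [← noise_const_mul, ← noise_const_mul, ← noise_add]
      congr 1
      funext y
      rw [noise_flip1]
      ring
    rw [l1, l1, l2, l2, ih, ih, ih, ih]
    have s1 : noise J 0 (fun y => D (flip1 i y) * noise J u E y) x =
        noise J 0 (fun y => D y * noise J u (fun w => E (flip1 i w)) y) (flip1 i x) := by
      rw [noise_flip1]
      congr 1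
      funext y
      rw [noise_flip1]
      simp only [flip1_flip1]
    have s2 : noise J 0 (fun y => D (flip1 i y) * noise J u E y) (flip1 i x) =
        noise J 0 (fun y => D y * noise J u (fun w => E (flip1 i w)) y) x := by
      rw [noise_flip1]
      congr 1
      funext y
      rw [← noise_flip1, flip1_flip1]
    rw [s1, s2]
    ring

end ZOL.Noise
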