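import Pool.Agent.ZOL.Defs

/-!
# Statements of the modules of the proof of the zero-one law

Each `Stmt...` is a proposition proved in its own file.
-/

namespace ZOL

open Filter Finset

/-- number of minimal sensitive sets of size `w` of `f` at `z` -/
noncomputable def numMS {I : Type*} [Fintype I] [DecidableEq I] (f : (I → Bool) → Bool)
    (z : I → Bool) (w : ℕ) : ℝ :=
  ∑ S : Finset I, ind (S.card = w ∧ MinSens f z S)

/-- **TK** (module of helper73): bounded depth circuits have few minimal sensitive sets. -/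
def StmtTK : Prop :=
  ∀ (c K K1 j w : ℕ) (ε C : ℝ), 0 < ε → ∀ᶠ n : ℕ in atTop,
  ∀ (I : Type) [Fintype I] [DecidableEq I], Fintype.card I ≤ n ^ K1 →
  ∀ f : (I → Bool) → Bool, Lev c (n ^ K) j f →
  av (fun z : I → Bool => ind ((n : ℝ) ^ ε < numMS f z w)) ≤ (n : ℝ) ^ (-C)

/-- **TKv** : structure version of TK, fresh copies of vertices selected by `z : Fin n → Bool`;
marks in `B` are inserted at their labels. -/
def StmtTKv (κ : Type) [Fintype κ] [DecidableEq κ] : Prop :=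
  ∀ (ι : Type) [Fintype ι] [DecidableEq ι] (c K j w : ℕ) (ε C : ℝ), 0 < ε →
  ∀ᶠ n : ℕ in atTop,
  ∀ t : St κ (Fin n) → Bool, Lev c (n ^ K) j t → ∀ (a : ι → Fin n) (B : Finset ι),
  av (fun T : St κ ((Fin n × Bool) ⊕ ι) => ind ((n : ℝ) ^ ε <
    numMS (fun z : Fin n → Bool =>
      t (pull (ctx a B) (pull (Sum.map (fun x => (x, z x)) id) T))) (fun _ => false) w))
    ≤ (n : ℝ) ^ (-C)

/-! ### Noise calculus (module of helper81) -/

/-- derivative of the noise operator in the parameter -/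
def StmtNoiseDeriv : Prop :=
  ∀ (I : Type) [Fintype I] [DecidableEq I] (J : Finset I) (D : (I → Bool) → ℝ) (x : I → Bool)
    (u : ℝ), u ≠ 0 →
  HasDerivAt (fun u => noise J u D x)
    (1 / (2 * u) * ∑ i ∈ J, (noise J u D x - noise J u D (flipS {i} x))) u

/-- flipping one noisy coordinate changes a nonnegative noisy function by a bounded factor -/
def StmtNoiseRatio : Prop :=
  ∀ (I : Type) [Fintype I] [DecidableEq I] (J : Finset I) (D : (I → Bool) → ℝ),
    (∀ x, 0 ≤ D x) → ∀ (u : ℝ), 0 ≤ u → u < 1 → ∀ i ∈ J, ∀ x,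
  noise J u D (flipS {i} x) ≤ (1 + u) / (1 - u) * noise J u D x

/-- pointwise energy bound -/
def StmtNoiseEnergy : Prop :=
  ∀ (A C : ℝ), ∀ᶠ n : ℕ in atTop,
  ∀ (I : Type) [Fintype I] [DecidableEq I] (J : Finset I), (J.card : ℝ) ≤ A * n →
  ∀ (D : (I → Bool) → ℝ), (∀ x, 0 ≤ D x ∧ D x ≤ 1) →
  ∀ u : ℝ, 0 ≤ u → u ≤ 1 - (n : ℝ) ^ (-(1 / 20 : ℝ)) → ∀ x,
  ∑ i ∈ J, |noise J u D x - noise J u D (flipS {i} x)| ≤
    (n : ℝ) ^ (11 / 20 : ℝ) * noise J u D x + (n : ℝ) ^ (-C)

/-- iterated hypercontractivity -/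
def StmtNoiseHyper : Prop :=
  ∀ (I : Type) [Fintype I] [DecidableEq I] (J : Finset I) (D : (I → Bool) → ℝ),
    (∀ x, 0 ≤ D x ∧ D x ≤ 1) → ∀ (i : ℕ) (x : I → Bool), 0 < noise J 0 D x →
  noise J 0 (fun y => noise J ((1 / Real.sqrt 3) ^ i) D y ^ 2) x ≤
    noise J 0 D x ^ 2 * (1 / noise J 0 D x) ^ ((1 / 2 : ℝ) ^ i)

/-- the noise operator is self-adjoint -/
def StmtNoiseSelfAdj : Prop :=
  ∀ (I : Type) [Fintype I] [DecidableEq I] (J : Finset I) (D G : (I → Bool) → ℝ) (u : ℝ),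
  av (fun x => G x * noise J u D x) = av (fun x => noise J u G x * D x)

/-- semigroup property -/
def StmtNoiseSemi : Prop :=
  ∀ (I : Type) [Fintype I] [DecidableEq I] (J : Finset I) (D : (I → Bool) → ℝ) (u v : ℝ)
    (x : I → Bool),
  noise J u (noise J v D) x = noise J (u * v) D x

/-! ### Consequences (modules of helper13, helper16) -/

/-- near-constancy of invariant functions computed by bounded depth circuits -/
def Main (κ : Type) [Fintype κ] [DecidableEq κ] : Prop :=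
  ∀ (c K j : ℕ) (C : ℝ), ∀ᶠ n : ℕ in atTop, ∀ f : St κ (Fin n) → Bool, Lev c (n ^ K) j f →
  (∀ (π : Equiv.Perm (Fin n)) (M : St κ (Fin n)), f (pull π M) = f M) →
  av (fun M => ind (f M = true)) * av (fun M => ind (f M = false)) ≤ (n : ℝ) ^ (-C)

/-- module of helper13: the induction hypothesis gives near-constancy (note that the exponent
gain is `5/8 + ξ > 0`) -/
def StmtNearConst (κ : Type) [Fintype κ] [DecidableEq κ] : Prop :=
  (∀ j, ∃ ξ : ℝ, 0 ≤ ξ ∧ IH κ j ξ) → Main κ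

end ZOL
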