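import Pool.Agent.ZOL.TKProb
import Pool.Agent.ZOL.Stmts

/-!
# The DNF lemma (Furst–Saxe–Sipser): a function with small 1-certificates becomes a junta under a
random restriction
-/

set_option autoImplicit false

open Finset
open scoped BigOperators

namespace ZOL73

open ZOL

universe u

section defs
variable {I : Type u}

/-- `s` with the values of `a` is a 1-certificate of `f`. -/
def IsCert (f : (I → Bool) → Bool) (s : Finset I) (a : I → Bool) : Prop :=
  ∀ y, (∀ i ∈ s, y i = a i) → f y = true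

/-- `f` has 1-certificates of size `≤ k` (a `k`-DNF). -/
def Cert (k : ℕ) (f : (I → Bool) → Bool) : Prop :=
  ∀ x, f x = true → ∃ s : Finset I, s.card ≤ k ∧ IsCert f s x

theorem junta_mono {c c' : ℕ} (h : c ≤ c') {f : (I → Bool) → Bool} (hf : Junta c f) :
    Junta c' f := by
  obtain ⟨J, hJ, h2⟩ := hf
  exact ⟨J, hJ.trans h, h2⟩

theorem junta_const {f : (I → Bool) → Bool} (h : ∀ x y, f x = f y) (c : ℕ) : Junta c f :=
  ⟨∅, by simp, fun x y _ => h x y⟩

theorem junta_not {c : ℕ} {f : (I → Bool) → Bool} (hf : Junta c f) : Junta c (fun x => !f x) := by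
  obtain ⟨J, hJ, h2⟩ := hf
  exact ⟨J, hJ, fun x y h => by show (!f x) = (!f y); rw [h2 x y h]⟩

theorem junta_cert {c : ℕ} {f : (I → Bool) → Bool} (hf : Junta c f) : Cert c f := by
  obtain ⟨J, hJ, h2⟩ := hf
  exact fun x hx => ⟨J, hJ, fun y hy => by rw [h2 y x hy, hx]⟩

variable [DecidableEq I]

/-- restriction: live variables `R`, the others fixed to `z` -/
def restr (f : (I → Bool) → Bool) (R : Finset I) (z : I → Bool) : (I → Bool) → Bool :=
  fun x => f (R.piecewise x z)

variable [Fintype I]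

/-- live coordinates -/
def live {m : ℕ} (σ : I → Fin m × Bool) : Finset I := univ.filter fun i => ((σ i).1 : ℕ) = 0

/-- values of the fixed coordinates -/
def val {m : ℕ} (σ : I → Fin m × Bool) : I → Bool := fun i => (σ i).2

omit [DecidableEq I] in
theorem mem_live {m : ℕ} {σ : I → Fin m × Bool} {i : I} : i ∈ live σ ↔ ((σ i).1 : ℕ) = 0 := by
  simp [live]

end defs

/-! ### Probabilities of one coordinate -/

theorem Pr_not {α : Type*} [Fintype α] [Nonempty α] (p : α → Prop) :
    Pr (fun x => ¬ p x) = 1 - Pr p := by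
  classical
  have h : Pr (fun x => ¬ p x) + Pr p = 1 := by
    unfold Pr
    rw [← expect_add_distrib, ← Fintype.expect_one (ι := α) (M := ℝ)]
    refine expect_congr rfl fun x _ => ?_
    by_cases hp : p x <;> simp [hp]
  linarith

theorem Pr_fin_zero {m : ℕ} (hm : 0 < m) : Pr (fun d : Fin m => (d : ℕ) = 0) = 1 / m := by
  classical
  have : NeZero m := ⟨hm.ne'⟩
  rw [Pr_congr (q := fun d : Fin m => d = 0) (fun d =>
    ⟨fun h => Fin.ext (by rw [h, Fin.val_zero]), fun h => by rw [h, Fin.val_zero]⟩)]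
  rw [Pr_eq, Fintype.expect_eq_sum_div_card]
  simp

theorem Pr_bool (b : Bool) : Pr (fun x : Bool => x = b) = 1 / 2 := by
  classical
  unfold Pr
  rw [Fintype.expect_eq_sum_div_card]
  cases b <;> simp

theorem Pr_fixed {m : ℕ} (hm : 2 ≤ m) (b : Bool) :
    1 / 4 ≤ Pr (fun ω : Fin m × Bool => (ω.1 : ℕ) ≠ 0 ∧ ω.2 = b) := by
  classical
  have : Nonempty (Fin m) := ⟨⟨0, by omega⟩⟩
  have h1 : Pr (fun ω : Fin m × Bool => (ω.1 : ℕ) ≠ 0 ∧ ω.2 = b) =
      Pr (fun d : Fin m => (d : ℕ) ≠ 0) * (1 / 2) := by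
    rw [Pr_prod]
    have h3 : ∀ d : Fin m, Pr (fun b' : Bool => ((d, b').1 : ℕ) ≠ 0 ∧ (d, b').2 = b) =
        (if (d : ℕ) ≠ 0 then (1 : ℝ) else 0) * (1 / 2) := by
      intro d
      by_cases hd : (d : ℕ) ≠ 0
      · rw [if_pos hd, one_mul, ← Pr_bool b]
        exact Pr_congr fun x => ⟨fun h => h.2, fun h => ⟨hd, h⟩⟩
      · rw [if_neg hd, zero_mul]
        exact Pr_eq_zero fun x h => hd h.1
    rw [expect_congr rfl fun d _ => h3 d, ← expect_mul, Pr_eq]
  rw [h1, Pr_not, Pr_fin_zero (by omega)]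
  have h2 : (1 : ℝ) / m ≤ 1 / 2 := by
    apply one_div_le_one_div_of_le (by norm_num)
    exact_mod_cast hm
  linarith

section terms
variable {I : Type u} [Fintype I] [DecidableEq I] {m : ℕ}

/-- all variables of the term are fixed, to the right values -/
def Sat (s : Finset I) (a : I → Bool) (σ : I → Fin m × Bool) : Prop :=
  ∀ i ∈ s, ((σ i).1 : ℕ) ≠ 0 ∧ (σ i).2 = a i

theorem Pr_sat (hm : 2 ≤ m) {k : ℕ} (s : Finset I) (hs : s.card ≤ k) (a : I → Bool) :
    (1 / 4 : ℝ) ^ k ≤ Pr (Sat (m := m) s a) := by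
  have : Nonempty (Fin m × Bool) := ⟨⟨⟨0, by omega⟩, true⟩⟩
  have h := Pr_forall_mem s (fun i (ω : Fin m × Bool) => (ω.1 : ℕ) ≠ 0 ∧ ω.2 = a i)
  unfold Sat
  rw [h]
  calc (1 / 4 : ℝ) ^ k ≤ (1 / 4) ^ s.card := pow_le_pow_of_le_one (by norm_num) (by norm_num) hs
    _ = ∏ i ∈ s, (1 / 4 : ℝ) := by rw [prod_const]
    _ ≤ _ := prod_le_prod (fun _ _ => by norm_num) fun i _ => Pr_fixed hm (a i)

theorem Pr_no_sat (hm : 2 ≤ m) {k : ℕ} (l : List (Finset I × (I → Bool)))
    (hl : ∀ t ∈ l, t.1.card ≤ k) (hd : l.Pairwise fun t t' => Disjoint t.1 t'.1) :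
    Pr (fun σ : I → Fin m × Bool => ∀ t ∈ l, ¬ Sat t.1 t.2 σ) ≤
      (1 - (1 / 4 : ℝ) ^ k) ^ l.length := by
  have : Nonempty (Fin m × Bool) := ⟨⟨⟨0, by omega⟩, true⟩⟩
  induction l with
  | nil =>
    simp only [List.length_nil, pow_zero]
    exact Pr_le_one _
  | cons t l ih =>
    rw [List.pairwise_cons] at hd
    have ih' := ih (fun t' ht' => hl t' (List.mem_cons_of_mem _ ht')) hd.2
    have e : Pr (fun σ : I → Fin m × Bool => ∀ t' ∈ t :: l, ¬ Sat t'.1 t'.2 σ) =
        Pr (fun σ : I → Fin m × Bool => ¬ Sat t.1 t.2 σ) *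
        Pr (fun σ : I → Fin m × Bool => ∀ t' ∈ l, ¬ Sat t'.1 t'.2 σ) := by
      rw [← Pr_and_of_indep t.1]
      · exact Pr_congr fun σ => by simp
      · intro σ τ h
        unfold Sat
        refine not_congr (forall₂_congr fun i hi => ?_)
        rw [h i hi]
      · intro σ τ h
        refine forall₂_congr fun t' ht' => ?_
        unfold Sat
        refine not_congr (forall₂_congr fun i hi => ?_)
        rw [h i (fun hit => disjoint_left.1 (hd.1 t' ht') hit hi)]
    rw [e, List.length_cons, pow_succ']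
    have h1 : Pr (fun σ : I → Fin m × Bool => ¬ Sat t.1 t.2 σ) ≤ 1 - (1 / 4 : ℝ) ^ k := by
      rw [Pr_not]
      have := Pr_sat (m := m) hm t.1 (hl t (List.mem_cons_self)) t.2
      linarith
    exact mul_le_mul h1 ih' (Pr_nonneg _) ((Pr_nonneg _).trans h1)

/-- greedy choice of disjoint certificates -/
theorem greedy (f : (I → Bool) → Bool) (k N : ℕ) :
    (∃ l : List (Finset I × (I → Bool)), l.length = N ∧ (∀ t ∈ l, t.1.card ≤ k) ∧
      l.Pairwise (fun t t' => Disjoint t.1 t'.1) ∧ ∀ t ∈ l, IsCert f t.1 t.2) ∨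
    (∃ H : Finset I, H.card ≤ k * N ∧
      ∀ (s : Finset I) (a : I → Bool), s.card ≤ k → IsCert f s a → ¬ Disjoint s H) := by
  induction N with
  | zero => exact Or.inl ⟨[], rfl, by simp, List.Pairwise.nil, by simp⟩
  | succ N ih =>
    rcases ih with ⟨l, hl1, hl2, hl3, hl4⟩ | ⟨H, hH1, hH2⟩
    · set H : Finset I := l.toFinset.biUnion fun t => t.1 with hH
      by_cases hex : ∃ (s : Finset I) (a : I → Bool), s.card ≤ k ∧ IsCert f s a ∧ Disjoint s H
      · obtain ⟨s, a, hs, hc, hdj⟩ := hex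
        left
        refine ⟨(s, a) :: l, by simp [hl1], ?_, ?_, ?_⟩
        · intro t ht
          rcases List.mem_cons.1 ht with rfl | ht
          · exact hs
          · exact hl2 t ht
        · rw [List.pairwise_cons]
          refine ⟨fun t ht => ?_, hl3⟩
          refine hdj.mono_right ?_
          intro i hi
          rw [hH, mem_biUnion]
          exact ⟨t, List.mem_toFinset.2 ht, hi⟩
        · intro t ht
          rcases List.mem_cons.1 ht with rfl | ht
          · exact hc
          · exact hl4 t ht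
      · push Not at hex
        right
        refine ⟨H, ?_, fun s a hs hc hdj => hex s a hs hc hdj⟩
        calc H.card ≤ l.toFinset.card * k :=
              card_biUnion_le_card_mul _ _ _ fun t ht => hl2 t (List.mem_toFinset.1 ht)
          _ ≤ (N + 1) * k := by
              gcongr
              exact (List.toFinset_card_le l).trans (by omega)
          _ = k * (N + 1) := by ring
    · right
      exact ⟨H, hH1.trans (by gcongr; omega), hH2⟩

/-- few live variables in `H` -/
theorem Pr_live_ge (hm : 0 < m) (H : Finset I) (c : ℕ) :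
    Pr (fun σ : I → Fin m × Bool => c ≤ (H ∩ live σ).card) ≤ ((H.card : ℝ) / m) ^ c := by
  have : Nonempty (Fin m × Bool) := ⟨⟨⟨0, hm⟩, true⟩⟩
  have h1 : Pr (fun σ : I → Fin m × Bool => c ≤ (H ∩ live σ).card) ≤
      Pr (fun σ : I → Fin m × Bool => ∃ S ∈ powersetCard c H, ∀ i ∈ S, ((σ i).1 : ℕ) = 0) := by
    refine Pr_mono fun σ hσ => ?_
    obtain ⟨S, hS1, hS2⟩ := exists_subset_card_eq hσ
    refine ⟨S, mem_powersetCard.2 ⟨hS1.trans inter_subset_left, hS2⟩, fun i hi => ?_⟩
    exact mem_live.1 (mem_of_mem_inter_right (hS1 hi))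
  refine h1.trans ?_
  have h2 : ∀ S ∈ powersetCard c H,
      Pr (fun σ : I → Fin m × Bool => ∀ i ∈ S, ((σ i).1 : ℕ) = 0) ≤ (1 / (m : ℝ)) ^ c := by
    intro S hS
    have h := Pr_forall_mem S (fun _ (ω : Fin m × Bool) => (ω.1 : ℕ) = 0)
    rw [h]
    have h3 : Pr (fun ω : Fin m × Bool => (ω.1 : ℕ) = 0) = 1 / m := by
      rw [← Pr_fin_zero hm]
      exact Pr_fst (α := Fin m) (β := Bool) fun d => (d : ℕ) = 0
    rw [prod_const, h3, (mem_powersetCard.1 hS).2]
  refine (Pr_exists_le_card (powersetCard c H) _ h2).trans ?_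
  rw [card_powersetCard]
  have h3 : ((H.card.choose c : ℕ) : ℝ) ≤ (H.card : ℝ) ^ c := by
    exact_mod_cast Nat.choose_le_pow H.card c
  calc ((H.card.choose c : ℕ) : ℝ) * (1 / (m : ℝ)) ^ c ≤ (H.card : ℝ) ^ c * (1 / (m : ℝ)) ^ c := by
        gcongr
    _ = ((H.card : ℝ) / m) ^ c := by rw [one_div, inv_pow, div_pow]; rfl

/-- `f` with the variables of `H` set to the characteristic function of `T` -/
def setOn (f : (I → Bool) → Bool) (H T : Finset I) : (I → Bool) → Bool :=
  fun x => f fun i => if i ∈ H then decide (i ∈ T) else x i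

omit [Fintype I] in
theorem cert_setOn {f : (I → Bool) → Bool} {k : ℕ} (hf : Cert (k + 1) f) {H : Finset I}
    (hH : ∀ (s : Finset I) (a : I → Bool), s.card ≤ k + 1 → IsCert f s a → ¬ Disjoint s H)
    (T : Finset I) : Cert k (setOn f H T) := by
  intro x hx
  obtain ⟨s, hs, hc⟩ := hf _ hx
  refine ⟨s \ H, ?_, ?_⟩
  · have h1 := hH s _ hs hc
    rw [not_disjoint_iff] at h1
    obtain ⟨i, hi1, hi2⟩ := h1
    have h2 : (s \ H).card < s.card := by
      apply card_lt_card
      refine ⟨sdiff_subset, fun h => ?_⟩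
      exact (mem_sdiff.1 (h hi1)).2 hi2
    omega
  · intro y hy
    apply hc
    intro i hi
    by_cases hiH : i ∈ H
    · simp [hiH]
    · simp only [hiH, if_false]
      exact hy i (mem_sdiff.2 ⟨hi, hiH⟩)

/-- gluing the juntas of the `f_T` -/
theorem junta_glue (f : (I → Bool) → Bool) (H R : Finset I) (z : I → Bool) (c c₁ : ℕ)
    (hc : (H ∩ R).card ≤ c) (hJ : ∀ T ∈ H.powerset, Junta c₁ (restr (setOn f H T) R z)) :
    Junta (c + 2 ^ c * c₁) (restr f R z) := by
  classical
  choose! J hJ1 hJ2 using hJ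
  set 𝒯 : Finset (Finset I) := H.powerset.filter fun T => ∀ i ∈ H, i ∉ R → (i ∈ T ↔ z i = true)
    with h𝒯
  have hcard : 𝒯.card ≤ 2 ^ c := by
    calc 𝒯.card ≤ (H ∩ R).powerset.card := by
          refine card_le_card_of_injOn (fun T => T ∩ R) ?_ ?_
          · intro T hT
            have hT' := mem_filter.1 hT
            rw [mem_coe, mem_powerset]
            exact inter_subset_inter_right (mem_powerset.1 hT'.1)
          · intro T hT T' hT' h
            have h1 := mem_filter.1 hT
            have h2 := mem_filter.1 hT'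
            have h1a := mem_powerset.1 h1.1
            have h2a := mem_powerset.1 h2.1
            ext i
            by_cases hiH : i ∈ H
            · by_cases hiR : i ∈ R
              · have h3 : i ∈ T ∩ R ↔ i ∈ T' ∩ R := by
                  simp only at h
                  rw [h]
                simpa [hiR] using h3
              · rw [h1.2 i hiH hiR, h2.2 i hiH hiR]
            · exact ⟨fun h => absurd (h1a h) hiH, fun h => absurd (h2a h) hiH⟩
      _ = 2 ^ (H ∩ R).card := card_powerset _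
      _ ≤ 2 ^ c := Nat.pow_le_pow_right (by norm_num) hc
  refine ⟨(H ∩ R) ∪ 𝒯.biUnion J, ?_, ?_⟩
  · calc ((H ∩ R) ∪ 𝒯.biUnion J).card ≤ (H ∩ R).card + (𝒯.biUnion J).card := card_union_le _ _
      _ ≤ c + 𝒯.card * c₁ := by
          gcongr
          exact card_biUnion_le_card_mul _ _ _ fun T hT => hJ1 T (mem_filter.1 hT).1
      _ ≤ c + 2 ^ c * c₁ := by gcongr
  · intro x y hxy
    set T : Finset I := H.filter fun i => R.piecewise x z i = true with hT
    have hTy : T = H.filter fun i => R.piecewise y z i = true := by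
      rw [hT]
      refine filter_congr fun i hi => ?_
      by_cases hiR : i ∈ R
      · rw [piecewise_eq_of_mem _ _ _ hiR, piecewise_eq_of_mem _ _ _ hiR,
          hxy i (mem_union_left _ (mem_inter.2 ⟨hi, hiR⟩))]
      · rw [piecewise_eq_of_notMem _ _ _ hiR, piecewise_eq_of_notMem _ _ _ hiR]
    have hT𝒯 : T ∈ 𝒯 := by
      rw [h𝒯, mem_filter]
      refine ⟨mem_powerset.2 (filter_subset _ _), fun i hi hiR => ?_⟩
      rw [hT, mem_filter, piecewise_eq_of_notMem _ _ _ hiR]
      exact ⟨fun h => h.2, fun h => ⟨hi, h⟩⟩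
    have key : ∀ w : I → Bool, T = H.filter (fun i => R.piecewise w z i = true) →
        restr f R z w = restr (setOn f H T) R z w := by
      intro w hw
      unfold restr setOn
      congr 1
      funext i
      by_cases hiH : i ∈ H
      · rw [if_pos hiH, hw]
        simp [hiH]
      · rw [if_neg hiH]
    rw [key x hT, key y hTy]
    exact hJ2 T (mem_filter.1 hT𝒯).1 x y fun i hi =>
      hxy i (mem_union_right _ (mem_biUnion.2 ⟨T, hT𝒯, hi⟩))

end terms

end ZOL73
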