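import Pool.Agent.ZOL.TKDNF

/-!
# The DNF lemma and the junta restriction lemma
-/

set_option autoImplicit false

open Finset Filter Topology
open scoped BigOperators

namespace ZOL73

open ZOL

universe u

/-! ### asymptotics -/

/-- `(1 - x)^N ≤ n^{-C}` for `N ≥ A log n`, `x A ≥ C` -/
theorem pow_small {x : ℝ} (hx1 : x ≤ 1) {A C : ℝ} (hxA : C ≤ x * A) {n : ℕ}
    (hn : 1 ≤ n) {N : ℕ} (hN : A * Real.log n ≤ N) (hx0 : 0 ≤ x) :
    (1 - x) ^ N ≤ (n : ℝ) ^ (-C) := by
  have hn0 : (0 : ℝ) < n := by exact_mod_cast hn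
  have hlog : 0 ≤ Real.log n := Real.log_nonneg (by exact_mod_cast hn)
  have h1 : 1 - x ≤ Real.exp (-x) := by
    have := Real.add_one_le_exp (-x)
    linarith
  calc (1 - x) ^ N ≤ (Real.exp (-x)) ^ N := pow_le_pow_left₀ (by linarith) h1 N
    _ = Real.exp (-(x * N)) := by rw [← Real.exp_nat_mul]; congr 1; ring
    _ ≤ Real.exp (Real.log n * (-C)) := by
        apply Real.exp_le_exp.2
        have h2 : x * (A * Real.log n) ≤ x * N := mul_le_mul_of_nonneg_left hN hx0
        nlinarith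
    _ = (n : ℝ) ^ (-C) := by rw [Real.rpow_def_of_pos hn0]

theorem eventually_ceil_log_le (A k : ℝ) (hk : 0 ≤ k) {ε : ℝ} (hε : 0 < ε) (hA : 0 ≤ A) :
    ∀ᶠ n : ℕ in atTop, k * (⌈A * Real.log n⌉₊ : ℝ) ≤ (n : ℝ) ^ ε := by
  have h1 : (fun x : ℝ => Real.log x) =o[atTop] fun x : ℝ => x ^ ε := isLittleO_log_rpow_atTop hε
  have h2 := (h1.bound (c := 1 / (2 * (k * A + 1))) (by positivity)).natCast_atTop
  have h3 : ∀ᶠ n : ℕ in atTop, 2 * k ≤ (n : ℝ) ^ ε :=
    ((tendsto_rpow_atTop hε).comp tendsto_natCast_atTop_atTop).eventually_ge_atTop (2 * k)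
  filter_upwards [h2, h3, eventually_ge_atTop 1] with n h2 h3 h4
  have hn1 : (1 : ℝ) ≤ n := by exact_mod_cast h4
  have hlog : 0 ≤ Real.log n := Real.log_nonneg hn1
  have hnp : 0 ≤ (n : ℝ) ^ ε := Real.rpow_nonneg (by linarith) _
  rw [Real.norm_of_nonneg hlog, Real.norm_of_nonneg hnp] at h2
  have h5 : (⌈A * Real.log n⌉₊ : ℝ) ≤ A * Real.log n + 1 :=
    (Nat.ceil_lt_add_one (mul_nonneg hA hlog)).le
  have hkA : 0 ≤ k * A := mul_nonneg hk hA
  have h6 : k * A * Real.log n ≤ (n : ℝ) ^ ε / 2 := by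
    calc k * A * Real.log n ≤ (k * A) * (1 / (2 * (k * A + 1)) * (n : ℝ) ^ ε) := by gcongr
      _ = (k * A / (k * A + 1)) * ((n : ℝ) ^ ε / 2) := by field_simp
      _ ≤ 1 * ((n : ℝ) ^ ε / 2) := by
          gcongr
          rw [div_le_one (by positivity)]
          linarith
      _ = _ := one_mul _
  calc k * (⌈A * Real.log n⌉₊ : ℝ) ≤ k * (A * Real.log n + 1) := by gcongr
    _ = k * A * Real.log n + k := by ring
    _ ≤ (n : ℝ) ^ ε := by linarith

/-- `2^{k N} ≤ n^{k A + 1}` for `N = ⌈A log n⌉` -/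
theorem eventually_two_pow_le (A : ℝ) (hA : 0 ≤ A) (k : ℕ) :
    ∀ᶠ n : ℕ in atTop, (2 : ℝ) ^ (k * ⌈A * Real.log n⌉₊) ≤ (n : ℝ) ^ ((k : ℝ) * A + 1) := by
  filter_upwards [eventually_ge_atTop (2 ^ k)] with n hn
  have hn1' : 1 ≤ n := le_trans (Nat.one_le_two_pow) hn
  have hn1 : (1 : ℝ) ≤ n := by exact_mod_cast hn1'
  have hn0 : (0 : ℝ) < n := by linarith
  have hlog : 0 ≤ Real.log n := Real.log_nonneg hn1
  have h5 : (⌈A * Real.log n⌉₊ : ℝ) ≤ A * Real.log n + 1 :=
    (Nat.ceil_lt_add_one (mul_nonneg hA hlog)).le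
  have h2k : (2 : ℝ) ^ k ≤ n := by exact_mod_cast hn
  have hlog2 : Real.log 2 ≤ 1 := by
    have := Real.log_two_lt_d9
    linarith
  have hlog20 : 0 ≤ Real.log 2 := Real.log_nonneg (by norm_num)
  calc (2 : ℝ) ^ (k * ⌈A * Real.log n⌉₊) = (2 : ℝ) ^ ((k : ℝ) * (⌈A * Real.log n⌉₊ : ℝ)) := by
        rw [← Real.rpow_natCast]; push_cast; rfl
    _ ≤ (2 : ℝ) ^ ((k : ℝ) * (A * Real.log n + 1)) := by
        apply Real.rpow_le_rpow_of_exponent_le (by norm_num)
        gcongr
    _ = (2 : ℝ) ^ ((k : ℝ) * A * Real.log n) * 2 ^ k := by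
        rw [← Real.rpow_natCast, ← Real.rpow_add (by norm_num)]
        congr 1; ring
    _ ≤ (n : ℝ) ^ ((k : ℝ) * A) * n := by
        gcongr
        rw [Real.rpow_def_of_pos (by norm_num : (0 : ℝ) < 2), Real.rpow_def_of_pos hn0]
        apply Real.exp_le_exp.2
        have : 0 ≤ (k : ℝ) * A * Real.log n := by positivity
        calc Real.log 2 * ((k : ℝ) * A * Real.log n) ≤ 1 * ((k : ℝ) * A * Real.log n) := by
              gcongr
          _ = _ := by ring
    _ = (n : ℝ) ^ ((k : ℝ) * A + 1) := by rw [Real.rpow_add hn0, Real.rpow_one]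

/-! ### The DNF lemma -/

theorem cert_zero {I : Type u} {f : (I → Bool) → Bool} (hf : Cert 0 f) : ∀ x y, f x = f y := by
  have h : ∀ x y, f x = true → f y = true := by
    intro x y hx
    obtain ⟨s, hs, hc⟩ := hf x hx
    apply hc
    intro i hi
    rw [Nat.le_zero, card_eq_zero] at hs
    rw [hs] at hi
    simp at hi
  intro x y
  rcases hx : f x with _ | _ <;> rcases hy : f y with _ | _
  · rfl
  · rw [h y x hy] at hx; exact absurd hx (by simp)
  · rw [h x y hx] at hy; exact absurd hy (by simp)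
  · rfl

theorem restr_const {I : Type u} [DecidableEq I] {f : (I → Bool) → Bool}
    (hf : ∀ x y, f x = f y) (R : Finset I) (z : I → Bool) : ∀ x y, restr f R z x = restr f R z y :=
  fun _ _ => hf _ _

theorem dnf (k : ℕ) : ∀ (ε C : ℝ), 0 < ε → ∃ c' : ℕ, ∀ᶠ n : ℕ in atTop,
    ∀ m : ℕ, (n : ℝ) ^ ε ≤ m → ∀ (I : Type u) [Fintype I] [DecidableEq I]
      (f : (I → Bool) → Bool), Cert k f →
      Pr (fun σ : I → Fin m × Bool => ¬ Junta c' (restr f (live σ) (val σ))) ≤ (n : ℝ) ^ (-C) := by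
  induction k with
  | zero =>
    intro ε C hε
    refine ⟨0, Eventually.of_forall fun n m hm I _ _ f hf => ?_⟩
    rw [Pr_eq_zero]
    · positivity
    · intro σ h
      exact h (junta_const (restr_const (cert_zero hf) _ _) 0)
  | succ k ih =>
    intro ε C hε
    set q : ℝ := (1 / 4) ^ (k + 1) with hq
    have hq0 : 0 < q := by positivity
    have hq1 : q ≤ 1 := pow_le_one₀ (by norm_num) (by norm_num)
    set A : ℝ := (|C| + 1) / q with hA
    have hA0 : 0 ≤ A := by positivity
    have hqA : C ≤ q * A := by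
      rw [hA, mul_div_cancel₀ _ hq0.ne']
      have := le_abs_self C
      linarith
    set C' : ℝ := C + ((k + 1 : ℕ) : ℝ) * A + 2 with hC'
    obtain ⟨c₁, hc₁⟩ := ih ε C' hε
    -- the number of live variables in `H`
    obtain ⟨c, hc⟩ : ∃ c : ℕ, C + 1 ≤ (ε / 2) * ((c : ℝ) + 1) := by
      obtain ⟨c, hc⟩ := exists_nat_ge ((C + 1) / (ε / 2))
      refine ⟨c, ?_⟩
      rw [div_le_iff₀ (by positivity)] at hc
      nlinarith
    refine ⟨c + 2 ^ c * c₁, ?_⟩
    filter_upwards [hc₁, eventually_ceil_log_le A ((k + 1 : ℕ) : ℝ) (by positivity)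
      (half_pos hε) hA0, eventually_two_pow_le A hA0 (k + 1), eventually_ge_atTop 2,
      ((tendsto_rpow_atTop hε).comp tendsto_natCast_atTop_atTop).eventually_ge_atTop 2]
      with n h1 h2 h3 hn2 h5 m hm I _ _ f hf
    have hn1 : (1 : ℝ) ≤ n := by exact_mod_cast (le_trans (by norm_num) hn2)
    have hn0 : (0 : ℝ) < n := by linarith
    have hn2' : (2 : ℝ) ≤ n := by exact_mod_cast hn2
    have hm2 : 2 ≤ m := by
      have : (2 : ℝ) ≤ m := le_trans h5 hm
      exact_mod_cast this
    have hm0 : 0 < m := by omega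
    set N := ⌈A * Real.log n⌉₊ with hN
    rcases greedy f (k + 1) N with ⟨l, hl1, hl2, hl3, hl4⟩ | ⟨H, hH1, hH2⟩
    · -- many disjoint certificates
      have e1 : Pr (fun σ : I → Fin m × Bool => ¬ Junta (c + 2 ^ c * c₁)
          (restr f (live σ) (val σ))) ≤
          Pr (fun σ : I → Fin m × Bool => ∀ t ∈ l, ¬ Sat t.1 t.2 σ) := by
        refine Pr_mono fun σ hσ t ht hsat => hσ ?_
        apply junta_const
        have h6 : ∀ x, restr f (live σ) (val σ) x = true := by
          intro x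
          refine hl4 t ht _ fun i hi => ?_
          have h7 := hsat i hi
          have h8 : i ∉ live σ := fun h => h7.1 (mem_live.1 h)
          rw [piecewise_eq_of_notMem _ _ _ h8]
          exact h7.2
        intro x y
        rw [h6 x, h6 y]
      refine e1.trans ((Pr_no_sat hm2 l hl2 hl3).trans ?_)
      rw [hl1]
      exact pow_small hq1 hqA (by omega) (Nat.le_ceil _) hq0.le
    · -- small hitting set
      have e1 : Pr (fun σ : I → Fin m × Bool => ¬ Junta (c + 2 ^ c * c₁)
          (restr f (live σ) (val σ))) ≤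
          Pr (fun σ : I → Fin m × Bool => c + 1 ≤ (H ∩ live σ).card) +
          Pr (fun σ : I → Fin m × Bool => ∃ T ∈ H.powerset,
            ¬ Junta c₁ (restr (setOn f H T) (live σ) (val σ))) := by
        refine (Pr_mono fun σ hσ => ?_).trans (Pr_or_le _ _)
        by_contra hcon
        rw [not_or] at hcon
        obtain ⟨hc1, hc2⟩ := hcon
        push Not at hc2
        exact hσ (junta_glue f H (live σ) (val σ) c c₁ (by omega) hc2)
      have e2 : Pr (fun σ : I → Fin m × Bool => c + 1 ≤ (H ∩ live σ).card) ≤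
          (n : ℝ) ^ (-(C + 1)) := by
        refine (Pr_live_ge hm0 H (c + 1)).trans ?_
        have h6 : (H.card : ℝ) / m ≤ (n : ℝ) ^ (-(ε / 2)) := by
          rw [div_le_iff₀ (by positivity)]
          calc (H.card : ℝ) ≤ ((k + 1 : ℕ) : ℝ) * (N : ℝ) := by exact_mod_cast hH1
            _ ≤ (n : ℝ) ^ (ε / 2) := h2
            _ = (n : ℝ) ^ (-(ε / 2)) * (n : ℝ) ^ ε := by
                rw [← Real.rpow_add hn0]; congr 1; ring
            _ ≤ (n : ℝ) ^ (-(ε / 2)) * m := by gcongr
        calc ((H.card : ℝ) / m) ^ (c + 1) ≤ ((n : ℝ) ^ (-(ε / 2))) ^ (c + 1) := by gcongr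
          _ = (n : ℝ) ^ (-(ε / 2 * ((c : ℝ) + 1))) := by
              rw [← Real.rpow_natCast, ← Real.rpow_mul hn0.le]; congr 1; push_cast; ring
          _ ≤ (n : ℝ) ^ (-(C + 1)) :=
              Real.rpow_le_rpow_of_exponent_le hn1 (by linarith)
      have e3 : Pr (fun σ : I → Fin m × Bool => ∃ T ∈ H.powerset,
            ¬ Junta c₁ (restr (setOn f H T) (live σ) (val σ))) ≤ (n : ℝ) ^ (-(C + 1)) := by
        refine (Pr_exists_le_card H.powerset _ (a := (n : ℝ) ^ (-C')) fun T _ => ?_).trans ?_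
        · exact h1 m hm I (setOn f H T) (cert_setOn hf hH2 T)
        · rw [card_powerset]
          push_cast
          calc (2 : ℝ) ^ H.card * (n : ℝ) ^ (-C') ≤ (2 : ℝ) ^ ((k + 1) * N) * (n : ℝ) ^ (-C') := by
                gcongr
                norm_num
            _ ≤ (n : ℝ) ^ (((k + 1 : ℕ) : ℝ) * A + 1) * (n : ℝ) ^ (-C') := by gcongr
            _ = (n : ℝ) ^ (-(C + 1)) := by
                rw [← Real.rpow_add hn0, hC']; congr 1; ring
      calc _ ≤ (n : ℝ) ^ (-(C + 1)) + (n : ℝ) ^ (-(C + 1)) := e1.trans (add_le_add e2 e3)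
        _ = 2 * (n : ℝ) ^ (-(C + 1)) := by ring
        _ ≤ n * (n : ℝ) ^ (-(C + 1)) := by gcongr
        _ = (n : ℝ) ^ (-C) := by
            nth_rewrite 1 [← Real.rpow_one (n : ℝ)]
            rw [← Real.rpow_add hn0]; congr 1; ring

/-! ### Iterated restrictions -/

/-- dies -/
def Die (I : Type u) (m : ℕ) : ℕ → Type u
  | 0 => PUnit
  | j + 1 => Die I m j × (I → Fin m)

instance Die.fintype (I : Type u) [Fintype I] [DecidableEq I] (m : ℕ) :
    (j : ℕ) → Fintype (Die I m j)
  | 0 => inferInstanceAs (Fintype PUnit)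
  | j + 1 => @instFintypeProd _ _ (Die.fintype I m j) inferInstance

section iter
variable {I : Type u} [Fintype I] [DecidableEq I] {m : ℕ}

omit [Fintype I] [DecidableEq I] in
theorem Die.nonempty (hm : 0 < m) : (j : ℕ) → Nonempty (Die I m j)
  | 0 => ⟨PUnit.unit⟩
  | j + 1 => by
    obtain ⟨x⟩ := Die.nonempty hm j
    exact ⟨(x, fun _ => ⟨0, hm⟩)⟩

/-- live coordinates of one die -/
def liveD (d : I → Fin m) : Finset I := univ.filter fun i => (d i : ℕ) = 0

omit [DecidableEq I] in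
theorem mem_liveD {d : I → Fin m} {i : I} : i ∈ liveD d ↔ (d i : ℕ) = 0 := by simp [liveD]

/-- live set -/
def RR : (j : ℕ) → Die I m j → Finset I
  | 0, _ => univ
  | j + 1, ρ => RR j ρ.1 ∩ liveD ρ.2

/-- the probability that all elements of `U` are alive -/
theorem Pr_RR (hm : 0 < m) (U : Finset I) (j : ℕ) :
    Pr (fun ρ : Die I m j => U ⊆ RR j ρ) = (1 / (m : ℝ)) ^ (j * U.card) := by
  have hne : Nonempty (Fin m) := ⟨⟨0, hm⟩⟩
  induction j with
  | zero =>
    have h0 : Pr (fun ρ : Die I m 0 => U ⊆ RR 0 ρ) = Pr (fun _ : Die I m 0 => True) :=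
      Pr_congr fun ρ => ⟨fun _ => trivial, fun _ => subset_univ _⟩
    rw [zero_mul, pow_zero, h0]
    have := Die.nonempty (I := I) hm 0
    simp [Pr]
  | succ j ih =>
    have hne2 := Die.nonempty (I := I) hm j
    have h1 : Pr (fun ρ : Die I m (j + 1) => U ⊆ RR (j + 1) ρ) =
        Pr (fun ρ : Die I m j × (I → Fin m) => U ⊆ RR j ρ.1 ∧ U ⊆ liveD ρ.2) :=
      Pr_congr fun ρ => by
        show U ⊆ RR j ρ.1 ∩ liveD ρ.2 ↔ _
        rw [subset_inter_iff]
    rw [h1, Pr_prod]
    have h2 : Pr (fun d : I → Fin m => U ⊆ liveD d) = (1 / (m : ℝ)) ^ U.card := by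
      have h3 := Pr_forall_mem U (fun _ (ω : Fin m) => (ω : ℕ) = 0)
      rw [prod_const, Pr_fin_zero hm] at h3
      rw [← h3]
      exact Pr_congr fun d => ⟨fun h i hi => mem_liveD.1 (h hi), fun h i hi => mem_liveD.2 (h i hi)⟩
    have h4 : ∀ ρ : Die I m j, Pr (fun d : I → Fin m => U ⊆ RR j (ρ, d).1 ∧ U ⊆ liveD (ρ, d).2) =
        (if U ⊆ RR j ρ then (1 : ℝ) else 0) * (1 / (m : ℝ)) ^ U.card := by
      intro ρ
      by_cases h : U ⊆ RR j ρ
      · rw [if_pos h, one_mul, ← h2]
        exact Pr_congr fun d => ⟨fun h => h.2, fun h' => ⟨h, h'⟩⟩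
      · rw [if_neg h, zero_mul]
        exact Pr_eq_zero fun d hd => h hd.1
    rw [expect_congr rfl fun ρ _ => h4 ρ, ← expect_mul, ← Pr_eq (fun ρ : Die I m j => U ⊆ RR j ρ),
      ih, ← pow_add]
    congr 1
    ring

omit [Fintype I] in
theorem restr_restr (f : (I → Bool) → Bool) (R L : Finset I) (z z' : I → Bool) :
    restr (restr f R z) L z' = restr f (R ∩ L) (R.piecewise z' z) := by
  funext x
  unfold restr
  congr 1
  funext i
  by_cases h1 : i ∈ R <;> by_cases h2 : i ∈ L <;> simp [h1, h2]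

/-- one more level -/
theorem level_step (f : (I → Bool) → Bool) {P : Type u} [Fintype P] [Nonempty P]
    (R : P → Finset I) (k c' : ℕ) (hm : 0 < m) {δ₁ δ₂ : ℝ}
    (h1 : Pr (fun x : P × (I → Bool) => ¬ Cert k (restr f (R x.1) x.2)) ≤ δ₁) (hδ₂ : 0 ≤ δ₂)
    (h2 : ∀ g : (I → Bool) → Bool, Cert k g →
      Pr (fun σ : I → Fin m × Bool => ¬ Junta c' (restr g (live σ) (val σ))) ≤ δ₂) :
    Pr (fun x : (P × (I → Fin m)) × (I → Bool) =>
      ¬ Junta c' (restr f (R x.1.1 ∩ liveD x.1.2) x.2)) ≤ δ₁ + δ₂ := by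
  have hne : Nonempty (Fin m) := ⟨⟨0, hm⟩⟩
  -- split the fixed values
  have e1 : Pr (fun x : (P × (I → Fin m)) × (I → Bool) =>
      ¬ Junta c' (restr f (R x.1.1 ∩ liveD x.1.2) x.2)) =
      Pr (fun x : (P × (I → Bool)) × ((I → Fin m) × (I → Bool)) =>
        ¬ Junta c' (restr (restr f (R x.1.1) x.1.2) (liveD x.2.1) x.2.2)) := by
    have a1 : Pr (fun x : (P × (I → Fin m)) × (I → Bool) =>
      ¬ Junta c' (restr f (R x.1.1 ∩ liveD x.1.2) x.2)) =
        Pr (fun x : (P × (I → Fin m)) × ((I → Bool) × (I → Bool)) =>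
      ¬ Junta c' (restr f (R x.1.1 ∩ liveD x.1.2) ((R x.1.1).piecewise x.2.1 x.2.2))) := by
      rw [Pr_prod, Pr_prod]
      refine expect_congr rfl fun y _ => ?_
      exact (Pr_mix (R y.1) fun z => ¬ Junta c' (restr f (R y.1 ∩ liveD y.2) z)).symm
    rw [a1]
    have a2 := Pr_equiv
      (⟨fun x : (P × (I → Fin m)) × ((I → Bool) × (I → Bool)) =>
          ((x.1.1, x.2.2), (x.1.2, x.2.1)),
        fun x => ((x.1.1, x.2.1), (x.2.2, x.1.2)), fun x => rfl, fun x => rfl⟩ :
        (P × (I → Fin m)) × ((I → Bool) × (I → Bool)) ≃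
          (P × (I → Bool)) × ((I → Fin m) × (I → Bool)))
      (fun x : (P × (I → Bool)) × ((I → Fin m) × (I → Bool)) =>
        ¬ Junta c' (restr (restr f (R x.1.1) x.1.2) (liveD x.2.1) x.2.2))
    rw [← a2]
    refine Pr_congr fun x => ?_
    simp only [Equiv.coe_fn_mk]
    rw [restr_restr]
  rw [e1, Pr_prod]
  have e2 : ∀ g : (I → Bool) → Bool, Cert k g →
      Pr (fun y : (I → Fin m) × (I → Bool) => ¬ Junta c' (restr g (liveD y.1) y.2)) ≤ δ₂ := by
    intro g hg
    have a3 := Pr_equiv (Equiv.arrowProdEquivProdArrow I (fun _ => Fin m) (fun _ => Bool)).symm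
      (fun σ : I → Fin m × Bool => ¬ Junta c' (restr g (live σ) (val σ)))
    refine le_trans (le_of_eq ?_) (h2 g hg)
    rw [← a3]
    rfl
  classical
  calc 𝔼 x : P × (I → Bool), Pr (fun y : (I → Fin m) × (I → Bool) =>
        ¬ Junta c' (restr (restr f (R x.1) x.2) (liveD y.1) y.2)) ≤
      𝔼 x : P × (I → Bool), ((if ¬ Cert k (restr f (R x.1) x.2) then (1 : ℝ) else 0) + δ₂) := by
        refine expect_mono' fun x => ?_
        by_cases h : Cert k (restr f (R x.1) x.2)
        · rw [if_neg (not_not.2 h), zero_add]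
          exact e2 _ h
        · rw [if_pos h]
          exact (Pr_le_one _).trans (by linarith)
    _ = Pr (fun x : P × (I → Bool) => ¬ Cert k (restr f (R x.1) x.2)) + δ₂ := by
        rw [expect_add_distrib, Fintype.expect_const, Pr_eq]
    _ ≤ δ₁ + δ₂ := by linarith

omit [Fintype I] in
/-- disjunctions of juntas have small certificates -/
theorem cert_or {f : (I → Bool) → Bool} {M : ℕ} {t : Fin M → (I → Bool) → Bool} {c : ℕ}
    (hf : ∀ x, f x = true ↔ ∃ l, t l x = true) {R : Finset I} {z : I → Bool}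
    (ht : ∀ l, Junta c (restr (t l) R z)) : Cert c (restr f R z) := by
  intro x hx
  obtain ⟨l, hl⟩ := (hf _).1 hx
  obtain ⟨s, hs, hc⟩ := junta_cert (ht l) x hl
  exact ⟨s, hs, fun y hy => (hf _).2 ⟨l, hc y hy⟩⟩

end iter

/-- **The junta restriction lemma.** -/
theorem jr (c K j : ℕ) : ∀ (ε C : ℝ), 0 < ε → ∃ c' : ℕ, ∀ᶠ n : ℕ in atTop,
    ∀ m : ℕ, (n : ℝ) ^ ε ≤ m → ∀ (I : Type u) [Fintype I] [DecidableEq I]
      (f : (I → Bool) → Bool), Lev c (n ^ K) j f →
      Pr (fun x : Die I m j × (I → Bool) => ¬ Junta c' (restr f (RR j x.1) x.2)) ≤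
        (n : ℝ) ^ (-C) := by
  induction j with
  | zero =>
    intro ε C hε
    refine ⟨c, Eventually.of_forall fun n m hm I _ _ f hf => ?_⟩
    rw [Pr_eq_zero]
    · positivity
    · rintro ⟨ρ, z⟩ h
      apply h
      have e : restr f (RR 0 ρ) z = f := by
        funext x
        unfold restr
        show f ((univ : Finset I).piecewise x z) = f x
        rw [piecewise_univ]
      show Junta c (restr f (RR 0 ρ) z)
      rw [e]
      exact hf
  | succ j ih =>
    intro ε C hε
    obtain ⟨c₁, h₁⟩ := ih ε (C + 1 + K) hε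
    obtain ⟨c', h₂⟩ := dnf.{u} c₁ ε (C + 1) hε
    refine ⟨c', ?_⟩
    filter_upwards [h₁, h₂, eventually_ge_atTop 2,
      ((tendsto_rpow_atTop hε).comp tendsto_natCast_atTop_atTop).eventually_ge_atTop 1]
      with n h1 h2 hn2 h5 m hm I _ _ f hf
    have hn1 : (1 : ℝ) ≤ n := by exact_mod_cast (le_trans (by norm_num) hn2)
    have hn0 : (0 : ℝ) < n := by linarith
    have hn2' : (2 : ℝ) ≤ n := by exact_mod_cast hn2
    have hm0 : 0 < m := by
      have : (1 : ℝ) ≤ m := le_trans h5 hm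
      have : 1 ≤ m := by exact_mod_cast this
      omega
    obtain ⟨M, t, hM, ht, hor⟩ := hf
    have hne := Die.nonempty (I := I) hm0 j
    -- reduction to the disjunction case
    have key : ∀ (g : (I → Bool) → Bool) (t' : Fin M → (I → Bool) → Bool),
        (∀ l, Pr (fun x : Die I m j × (I → Bool) => ¬ Junta c₁ (restr (t' l) (RR j x.1) x.2)) ≤
          (n : ℝ) ^ (-(C + 1 + K))) → (∀ x, g x = true ↔ ∃ l, t' l x = true) →
        Pr (fun x : Die I m (j + 1) × (I → Bool) =>
          ¬ Junta c' (restr g (RR (j + 1) x.1) x.2)) ≤ (n : ℝ) ^ (-C) := by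
      intro g t' ht' hg
      have h6 : Pr (fun x : Die I m j × (I → Bool) => ¬ Cert c₁ (restr g (RR j x.1) x.2)) ≤
          (n : ℝ) ^ (-(C + 1)) := by
        calc Pr (fun x : Die I m j × (I → Bool) => ¬ Cert c₁ (restr g (RR j x.1) x.2)) ≤
            Pr (fun x : Die I m j × (I → Bool) => ∃ l ∈ (univ : Finset (Fin M)),
              ¬ Junta c₁ (restr (t' l) (RR j x.1) x.2)) := by
              refine Pr_mono fun x hx => ?_
              by_contra hcon
              push Not at hcon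
              exact hx (cert_or hg fun l => hcon l (mem_univ l))
          _ ≤ (univ : Finset (Fin M)).card * (n : ℝ) ^ (-(C + 1 + K)) :=
              Pr_exists_le_card _ _ fun l _ => ht' l
          _ ≤ (n : ℝ) ^ (K : ℝ) * (n : ℝ) ^ (-(C + 1 + K)) := by
              gcongr
              rw [card_univ, Fintype.card_fin, Real.rpow_natCast]
              exact_mod_cast hM
          _ = (n : ℝ) ^ (-(C + 1)) := by
              rw [← Real.rpow_add hn0]; congr 1; ring
      have h7 := level_step g (RR j) c₁ c' hm0 h6 (Real.rpow_nonneg hn0.le (-(C + 1)))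
        (fun g' hg' => h2 m hm I g' hg')
      calc Pr (fun x : Die I m (j + 1) × (I → Bool) =>
          ¬ Junta c' (restr g (RR (j + 1) x.1) x.2)) ≤
            (n : ℝ) ^ (-(C + 1)) + (n : ℝ) ^ (-(C + 1)) := h7
        _ = 2 * (n : ℝ) ^ (-(C + 1)) := by ring
        _ ≤ n * (n : ℝ) ^ (-(C + 1)) := by gcongr
        _ = (n : ℝ) ^ (-C) := by
            nth_rewrite 1 [← Real.rpow_one (n : ℝ)]
            rw [← Real.rpow_add hn0]; congr 1; ring
    rcases hor with hor | hand
    · exact key f t (fun l => h1 m hm I (t l) (ht l)) hor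
    · have h8 := key (fun x => !f x) (fun l x => !t l x) (fun l => ?_) ?_
      · refine le_trans (Pr_mono fun x (hx : ¬ _) => ?_) h8
        intro hJ
        apply hx
        have h9 := junta_not hJ
        have e : (fun y => !restr (fun x => !f x) (RR (j + 1) x.1) x.2 y) =
            restr f (RR (j + 1) x.1) x.2 := by
          funext y
          simp [restr]
        rw [e] at h9
        exact h9
      · refine le_trans (Pr_mono fun x (hx : ¬ _) => ?_) (h1 m hm I (t l) (ht l))
        intro hJ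
        apply hx
        exact junta_not hJ
      · intro x
        have h9 := hand x
        constructor
        · intro h
          by_contra hcon
          push Not at hcon
          have : f x = true := h9.2 fun l => by
            have := hcon l
            simpa using this
          rw [this] at h
          exact absurd h (by simp)
        · rintro ⟨l, hl⟩
          by_contra hcon
          have h10 : f x = true := by simpa using hcon
          have h11 := h9.1 h10 l
          rw [h11] at hl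
          exact absurd hl (by simp)

end ZOL73
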