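import Mathlib

/-!
# Finite probability: averages over finite types

`Pr p` is the proportion of the elements of a finite type which satisfy `p`; `𝔼` is
`Finset.expect`.
-/

set_option autoImplicit false

open Finset
open scoped BigOperators

namespace ZOL73

section basic
variable {α β : Type*} [Fintype α] [Fintype β]

open Classical in
/-- the proportion of the elements which satisfy `p` -/
noncomputable def Pr (p : α → Prop) : ℝ := 𝔼 x, if p x then (1 : ℝ) else 0

theorem Pr_eq (p : α → Prop) [DecidablePred p] : Pr p = 𝔼 x, if p x then (1 : ℝ) else 0 := by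
  unfold Pr
  refine expect_congr rfl fun x _ => ?_
  by_cases h : p x <;> simp [h]

theorem Pr_nonneg (p : α → Prop) : 0 ≤ Pr p :=
  expect_nonneg fun _ _ => by split_ifs <;> norm_num

theorem expect_mono' {f g : α → ℝ} (h : ∀ x, f x ≤ g x) : 𝔼 x, f x ≤ 𝔼 x, g x :=
  expect_le_expect fun x _ => h x

theorem expect_le_const [Nonempty α] {f : α → ℝ} {a : ℝ} (h : ∀ x, f x ≤ a) : 𝔼 x, f x ≤ a :=
  expect_le univ_nonempty fun x _ => h x

theorem expect_le_const' {f : α → ℝ} {a : ℝ} (ha : 0 ≤ a) (h : ∀ x, f x ≤ a) : 𝔼 x, f x ≤ a := by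
  rcases isEmpty_or_nonempty α with h0 | h0
  · simpa [Fintype.expect_eq_sum_div_card] using ha
  · exact expect_le_const h

theorem Pr_le_one (p : α → Prop) : Pr p ≤ 1 :=
  expect_le_const' zero_le_one fun _ => by split_ifs <;> norm_num

theorem Pr_mono {p q : α → Prop} (h : ∀ x, p x → q x) : Pr p ≤ Pr q := by
  classical
  refine expect_mono' fun x => ?_
  by_cases hp : p x
  · rw [if_pos hp, if_pos (h x hp)]
  · rw [if_neg hp]; split_ifs <;> norm_num

theorem Pr_congr {p q : α → Prop} (h : ∀ x, p x ↔ q x) : Pr p = Pr q :=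
  le_antisymm (Pr_mono fun x => (h x).1) (Pr_mono fun x => (h x).2)

theorem Pr_false : Pr (fun _ : α => False) = 0 := by
  simp [Pr]

theorem Pr_eq_zero {p : α → Prop} (h : ∀ x, ¬ p x) : Pr p = 0 := by
  rw [Pr_congr (q := fun _ => False) (fun x => ⟨fun hx => h x hx, False.elim⟩), Pr_false]

theorem Pr_or_le (p q : α → Prop) : Pr (fun x => p x ∨ q x) ≤ Pr p + Pr q := by
  classical
  unfold Pr
  rw [← expect_add_distrib]
  refine expect_mono' fun x => ?_
  by_cases hp : p x <;> by_cases hq : q x <;> simp [hp, hq]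

theorem Pr_exists_le {ι : Type*} (s : Finset ι) (p : ι → α → Prop) :
    Pr (fun x => ∃ i ∈ s, p i x) ≤ ∑ i ∈ s, Pr (p i) := by
  classical
  unfold Pr
  rw [← expect_sum_comm]
  refine expect_mono' fun x => ?_
  by_cases hx : ∃ i ∈ s, p i x
  · rw [if_pos hx]
    obtain ⟨i, hi, hpi⟩ := hx
    calc (1 : ℝ) = if p i x then 1 else 0 := by rw [if_pos hpi]
      _ ≤ ∑ i ∈ s, if p i x then (1 : ℝ) else 0 :=
        single_le_sum (f := fun i => if p i x then (1 : ℝ) else 0)
          (fun j _ => by split_ifs <;> norm_num) hi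
  · rw [if_neg hx]
    exact sum_nonneg fun j _ => by split_ifs <;> norm_num

theorem Pr_exists_le_card {ι : Type*} (s : Finset ι) (p : ι → α → Prop) {a : ℝ}
    (h : ∀ i ∈ s, Pr (p i) ≤ a) : Pr (fun x => ∃ i ∈ s, p i x) ≤ s.card * a := by
  refine (Pr_exists_le s p).trans ?_
  rw [← nsmul_eq_mul]
  exact sum_le_card_nsmul s _ a h

theorem Pr_equiv (e : α ≃ β) (p : β → Prop) : Pr (fun x => p (e x)) = Pr p := by
  classical
  unfold Pr
  exact Fintype.expect_equiv e _ _ fun x => rfl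

theorem expect_prod (f : α × β → ℝ) : 𝔼 x, f x = 𝔼 a, 𝔼 b, f (a, b) := by
  rw [← univ_product_univ, expect_product]

theorem Pr_prod (p : α × β → Prop) : Pr p = 𝔼 a, Pr fun b => p (a, b) := by
  classical
  unfold Pr
  rw [expect_prod]

theorem Pr_prod' (p : α × β → Prop) : Pr p = 𝔼 b, Pr fun a => p (a, b) := by
  classical
  rw [Pr_prod]
  unfold Pr
  rw [expect_comm]

theorem Pr_fst [Nonempty β] (p : α → Prop) : Pr (fun x : α × β => p x.1) = Pr p := by
  classical
  rw [Pr_prod]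
  unfold Pr
  refine expect_congr rfl fun a _ => ?_
  by_cases h : p a <;> simp [h]

theorem Pr_snd [Nonempty α] (p : β → Prop) : Pr (fun x : α × β => p x.2) = Pr p := by
  classical
  rw [Pr_prod']
  unfold Pr
  refine expect_congr rfl fun a _ => ?_
  by_cases h : p a <;> simp [h]

/-- Markov's inequality. -/
theorem Pr_markov {f : α → ℝ} (hf : ∀ x, 0 ≤ f x) {a : ℝ} (ha : 0 < a) :
    Pr (fun x => a ≤ f x) ≤ (𝔼 x, f x) / a := by
  classical
  rw [le_div_iff₀ ha]
  unfold Pr
  rw [expect_mul]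
  refine expect_mono' fun x => ?_
  by_cases h : a ≤ f x
  · rw [if_pos h, one_mul]; exact h
  · rw [if_neg h, zero_mul]; exact hf x

end basic

/-! ### Independence -/

section indep
variable {I Ω : Type*} [Fintype I] [DecidableEq I] [Fintype Ω]

/-- The swapping involution. -/
def swapOn (A : Finset I) : ((I → Ω) × (I → Ω)) ≃ ((I → Ω) × (I → Ω)) where
  toFun x := (A.piecewise x.1 x.2, A.piecewise x.2 x.1)
  invFun x := (A.piecewise x.1 x.2, A.piecewise x.2 x.1)
  left_inv x := by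
    ext i <;> by_cases h : i ∈ A <;> simp [h]
  right_inv x := by
    ext i <;> by_cases h : i ∈ A <;> simp [h]

/-- mixing two independent uniform points gives a uniform point -/
theorem expect_mix (A : Finset I) (H : (I → Ω) → ℝ) :
    𝔼 σ, 𝔼 τ, H (A.piecewise σ τ) = 𝔼 σ, H σ := by
  rcases isEmpty_or_nonempty (I → Ω) with h0 | h0
  · simp
  have h1 : 𝔼 x : (I → Ω) × (I → Ω), H (A.piecewise x.1 x.2) = 𝔼 x : (I → Ω) × (I → Ω), H x.1 :=
    Fintype.expect_equiv (swapOn A) _ _ fun x => rfl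
  rw [expect_prod, expect_prod] at h1
  rw [h1]
  refine expect_congr rfl fun σ _ => ?_
  simp

theorem Pr_mix (A : Finset I) (p : (I → Ω) → Prop) :
    Pr (fun x : (I → Ω) × (I → Ω) => p (A.piecewise x.1 x.2)) = Pr p := by
  classical
  unfold Pr
  rw [expect_prod]
  exact expect_mix A (fun σ => if p σ then (1 : ℝ) else 0)

/-- independence -/
theorem expect_mul_of_indep (A : Finset I) (F G : (I → Ω) → ℝ)
    (hF : ∀ σ τ, (∀ i ∈ A, σ i = τ i) → F σ = F τ)
    (hG : ∀ σ τ, (∀ i ∉ A, σ i = τ i) → G σ = G τ) :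
    𝔼 σ, F σ * G σ = (𝔼 σ, F σ) * (𝔼 σ, G σ) := by
  have h1 : 𝔼 σ, 𝔼 τ, (F (A.piecewise σ τ) * G (A.piecewise σ τ)) = 𝔼 σ, F σ * G σ :=
    expect_mix A (fun σ => F σ * G σ)
  have h2 : 𝔼 σ, 𝔼 τ, (F (A.piecewise σ τ) * G (A.piecewise σ τ)) = 𝔼 σ, 𝔼 τ, F σ * G τ := by
    refine expect_congr rfl fun σ _ => expect_congr rfl fun τ _ => ?_
    have e1 : F (A.piecewise σ τ) = F σ := hF _ _ fun i hi => by simp [hi]
    have e2 : G (A.piecewise σ τ) = G τ := hG _ _ fun i hi => by simp [hi]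
    rw [e1, e2]
  have h3 : (𝔼 σ, F σ) * (𝔼 σ, G σ) = 𝔼 σ, 𝔼 τ, F σ * G τ :=
    Finset.expect_mul_expect univ univ F G
  rw [h3, ← h2, h1]

theorem Pr_and_of_indep (A : Finset I) (p q : (I → Ω) → Prop)
    (hp : ∀ σ τ, (∀ i ∈ A, σ i = τ i) → (p σ ↔ p τ))
    (hq : ∀ σ τ, (∀ i ∉ A, σ i = τ i) → (q σ ↔ q τ)) :
    Pr (fun σ => p σ ∧ q σ) = Pr p * Pr q := by
  classical
  unfold Pr
  rw [← expect_mul_of_indep A]
  · refine expect_congr rfl fun σ _ => ?_
    by_cases h1 : p σ <;> by_cases h2 : q σ <;> simp [h1, h2]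
  · intro σ τ h
    simp only [hp σ τ h]
  · intro σ τ h
    simp only [hq σ τ h]

/-- the probability that all coordinates in `A` are in `W` -/
theorem Pr_forall_mem [Nonempty Ω] (A : Finset I) (W : I → Ω → Prop) :
    Pr (fun σ : I → Ω => ∀ i ∈ A, W i (σ i)) = ∏ i ∈ A, Pr (W i) := by
  classical
  induction A using Finset.induction_on with
  | empty =>
    rw [Finset.prod_empty, Pr_congr (q := fun _ => True) (fun x => by simp)]
    simp [Pr]
  | insert a A ha ih =>
    rw [Finset.prod_insert ha, ← ih]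
    rw [Pr_congr (q := fun σ : I → Ω => W a (σ a) ∧ ∀ i ∈ A, W i (σ i)) (fun σ => by
      simp)]
    rw [Pr_and_of_indep {a}]
    · congr 1
      -- marginal of one coordinate
      have e := Pr_equiv (Equiv.funSplitAt a Ω) (fun x : Ω × ({j // j ≠ a} → Ω) => W a x.1)
      rw [Pr_fst] at e
      rw [← e]
      rfl
    · intro σ τ h
      rw [h a (by simp)]
    · intro σ τ h
      refine forall₂_congr fun i hi => ?_
      rw [h i (by
        rw [Finset.mem_singleton]
        rintro rfl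
        exact ha hi)]

end indep

end ZOL73
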